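import Pool.Agent.T2H54.TP.Stm
import Pool.Agent.TH757.GS.CONT

/-!
Package CTR of the project TP: the smoothed sum of the reduced coefficients by a contour shift
(port of `Pool.Agent.TH757.GS.CONT`).
-/

set_option autoImplicit false

namespace Pool.Agent.T2H54.TP

open Complex Filter Topology MeasureTheory Set
open Pool.Agent.TH612.CF Pool.Agent.TH612.GS Pool.Agent.T2H54.SB
open Pool.Agent.TH757.GS
open Pool.Agent.W182.KO hiding ee SS_summable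

noncomputable section

namespace PkgCTR

/-- the finite Dirichlet series -/
def EA (M : ℕ) (A : ℕ → ℂ) (s : ℂ) : ℂ := ∑ n ∈ Finset.Icc 1 M, A n * (n : ℂ) ^ (-s)

/-- the smoothed sum -/
def SA (ψ : ℝ → ℝ) (M : ℕ) (A : ℕ → ℂ) : ℂ :=
  ∑ m ∈ Finset.Icc 1 M, A m * (ψ (Real.log m / (Real.log M / 2)) : ℂ)

lemma dr_le' (k : ℕ) : ∃ D : ℝ, 0 ≤ D ∧ ∀ (γ : Fin k ⊕ Fin k → ℝ) (n : ℕ), 1 ≤ n →
    ‖dr γ n‖ ≤ D * (n : ℝ) ^ (-(63 / 64) : ℝ) := by
  obtain ⟨D, hD0, hD⟩ := dg_le k (δ := 1 / 64) (by norm_num)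
  refine ⟨D, hD0, fun γ n hn => ?_⟩
  have hn0 : (0 : ℝ) < n := by exact_mod_cast hn
  have h1 := hD (as γ ((1 / 32 : ℝ) : ℂ)) (bs γ ((1 / 32 : ℝ) : ℂ)) (fun j => by
    rw [as_im, bs_im, Complex.ofReal_re]
    constructor <;> norm_num) n
  rw [dg_as γ _ n (by omega), norm_mul, Complex.norm_natCast_cpow_of_pos hn, Complex.neg_re,
    Complex.ofReal_re] at h1
  have h2 : ‖dr γ n‖ = ‖dr γ n‖ * (n : ℝ) ^ (-(1 / 32) : ℝ) * (n : ℝ) ^ (1 / 32 : ℝ) := by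
    rw [mul_assoc, ← Real.rpow_add hn0]
    norm_num
  rw [h2]
  have e : (n : ℝ) ^ (-(63 / 64) : ℝ) = (n : ℝ) ^ (-(1 + 1 / 64) : ℝ) * (n : ℝ) ^ (1 / 32 : ℝ) := by
    rw [← Real.rpow_add hn0]
    norm_num
  rw [e, ← mul_assoc]
  exact mul_le_mul_of_nonneg_right h1 (by positivity)

/-- the Möbius factor -/
def fm (a b : ℝ) (g : ℕ) : ℂ :=
  (ArithmeticFunction.moebius g : ℂ) * (g : ℂ) ^ (-(1 + I * ((a : ℂ) - b)))

lemma moebius_norm (g : ℕ) : ‖(ArithmeticFunction.moebius g : ℂ)‖ ≤ 1 := by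
  have h := ArithmeticFunction.abs_moebius_le_one (n := g)
  have h2 : ‖((ArithmeticFunction.moebius g : ℤ) : ℂ)‖ = |((ArithmeticFunction.moebius g : ℤ) : ℝ)| := by
    rw [Complex.norm_intCast]
  rw [h2]
  exact_mod_cast h

lemma fm_le (a b : ℝ) {g : ℕ} (hg : 1 ≤ g) : ‖fm a b g‖ ≤ (g : ℝ) ^ (-1 : ℝ) := by
  unfold fm
  rw [norm_mul, Complex.norm_natCast_cpow_of_pos hg]
  have e : (-(1 + I * ((a : ℂ) - b))).re = -1 := by simp
  rw [e]
  exact mul_le_of_le_one_left (by positivity) (moebius_norm g)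

variable {n : ℕ}

lemma Ar_eq (a b : ℝ) (θ : Fin n ⊕ Fin n → ℝ) (m : ℕ) :
    Ar a b θ m = ∑ p ∈ m.divisorsAntidiagonal, fm a b p.1 * dr (gc a b θ) p.2 := rfl

lemma Ar_zero (a b : ℝ) (θ : Fin n ⊕ Fin n → ℝ) : Ar a b θ 0 = 0 := by
  rw [Ar_eq]
  simp

lemma Ar_le (n : ℕ) : ∃ D : ℝ, 0 ≤ D ∧ ∀ (a b : ℝ) (θ : Fin n ⊕ Fin n → ℝ) (m : ℕ), 1 ≤ m →
    ‖Ar a b θ m‖ ≤ D * (m : ℝ) ^ (-(31 / 32) : ℝ) := by
  obtain ⟨D, hD0, hD⟩ := dr_le' (n + 1)
  obtain ⟨C, hC0, hC⟩ := Pool.Agent.H510R2.divisor_bound (1 / 64) (by norm_num)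
  refine ⟨C * D, by positivity, fun a b θ m hm => ?_⟩
  have hm0 : (0 : ℝ) < m := by exact_mod_cast hm
  rw [Ar_eq]
  refine (norm_sum_le_of_le _ (n := fun _ => D * (m : ℝ) ^ (-(63 / 64) : ℝ)) fun p hp => ?_).trans ?_
  · have hp' := Nat.mem_divisorsAntidiagonal.1 hp
    have hp1 : 1 ≤ p.1 := Nat.one_le_iff_ne_zero.2 fun h => hp'.2 (by rw [← hp'.1, h, zero_mul])
    have hp2 : 1 ≤ p.2 := Nat.one_le_iff_ne_zero.2 fun h => hp'.2 (by rw [← hp'.1, h, mul_zero])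
    have h1 := fm_le a b hp1
    have h2 := hD (gc a b θ) p.2 hp2
    have h3 : (p.1 : ℝ) ^ (-1 : ℝ) ≤ (p.1 : ℝ) ^ (-(63 / 64) : ℝ) :=
      Real.rpow_le_rpow_of_exponent_le (by exact_mod_cast hp1) (by norm_num)
    have h4 : (m : ℝ) ^ (-(63 / 64) : ℝ) =
        (p.1 : ℝ) ^ (-(63 / 64) : ℝ) * (p.2 : ℝ) ^ (-(63 / 64) : ℝ) := by
      rw [← Real.mul_rpow (by positivity) (by positivity), ← hp'.1]
      push_cast
      rfl
    rw [norm_mul, h4]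
    calc ‖fm a b p.1‖ * ‖dr (gc a b θ) p.2‖ ≤
        (p.1 : ℝ) ^ (-(63 / 64) : ℝ) * (D * (p.2 : ℝ) ^ (-(63 / 64) : ℝ)) := by
          have := h1.trans h3
          gcongr
      _ = _ := by ring
  · rw [Finset.sum_const, nsmul_eq_mul]
    have h5 : ((m.divisorsAntidiagonal).card : ℝ) ≤ C * (m : ℝ) ^ (1 / 64 : ℝ) := by
      have h6 : (m.divisorsAntidiagonal).card = m.divisors.card := by
        rw [← Nat.map_div_right_divisors, Finset.card_map]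
      rw [h6]
      exact hC m hm
    have h7 : (m : ℝ) ^ (-(31 / 32) : ℝ) = (m : ℝ) ^ (1 / 64 : ℝ) * (m : ℝ) ^ (-(63 / 64) : ℝ) := by
      rw [← Real.rpow_add hm0]
      norm_num
    calc _ ≤ (C * (m : ℝ) ^ (1 / 64 : ℝ)) * (D * (m : ℝ) ^ (-(63 / 64) : ℝ)) := by gcongr
      _ = _ := by rw [h7]; ring

/-! ### the series -/

lemma LS_eq (A : ℕ → ℂ) (h0 : A 0 = 0) (s : ℂ) : LSeries A s = ∑' m : ℕ, A m * (m : ℂ) ^ (-s) := by
  unfold LSeries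
  refine tsum_congr fun m => ?_
  rcases Nat.eq_zero_or_pos m with rfl | hm
  · simp [h0]
  · rw [LSeries.term_of_ne_zero (by omega), Complex.cpow_neg, div_eq_mul_inv]

lemma sm_fm (a b : ℝ) {s : ℂ} (hs : s.re = 1 / 4) : LSeriesSummable (fm a b) s := by
  refine LSeriesSummable_of_le_const_mul_rpow (x := 0) (by rw [hs]; norm_num) ⟨1, fun g hg => ?_⟩
  rw [one_mul, zero_sub]
  exact fm_le a b (by omega)

lemma sm_dr (γ : Fin (n + 1) ⊕ Fin (n + 1) → ℝ) {s : ℂ} (hs : s.re = 1 / 4) :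
    LSeriesSummable (dr γ) s := by
  obtain ⟨D, hD0, hD⟩ := dr_le' (n + 1)
  refine LSeriesSummable_of_le_const_mul_rpow (x := 1 / 64) (by rw [hs]; norm_num)
    ⟨D, fun m hm => ?_⟩
  have e : (1 / 64 - 1 : ℝ) = -(63 / 64) := by norm_num
  rw [e]
  exact hD γ m (by omega)

lemma LS_fm (a b : ℝ) {s : ℂ} (hs : s.re = 1 / 4) :
    LSeries (fm a b) s * riemannZeta (1 + s + I * ((a : ℂ) - b)) = 1 := by
  have hre : 1 < (1 + s + I * ((a : ℂ) - b)).re := by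
    have e : (1 + s + I * ((a : ℂ) - b)).re = 1 + s.re := by simp
    rw [e, hs]
    norm_num
  have h1 := ArithmeticFunction.LSeries_zeta_mul_Lseries_moebius hre
  rw [ArithmeticFunction.LSeries_zeta_eq_riemannZeta hre] at h1
  have h2 : LSeries (fm a b) s =
      LSeries (fun n => ((ArithmeticFunction.moebius n : ℤ) : ℂ)) (1 + s + I * ((a : ℂ) - b)) := by
    unfold LSeries
    refine tsum_congr fun m => ?_
    rcases Nat.eq_zero_or_pos m with rfl | hm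
    · simp
    · have hm' : (m : ℂ) ≠ 0 := by exact_mod_cast (by omega : m ≠ 0)
      rw [LSeries.term_of_ne_zero (by omega), LSeries.term_of_ne_zero (by omega)]
      unfold fm
      rw [div_eq_mul_inv, div_eq_mul_inv, ← Complex.cpow_neg, ← Complex.cpow_neg, mul_assoc,
        ← Complex.cpow_add _ _ hm']
      congr 2
      ring
  rw [h2, mul_comm]
  exact h1

lemma Ar_series (a b : ℝ) (θ : Fin n ⊕ Fin n → ℝ) {s : ℂ} (hs : s.re = 1 / 4) :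
    ∑' m : ℕ, Ar a b θ m * (m : ℂ) ^ (-s) =
      FH (as (gc a b θ) s) (bs (gc a b θ) s) * ∏ p ∈ PQ n,
        riemannZeta (1 + s + I * ((gc a b θ (Sum.inl p.1) : ℂ) - (gc a b θ (Sum.inr p.2) : ℂ))) := by
  set γ := gc a b θ with hγ
  have hdr0 : dr γ 0 = 0 := by
    unfold dr
    exact dg_zero _ _
  have h1 := LSeries_convolution' (sm_fm a b hs) (sm_dr γ hs)
  have h2 : LSeries.convolution (fm a b) (dr γ) = Ar a b θ := by
    funext m
    rw [LSeries.convolution_def, Ar_eq]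
  rw [h2, LS_eq _ (Ar_zero a b θ)] at h1
  rw [h1, LS_eq _ hdr0]
  have hT : Tb (1 / 8) (as γ s) (bs γ s) := Tb_as γ (by rw [hs]; norm_num)
  have h3 := zh_eq (a := as γ s) (b := bs γ s) (c := 1 / 8) (δ := 1 / 8) (by norm_num) hT
    (by norm_num) (fun j => by
      rw [as_im, bs_im, hs]
      constructor <;> norm_num)
  have h4 : ∑' m, dg (as γ s) (bs γ s) m = ∑' m : ℕ, dr γ m * (m : ℂ) ^ (-s) := by
    refine tsum_congr fun m => ?_
    rcases Nat.eq_zero_or_pos m with rfl | hm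
    · rw [dg_zero, hdr0, zero_mul]
    · exact dg_as γ s m (by omega)
  have e2 : ∀ j l, 1 + I * as γ s j - I * bs γ s l =
      1 + s + I * ((γ (Sum.inl j) : ℂ) - (γ (Sum.inr l) : ℂ)) := by
    intro j l
    unfold as bs
    linear_combination (-s) * I_mul_I
  rw [h4] at h3
  simp only [e2] at h3
  rw [← h3]
  have h5 : (∏ j, ∏ l, riemannZeta (1 + s + I * ((γ (Sum.inl j) : ℂ) - (γ (Sum.inr l) : ℂ)))) =
      riemannZeta (1 + s + I * ((a : ℂ) - b)) * ∏ p ∈ PQ n,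
        riemannZeta (1 + s + I * ((γ (Sum.inl p.1) : ℂ) - (γ (Sum.inr p.2) : ℂ))) := by
    have h6 := Fintype.prod_prod_type (fun x : Fin (n + 1) × Fin (n + 1) =>
      riemannZeta (1 + s + I * ((γ (Sum.inl x.1) : ℂ) - (γ (Sum.inr x.2) : ℂ))))
    rw [← h6, ← Finset.mul_prod_erase Finset.univ _
      (Finset.mem_univ ((0, 0) : Fin (n + 1) × Fin (n + 1)))]
    have h7 : Finset.univ.erase ((0, 0) : Fin (n + 1) × Fin (n + 1)) = PQ n := by
      unfold PQ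
      ext x
      simp
    rw [h7]
    rfl
  rw [h5]
  have h8 := LS_fm a b hs
  linear_combination (FH (as γ s) (bs γ s) * ∏ p ∈ PQ n,
        riemannZeta (1 + s + I * ((γ (Sum.inl p.1) : ℂ) - (γ (Sum.inr p.2) : ℂ)))) * h8

lemma EA_GMr (n : ℕ) : ∃ K : ℝ, 0 ≤ K ∧ ∀ (a b : ℝ) (θ : Fin n ⊕ Fin n → ℝ) (M : ℕ) (s : ℂ),
    1 ≤ M → s.re = 1 / 4 →
    ‖EA M (Ar a b θ) s - GMr M a b θ s‖ ≤ K * (M : ℝ) ^ (-(3 / 16) : ℝ) := by
  obtain ⟨D, hD0, hD⟩ := Ar_le n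
  have hZ1 : (1 : ℝ) ≤ max 1 Z0 := le_max_left _ _
  have hBF : 0 ≤ BF (n + 1) (1 / 8) := (Real.exp_pos _).le
  refine ⟨D * Z0 + BF (n + 1) (1 / 8) * ((PQ n).card * (max 1 Z0) ^ (PQ n).card * Z0),
    by have := Z0_nonneg; positivity, fun a b θ M s hM hs => ?_⟩
  have hM0 : (0 : ℝ) < M := by exact_mod_cast hM
  set γ := gc a b θ with hγ
  have hT : Tb (1 / 8) (as γ s) (bs γ s) := Tb_as γ (by rw [hs]; norm_num)
  have hf : ∀ m : ℕ, 1 ≤ m → ‖Ar a b θ m * (m : ℂ) ^ (-s)‖ ≤ D * (m : ℝ) ^ (-(39 / 32) : ℝ) := by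
    intro m hm
    have hm0 : (0 : ℝ) < m := by exact_mod_cast hm
    rw [norm_mul, Complex.norm_natCast_cpow_of_pos hm, Complex.neg_re, hs]
    have e : (m : ℝ) ^ (-(39 / 32) : ℝ) = (m : ℝ) ^ (-(31 / 32) : ℝ) * (m : ℝ) ^ (-(1 / 4) : ℝ) := by
      rw [← Real.rpow_add hm0]
      norm_num
    rw [e, ← mul_assoc]
    exact mul_le_mul_of_nonneg_right (hD a b θ m hm) (by positivity)
  obtain ⟨_, _, _, h2⟩ := tl hD0 (by rw [Ar_zero, zero_mul]) hf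
  have h3 := h2 M hM
  rw [Ar_series a b θ hs] at h3
  have e1 : ∑ m ∈ Finset.Icc 1 M, Ar a b θ m * (m : ℂ) ^ (-s) = EA M (Ar a b θ) s := rfl
  rw [e1, ← hγ] at h3
  have hre : ∀ j l, (1 + s + I * ((γ (Sum.inl j) : ℂ) - (γ (Sum.inr l) : ℂ))).re = 5 / 4 := by
    intro j l
    have e : (1 + s + I * ((γ (Sum.inl j) : ℂ) - (γ (Sum.inr l) : ℂ))).re = 1 + s.re := by simp
    rw [e, hs]
    norm_num
  have h4 := prod_sub_le (PQ n)
    (fun x => riemannZeta (1 + s + I * ((γ (Sum.inl x.1) : ℂ) - (γ (Sum.inr x.2) : ℂ))))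
    (fun x => zN M (1 + s + I * ((γ (Sum.inl x.1) : ℂ) - (γ (Sum.inr x.2) : ℂ))))
    (Z := max 1 Z0) (e := Z0 * (M : ℝ) ^ (-(3 / 16) : ℝ)) hZ1
    (by have := Z0_nonneg; positivity)
    (fun x _ => (zt (hre x.1 x.2)).1.trans (le_max_right _ _))
    (fun x _ => ((zt (hre x.1 x.2)).2.1 M).trans (le_max_right _ _))
    (fun x _ => (zt (hre x.1 x.2)).2.2 M hM)
  have e3 : GMr M a b θ s = FH (as γ s) (bs γ s) *
      ∏ p ∈ PQ n, zN M (1 + s + I * ((γ (Sum.inl p.1) : ℂ) - (γ (Sum.inr p.2) : ℂ))) := rfl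
  rw [e3]
  set F := FH (as γ s) (bs γ s) with hF
  set A := ∏ p ∈ PQ n,
    riemannZeta (1 + s + I * ((γ (Sum.inl p.1) : ℂ) - (γ (Sum.inr p.2) : ℂ)))
  set B := ∏ p ∈ PQ n, zN M (1 + s + I * ((γ (Sum.inl p.1) : ℂ) - (γ (Sum.inr p.2) : ℂ)))
  have h5 : ‖F‖ ≤ BF (n + 1) (1 / 8) := FH_le (by norm_num) hT
  have h6 : ‖F * (A - B)‖ ≤ BF (n + 1) (1 / 8) *
      (((PQ n).card : ℝ) * (max 1 Z0) ^ (PQ n).card * (Z0 * (M : ℝ) ^ (-(3 / 16) : ℝ))) := by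
    rw [norm_mul]
    gcongr
  have e4 : EA M (Ar a b θ) s - F * B = F * (A - B) - (F * A - EA M (Ar a b θ) s) := by ring
  rw [e4]
  refine (norm_sub_le _ _).trans ?_
  calc _ ≤ BF (n + 1) (1 / 8) *
      (((PQ n).card : ℝ) * (max 1 Z0) ^ (PQ n).card * (Z0 * (M : ℝ) ^ (-(3 / 16) : ℝ))) +
      D * Z0 * (M : ℝ) ^ (-(3 / 16) : ℝ) := add_le_add h6 h3
    _ = _ := by ring

/-! ### analytic properties -/

lemma GMr_diff (M : ℕ) (a b : ℝ) (θ : Fin n ⊕ Fin n → ℝ) :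
    DifferentiableOn ℂ (GMr M a b θ) {s : ℂ | |s.re| < 3 / 8} := by
  have hU : IsOpen {s : ℂ | |s.re| < 3 / 8} :=
    isOpen_lt (continuous_abs.comp Complex.continuous_re) continuous_const
  have h1 := FH_diff (a := fun s => as (gc a b θ) s) (b := fun s => bs (gc a b θ) s)
    (c := 3 / 16) hU (by norm_num)
    (fun j => by unfold as; fun_prop) (fun j => by unfold bs; fun_prop)
    (fun s hs => Tb_as (gc a b θ) (by
      have hs' : |s.re| < 3 / 8 := hs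
      linarith))
  have h2 : DifferentiableOn ℂ (fun s : ℂ => ∏ p ∈ PQ n,
      zN M (1 + s + I * ((gc a b θ (Sum.inl p.1) : ℂ) - (gc a b θ (Sum.inr p.2) : ℂ))))
      {s : ℂ | |s.re| < 3 / 8} := by
    intro s hs
    refine DifferentiableWithinAt.fun_finsetProd fun p _ => ?_
    exact ((zN_diff M).comp (by fun_prop : Differentiable ℂ fun s : ℂ =>
      1 + s + I * ((gc a b θ (Sum.inl p.1) : ℂ) - (gc a b θ (Sum.inr p.2) : ℂ)))).differentiableAt.differentiableWithinAt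
  exact h1.mul h2

lemma GMr_bd (M : ℕ) (a b : ℝ) (θ : Fin n ⊕ Fin n → ℝ) {s : ℂ} (hs : |s.re| ≤ 1 / 4) :
    ‖GMr M a b θ s‖ ≤ BF (n + 1) (1 / 8) * (M : ℝ) ^ (PQ n).card := by
  have hT : Tb (1 / 8) (as (gc a b θ) s) (bs (gc a b θ) s) := Tb_as (gc a b θ) (by linarith)
  have e3 : GMr M a b θ s = FH (as (gc a b θ) s) (bs (gc a b θ) s) *
      ∏ p ∈ PQ n,
        zN M (1 + s + I * ((gc a b θ (Sum.inl p.1) : ℂ) - (gc a b θ (Sum.inr p.2) : ℂ))) := rfl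
  rw [e3, norm_mul]
  have h1 := FH_le (by norm_num) hT
  have h2 : ‖∏ p ∈ PQ n,
      zN M (1 + s + I * ((gc a b θ (Sum.inl p.1) : ℂ) - (gc a b θ (Sum.inr p.2) : ℂ)))‖ ≤
      (M : ℝ) ^ (PQ n).card := by
    rw [norm_prod]
    refine (Finset.prod_le_prod (fun _ _ => norm_nonneg _) (g := fun _ => (M : ℝ))
      (fun x _ => zN_le M ?_)).trans ?_
    · have e : (1 + s + I * ((gc a b θ (Sum.inl x.1) : ℂ) - (gc a b θ (Sum.inr x.2) : ℂ))).re =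
          1 + s.re := by simp
      rw [e]
      have := (abs_le.1 hs).1
      linarith
    · rw [Finset.prod_const]
  have hBF : 0 ≤ BF (n + 1) (1 / 8) := (Real.exp_pos _).le
  gcongr

/-! ### the sum as an integral -/

lemma SA_int {ψ : ℝ → ℝ} (h : CutR ψ) (M : ℕ) (A : ℕ → ℂ) {L : ℝ} (hL : 4 ≤ L)
    (hLM : L = Real.log M / 2) :
    2 * Real.pi * SA ψ M A = ∫ y : ℝ, Qk ψ (((L / 4 : ℝ) : ℂ) + y * I) *
      EA M A ((((L / 4 : ℝ) : ℂ) + y * I) / (L : ℂ)) := by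
  unfold SA EA
  rw [← hLM, Finset.mul_sum]
  simp only [Finset.mul_sum]
  rw [integral_finsetSum]
  · refine Finset.sum_congr rfl fun n hn => ?_
    have hn1 := (Finset.mem_Icc.1 hn).1
    have h1 := one_term h hL hn1
    have h2 : (fun y : ℝ => Qk ψ (((L / 4 : ℝ) : ℂ) + y * I) *
        (A n * (n : ℂ) ^ (-((((L / 4 : ℝ) : ℂ) + y * I) / (L : ℂ))))) = fun y : ℝ =>
        A n * (Qk ψ (((L / 4 : ℝ) : ℂ) + y * I) *
          (n : ℂ) ^ (-((((L / 4 : ℝ) : ℂ) + y * I) / (L : ℂ)))) := by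
      funext y
      ring
    rw [h2, integral_const_mul, h1]
    ring
  · intro n hn
    have hn1 := (Finset.mem_Icc.1 hn).1
    have h1 := (int_Qk h (c := L / 4) (by linarith) (cp_cont (L := L) hn1) (cp_norm hL hn1)).1
    refine (h1.const_mul (A n)).congr (Eventually.of_forall fun y => ?_)
    simp only
    ring

theorem cont_abs (ψ : ℝ → ℝ) (hψ : Cut ψ) (K : ℝ) (hK0 : 0 ≤ K) : ∃ (C : ℝ) (M₀ : ℕ), 0 < C ∧
    2 ≤ M₀ ∧ ∀ (M : ℕ) (A : ℕ → ℂ) (G : ℂ → ℂ) (B : ℝ), M₀ ≤ M →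
    DifferentiableOn ℂ G {s : ℂ | |s.re| < 3 / 8} → (∀ s : ℂ, |s.re| ≤ 1 / 4 → ‖G s‖ ≤ B) →
    (∀ s : ℂ, s.re = 1 / 4 → ‖EA M A s - G s‖ ≤ K * (M : ℝ) ^ (-(3 / 16) : ℝ)) →
    ‖SA ψ M A - G 0‖ ≤ C * (M : ℝ) ^ (-(1 / 16) : ℝ) *
      (1 + ∫ y : ℝ, (1 + |y|) ^ (-(2 : ℝ)) * ‖G (-(1 / 4) + I * (y / (Real.log M / 2)))‖) := by
  have h : CutR ψ := ⟨hψ.1, hψ.2.1, hψ.2.2.1, hψ.2.2.2⟩
  obtain ⟨C, hC0, hQ1, hQ2⟩ := Qk_bd h
  obtain ⟨J, hJ⟩ : ∃ J : ℝ, J = ∫ y : ℝ, ((1 + |y|) ^ 2)⁻¹ := ⟨_, rfl⟩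
  have hJ0 : 0 ≤ J := by
    rw [hJ]
    exact integral_nonneg fun _ => by positivity
  refine ⟨C * K * J + C + 1, max 2 ⌈Real.exp 8⌉₊, by positivity, le_max_left _ _,
    fun M A G B hM hGd hGB hK => ?_⟩
  have hM2 : 2 ≤ M := (le_max_left _ _).trans hM
  have hM0 : (0 : ℝ) < M := by exact_mod_cast (by omega : 0 < M)
  have hM1 : (1 : ℝ) ≤ M := by exact_mod_cast (by omega : 1 ≤ M)
  have hlog : 8 ≤ Real.log M := by
    rw [Real.le_log_iff_exp_le hM0]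
    refine (Nat.le_ceil _).trans ?_
    exact_mod_cast (le_max_right _ _).trans hM
  obtain ⟨L, hL⟩ : ∃ L : ℝ, L = Real.log M / 2 := ⟨_, rfl⟩
  have hL4 : 4 ≤ L := by rw [hL]; linarith
  have hL0 : 0 < L := by linarith
  have hLC : (L : ℂ) ≠ 0 := by exact_mod_cast hL0.ne'
  obtain ⟨F, hF⟩ : ∃ F : ℂ → ℂ, F = fun w => G (w / (L : ℂ)) := ⟨_, rfl⟩
  have hre : ∀ w : ℂ, (w / (L : ℂ)).re = w.re / L := fun w => by rw [Complex.div_ofReal_re]
  have hd : DifferentiableOn ℂ F {s : ℂ | |s.re| < 3 / 8 * L} := by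
    rw [hF]
    refine hGd.comp (by fun_prop) fun s hs => ?_
    show |(s / (L : ℂ)).re| < 3 / 8
    rw [hre, abs_div, abs_of_pos hL0, div_lt_iff₀ hL0]
    exact hs
  have hB : ∀ s : ℂ, |s.re| ≤ L / 4 → ‖F s‖ ≤ B := by
    intro s hs
    rw [hF]
    apply hGB
    rw [hre, abs_div, abs_of_pos hL0, div_le_iff₀ hL0]
    linarith
  have hc : 1 ≤ L / 4 := by linarith
  have h1 := shift_main h hc (c' := 3 / 8 * L) (by linarith) hd hB
  have h2 := SA_int h M A hL4 hL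
  have hF0 : F 0 = G 0 := by rw [hF]; simp
  rw [hF0] at h1
  -- continuity and integrability
  have hEc : Continuous (fun y : ℝ => EA M A ((((L / 4 : ℝ) : ℂ) + y * I) / (L : ℂ))) := by
    unfold EA
    refine continuous_finsetSum _ fun n hn => ?_
    exact continuous_const.mul (cp_cont (Finset.mem_Icc.1 hn).1)
  have hU : IsOpen {s : ℂ | |s.re| < 3 / 8 * L} :=
    isOpen_lt (continuous_abs.comp Complex.continuous_re) continuous_const
  have hFc : ∀ r : ℝ, |r| ≤ L / 4 → Continuous (fun y : ℝ => F ((r : ℂ) + y * I)) := by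
    intro r hr
    rw [continuous_iff_continuousAt]
    intro y
    have h1 : ((r : ℂ) + y * I) ∈ {s : ℂ | |s.re| < 3 / 8 * L} := by
      show |((r : ℂ) + y * I).re| < 3 / 8 * L
      have e : ((r : ℂ) + y * I).re = r := by simp
      rw [e]
      linarith
    have h3 := (hd.differentiableAt (hU.mem_nhds h1)).continuousAt
    exact ContinuousAt.comp (f := fun y : ℝ => ((r : ℂ) + y * I)) h3 (by fun_prop)
  have hrel : ∀ r y : ℝ, ((r : ℂ) + y * I).re = r := fun r y => by simp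
  have hcc : |L / 4| ≤ L / 4 := by rw [abs_of_pos (by linarith)]
  have hcn : |(-(L / 4))| ≤ L / 4 := by rw [abs_neg]; exact hcc
  have hdif : ∀ y : ℝ, ‖EA M A ((((L / 4 : ℝ) : ℂ) + y * I) / (L : ℂ)) -
      F (((L / 4 : ℝ) : ℂ) + y * I)‖ ≤ K * (M : ℝ) ^ (-(3 / 16) : ℝ) := by
    intro y
    rw [hF]
    refine hK _ ?_
    rw [hre, hrel]
    field_simp
  have i1 : Integrable (fun y : ℝ => Qk ψ (((L / 4 : ℝ) : ℂ) + y * I) *
      (EA M A ((((L / 4 : ℝ) : ℂ) + y * I) / (L : ℂ)) - F (((L / 4 : ℝ) : ℂ) + y * I))) :=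
    (int_Qk h hc (hEc.sub (hFc (L / 4) hcc)) hdif).1
  have i2 := (int_Qk h hc (hFc (L / 4) hcc) (fun y => hB _ (by rw [hrel]; exact hcc))).1
  -- the identity
  have e1 : 2 * Real.pi * (SA ψ M A - G 0) =
      (∫ y : ℝ, Qk ψ (((L / 4 : ℝ) : ℂ) + y * I) *
        (EA M A ((((L / 4 : ℝ) : ℂ) + y * I) / (L : ℂ)) - F (((L / 4 : ℝ) : ℂ) + y * I))) +
      ∫ y : ℝ, Qk ψ (((-(L / 4) : ℝ) : ℂ) + y * I) * F (((-(L / 4) : ℝ) : ℂ) + y * I) := by
    rw [← h1, mul_sub, h2, ← add_sub_assoc, ← integral_add i1 i2]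
    congr 2
    funext y
    ring
  -- powers
  have p1 : Real.exp (L / 4) = (M : ℝ) ^ (1 / 8 : ℝ) := by
    rw [Real.rpow_def_of_pos hM0, hL]
    congr 1
    ring
  have p2 : Real.exp (-(L / 4) / 2) = (M : ℝ) ^ (-(1 / 16) : ℝ) := by
    rw [Real.rpow_def_of_pos hM0, hL]
    congr 1
    ring
  have p3 : (M : ℝ) ^ (1 / 8 : ℝ) * (M : ℝ) ^ (-(3 / 16) : ℝ) = (M : ℝ) ^ (-(1 / 16) : ℝ) := by
    rw [← Real.rpow_add hM0]
    norm_num
  -- the first integral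
  have n1 : ‖∫ y : ℝ, Qk ψ (((L / 4 : ℝ) : ℂ) + y * I) *
      (EA M A ((((L / 4 : ℝ) : ℂ) + y * I) / (L : ℂ)) - F (((L / 4 : ℝ) : ℂ) + y * I))‖ ≤
      C * K * J * (M : ℝ) ^ (-(1 / 16) : ℝ) := by
    have hb : Integrable (fun y : ℝ => (C * Real.exp (L / 4) * (K * (M : ℝ) ^ (-(3 / 16) : ℝ))) *
        ((1 + |y|) ^ 2)⁻¹) := one_add_inv_sq_int.const_mul _
    refine (norm_integral_le_of_norm_le hb (Eventually.of_forall fun y => ?_)).trans ?_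
    · rw [norm_mul]
      calc _ ≤ (C * Real.exp (L / 4) * ((1 + |y|) ^ 2)⁻¹) * (K * (M : ℝ) ^ (-(3 / 16) : ℝ)) := by
            have := hQ1 (L / 4) y hc
            have := hdif y
            gcongr
        _ = _ := by ring
    · rw [integral_const_mul, ← hJ, p1, ← p3]
      exact le_of_eq (by ring)
  -- the second integral
  have n2 : ‖∫ y : ℝ, Qk ψ (((-(L / 4) : ℝ) : ℂ) + y * I) * F (((-(L / 4) : ℝ) : ℂ) + y * I)‖ ≤
      C * (M : ℝ) ^ (-(1 / 16) : ℝ) * ∫ y : ℝ, (1 + |y|) ^ (-(2 : ℝ)) *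
        ‖G (-(1 / 4) + I * (y / (Real.log M / 2)))‖ := by
    have hFe : ∀ y : ℝ, F (((-(L / 4) : ℝ) : ℂ) + y * I) =
        G (-(1 / 4) + I * (y / (Real.log M / 2))) := by
      intro y
      rw [hF]
      show G ((((-(L / 4) : ℝ) : ℂ) + y * I) / (L : ℂ)) = _
      congr 1
      have e : ((Real.log M : ℝ) : ℂ) / 2 = (L : ℂ) := by rw [hL]; push_cast; rfl
      rw [e]
      push_cast
      field_simp
    have hpw : ∀ y : ℝ, (1 + |y|) ^ (-(2 : ℝ)) = ((1 + |y|) ^ 2)⁻¹ := by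
      intro y
      rw [Real.rpow_neg (by positivity)]
      congr 1
      exact_mod_cast Real.rpow_natCast (1 + |y|) 2
    rw [← integral_const_mul]
    refine norm_integral_le_of_norm_le ?_ (Eventually.of_forall fun y => ?_)
    · refine Integrable.const_mul ?_ _
      have hcF : Continuous (fun y : ℝ => ‖G (-(1 / 4) + I * (y / (Real.log M / 2)))‖) := by
        simp only [← hFe]
        exact (hFc (-(L / 4)) hcn).norm
      refine (one_add_inv_sq_int.mul_const (B)).mono'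
        (Continuous.aestronglyMeasurable ?_) (Eventually.of_forall fun y => ?_)
      · simp only [hpw]
        refine Continuous.mul (Continuous.inv₀ (by fun_prop) fun y => by positivity) hcF
      · rw [hpw, ← hFe, norm_mul, norm_norm, Real.norm_of_nonneg (by positivity)]
        have := hB (((-(L / 4) : ℝ) : ℂ) + y * I) (by rw [hrel]; exact hcn)
        gcongr
    · rw [norm_mul, hFe, hpw]
      have h3 := hQ2 (L / 4) y hc
      rw [p2] at h3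
      calc _ ≤ (C * (M : ℝ) ^ (-(1 / 16) : ℝ) * ((1 + |y|) ^ 2)⁻¹) *
            ‖G (-(1 / 4) + I * (y / (Real.log M / 2)))‖ := by gcongr
        _ = _ := by ring
  -- conclusion
  have hpi := Real.pi_gt_three
  have n3 : ‖SA ψ M A - G 0‖ ≤ ‖2 * Real.pi * (SA ψ M A - G 0)‖ := by
    rw [norm_mul]
    have e : ‖(2 * Real.pi : ℂ)‖ = 2 * Real.pi := by
      rw [norm_mul, Complex.norm_real, Real.norm_of_nonneg (by linarith)]
      simp
    rw [e]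
    have := norm_nonneg (SA ψ M A - G 0)
    nlinarith
  rw [e1] at n3
  refine n3.trans ((norm_add_le _ _).trans ((add_le_add n1 n2).trans ?_))
  obtain ⟨T, hT⟩ : ∃ T : ℝ, T = ∫ y : ℝ, (1 + |y|) ^ (-(2 : ℝ)) *
        ‖G (-(1 / 4) + I * (y / (Real.log M / 2)))‖ := ⟨_, rfl⟩
  have hT0 : 0 ≤ T := by
    rw [hT]
    exact integral_nonneg fun _ => by positivity
  rw [← hT]
  have hm : (0 : ℝ) ≤ (M : ℝ) ^ (-(1 / 16) : ℝ) := by positivity
  have hCKJ : 0 ≤ C * K * J := by positivity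
  have g1 : 0 ≤ C * K * J * (M : ℝ) ^ (-(1 / 16) : ℝ) * T := by positivity
  have g2 : 0 ≤ C * (M : ℝ) ^ (-(1 / 16) : ℝ) := by positivity
  have g3 : 0 ≤ (M : ℝ) ^ (-(1 / 16) : ℝ) * (1 + T) := by positivity
  nlinarith

end PkgCTR

open PkgCTR in
theorem t_CTR : S_CTR := by
  intro n ψ hψ
  obtain ⟨K, hK0, hK⟩ := EA_GMr n
  obtain ⟨C, M₀, hC, hM₀, h⟩ := cont_abs ψ hψ K hK0
  refine ⟨C, M₀, hC, hM₀, fun M a b θ hM => ?_⟩
  exact h M (Ar a b θ) (GMr M a b θ) _ hM (GMr_diff M a b θ) (fun s hs => GMr_bd M a b θ hs)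
    (fun s hs => hK a b θ M s (by omega) hs)

end

end Pool.Agent.T2H54.TP
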