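import Pool.Agent.T2H54.TP.Stm
import Pool.Agent.T2H54.SB.FL2U
import Pool.Agent.TH753.GS.GL2

/-!
Package GLR of the project TP: mean square of `GMr` to the left (port of
`Pool.Agent.TH753.GS.GL2`, `Pool.Agent.T2H54.SB.A4U`).
-/

set_option autoImplicit false

namespace Pool.Agent.T2H54.TP

open Complex MeasureTheory Set
open Pool.Agent.TH612.GS Pool.Agent.T2H54.SB
open Pool.Agent.T2H54.SB.PkgFL2U
open Pool.Agent.TH753.GS

noncomputable section

namespace PkgGLR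

variable {n : ℕ}

open Classical in
theorem sum_E {R : Type} [AddCommMonoid R] (E : ℕ → Fin n ⊕ Fin n → ℕ) (i₀ : Fin n ⊕ Fin n)
    (hE : ∀ P, E P i₀ = P) (N : ℕ) (hmem : ∀ P, P ∈ Finset.Icc 1 N → E P ∈ tup n N)
    (F : ℕ → (Fin n ⊕ Fin n → ℕ) → R) :
    ∑ ν ∈ tup n N, (if ν = E (ν i₀) then F (ν i₀) ν else 0) =
      ∑ P ∈ Finset.Icc 1 N, F P (E P) := by
  rw [← Finset.sum_filter]
  refine Finset.sum_nbij' (fun ν => ν i₀) (fun P => E P) ?_ ?_ ?_ ?_ ?_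
  · intro ν hν
    rw [Finset.mem_filter] at hν
    exact (Fintype.mem_piFinset.1 hν.1) i₀
  · intro P hP
    rw [Finset.mem_filter]
    refine ⟨hmem P hP, ?_⟩
    rw [hE]
  · intro ν hν
    rw [Finset.mem_filter] at hν
    exact hν.2.symm
  · intro P _
    exact hE P
  · intro ν hν
    rw [Finset.mem_filter] at hν
    show F (ν i₀) ν = F (ν i₀) (E (ν i₀))
    rw [← hν.2]

open Classical in
theorem ms (E : ℕ → Fin n ⊕ Fin n → ℕ) (i₀ : Fin n ⊕ Fin n)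
    (hE : ∀ P, E P i₀ = P) (N : ℕ) (hmem : ∀ P, P ∈ Finset.Icc 1 N → E P ∈ tup n N) (c : ℕ → ℂ)
    (hN : 1 ≤ N) (H : ℝ) (hH : 0 < H) (U : Fin n ⊕ Fin n → ℝ) :
    ∫⁻ θ, ENNReal.ofReal (‖∑ P ∈ Finset.Icc 1 N, c P * ch (E P) (U + θ)‖ ^ 2)
      ∂(mP (Fin n ⊕ Fin n) H) ≤
      ENNReal.ofReal (H ^ (2 * n) * ∑ P ∈ Finset.Icc 1 N, ‖c P‖ ^ 2 +
        2 * N * H ^ (2 * n - 1) * (∑ P ∈ Finset.Icc 1 N, ‖c P‖) ^ 2) := by
  have h := fl2U n N H (fun ν => if ν = E (ν i₀) then c (ν i₀) else 0) U hN hH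
  have e1 : ∀ γ : Fin n ⊕ Fin n → ℝ, ∑ ν ∈ tup n N, (if ν = E (ν i₀) then c (ν i₀) else 0) *
      ch ν γ = ∑ P ∈ Finset.Icc 1 N, c P * ch (E P) γ := by
    intro γ
    rw [← sum_E E i₀ hE N hmem (fun P ν => c P * ch ν γ)]
    refine Finset.sum_congr rfl fun ν _ => ?_
    rw [ite_mul, zero_mul]
  have e2 : ∑ ν ∈ tup n N, ‖(if ν = E (ν i₀) then c (ν i₀) else 0)‖ ^ 2 =
      ∑ P ∈ Finset.Icc 1 N, ‖c P‖ ^ 2 := by
    rw [← sum_E E i₀ hE N hmem (fun P _ => ‖c P‖ ^ 2)]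
    refine Finset.sum_congr rfl fun ν _ => ?_
    split_ifs <;> simp
  have e3 : ∑ ν ∈ tup n N, ‖(if ν = E (ν i₀) then c (ν i₀) else 0)‖ =
      ∑ P ∈ Finset.Icc 1 N, ‖c P‖ := by
    rw [← sum_E E i₀ hE N hmem (fun P _ => ‖c P‖)]
    refine Finset.sum_congr rfl fun ν _ => ?_
    split_ifs <;> simp
  simp only [e1, e2, e3] at h
  exact h

/-- the tuple of a pair -/
def EE (p : Fin (n + 1) × Fin (n + 1)) (P : ℕ) : Fin n ⊕ Fin n → ℕ :=
  Sum.elim (fun j => if j.succ = p.1 then P else 1) (fun l => if l.succ = p.2 then P else 1)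

theorem EE_mem (p : Fin (n + 1) × Fin (n + 1)) {P N : ℕ} (hP : P ∈ Finset.Icc 1 N) :
    EE p P ∈ tup n N := by
  rw [Finset.mem_Icc] at hP
  unfold tup
  rw [Fintype.mem_piFinset]
  intro i
  rw [Finset.mem_Icc]
  rcases i with i | i
  · unfold EE
    simp only [Sum.elim_inl]
    split_ifs <;> omega
  · unfold EE
    simp only [Sum.elim_inr]
    split_ifs <;> omega

theorem EE_idx (p : Fin (n + 1) × Fin (n + 1)) (hp : p ≠ (0, 0)) :
    ∃ i₀ : Fin n ⊕ Fin n, ∀ P, EE p P i₀ = P := by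
  obtain ⟨x, y⟩ := p
  rcases Fin.eq_zero_or_eq_succ x with rfl | ⟨j, rfl⟩
  · rcases Fin.eq_zero_or_eq_succ y with rfl | ⟨l, rfl⟩
    · exact absurd rfl hp
    · exact ⟨Sum.inr l, fun P => by simp [EE]⟩
  · exact ⟨Sum.inl j, fun P => by simp [EE]⟩

theorem cons_pow (P : ℕ) (g : ℝ → ℂ) (a : ℝ) (f : Fin n → ℝ) (x : Fin (n + 1)) :
    (P : ℂ) ^ (g ((Fin.cons a f : Fin (n + 1) → ℝ) x)) =
      (if x = 0 then (P : ℂ) ^ (g a) else 1) *
        ∏ j, ((if j.succ = x then P else 1 : ℕ) : ℂ) ^ (g (f j)) := by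
  rcases Fin.eq_zero_or_eq_succ x with rfl | ⟨i, rfl⟩
  · rw [if_pos rfl, Fin.cons_zero, Finset.prod_eq_one, mul_one]
    intro j _
    rw [if_neg (Fin.succ_ne_zero j), Nat.cast_one, Complex.one_cpow]
  · rw [if_neg (Fin.succ_ne_zero i), one_mul, Fin.cons_succ, Finset.prod_eq_single i]
    · rw [if_pos rfl]
    · intro b _ hb
      rw [if_neg (fun h => hb (Fin.succ_injective _ h)), Nat.cast_one, Complex.one_cpow]
    · intro h
      exact absurd (Finset.mem_univ i) h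

/-- the coefficients -/
def co (p : Fin (n + 1) × Fin (n + 1)) (a b : ℝ) (m M : ℕ) (v : ℝ) (P : ℕ) : ℂ :=
  cc m M v P * ((if p.1 = 0 then (P : ℂ) ^ (-(I * a)) else 1) *
    (if p.2 = 0 then (P : ℂ) ^ (I * b) else 1))

theorem co_norm (p : Fin (n + 1) × Fin (n + 1)) (a b : ℝ) (m M : ℕ) (v : ℝ) {P : ℕ} (hP : 1 ≤ P) :
    ‖co p a b m M v P‖ = ‖cc m M v P‖ := by
  have h1 : ‖(if p.1 = 0 then (P : ℂ) ^ (-(I * a)) else 1)‖ = 1 := by
    split_ifs
    · rw [norm_natCast_cpow_of_pos (by omega)]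
      simp
    · simp
  have h2 : ‖(if p.2 = 0 then (P : ℂ) ^ (I * b) else 1)‖ = 1 := by
    split_ifs
    · rw [norm_natCast_cpow_of_pos (by omega)]
      simp
    · simp
  unfold co
  rw [norm_mul, norm_mul, h1, h2, mul_one, mul_one]

theorem zN_pow_EE (m M : ℕ) (v a b : ℝ) (p : Fin (n + 1) × Fin (n + 1))
    (θ : Fin n ⊕ Fin n → ℝ) :
    zN M (1 + (-(1 / 4) + I * v) +
      I * ((gc a b θ (Sum.inl p.1) : ℂ) - (gc a b θ (Sum.inr p.2) : ℂ))) ^ m =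
      ∑ P ∈ Finset.Icc 1 (M ^ m), co p a b m M v P * ch (EE p P) θ := by
  unfold zN
  rw [zN_pow]
  refine Finset.sum_congr rfl fun P hP => ?_
  rw [Finset.mem_Icc] at hP
  have hP0 : (P : ℂ) ≠ 0 := by
    have : P ≠ 0 := by omega
    exact_mod_cast this
  have h1 := cons_pow P (fun x => -(I * x)) a (fun j => θ (Sum.inl j)) p.1
  have h2 := cons_pow P (fun x => I * x) b (fun j => θ (Sum.inr j)) p.2
  have h3 : gc a b θ (Sum.inl p.1) = (Fin.cons a (fun j => θ (Sum.inl j)) : Fin (n + 1) → ℝ) p.1 :=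
    rfl
  have h4 : gc a b θ (Sum.inr p.2) = (Fin.cons b (fun j => θ (Sum.inr j)) : Fin (n + 1) → ℝ) p.2 :=
    rfl
  have h5 : ch (EE p P) θ = (∏ j, ((if j.succ = p.1 then P else 1 : ℕ) : ℂ) ^
      (-(I * (θ (Sum.inl j) : ℂ)))) *
        ∏ j, ((if j.succ = p.2 then P else 1 : ℕ) : ℂ) ^ (I * (θ (Sum.inr j) : ℂ)) := rfl
  have h6 : (P : ℂ) ^ (-(1 + (-(1 / 4) + I * v) +
      I * ((gc a b θ (Sum.inl p.1) : ℂ) - (gc a b θ (Sum.inr p.2) : ℂ)))) =
      (P : ℂ) ^ (-(3 / 4 + I * v : ℂ)) * ((P : ℂ) ^ (-(I * (gc a b θ (Sum.inl p.1) : ℂ))) *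
        (P : ℂ) ^ (I * (gc a b θ (Sum.inr p.2) : ℂ))) := by
    rw [← cpow_add _ _ hP0, ← cpow_add _ _ hP0]
    congr 1
    ring
  rw [h6, h3, h4, h1, h2, h5]
  unfold co cc
  ring

theorem gc_meas (a b : ℝ) (U : Fin n ⊕ Fin n → ℝ) (i : Fin (n + 1) ⊕ Fin (n + 1)) :
    Measurable fun θ : Fin n ⊕ Fin n → ℝ => gc a b (U + θ) i := by
  rcases i with x | x
  · rcases Fin.eq_zero_or_eq_succ x with rfl | ⟨j, rfl⟩
    · exact measurable_const
    · exact measurable_const.add (measurable_pi_apply (Sum.inl j))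
  · rcases Fin.eq_zero_or_eq_succ x with rfl | ⟨j, rfl⟩
    · exact measurable_const
    · exact measurable_const.add (measurable_pi_apply (Sum.inr j))

theorem meas_zNp (m M : ℕ) (v a b : ℝ) (p : Fin (n + 1) × Fin (n + 1)) (U : Fin n ⊕ Fin n → ℝ) :
    Measurable fun θ : Fin n ⊕ Fin n → ℝ => ENNReal.ofReal (‖zN M (1 + (-(1 / 4) + I * v) +
      I * ((gc a b (U + θ) (Sum.inl p.1) : ℂ) - (gc a b (U + θ) (Sum.inr p.2) : ℂ))) ^ m‖ ^ 2) := by
  unfold zN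
  refine Measurable.ennreal_ofReal ((Measurable.norm ((Finset.measurable_sum _
    fun n _ => ?_).pow_const m)).pow_const 2)
  refine Measurable.pow measurable_const (Measurable.neg ?_)
  refine measurable_const.add (measurable_const.mul ?_)
  exact (Complex.measurable_ofReal.comp (gc_meas a b U _)).sub
    (Complex.measurable_ofReal.comp (gc_meas a b U _))

theorem prod_le_sum_pow' {ι : Type} [DecidableEq ι] (s : Finset ι) (hs : s.Nonempty) (x : ι → ℝ)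
    (hx : ∀ i, 0 ≤ x i) : ∏ i ∈ s, x i ≤ ∑ i ∈ s, x i ^ s.card := by
  obtain ⟨i0, hi0, hmax⟩ := Finset.exists_max_image s x hs
  have h1 : ∏ i ∈ s, x i ≤ x i0 ^ s.card := by
    refine (Finset.prod_le_prod (fun i _ => hx i) (fun i hi => hmax i hi)).trans ?_
    rw [Finset.prod_const]
  exact h1.trans (Finset.single_le_sum (f := fun i => x i ^ s.card)
    (fun i _ => pow_nonneg (hx i) _) hi0)

end PkgGLR

open PkgGLR in
theorem t_GLR : S_GLR := by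
  intro n
  have hFH : ∀ (γ : Fin (n + 1) ⊕ Fin (n + 1) → ℝ) (v : ℝ),
      ‖Pool.Agent.TH612.CF.FH (fun j => (γ (Sum.inl j) : ℂ) - I * (-(1 / 4) + I * v) / 2)
        (fun j => (γ (Sum.inr j) : ℂ) + I * (-(1 / 4) + I * v) / 2)‖ ≤
        Pool.Agent.TH612.CF.BF (n + 1) (1 / 8) := by
    intro γ v
    refine Pool.Agent.TH612.CF.FH_le (by norm_num) (fun j => ?_)
    constructor
    · have : (((γ (Sum.inl j) : ℝ) : ℂ) - I * (-(1 / 4) + I * v) / 2).im = 1 / 8 := by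
        simp
        norm_num
      rw [this]
      norm_num
    · have : (((γ (Sum.inr j) : ℝ) : ℂ) + I * (-(1 / 4) + I * v) / 2).im = -(1 / 8) := by
        simp
        norm_num
      rw [this]
      norm_num
  obtain ⟨B, hB⟩ : ∃ B : ℝ, B = Pool.Agent.TH612.CF.BF (n + 1) (1 / 8) := ⟨_, rfl⟩
  rw [← hB] at hFH
  rcases Finset.eq_empty_or_nonempty (PQ n) with hPQ | hPQ
  · -- no pairs: then `n = 0`
    have hn : n = 0 := by
      by_contra hn0
      have h1 : ((0 : Fin (n + 1)), Fin.last n) ∈ PQ n := by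
        unfold PQ
        rw [Finset.mem_filter]
        refine ⟨Finset.mem_univ _, ?_⟩
        intro h
        have h2 := congrArg (fun x : Fin (n + 1) × Fin (n + 1) => (x.2 : ℕ)) h
        simp at h2
        exact hn0 h2
      rw [hPQ] at h1
      exact absurd h1 (Finset.notMem_empty _)
    subst hn
    refine ⟨B ^ 2 + 1, by positivity, ?_⟩
    intro a b H M v U _ _ hH
    have h1 : ∀ θ : Fin 0 ⊕ Fin 0 → ℝ,
        ENNReal.ofReal (‖GMr M a b (U + θ) (-(1 / 4) + I * v)‖ ^ 2) ≤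
        ENNReal.ofReal (B ^ 2 + 1) := by
      intro θ
      apply ENNReal.ofReal_le_ofReal
      have h2 : ‖GMr M a b (U + θ) (-(1 / 4) + I * v)‖ ≤ B := by
        unfold GMr
        rw [hPQ, Finset.prod_empty, mul_one]
        exact hFH _ v
      have h3 := pow_le_pow_left₀ (norm_nonneg _) h2 2
      linarith
    refine (lintegral_mono h1).trans ?_
    rw [lintegral_const]
    have h4 : (mP (Fin 0 ⊕ Fin 0) H) univ = 1 := by
      unfold mP
      rw [Measure.pi_univ]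
      simp
    rw [h4]
    simp
  -- at least one pair
  obtain ⟨m, hm⟩ : ∃ m : ℕ, m = (PQ n).card := ⟨_, rfl⟩
  have hm1 : 1 ≤ m := by rw [hm]; exact Finset.card_pos.2 hPQ
  have hm2 : m ≤ (n + 1) ^ 2 := by
    rw [hm]
    refine (Finset.card_le_univ _).trans ?_
    rw [Fintype.card_prod, Fintype.card_fin, sq]
  have hn1 : 1 ≤ n := by
    by_contra hn0
    have hn : n = 0 := by omega
    subst hn
    obtain ⟨p, hp⟩ := hPQ
    unfold PQ at hp
    rw [Finset.mem_filter] at hp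
    exact hp.2 (Prod.ext (Fin.ext (by omega)) (Fin.ext (by omega)))
  obtain ⟨C0, hC0, hC⟩ := cc_sq hm1
  refine ⟨B ^ 2 * (m * (C0 + 1)) + 1, by positivity, ?_⟩
  intro a b H M v U hM hMH hH
  have hH0 : 0 < H := by linarith
  have hM1 : (1 : ℝ) ≤ M := by exact_mod_cast hM
  have hMm : 2 * (M : ℝ) ^ (3 * m) ≤ H := by
    refine le_trans ?_ hMH
    have : (M : ℝ) ^ (3 * m) ≤ (M : ℝ) ^ (3 * (n + 1) ^ 2) :=
      pow_le_pow_right₀ hM1 (by omega)
    linarith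
  have hpt : ∀ θ : Fin n ⊕ Fin n → ℝ,
      ENNReal.ofReal (‖GMr M a b (U + θ) (-(1 / 4) + I * v)‖ ^ 2) ≤
      ENNReal.ofReal (B ^ 2) * ∑ p ∈ PQ n,
        ENNReal.ofReal (‖zN M (1 + (-(1 / 4) + I * v) +
        I * ((gc a b (U + θ) (Sum.inl p.1) : ℂ) - (gc a b (U + θ) (Sum.inr p.2) : ℂ))) ^ m‖ ^ 2) := by
    intro θ
    rw [← ENNReal.ofReal_sum_of_nonneg (fun p _ => by positivity),
      ← ENNReal.ofReal_mul (by positivity)]
    apply ENNReal.ofReal_le_ofReal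
    unfold GMr
    rw [norm_mul, mul_pow]
    have h1 := hFH (gc a b (U + θ)) v
    have h2 : ‖∏ p ∈ PQ n, zN M (1 + (-(1 / 4) + I * v) +
        I * ((gc a b (U + θ) (Sum.inl p.1) : ℂ) - (gc a b (U + θ) (Sum.inr p.2) : ℂ)))‖ ^ 2 ≤
        ∑ p ∈ PQ n, ‖zN M (1 + (-(1 / 4) + I * v) +
          I * ((gc a b (U + θ) (Sum.inl p.1) : ℂ) - (gc a b (U + θ) (Sum.inr p.2) : ℂ))) ^ m‖ ^ 2 := by
      have h3 := prod_le_sum_pow' (PQ n) hPQ (fun p =>
        ‖zN M (1 + (-(1 / 4) + I * v) + I * ((gc a b (U + θ) (Sum.inl p.1) : ℂ) -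
          (gc a b (U + θ) (Sum.inr p.2) : ℂ)))‖ ^ 2) (fun p => by positivity)
      rw [← hm] at h3
      rw [norm_prod, ← Finset.prod_pow]
      refine h3.trans (le_of_eq (Finset.sum_congr rfl fun p _ => ?_))
      rw [norm_pow, ← pow_mul, ← pow_mul, Nat.mul_comm]
    exact mul_le_mul (pow_le_pow_left₀ (norm_nonneg _) h1 2) h2 (by positivity) (by positivity)
  refine (lintegral_mono hpt).trans ?_
  rw [lintegral_const_mul _ (Finset.measurable_sum _ fun p _ => meas_zNp m M v a b p U),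
    lintegral_finsetSum _ fun p _ => meas_zNp m M v a b p U]
  have hb : ∀ p ∈ PQ n, ∫⁻ θ, ENNReal.ofReal (‖zN M (1 + (-(1 / 4) + I * v) +
        I * ((gc a b (U + θ) (Sum.inl p.1) : ℂ) - (gc a b (U + θ) (Sum.inr p.2) : ℂ))) ^ m‖ ^ 2)
          ∂(mP (Fin n ⊕ Fin n) H) ≤
      ENNReal.ofReal ((C0 + 1) * H ^ (2 * n)) := by
    intro p hp
    have hp' : p ≠ (0, 0) := by
      unfold PQ at hp
      exact (Finset.mem_filter.1 hp).2
    obtain ⟨i₀, hi₀⟩ := EE_idx p hp'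
    simp only [zN_pow_EE]
    refine (ms (EE p) i₀ hi₀ (M ^ m) (fun P hP => EE_mem p hP) (co p a b m M v)
      (Nat.one_le_pow _ _ hM) H hH0 U).trans (ENNReal.ofReal_le_ofReal ?_)
    have g1 : ∑ P ∈ Finset.Icc 1 (M ^ m), ‖co p a b m M v P‖ ^ 2 =
        ∑ P ∈ Finset.Icc 1 (M ^ m), ‖cc m M v P‖ ^ 2 :=
      Finset.sum_congr rfl fun P hP => by rw [co_norm p a b m M v (Finset.mem_Icc.1 hP).1]
    have g2 : ∑ P ∈ Finset.Icc 1 (M ^ m), ‖co p a b m M v P‖ =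
        ∑ P ∈ Finset.Icc 1 (M ^ m), ‖cc m M v P‖ :=
      Finset.sum_congr rfl fun P hP => by rw [co_norm p a b m M v (Finset.mem_Icc.1 hP).1]
    rw [g1, g2]
    have h1 := hC M (M ^ m) v
    have h2 := cc_sum m M v
    have h3 : (∑ P ∈ Finset.Icc 1 (M ^ m), ‖cc m M v P‖) ^ 2 ≤ ((M : ℝ) ^ m) ^ 2 :=
      pow_le_pow_left₀ (Finset.sum_nonneg fun _ _ => norm_nonneg _) h2 2
    have h4 : H ^ (2 * n) * ∑ P ∈ Finset.Icc 1 (M ^ m), ‖cc m M v P‖ ^ 2 ≤ H ^ (2 * n) * C0 :=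
      mul_le_mul_of_nonneg_left h1 (by positivity)
    have h5 : 2 * (M ^ m : ℕ) * H ^ (2 * n - 1) * (∑ P ∈ Finset.Icc 1 (M ^ m),
        ‖cc m M v P‖) ^ 2 ≤ H ^ (2 * n) := by
      have h6 : 2 * ((M ^ m : ℕ) : ℝ) * H ^ (2 * n - 1) * (∑ P ∈ Finset.Icc 1 (M ^ m),
          ‖cc m M v P‖) ^ 2 ≤ 2 * ((M ^ m : ℕ) : ℝ) * H ^ (2 * n - 1) * ((M : ℝ) ^ m) ^ 2 :=
        mul_le_mul_of_nonneg_left h3 (by positivity)
      refine h6.trans ?_
      have h7 : 2 * ((M ^ m : ℕ) : ℝ) * H ^ (2 * n - 1) * ((M : ℝ) ^ m) ^ 2 =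
          (2 * (M : ℝ) ^ (3 * m)) * H ^ (2 * n - 1) := by
        push_cast
        ring
      rw [h7]
      have h8 : H ^ (2 * n) = H * H ^ (2 * n - 1) := by
        rw [← pow_succ']
        congr 1
        omega
      rw [h8]
      exact mul_le_mul_of_nonneg_right hMm (by positivity)
    linarith
  refine (mul_le_mul_right (Finset.sum_le_sum hb) _).trans ?_
  rw [Finset.sum_const, ← hm, nsmul_eq_mul, ← ENNReal.ofReal_natCast,
    ← ENNReal.ofReal_mul (by positivity), ← ENNReal.ofReal_mul (by positivity)]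
  apply ENNReal.ofReal_le_ofReal
  have : 0 ≤ H ^ (2 * n) := by positivity
  nlinarith

end

end Pool.Agent.T2H54.TP
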