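import Pool.Agent.T2H54.TP.Stm
import Pool.Agent.T2H54.SB.ZMU
import Pool.Agent.T2H54.SB.MVW

set_option autoImplicit false

/-!
TP-ZMR (helper69): from `GMr M a b (U + θ) 0` to `zrr a b (U + θ)` on a translated box.
-/

namespace Pool.Agent.T2H54.TP.ZMR

open Complex Filter Topology MeasureTheory Set
open Pool.Agent.TH612.CF Pool.Agent.TH612.GS Pool.Agent.T2H54.SB
open Pool.Agent.TH811.GS (approx co zN_sub sum_co cont_P norm_zN_le)
open Pool.Agent.TH228.GS (prod_sub_le zN_le hh hh_nonneg)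
open Pool.Agent.T2H54.SB.ZMU (g g_cont g_nonneg hh_le g_int)
open scoped ENNReal

noncomputable section

/-- reflection of a window -/
lemma refl_window {H : ℝ} {G : ℝ → ℝ≥0∞} {W : ℝ≥0∞}
    (hW : ∀ w : ℝ, ∫⁻ a in Icc (0 : ℝ) H, G (w + a) ≤ W) (w : ℝ) :
    ∫⁻ a in Icc (0 : ℝ) H, G (w - a) ≤ W := by
  have e := (Measure.measurePreserving_sub_left (volume : Measure ℝ) H).setLIntegral_comp_preimage_emb
    (MeasurableEquiv.subLeft H).measurableEmbedding (fun x => G ((w - H) + x)) (Icc 0 H)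
  have e1 : (fun x => H - x) ⁻¹' Icc (0 : ℝ) H = Icc 0 H := by
    ext x
    simp only [mem_preimage, mem_Icc]
    constructor <;> rintro ⟨h1, h2⟩ <;> constructor <;> linarith
  rw [e1] at e
  have e2 : ∀ x, (w - H) + (H - x) = w - x := fun x => by ring
  simp only [e2] at e
  rw [e]
  exact hW _

/-- integration over one coordinate -/
lemma fubR {ι : Type} [Fintype ι] [DecidableEq ι] {H : ℝ} (D : (ι → ℝ) → ℝ) (hD : Measurable D)
    (p : ι) (hp : ∀ x : ι → ℝ, (∃ w : ℝ, ∀ a, D (Function.update x p a) = w + a) ∨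
      ∃ w : ℝ, ∀ a, D (Function.update x p a) = w - a)
    {G : ℝ → ℝ≥0∞} (hG : Measurable G) {W : ℝ≥0∞}
    (hW : ∀ w : ℝ, ∫⁻ a in Icc (0 : ℝ) H, G (w + a) ≤ W) :
    ∫⁻ γ, G (D γ) ∂(mP ι H) ≤ W * ENNReal.ofReal H ^ (Fintype.card ι - 1) := by
  unfold mP
  have hm : Measurable fun γ : ι → ℝ => G (D γ) := hG.comp hD
  rw [lintegral_eq_lmarginal_univ (0 : ι → ℝ), lmarginal_erase' _ hm (Finset.mem_univ p)]
  refine (lmarginal_mono (g := fun _ => W) ?_ (0 : ι → ℝ)).trans ?_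
  · intro x
    rcases hp x with ⟨w, hw⟩ | ⟨w, hw⟩
    · simp only [hw]
      exact hW _
    · simp only [hw]
      exact refl_window hW _
  · unfold lmarginal
    rw [lintegral_const, Measure.pi_univ]
    simp only [Measure.restrict_apply MeasurableSet.univ, univ_inter, Real.volume_Icc, sub_zero,
      Finset.prod_const, Finset.card_univ, Fintype.card_coe]
    rw [Finset.card_erase_of_mem (Finset.mem_univ p), Finset.card_univ]

variable {n : ℕ}

/-- the differences -/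
def vv (a b : ℝ) (δ : Fin n ⊕ Fin n → ℝ) (p : Fin (n + 1) × Fin (n + 1)) : ℝ :=
  gc a b δ (Sum.inl p.1) - gc a b δ (Sum.inr p.2)

lemma gc_l0 (a b : ℝ) (δ : Fin n ⊕ Fin n → ℝ) : gc a b δ (Sum.inl 0) = a := by simp [gc]
lemma gc_r0 (a b : ℝ) (δ : Fin n ⊕ Fin n → ℝ) : gc a b δ (Sum.inr 0) = b := by simp [gc]
lemma gc_ls (a b : ℝ) (δ : Fin n ⊕ Fin n → ℝ) (j : Fin n) :
    gc a b δ (Sum.inl j.succ) = δ (Sum.inl j) := by simp [gc]
lemma gc_rs (a b : ℝ) (δ : Fin n ⊕ Fin n → ℝ) (j : Fin n) :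
    gc a b δ (Sum.inr j.succ) = δ (Sum.inr j) := by simp [gc]

lemma gc_meas (a b : ℝ) (U : Fin n ⊕ Fin n → ℝ) (i : Fin (n + 1) ⊕ Fin (n + 1)) :
    Measurable fun θ : Fin n ⊕ Fin n → ℝ => gc a b (U + θ) i := by
  rcases i with i | i
  · refine Fin.cases ?_ (fun j => ?_) i
    · simp only [gc_l0]; exact measurable_const
    · simp only [gc_ls, Pi.add_apply]; exact (measurable_pi_apply _).const_add _
  · refine Fin.cases ?_ (fun j => ?_) i
    · simp only [gc_r0]; exact measurable_const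
    · simp only [gc_rs, Pi.add_apply]; exact (measurable_pi_apply _).const_add _

lemma vv_meas (a b : ℝ) (U : Fin n ⊕ Fin n → ℝ) (p : Fin (n + 1) × Fin (n + 1)) :
    Measurable fun θ : Fin n ⊕ Fin n → ℝ => vv a b (U + θ) p :=
  (gc_meas a b U _).sub (gc_meas a b U _)

lemma vv_upd (a b : ℝ) (U : Fin n ⊕ Fin n → ℝ) (p : Fin (n + 1) × Fin (n + 1)) (hp : p ∈ PQ n) :
    ∃ q : Fin n ⊕ Fin n, ∀ x : Fin n ⊕ Fin n → ℝ,
      (∃ w : ℝ, ∀ c, vv a b (U + Function.update x q c) p = w + c) ∨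
      ∃ w : ℝ, ∀ c, vv a b (U + Function.update x q c) p = w - c := by
  obtain ⟨i, j⟩ := p
  rcases Fin.eq_zero_or_eq_succ i with hi | ⟨i', hi⟩
  · rcases Fin.eq_zero_or_eq_succ j with hj | ⟨j', hj⟩
    · exfalso
      simp [PQ, hi, hj] at hp
    · subst hi hj
      refine ⟨Sum.inr j', fun x => Or.inr ⟨a - U (Sum.inr j'), fun c => ?_⟩⟩
      simp only [vv, gc_l0, gc_rs, Pi.add_apply, Function.update_self]
      ring
  · subst hi
    refine ⟨Sum.inl i', fun x => Or.inl ?_⟩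
    rcases Fin.eq_zero_or_eq_succ j with hj | ⟨j', hj⟩
    · subst hj
      refine ⟨U (Sum.inl i') - b, fun c => ?_⟩
      simp only [vv, gc_ls, gc_r0, Pi.add_apply, Function.update_self]
      ring
    · subst hj
      refine ⟨U (Sum.inl i') - (U (Sum.inr j') + x (Sum.inr j')), fun c => ?_⟩
      have h1 : Function.update x (Sum.inl i') c (Sum.inr j') = x (Sum.inr j') :=
        Function.update_of_ne (by simp) _ _
      simp only [vv, gc_ls, gc_rs, Pi.add_apply, Function.update_self, h1]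
      ring

/-- lower and upper bounds of the differences -/
lemma vv_bd {a b T H : ℝ} {U θ : Fin n ⊕ Fin n → ℝ} (hU : ∀ i, 0 ≤ U i ∧ U i + H ≤ T)
    (hθ : θ ∈ SepF a b H U) (p : Fin (n + 1) × Fin (n + 1)) (hp : p ∈ PQ n) :
    H ^ (1 / 2 : ℝ) ≤ |vv a b (U + θ) p| ∧ |vv a b (U + θ) p| ≤ T + |a| + |b| := by
  obtain ⟨h1, h2, h3⟩ := hθ
  obtain ⟨i, j⟩ := p
  have hb : ∀ q, 0 ≤ U q + θ q ∧ U q + θ q ≤ T := fun q =>
    ⟨by linarith [(h1 q).1, (hU q).1], by linarith [(h1 q).2, (hU q).2]⟩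
  have ha0 := abs_nonneg a
  have hb0 := abs_nonneg b
  have hab := abs_le.1 (le_refl |a|)
  have hbb := abs_le.1 (le_refl |b|)
  rcases Fin.eq_zero_or_eq_succ i with hi | ⟨i', hi⟩
  · rcases Fin.eq_zero_or_eq_succ j with hj | ⟨j', hj⟩
    · exfalso
      simp [PQ, hi, hj] at hp
    · subst hi hj
      simp only [vv, gc_l0, gc_rs, Pi.add_apply]
      have h4 := hb (Sum.inr j')
      refine ⟨by rw [abs_sub_comm]; exact (h3 _).1, ?_⟩
      rw [abs_le]
      constructor <;> linarith [h4.1, h4.2, hab.1, hab.2]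
  · subst hi
    have h4 := hb (Sum.inl i')
    rcases Fin.eq_zero_or_eq_succ j with hj | ⟨j', hj⟩
    · subst hj
      simp only [vv, gc_ls, gc_r0, Pi.add_apply]
      refine ⟨(h3 _).2, ?_⟩
      rw [abs_le]
      constructor <;> linarith [h4.1, h4.2, hbb.1, hbb.2]
    · subst hj
      have h5 := hb (Sum.inr j')
      simp only [vv, gc_ls, gc_rs, Pi.add_apply]
      refine ⟨h2 _ _ (by simp), ?_⟩
      rw [abs_le]
      constructor <;> linarith [h4.1, h4.2, h5.1, h5.2]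

theorem t_ZMR : S_ZMR := by
  obtain ⟨C, hC, hMV⟩ := pMVW
  intro n a b
  have hBF : 0 ≤ BF (n + 1) (1 / 8) := by unfold BF; positivity
  set c : ℕ := (PQ n).card with hc
  set D : ℝ := BF (n + 1) (1 / 8) ^ 2 * (5 : ℝ) ^ (2 * c) * c *
    (c * (32 + 72 * C)) with hD
  have hD0 : 0 ≤ D := by rw [hD]; positivity
  set B : ℕ := 2 * c + 3 with hB
  have haa := abs_nonneg a
  have hbb := abs_nonneg b
  refine ⟨(D + 1) * 2 ^ B, 3 + |a| + |b|, B, by positivity, by linarith, ?_⟩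
  intro T₁ H M U hT₁ hH hU hM hMH
  set T : ℝ := T₁ + |a| + |b| with hTd
  have hT : 3 ≤ T := by linarith
  have hT0 : 0 < T := by linarith
  have hH1 : 1 ≤ H := by linarith
  have hH0 : 0 < H := by linarith
  have hL : 1 ≤ Real.log T := by
    rw [Real.le_log_iff_exp_le hT0]
    have := Real.exp_one_lt_d9
    linarith
  have hT10 : 0 < T₁ := by linarith
  have hLT : Real.log T ≤ 2 * Real.log T₁ := by
    have h1 : T ≤ T₁ ^ 2 := by nlinarith
    have h2 := Real.log_le_log hT0 h1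
    rw [Real.log_pow] at h2
    push_cast at h2
    exact h2
  have hM1 : (1 : ℝ) ≤ M := by exact_mod_cast hM
  have hM0 : (0 : ℝ) < M := by linarith
  set r : ℝ := H ^ (1 / 2 : ℝ) with hr
  have hrr : r * r = H := by
    rw [hr, ← Real.rpow_add hH0]
    norm_num
  have hr1 : 1 ≤ r := Real.one_le_rpow hH1 (by norm_num)
  have hrH : r ≤ H := by nlinarith
  set X : ℕ := ⌊T ^ 2⌋₊ with hX
  have hXle : (X : ℝ) ≤ T ^ 2 := Nat.floor_le (by positivity)
  have hXlt : T ^ 2 < (X : ℝ) + 1 := Nat.lt_floor_add_one _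
  have hX1 : T ^ 2 / 2 ≤ (X : ℝ) - 1 := by nlinarith
  have hX0 : (0 : ℝ) < X := by nlinarith
  have hXn : 1 ≤ X := by
    have : 0 < X := by exact_mod_cast hX0
    omega
  have hlogX : Real.log X ≤ 2 * Real.log T := by
    have h := Real.log_le_log hX0 hXle
    rw [Real.log_pow] at h
    push_cast at h
    exact h
  rcases Nat.eq_zero_or_pos n with hk | hk
  · subst hk
    refine le_trans (le_of_eq ?_) zero_le
    refine (lintegral_congr fun γ => ?_).trans lintegral_zero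
    have hPQ : PQ 0 = ∅ := by
      unfold PQ
      rw [Finset.filter_eq_empty_iff]
      intro p _
      simp only [ne_eq, not_not]
      refine Prod.ext (Fin.ext ?_) (Fin.ext ?_)
      · have := p.1.2
        simp only [Prod.fst_zero, Fin.val_zero]
        omega
      · have := p.2.2
        simp only [Prod.snd_zero, Fin.val_zero]
        omega
    have : GMr M a b (U + γ) 0 = zrr a b (U + γ) := by
      unfold GMr zrr
      rw [hPQ]
      simp
    rw [this]
    simp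
  have hHT1 : H ≤ T₁ := by
    have := hU (Sum.inl ⟨0, hk⟩)
    linarith [this.1, this.2]
  have hHT : H ≤ T := by linarith
  have hMT : (M : ℝ) ≤ T := by linarith
  have hMX : M ≤ X := by
    have : (M : ℝ) ≤ X := by nlinarith
    exact_mod_cast this
  set K : ℝ := 5 * Real.log T with hK
  have hK1 : 1 ≤ K := by rw [hK]; linarith
  have hlogM : Real.log M ≤ Real.log T := Real.log_le_log hM0 hMT
  have hzN : ∀ v : ℝ, ‖zN M (1 + I * v)‖ ≤ K := fun v => (zN_le M v).trans (by rw [hK]; linarith)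
  have hz : ∀ v : ℝ, 1 ≤ |v| → |v| ≤ T → ‖riemannZeta (1 + I * v)‖ ≤ K := by
    intro v hv1 hv2
    have h1 := approx hT hX1 hv1 hv2
    have h2 := norm_zN_le X v
    have h3 : 1 / |v| ≤ 1 := by rw [div_le_one (by linarith)]; exact hv1
    have h4 : 3 / T ≤ 1 := by rw [div_le_one hT0]; exact hT
    have h5 : ‖riemannZeta (1 + I * v)‖ ≤
        ‖riemannZeta (1 + I * v) - zN X (1 + I * v)‖ + ‖zN X (1 + I * v)‖ := by
      have := norm_add_le (riemannZeta (1 + I * v) - zN X (1 + I * v)) (zN X (1 + I * v))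
      rwa [sub_add_cancel] at this
    rw [hK]
    linarith
  set A : ℝ := BF (n + 1) (1 / 8) ^ 2 * K ^ (2 * c) * c with hA
  have hA0 : 0 ≤ A := by rw [hA]; positivity
  set G : ℝ → ℝ≥0∞ := fun v => ENNReal.ofReal (g M X H v) with hG
  have hGm : Measurable G := (g_cont M X H).measurable.ennreal_ofReal
  -- the pointwise bound
  have hpt : ∀ θ ∈ SepF a b H U, ENNReal.ofReal (‖GMr M a b (U + θ) 0 - zrr a b (U + θ)‖ ^ 2) ≤
      ENNReal.ofReal A * ∑ p ∈ PQ n, G (vv a b (U + θ) p) := by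
    intro θ hθ
    have hvb := fun p hp => vv_bd hU hθ p hp
    set δ : Fin n ⊕ Fin n → ℝ := U + θ with hδ
    set v : Fin (n + 1) × Fin (n + 1) → ℝ := fun p => vv a b δ p with hv
    have hv1 : ∀ p ∈ PQ n, H ^ (1 / 2 : ℝ) ≤ |v p| := fun p hp => (hvb p hp).1
    have hv2 : ∀ p ∈ PQ n, |v p| ≤ T := fun p hp => (hvb p hp).2
    have e1 : GMr M a b δ 0 = FH (fun j => (gc a b δ (Sum.inl j) : ℂ))
        (fun j => (gc a b δ (Sum.inr j) : ℂ)) * ∏ p ∈ PQ n, zN M (1 + I * (v p : ℂ)) := by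
      unfold GMr
      simp [hv, vv]
    have e2 : zrr a b δ = FH (fun j => (gc a b δ (Sum.inl j) : ℂ))
        (fun j => (gc a b δ (Sum.inr j) : ℂ)) * ∏ p ∈ PQ n, riemannZeta (1 + I * (v p : ℂ)) := by
      unfold zrr
      simp [hv, vv]
    have hFH : ‖FH (fun j => (gc a b δ (Sum.inl j) : ℂ)) (fun j => (gc a b δ (Sum.inr j) : ℂ))‖ ≤
        BF (n + 1) (1 / 8) := by
      refine FH_le (by norm_num) fun j => ?_
      simp
    have hz' : ∀ p ∈ PQ n, ‖riemannZeta (1 + I * (v p : ℂ))‖ ≤ K := fun p hp =>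
      hz (v p) (hr1.trans (hv1 p hp)) (hv2 p hp)
    have h2 := prod_sub_le (PQ n) (fun p => zN M (1 + I * (v p : ℂ)))
      (fun p => riemannZeta (1 + I * (v p : ℂ))) hK1 (fun p _ => hzN (v p)) (fun p hp => hz' p hp)
    rw [← hc] at h2
    have h3 : ‖GMr M a b δ 0 - zrr a b δ‖ ≤ BF (n + 1) (1 / 8) * (K ^ c *
        ∑ p ∈ PQ n, ‖zN M (1 + I * (v p : ℂ)) - riemannZeta (1 + I * (v p : ℂ))‖) := by
      rw [e1, e2, ← mul_sub, norm_mul]
      exact mul_le_mul hFH h2 (norm_nonneg _) hBF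
    have h4 : (∑ p ∈ PQ n,
        ‖zN M (1 + I * (v p : ℂ)) - riemannZeta (1 + I * (v p : ℂ))‖) ^ 2 ≤
        c * ∑ p ∈ PQ n, hh M (v p) := by
      have := sq_sum_le_card_mul_sum_sq (s := PQ n)
        (f := fun p => ‖zN M (1 + I * (v p : ℂ)) - riemannZeta (1 + I * (v p : ℂ))‖)
      rw [← hc] at this
      refine this.trans (le_of_eq ?_)
      congr 1
      refine Finset.sum_congr rfl fun p _ => ?_
      unfold hh
      rw [norm_sub_rev]
    have h5 : ‖GMr M a b δ 0 - zrr a b δ‖ ^ 2 ≤ A * ∑ p ∈ PQ n, hh M (v p) := by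
      calc ‖GMr M a b δ 0 - zrr a b δ‖ ^ 2 ≤ (BF (n + 1) (1 / 8) * (K ^ c *
            ∑ p ∈ PQ n, ‖zN M (1 + I * (v p : ℂ)) - riemannZeta (1 + I * (v p : ℂ))‖)) ^ 2 :=
            pow_le_pow_left₀ (norm_nonneg _) h3 2
        _ = BF (n + 1) (1 / 8) ^ 2 * K ^ (2 * c) * (∑ p ∈ PQ n,
              ‖zN M (1 + I * (v p : ℂ)) - riemannZeta (1 + I * (v p : ℂ))‖) ^ 2 := by
            rw [mul_comm 2 c, pow_mul]; ring
        _ ≤ BF (n + 1) (1 / 8) ^ 2 * K ^ (2 * c) * (c *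
              ∑ p ∈ PQ n, hh M (v p)) :=
            mul_le_mul_of_nonneg_left h4 (by positivity)
        _ = _ := by rw [hA]; ring
    calc ENNReal.ofReal (‖GMr M a b δ 0 - zrr a b δ‖ ^ 2)
        ≤ ENNReal.ofReal (A * ∑ p ∈ PQ n, hh M (v p)) := ENNReal.ofReal_le_ofReal h5
      _ = ENNReal.ofReal A * ∑ p ∈ PQ n, ENNReal.ofReal (hh M (v p)) := by
          rw [ENNReal.ofReal_mul hA0, ENNReal.ofReal_sum_of_nonneg fun p _ => hh_nonneg M _]
      _ ≤ _ := by
          gcongr with p hp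
          exact ENNReal.ofReal_le_ofReal (hh_le hT hX1 hMX hH1 hHT (hv1 p hp) (hv2 p hp))
  have hmeas : ∀ p, Measurable fun θ : Fin n ⊕ Fin n → ℝ => G (vv a b (U + θ) p) := fun p =>
    hGm.comp (vv_meas a b U p)
  have hmeasS : Measurable fun θ : Fin n ⊕ Fin n → ℝ => ENNReal.ofReal A *
      ∑ p ∈ PQ n, G (vv a b (U + θ) p) :=
    (Finset.measurable_fun_sum _ fun p _ => hmeas p).const_mul _
  have hMH' : (M : ℝ) ≤ H := hMH.trans hrH
  have hW := g_int hC hMV hL hXn hlogX hM hMX hH1 hMH'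
  calc ∫⁻ θ in SepF a b H U, ENNReal.ofReal (‖GMr M a b (U + θ) 0 - zrr a b (U + θ)‖ ^ 2)
        ∂(mP (Fin n ⊕ Fin n) H)
      ≤ ∫⁻ θ in SepF a b H U, ENNReal.ofReal A * ∑ p ∈ PQ n, G (vv a b (U + θ) p)
            ∂(mP (Fin n ⊕ Fin n) H) := setLIntegral_mono hmeasS hpt
    _ ≤ ∫⁻ θ, ENNReal.ofReal A * ∑ p ∈ PQ n, G (vv a b (U + θ) p)
            ∂(mP (Fin n ⊕ Fin n) H) := setLIntegral_le_lintegral _ _
    _ = ENNReal.ofReal A * ∑ p ∈ PQ n, ∫⁻ θ, G (vv a b (U + θ) p) ∂(mP (Fin n ⊕ Fin n) H) := by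
        rw [lintegral_const_mul _ (Finset.measurable_fun_sum _ fun p _ => hmeas p),
          lintegral_finsetSum _ fun p _ => hmeas p]
    _ ≤ ENNReal.ofReal A * ∑ p ∈ PQ n,
          ENNReal.ofReal ((32 + 72 * C) * Real.log T ^ 3 * (H / M) * H ^ (2 * n - 1)) := by
        gcongr with p hp
        obtain ⟨q, hq⟩ := vv_upd a b U p hp
        refine (fubR (fun θ => vv a b (U + θ) p) (vv_meas a b U p) q hq hGm hW).trans ?_
        have e1 : Fintype.card (Fin n ⊕ Fin n) - 1 = 2 * n - 1 := by simp; omega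
        rw [e1, ENNReal.ofReal_mul (q := H ^ (2 * n - 1)) (by positivity),
          ENNReal.ofReal_pow hH0.le]
    _ ≤ ENNReal.ofReal ((D + 1) * 2 ^ B * Real.log T₁ ^ B * H ^ (2 * n) / M) := by
        rw [Finset.sum_const, ← hc,
          nsmul_eq_mul, ← ENNReal.ofReal_natCast, ← ENNReal.ofReal_mul (by positivity),
          ← ENNReal.ofReal_mul hA0]
        refine ENNReal.ofReal_le_ofReal ?_
        have e2 : H * H ^ (2 * n - 1) = H ^ (2 * n) := by
          rw [← pow_succ']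
          congr 1
          omega
        have e3 : A * ((c : ℝ) *
            ((32 + 72 * C) * Real.log T ^ 3 * (H / M) * H ^ (2 * n - 1))) =
            D * Real.log T ^ B * H ^ (2 * n) / M := by
          rw [← e2, hA, hD, hK, hB, mul_pow, pow_add]
          ring
        rw [e3]
        have e4 : Real.log T ^ B ≤ 2 ^ B * Real.log T₁ ^ B := by
          rw [← mul_pow]
          exact pow_le_pow_left₀ (by linarith) hLT B
        have e5 : 0 ≤ Real.log T ^ B := pow_nonneg (by linarith) B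
        have e6 : D * Real.log T ^ B ≤ (D + 1) * 2 ^ B * Real.log T₁ ^ B := by
          calc D * Real.log T ^ B ≤ (D + 1) * (2 ^ B * Real.log T₁ ^ B) :=
                mul_le_mul (by linarith) e4 e5 (by linarith)
            _ = (D + 1) * 2 ^ B * Real.log T₁ ^ B := by ring
        gcongr

end

end Pool.Agent.T2H54.TP.ZMR

theorem Pool.Agent.T2H54.TP.t_ZMR : Pool.Agent.T2H54.TP.S_ZMR := Pool.Agent.T2H54.TP.ZMR.t_ZMR
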