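import Pool.Agent.T2H54.TP.Stm
import Pool.Agent.Y379.GP.Sp

set_option autoImplicit false

namespace Pool.Agent.T2H54.TP

open Complex Filter Topology MeasureTheory Set
open Pool.Agent.TH612.CF Pool.Agent.TH612.GS Pool.Agent.T2H54.SB
open Pool.Agent.Y969.GP (V ht lam PS FR)

namespace SPCp

lemma mem_PS {X : ℕ} {p : ℕ × ℕ} : p ∈ PS X ↔ 1 ≤ p.1 ∧ 1 ≤ p.2 ∧ p.1 * p.2 ≤ X := by
  unfold PS
  rw [Finset.mem_filter, Finset.mem_product, Finset.mem_Icc, Finset.mem_Icc]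
  constructor
  · rintro ⟨⟨⟨h1, _⟩, h2, _⟩, h3⟩
    exact ⟨h1, h2, h3⟩
  · rintro ⟨h1, h2, h3⟩
    refine ⟨⟨⟨h1, ?_⟩, h2, ?_⟩, h3⟩
    · nlinarith
    · nlinarith

lemma mem_FR {X : ℕ} {p : ℕ × ℕ} :
    p ∈ FR X ↔ (1 ≤ p.1 ∧ 1 ≤ p.2 ∧ p.1 * p.2 ≤ X) ∧ Nat.Coprime p.1 p.2 := by
  unfold FR
  rw [Finset.mem_filter, mem_PS]

/-- the summand -/
noncomputable def Hs (q p : ℕ × ℕ) : ℝ := (√(ht p))⁻¹ / |lam p - lam q|

lemma Hs_nonneg (q p : ℕ × ℕ) : 0 ≤ Hs q p := by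
  unfold Hs
  positivity

/-- the reduction -/
def red (p : ℕ × ℕ) : ℕ × (ℕ × ℕ) :=
  (Nat.gcd p.1 p.2, (p.1 / Nat.gcd p.1 p.2, p.2 / Nat.gcd p.1 p.2))

lemma red_inj : Function.Injective red := by
  intro p p' h
  unfold red at h
  simp only [Prod.mk.injEq] at h
  obtain ⟨h1, h2, h3⟩ := h
  refine Prod.ext ?_ ?_
  · rw [← Nat.div_mul_cancel (Nat.gcd_dvd_left p.1 p.2), h2, h1,
      Nat.div_mul_cancel (Nat.gcd_dvd_left p'.1 p'.2)]
  · rw [← Nat.div_mul_cancel (Nat.gcd_dvd_right p.1 p.2), h3, h1,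
      Nat.div_mul_cancel (Nat.gcd_dvd_right p'.1 p'.2)]

lemma ht_mul (g : ℕ) (p : ℕ × ℕ) : ht (g * p.1, g * p.2) = (g : ℝ) ^ 2 * ht p := by
  unfold ht
  push_cast
  ring

lemma lam_mul (g : ℕ) (p : ℕ × ℕ) (hg : 1 ≤ g) (h1 : 1 ≤ p.1) (h2 : 1 ≤ p.2) :
    lam (g * p.1, g * p.2) = lam p := by
  unfold lam
  have a1 : (g : ℝ) ≠ 0 := by positivity
  have a2 : (p.1 : ℝ) ≠ 0 := by positivity
  have a3 : (p.2 : ℝ) ≠ 0 := by positivity
  push_cast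
  rw [Real.log_mul a1 a2, Real.log_mul a1 a3]
  ring

lemma Hs_mul (q : ℕ × ℕ) (g : ℕ) (p : ℕ × ℕ) (hg : 1 ≤ g) (h1 : 1 ≤ p.1) (h2 : 1 ≤ p.2) :
    Hs q (g * p.1, g * p.2) = (g : ℝ)⁻¹ * Hs q p := by
  unfold Hs
  rw [ht_mul, lam_mul g p hg h1 h2, Real.sqrt_mul (by positivity), Real.sqrt_sq (by positivity),
    mul_inv, mul_div_assoc]

lemma group (X : ℕ) (q : ℕ × ℕ) :
    ∑ p ∈ (PS X).filter (fun p => p.1 * q.2 ≠ p.2 * q.1), Hs q p ≤
      (∑ g ∈ Finset.Icc 1 X, (g : ℝ)⁻¹) * ∑ p ∈ (FR X).filter (fun p => p ≠ q), Hs q p := by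
  classical
  have h1 : ∀ p ∈ (PS X).filter (fun p => p.1 * q.2 ≠ p.2 * q.1),
      Hs q p = ((red p).1 : ℝ)⁻¹ * Hs q (red p).2 := by
    intro p hp
    rw [Finset.mem_filter, mem_PS] at hp
    obtain ⟨⟨hp1, hp2, hp3⟩, -⟩ := hp
    have hg : 0 < Nat.gcd p.1 p.2 := Nat.gcd_pos_of_pos_left _ hp1
    have e1 : Nat.gcd p.1 p.2 * (p.1 / Nat.gcd p.1 p.2) = p.1 :=
      Nat.mul_div_cancel' (Nat.gcd_dvd_left _ _)
    have e2 : Nat.gcd p.1 p.2 * (p.2 / Nat.gcd p.1 p.2) = p.2 :=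
      Nat.mul_div_cancel' (Nat.gcd_dvd_right _ _)
    have h := Hs_mul q (Nat.gcd p.1 p.2) (p.1 / Nat.gcd p.1 p.2, p.2 / Nat.gcd p.1 p.2) hg
      (Nat.div_pos (Nat.gcd_le_left _ hp1) hg) (Nat.div_pos (Nat.gcd_le_right _ hp2) hg)
    rw [e1, e2] at h
    exact h
  rw [Finset.sum_congr rfl h1, ← Finset.sum_image (f := fun x : ℕ × (ℕ × ℕ) =>
    (x.1 : ℝ)⁻¹ * Hs q x.2) (g := red) (fun a _ b _ h => red_inj h), Finset.sum_mul_sum,
    ← Finset.sum_product']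
  refine Finset.sum_le_sum_of_subset_of_nonneg ?_ fun x _ _ => ?_
  · intro x hx
    rw [Finset.mem_image] at hx
    obtain ⟨p, hp, rfl⟩ := hx
    rw [Finset.mem_filter, mem_PS] at hp
    obtain ⟨⟨hp1, hp2, hp3⟩, hne⟩ := hp
    have hg : 0 < Nat.gcd p.1 p.2 := Nat.gcd_pos_of_pos_left _ hp1
    have e1 : Nat.gcd p.1 p.2 * (p.1 / Nat.gcd p.1 p.2) = p.1 :=
      Nat.mul_div_cancel' (Nat.gcd_dvd_left _ _)
    have e2 : Nat.gcd p.1 p.2 * (p.2 / Nat.gcd p.1 p.2) = p.2 :=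
      Nat.mul_div_cancel' (Nat.gcd_dvd_right _ _)
    have b1 : 0 < p.1 / Nat.gcd p.1 p.2 := Nat.div_pos (Nat.gcd_le_left _ hp1) hg
    have b2 : 0 < p.2 / Nat.gcd p.1 p.2 := Nat.div_pos (Nat.gcd_le_right _ hp2) hg
    unfold red
    rw [Finset.mem_product, Finset.mem_Icc, Finset.mem_filter, mem_FR]
    refine ⟨⟨hg, ?_⟩, ⟨⟨b1, b2, ?_⟩, ?_⟩, ?_⟩
    · show Nat.gcd p.1 p.2 ≤ X
      have := Nat.gcd_le_left p.2 hp1
      nlinarith
    · show p.1 / Nat.gcd p.1 p.2 * (p.2 / Nat.gcd p.1 p.2) ≤ X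
      exact (Nat.mul_le_mul (Nat.div_le_self _ _) (Nat.div_le_self _ _)).trans hp3
    · exact Nat.coprime_div_gcd_div_gcd hg
    · intro hc
      apply hne
      have c1 : p.1 / Nat.gcd p.1 p.2 = q.1 := congrArg Prod.fst hc
      have c2 : p.2 / Nat.gcd p.1 p.2 = q.2 := congrArg Prod.snd hc
      rw [← c1, ← c2]
      calc p.1 * (p.2 / Nat.gcd p.1 p.2)
          = (Nat.gcd p.1 p.2 * (p.1 / Nat.gcd p.1 p.2)) * (p.2 / Nat.gcd p.1 p.2) := by rw [e1]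
        _ = (Nat.gcd p.1 p.2 * (p.2 / Nat.gcd p.1 p.2)) * (p.1 / Nat.gcd p.1 p.2) := by ring
        _ = p.2 * (p.1 / Nat.gcd p.1 p.2) := by rw [e2]
  · exact mul_nonneg (by positivity) (Hs_nonneg _ _)

lemma harm (X : ℕ) : ∑ g ∈ Finset.Icc 1 X, (g : ℝ)⁻¹ ≤ 1 + Real.log X := by
  have h := harmonic_le_one_add_log X
  rw [harmonic_eq_sum_Icc] at h
  push_cast at h
  exact h

lemma block {C : ℝ} (hC : 0 < C)
    (h1 : ∀ (X : ℕ) (p q : ℕ × ℕ), p ∈ FR X → q ∈ FR X → p ≠ q → 1 / (2 * (X : ℝ)) ≤ |lam p - lam q|)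
    (h2 : ∀ (X : ℕ) (T θ : ℝ), 1 ≤ X → 1 ≤ T →
      ∑ p ∈ FR X, Pool.Agent.Y969.GP.mk T (lam p - θ) ≤ C * ((T + X) * (1 + Real.log X)))
    (X : ℕ) (q : ℕ × ℕ) (hX : 1 ≤ X) (hq : q ∈ FR X) (j : ℕ) (hj : j ≤ Nat.log 2 X) :
    ∑ p ∈ ((FR X).filter (fun p => p ≠ q)).filter (fun p => Nat.log 2 (p.1 * p.2) = j), Hs q p ≤
      24 * C * (√(X : ℝ) + ht q) * (1 + Real.log X) := by
  classical
  obtain ⟨⟨hq1, hq2, hq3⟩, hq4⟩ := mem_FR.1 hq
  obtain ⟨X', hX'⟩ : ∃ X', X' = max (2 ^ (j + 1)) (q.1 * q.2) := ⟨_, rfl⟩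
  have hjX : 2 ^ j ≤ X := (Nat.pow_le_pow_right (by norm_num) hj).trans
    (Nat.pow_log_le_self 2 (by omega))
  have hX'1 : 1 ≤ X' := by
    rw [hX']
    exact le_max_of_le_left Nat.one_le_two_pow
  have hX'2 : X' ≤ 2 * X := by
    rw [hX', pow_succ]
    apply max_le
    · omega
    · omega
  have hX'3 : (X' : ℝ) ≤ 2 * 2 ^ j + ht q := by
    have : X' ≤ 2 ^ (j + 1) + q.1 * q.2 := by
      rw [hX']
      exact max_le (Nat.le_add_right _ _) (Nat.le_add_left _ _)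
    have h3 : (X' : ℝ) ≤ ((2 ^ (j + 1) + q.1 * q.2 : ℕ) : ℝ) := by exact_mod_cast this
    unfold ht
    push_cast at h3
    rw [pow_succ] at h3
    linarith
  have hqX : q ∈ FR X' := mem_FR.2 ⟨⟨hq1, hq2, by rw [hX']; exact le_max_right _ _⟩, hq4⟩
  have hsub : ((FR X).filter (fun p => p ≠ q)).filter (fun p => Nat.log 2 (p.1 * p.2) = j) ⊆
      FR X' := by
    intro p hp
    rw [Finset.mem_filter, Finset.mem_filter, mem_FR] at hp
    obtain ⟨⟨⟨⟨hp1, hp2, hp3⟩, hp4⟩, -⟩, hp5⟩ := hp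
    refine mem_FR.2 ⟨⟨hp1, hp2, ?_⟩, hp4⟩
    rw [hX']
    apply le_max_of_le_left
    rw [← hp5]
    exact (Nat.lt_pow_succ_log_self (by norm_num) _).le
  have hs0 : (0 : ℝ) < √(2 ^ j) := by positivity
  have hs1 : (1 : ℝ) ≤ √(2 ^ j) := by
    rw [Real.one_le_sqrt]
    exact one_le_pow₀ (by norm_num)
  have hX'0 : (0 : ℝ) < X' := by exact_mod_cast hX'1
  have hterm : ∀ p ∈ ((FR X).filter (fun p => p ≠ q)).filter (fun p => Nat.log 2 (p.1 * p.2) = j),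
      Hs q p ≤ (2 * (√(2 ^ j : ℝ))⁻¹) * Pool.Agent.Y969.GP.mk (2 * X') (lam p - lam q) := by
    intro p hp
    have hpX := hsub hp
    rw [Finset.mem_filter, Finset.mem_filter, mem_FR] at hp
    obtain ⟨⟨⟨⟨hp1, hp2, hp3⟩, hp4⟩, hpq⟩, hp5⟩ := hp
    have hsp := h1 X' p q hpX hqX hpq
    obtain ⟨D, hD⟩ : ∃ D, D = |lam p - lam q| := ⟨_, rfl⟩
    have hD0 : 0 < D := by
      rw [hD]
      refine lt_of_lt_of_le ?_ hsp
      positivity
    have hTD : 1 ≤ 2 * X' * D := by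
      rw [← hD, div_le_iff₀ (by positivity)] at hsp
      linarith
    unfold Hs Pool.Agent.Y969.GP.mk
    rw [← hD]
    have hht : (2 : ℝ) ^ j ≤ ht p := by
      have : 2 ^ j ≤ p.1 * p.2 := by
        rw [← hp5]
        exact Nat.pow_log_le_self 2 (Nat.mul_pos hp1 hp2).ne'
      unfold ht
      exact_mod_cast this
    have a1 : (√(ht p))⁻¹ ≤ (√(2 ^ j : ℝ))⁻¹ := by
      rw [inv_le_inv₀ (Real.sqrt_pos.2 (lt_of_lt_of_le (by positivity) hht)) hs0]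
      exact Real.sqrt_le_sqrt hht
    have a2 : 1 / D ≤ 2 * (2 * X' / (1 + 2 * X' * D)) := by
      rw [← mul_div_assoc, div_le_div_iff₀ hD0 (by positivity)]
      linarith
    calc (√(ht p))⁻¹ / D = (√(ht p))⁻¹ * (1 / D) := by ring
      _ ≤ (√(2 ^ j : ℝ))⁻¹ * (2 * (2 * X' / (1 + 2 * X' * D))) :=
          mul_le_mul a1 a2 (by positivity) (by positivity)
      _ = _ := by ring
  have hmk : ∀ p : ℕ × ℕ, 0 ≤ Pool.Agent.Y969.GP.mk (2 * X') (lam p - lam q) := by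
    intro p
    unfold Pool.Agent.Y969.GP.mk
    positivity
  have h3 := h2 X' (2 * X') (lam q) hX'1 (by
    have : (1 : ℝ) ≤ X' := by exact_mod_cast hX'1
    linarith)
  have hlX : Real.log X' ≤ 1 + Real.log X := by
    have hX0 : (0 : ℝ) < X := by exact_mod_cast hX
    have b1 : (X' : ℝ) ≤ 2 * X := by exact_mod_cast hX'2
    have b2 := Real.log_le_log hX'0 b1
    rw [Real.log_mul (by norm_num) hX0.ne'] at b2
    have b3 : Real.log 2 ≤ 1 := by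
      have := Real.log_two_lt_d9
      linarith
    linarith
  have hlog : 0 ≤ Real.log X := Real.log_natCast_nonneg X
  have hsX : √(2 ^ j : ℝ) ≤ √(X : ℝ) := by
    apply Real.sqrt_le_sqrt
    exact_mod_cast hjX
  have hht0 : 0 ≤ ht q := by unfold ht; positivity
  calc ∑ p ∈ ((FR X).filter (fun p => p ≠ q)).filter (fun p => Nat.log 2 (p.1 * p.2) = j), Hs q p
      ≤ ∑ p ∈ ((FR X).filter (fun p => p ≠ q)).filter (fun p => Nat.log 2 (p.1 * p.2) = j),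
        (2 * (√(2 ^ j : ℝ))⁻¹) * Pool.Agent.Y969.GP.mk (2 * X') (lam p - lam q) := Finset.sum_le_sum hterm
    _ ≤ ∑ p ∈ FR X', (2 * (√(2 ^ j : ℝ))⁻¹) * Pool.Agent.Y969.GP.mk (2 * X') (lam p - lam q) :=
        Finset.sum_le_sum_of_subset_of_nonneg hsub fun p _ _ =>
          mul_nonneg (by positivity) (hmk p)
    _ = (2 * (√(2 ^ j : ℝ))⁻¹) * ∑ p ∈ FR X', Pool.Agent.Y969.GP.mk (2 * X') (lam p - lam q) :=
        (Finset.mul_sum _ _ _).symm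
    _ ≤ (2 * (√(2 ^ j : ℝ))⁻¹) * (C * ((2 * X' + X') * (1 + Real.log X'))) :=
        mul_le_mul_of_nonneg_left h3 (by positivity)
    _ = 6 * C * ((√(2 ^ j : ℝ))⁻¹ * X') * (1 + Real.log X') := by ring
    _ ≤ 6 * C * (2 * √(X : ℝ) + ht q) * (2 * (1 + Real.log X)) := by
        have c1 : (√(2 ^ j : ℝ))⁻¹ * X' ≤ 2 * √(X : ℝ) + ht q := by
          rw [inv_mul_le_iff₀ hs0]
          have c2 : (2 : ℝ) ^ j = √(2 ^ j : ℝ) * √(2 ^ j : ℝ) :=
            (Real.mul_self_sqrt (by positivity)).symm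
          have c3 : 2 * (2 : ℝ) ^ j ≤ √(2 ^ j : ℝ) * (2 * √(X : ℝ)) := by
            nlinarith
          have c4 : ht q ≤ √(2 ^ j : ℝ) * ht q := le_mul_of_one_le_left hht0 hs1
          rw [mul_add]
          linarith
        have c5 : 0 ≤ 1 + Real.log (X' : ℝ) := by
          have := Real.log_natCast_nonneg X'
          linarith
        refine mul_le_mul (mul_le_mul_of_nonneg_left c1 (by positivity)) (by linarith) c5
          (by positivity)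
    _ ≤ 24 * C * (√(X : ℝ) + ht q) * (1 + Real.log X) := by
        have c6 : 0 ≤ C * ht q * (1 + Real.log X) := by positivity
        nlinarith

end SPCp

theorem t_SPC : S_SPC := by
  classical
  obtain ⟨h1, C, hC, h2⟩ := Pool.Agent.Y379.GP.t_SP
  refine ⟨48 * C, by positivity, fun X q hX hq => ?_⟩
  have hg := SPCp.group X q
  have hlog : 0 ≤ Real.log X := Real.log_natCast_nonneg X
  have hht0 : 0 ≤ ht q := by unfold Pool.Agent.Y969.GP.ht; positivity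
  have hfib : ∑ p ∈ (FR X).filter (fun p => p ≠ q), SPCp.Hs q p =
      ∑ j ∈ Finset.range (Nat.log 2 X + 1),
        ∑ p ∈ ((FR X).filter (fun p => p ≠ q)).filter (fun p => Nat.log 2 (p.1 * p.2) = j),
          SPCp.Hs q p := by
    refine (Finset.sum_fiberwise_of_maps_to (fun p hp => ?_) _).symm
    rw [Finset.mem_filter, SPCp.mem_FR] at hp
    rw [Finset.mem_range]
    exact Nat.lt_succ_of_le (Nat.log_mono_right hp.1.1.2.2)
  have hb : ∑ p ∈ (FR X).filter (fun p => p ≠ q), SPCp.Hs q p ≤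
      (2 * (1 + Real.log X)) * (24 * C * (√(X : ℝ) + ht q) * (1 + Real.log X)) := by
    rw [hfib]
    refine (Finset.sum_le_card_nsmul _ _ (24 * C * (√(X : ℝ) + ht q) * (1 + Real.log X))
      fun j hj => SPCp.block hC h1 h2 X q hX hq j (by
        rw [Finset.mem_range] at hj; omega)).trans ?_
    rw [Finset.card_range, nsmul_eq_mul]
    refine mul_le_mul_of_nonneg_right ?_ (by positivity)
    have h3 : (Nat.log 2 X : ℝ) ≤ Real.logb 2 X := Real.natLog_le_logb X 2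
    have h4 : Real.logb 2 X ≤ 2 * Real.log X := by
      unfold Real.logb
      rw [div_le_iff₀ (Real.log_pos (by norm_num))]
      have := Real.log_two_gt_d9
      nlinarith
    push_cast
    linarith
  have hH : 0 ≤ ∑ p ∈ (FR X).filter (fun p => p ≠ q), SPCp.Hs q p :=
    Finset.sum_nonneg fun p _ => SPCp.Hs_nonneg q p
  calc ∑ p ∈ (PS X).filter (fun p => p.1 * q.2 ≠ p.2 * q.1), (√(ht p))⁻¹ / |lam p - lam q|
      ≤ (∑ g ∈ Finset.Icc 1 X, (g : ℝ)⁻¹) * ∑ p ∈ (FR X).filter (fun p => p ≠ q),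
        SPCp.Hs q p := hg
    _ ≤ (1 + Real.log X) * ∑ p ∈ (FR X).filter (fun p => p ≠ q), SPCp.Hs q p :=
        mul_le_mul_of_nonneg_right (SPCp.harm X) hH
    _ ≤ (1 + Real.log X) * ((2 * (1 + Real.log X)) *
        (24 * C * (√(X : ℝ) + ht q) * (1 + Real.log X))) :=
        mul_le_mul_of_nonneg_left hb (by positivity)
    _ = 48 * C * (√(X : ℝ) + ht q) * (1 + Real.log X) ^ 3 := by ring

end Pool.Agent.T2H54.TP
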