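import Pool.Agent.T2H54.TP.Stm

/-! Package TAB : the general fixed pair (helper57) -/

set_option autoImplicit false

namespace Pool.Agent.T2H54.TP

open Complex Filter Topology MeasureTheory Set
open Pool.Agent.TH612.CF Pool.Agent.TH612.GS Pool.Agent.T2H54.SB

noncomputable section

namespace PkgTAB

lemma Bab_eq (a b t : ℝ) : Bab a b t = Pd (b - a) (t + a) := by
  unfold Bab Pd
  rw [show t + a + (b - a) = t + b by ring]

lemma Xab_eq (a b t : ℝ) : Xab a b t = Xd (b - a) (t + a) := by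
  unfold Xab Xd
  rw [show t + a + (b - a) = t + b by ring]

lemma Bab_cont (a b : ℝ) : Continuous (Bab a b) := by
  unfold Bab
  exact (z_cont.comp (by fun_prop)).mul (Complex.continuous_conj.comp (z_cont.comp (by fun_prop)))

lemma Xab_norm (a b t : ℝ) : ‖Xab a b t‖ = 1 := by
  unfold Xab
  rw [norm_mul, Pool.Agent.TH805.GS.norm_chi]
  have h := Pool.Agent.TH805.GS.norm_chi (-(t + b))
  rw [show (1 / 2 : ℂ) - I * ((t + b : ℝ) : ℂ) = 1 / 2 + I * ((-(t + b) : ℝ) : ℂ) by push_cast; ring, h, one_mul]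

lemma Xab_cont (a b : ℝ) : Continuous (Xab a b) := by
  unfold Xab
  have h := Pool.Agent.TH805.GS.cont_chi
  apply Continuous.mul
  · exact h.comp (g := fun u : ℝ => chi (1 / 2 + I * (u : ℂ))) (f := fun t : ℝ => t + a) (by fun_prop)
  · have h2 := h.comp (g := fun u : ℝ => chi (1 / 2 + I * (u : ℂ))) (f := fun t : ℝ => -(t + b)) (by fun_prop)
    refine h2.congr fun t => ?_
    simp only [Function.comp_apply]
    congr 1
    push_cast
    ring

lemma kap_norm (a b : ℝ) {l m : ℕ} (hl : 1 ≤ l) (hm : 1 ≤ m) : ‖kap a b l m‖ ≤ 1 := by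
  unfold kap
  have hl0 : (0 : ℝ) < l := by exact_mod_cast hl
  have hm0 : (0 : ℝ) < m := by exact_mod_cast hm
  have e1 : ‖(m : ℂ) ^ (-(I * a))‖ = 1 := by
    rw [Complex.norm_natCast_cpow_of_pos (by omega)]
    simp
  have e2 : ‖(l : ℂ) ^ (I * b)‖ = 1 := by
    rw [Complex.norm_natCast_cpow_of_pos (by omega)]
    simp
  rw [norm_mul, norm_mul, e1, e2, mul_one, mul_one, Complex.norm_real, Real.norm_eq_abs,
    abs_of_nonneg (Real.rpow_nonneg (by positivity) _)]
  apply Real.rpow_le_one_of_one_le_of_nonpos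
  · have h1 : (1 : ℝ) ≤ l := by exact_mod_cast hl
    have h2 : (1 : ℝ) ≤ m := by exact_mod_cast hm
    nlinarith
  · norm_num

/-- multiplication by `e(-aΛ)` -/
lemma kap_shift (a b c : ℝ) {l m : ℕ} (hl : 1 ≤ l) (hm : 1 ≤ m) :
    cexp (-(I * ((c * (Real.log m - Real.log l) : ℝ) : ℂ))) * kap a b l m = kap (a + c) (b + c) l m := by
  have hl0 : (l : ℂ) ≠ 0 := by exact_mod_cast (by omega : l ≠ 0)
  have hm0 : (m : ℂ) ≠ 0 := by exact_mod_cast (by omega : m ≠ 0)
  unfold kap
  rw [Complex.cpow_def_of_ne_zero hl0, Complex.cpow_def_of_ne_zero hm0, Complex.cpow_def_of_ne_zero hl0,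
    Complex.cpow_def_of_ne_zero hm0, ← Complex.natCast_log, ← Complex.natCast_log]
  rw [mul_assoc, mul_assoc, ← Complex.exp_add, ← Complex.exp_add, mul_left_comm, ← Complex.exp_add]
  congr 2
  push_cast
  ring

end PkgTAB

open PkgTAB in
theorem t_TAB (hTSM : S_TSM) : S_TAB := by
  intro a b hab
  have hd : b - a ≠ 0 := sub_ne_zero.mpr (Ne.symm hab)
  obtain ⟨C, T₀, hC, hT₀, H⟩ := hTSM (b - a) hd
  set A1 : ℝ := 16 + |b - a| with hA1
  set K : ℝ := A1 + |a| with hK
  have hK0 : 0 < K := by rw [hK, hA1]; positivity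
  -- bound of the fixed pair
  obtain ⟨M, hM⟩ := (isCompact_Icc (a := (0 : ℝ)) (b := K)).exists_bound_of_continuousOn (Bab_cont a b).continuousOn
  have hM0 : 0 ≤ M := (norm_nonneg _).trans (hM 0 ⟨le_refl _, hK0.le⟩)
  set Z1 : ℝ := ‖riemannZeta (1 + I * ((a - b : ℝ) : ℂ))‖ with hZ1
  set Z2 : ℝ := ‖riemannZeta (1 - I * ((a - b : ℝ) : ℂ))‖ with hZ2
  have hZ10 : 0 ≤ Z1 := norm_nonneg _
  have hZ20 : 0 ≤ Z2 := norm_nonneg _
  refine ⟨2 * C + K * (M + Z1 + Z2) + 1, max T₀ (|a| + 2), by positivity, le_max_of_le_left hT₀, ?_⟩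
  intro T S l m hT hS hST hl hm hcop hlm
  have hT1 : T₀ ≤ T := le_trans (le_max_left _ _) hT
  have hT2 : |a| + 2 ≤ T := le_trans (le_max_right _ _) hT
  have ha0 := abs_nonneg a
  have hTpos : 0 < T := by linarith
  set Λ : ℝ := Real.log m - Real.log l with hΛ
  set c1 : ℂ := kap a b l m * riemannZeta (1 + I * ((a - b : ℝ) : ℂ)) with hc1
  set c2 : ℂ := kap b a l m * riemannZeta (1 - I * ((a - b : ℝ) : ℂ)) with hc2
  set f : ℝ → ℂ := fun t => Bab a b t * cexp (I * ((t * Λ : ℝ) : ℂ)) - (c1 + c2 * Xab a b t) with hf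
  have hexpc : Continuous fun t : ℝ => cexp (I * ((t * Λ : ℝ) : ℂ)) := by fun_prop
  have hexpn : ∀ t : ℝ, ‖cexp (I * ((t * Λ : ℝ) : ℂ))‖ = 1 := by
    intro t
    rw [mul_comm, Complex.norm_exp_ofReal_mul_I]
  have hfc : Continuous f := by
    rw [hf]
    exact ((Bab_cont a b).mul hexpc).sub (continuous_const.add (continuous_const.mul (Xab_cont a b)))
  -- the expression as an integral
  have hint : ∀ u v : ℝ, ∫ t in u..v, f t = (∫ t in u..v, Bab a b t * cexp (I * ((t * Λ : ℝ) : ℂ))) -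
      (c1 * ((v - u : ℝ) : ℂ) + c2 * ∫ t in u..v, Xab a b t) := by
    intro u v
    have i1 : IntervalIntegrable (fun t => Bab a b t * cexp (I * ((t * Λ : ℝ) : ℂ))) volume u v :=
      ((Bab_cont a b).mul hexpc).intervalIntegrable _ _
    have i2 : IntervalIntegrable (fun t => c2 * Xab a b t) volume u v :=
      (continuous_const.mul (Xab_cont a b)).intervalIntegrable _ _
    have i3 : IntervalIntegrable (fun t => c1 + c2 * Xab a b t) volume u v :=
      (continuous_const.add (continuous_const.mul (Xab_cont a b))).intervalIntegrable _ _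
    have i4 : IntervalIntegrable (fun _ : ℝ => c1) volume u v := continuous_const.intervalIntegrable _ _
    have e1 : ∫ t in u..v, f t = (∫ t in u..v, Bab a b t * cexp (I * ((t * Λ : ℝ) : ℂ))) -
        ∫ t in u..v, (c1 + c2 * Xab a b t) := intervalIntegral.integral_sub i1 i3
    have e2 : ∫ t in u..v, (c1 + c2 * Xab a b t) = (∫ t in u..v, c1) + ∫ t in u..v, c2 * Xab a b t :=
      intervalIntegral.integral_add i4 i2
    rw [e1, e2, intervalIntegral.integral_const, intervalIntegral.integral_const_mul, real_smul]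
    ring
  have h0 := hint 0 S
  rw [sub_zero] at h0
  rw [← h0]
  have hn1 : ‖c1‖ ≤ Z1 := by
    rw [hc1, norm_mul]
    exact mul_le_of_le_one_left (norm_nonneg _) (kap_norm a b hl hm)
  have hn2 : ‖c2‖ ≤ Z2 := by
    rw [hc2, norm_mul]
    exact mul_le_of_le_one_left (norm_nonneg _) (kap_norm b a hl hm)
  have hfb : ∀ t, 0 ≤ t → t ≤ K → ‖f t‖ ≤ M + Z1 + Z2 := by
    intro t ht1 ht2
    calc ‖f t‖ ≤ ‖Bab a b t * cexp (I * ((t * Λ : ℝ) : ℂ))‖ + ‖c1 + c2 * Xab a b t‖ := norm_sub_le _ _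
      _ ≤ M + (Z1 + Z2) := by
        apply add_le_add
        · rw [norm_mul, hexpn, mul_one]
          exact hM t ⟨ht1, ht2⟩
        · refine (norm_add_le _ _).trans (add_le_add hn1 ?_)
          rw [norm_mul, Xab_norm, mul_one]
          exact hn2
      _ = _ := by ring
  -- the bounded part
  have hsmall : ∀ v, 0 ≤ v → v ≤ K → ‖∫ t in (0:ℝ)..v, f t‖ ≤ K * (M + Z1 + Z2) := by
    intro v hv1 hv2
    have h1 := intervalIntegral.norm_integral_le_of_norm_le_const (a := (0 : ℝ)) (b := v) (C := M + Z1 + Z2)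
      (f := f) (by
        intro t ht
        rw [uIoc_of_le hv1] at ht
        exact hfb t ht.1.le (ht.2.trans hv2))
    rw [sub_zero, abs_of_nonneg hv1] at h1
    refine h1.trans ?_
    rw [mul_comm]
    exact mul_le_mul_of_nonneg_right hv2 (by positivity)
  have hT1' : (1 : ℝ) ≤ T := by linarith
  have hTp : (1 : ℝ) ≤ T ^ (4 / 5 : ℝ) := Real.one_le_rpow hT1' (by norm_num)
  set t0 : ℝ := max 0 (A1 - a) with ht0
  have ht00 : 0 ≤ t0 := le_max_left _ _
  have ht0K : t0 ≤ K := by
    rw [ht0]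
    apply max_le hK0.le
    rw [hK]
    have := neg_abs_le a
    linarith
  rcases le_or_gt S t0 with hSt | hSt
  · refine (hsmall S hS (hSt.trans ht0K)).trans ?_
    have h1 : 0 ≤ K * (M + Z1 + Z2) := by positivity
    calc K * (M + Z1 + Z2) ≤ (2 * C + K * (M + Z1 + Z2) + 1) * 1 := by linarith
      _ ≤ _ := mul_le_mul_of_nonneg_left hTp (by positivity)
  · have hsplit : ∫ t in (0:ℝ)..S, f t = (∫ t in (0:ℝ)..t0, f t) + ∫ t in t0..S, f t :=
      (intervalIntegral.integral_add_adjacent_intervals (hfc.intervalIntegrable _ _)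
        (hfc.intervalIntegrable _ _)).symm
    -- the main part
    have hA : A1 ≤ t0 + a := by
      have := le_max_right 0 (A1 - a)
      rw [← ht0] at this
      linarith
    have hmain := H (T + |a|) (t0 + a) (S + a) l m (by linarith) hA (by linarith)
      (by have := le_abs_self a; linarith) hl hm hcop
      (hlm.trans (Real.rpow_le_rpow hTpos.le (by linarith) (by norm_num)))
    have hTT : (T + |a|) ^ (3 / 4 : ℝ) ≤ 2 * T ^ (4 / 5 : ℝ) := by
      calc (T + |a|) ^ (3 / 4 : ℝ) ≤ (2 * T) ^ (3 / 4 : ℝ) :=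
            Real.rpow_le_rpow (by linarith) (by linarith) (by norm_num)
        _ = 2 ^ (3 / 4 : ℝ) * T ^ (3 / 4 : ℝ) := Real.mul_rpow (by norm_num) hTpos.le
        _ ≤ 2 * T ^ (4 / 5 : ℝ) := by
          apply mul_le_mul
          · calc (2 : ℝ) ^ (3 / 4 : ℝ) ≤ 2 ^ (1 : ℝ) := Real.rpow_le_rpow_of_exponent_le (by norm_num) (by norm_num)
              _ = 2 := Real.rpow_one 2
          · exact Real.rpow_le_rpow_of_exponent_le hT1' (by norm_num)
          · positivity
          · norm_num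
    have hkey : ∫ t in t0..S, f t = cexp (-(I * ((a * Λ : ℝ) : ℂ))) *
        ((∫ u in (t0 + a)..(S + a), Pd (b - a) u * cexp (I * ((u * (Real.log m - Real.log l) : ℝ) : ℂ))) -
        (kap 0 (b - a) l m * riemannZeta (1 - I * ((b - a : ℝ) : ℂ)) * (((S + a) - (t0 + a) : ℝ) : ℂ) +
          kap (b - a) 0 l m * riemannZeta (1 + I * ((b - a : ℝ) : ℂ)) *
            ∫ u in (t0 + a)..(S + a), Xd (b - a) u)) := by
      rw [hint, mul_sub, mul_add]
      congr 1
      · rw [← intervalIntegral.integral_comp_add_right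
          (fun u => Pd (b - a) u * cexp (I * ((u * (Real.log m - Real.log l) : ℝ) : ℂ))) a,
          ← intervalIntegral.integral_const_mul]
        apply intervalIntegral.integral_congr
        intro t _
        simp only
        rw [← Bab_eq, mul_left_comm, ← Complex.exp_add]
        congr 2
        rw [← hΛ]
        push_cast
        ring
      · rw [← intervalIntegral.integral_comp_add_right (fun u => Xd (b - a) u) a]
        simp only [← Xab_eq]
        have k1 := kap_shift 0 (b - a) a hl hm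
        have k2 := kap_shift (b - a) 0 a hl hm
        rw [zero_add, sub_add_cancel] at k1 k2
        have z1 : riemannZeta (1 - I * ((b - a : ℝ) : ℂ)) = riemannZeta (1 + I * ((a - b : ℝ) : ℂ)) := by
          congr 1
          push_cast
          ring
        have z2 : riemannZeta (1 + I * ((b - a : ℝ) : ℂ)) = riemannZeta (1 - I * ((a - b : ℝ) : ℂ)) := by
          congr 1
          push_cast
          ring
        have z3 : (((S + a) - (t0 + a) : ℝ) : ℂ) = ((S - t0 : ℝ) : ℂ) := by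
          congr 1
          ring
        rw [z1, z2, z3, hc1, hc2, ← k1, ← k2, hΛ]
        ring
    have hmain2 : ‖∫ t in t0..S, f t‖ ≤ C * (T + |a|) ^ (3 / 4 : ℝ) := by
      rw [hkey, norm_mul]
      have : ‖cexp (-(I * ((a * Λ : ℝ) : ℂ)))‖ = 1 := by
        rw [show -(I * ((a * Λ : ℝ) : ℂ)) = ((-(a * Λ) : ℝ) : ℂ) * I by push_cast; ring,
          Complex.norm_exp_ofReal_mul_I]
      rw [this, one_mul]
      exact hmain
    rw [hsplit]
    calc ‖(∫ t in (0:ℝ)..t0, f t) + ∫ t in t0..S, f t‖ ≤ K * (M + Z1 + Z2) + C * (T + |a|) ^ (3 / 4 : ℝ) :=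
          (norm_add_le _ _).trans (add_le_add (hsmall t0 ht00 ht0K) hmain2)
      _ ≤ K * (M + Z1 + Z2) * T ^ (4 / 5 : ℝ) + C * (2 * T ^ (4 / 5 : ℝ)) := by
          apply add_le_add
          · exact le_mul_of_one_le_right (by positivity) hTp
          · exact mul_le_mul_of_nonneg_left hTT hC.le
      _ ≤ (2 * C + K * (M + Z1 + Z2) + 1) * T ^ (4 / 5 : ℝ) := by nlinarith

end

end Pool.Agent.T2H54.TP
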