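import Pool.Agent.T2H54.TP.Stm
import Pool.Agent.TH612.GS.Z

set_option autoImplicit false

/-! Package TSM: the twisted second moment with shifts `0`, `d`. -/

namespace Pool.Agent.T2H54.TP

open Complex Filter Topology MeasureTheory Set
open Pool.Agent.TH612.CF Pool.Agent.TH612.GS Pool.Agent.T2H54.SB
open Pool.Agent.Y969.GP (V ht lam PS FR)

noncomputable section

namespace TSMp

lemma nchi (u : ℝ) : ‖chi (1 / 2 + I * u)‖ = 1 := by
  unfold chi
  have e1 : (1 - (1 / 2 + I * (u : ℂ))) / 2 = (starRingEnd ℂ) ((1 / 2 + I * (u : ℂ)) / 2) := by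
    simp only [map_div₀, map_add, map_mul, conj_I, conj_ofReal, map_one, map_ofNat]
    ring
  have e2 : (1 / 2 + I * (u : ℂ) - 1 / 2) = I * u := by ring
  have hg : Gamma ((1 / 2 + I * (u : ℂ)) / 2) ≠ 0 := Gamma_ne_zero_of_re_pos (by simp)
  rw [e1, e2, Gamma_conj, norm_div, norm_mul, RCLike.norm_conj,
    norm_cpow_eq_rpow_re_of_pos Real.pi_pos]
  have e3 : (I * (u : ℂ)).re = 0 := by simp
  rw [e3, Real.rpow_zero, one_mul, div_self (norm_ne_zero_iff.2 hg)]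

lemma cchi : Continuous fun u : ℝ => chi (1 / 2 + I * (u : ℂ)) := by
  rw [continuous_iff_continuousAt]
  intro u
  have h1 : DifferentiableAt ℂ chi (1 / 2 + I * (u : ℂ)) := chi_diff (by simp)
  have h2 : ContinuousAt (fun u : ℝ => (1 / 2 + I * (u : ℂ) : ℂ)) u := by fun_prop
  exact ContinuousAt.comp (f := fun u : ℝ => (1 / 2 + I * (u : ℂ) : ℂ)) h1.continuousAt h2

lemma Xd_eq (d u : ℝ) : Xd d u =
    chi (1 / 2 + I * (u : ℂ)) * chi (1 / 2 + I * ((-(u + d) : ℝ) : ℂ)) := by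
  unfold Xd
  congr 2
  push_cast
  ring

lemma Xd_norm (d u : ℝ) : ‖Xd d u‖ = 1 := by
  rw [Xd_eq, norm_mul, nchi, nchi, one_mul]

lemma Xd_cont (d : ℝ) : Continuous (Xd d) := by
  have h : Xd d = fun u : ℝ => chi (1 / 2 + I * (u : ℂ)) * chi (1 / 2 + I * ((-(u + d) : ℝ) : ℂ)) := by
    funext u
    exact Xd_eq d u
  rw [h]
  have hg : Continuous (fun u : ℝ => (-(u + d) : ℝ)) := by fun_prop
  exact cchi.mul (cchi.comp hg)

lemma Pd_cont (d : ℝ) : Continuous (Pd d) := by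
  unfold Pd
  exact z_cont.mul (Complex.continuous_conj.comp (z_cont.comp (by fun_prop)))

lemma ncpow {n : ℕ} (hn : 1 ≤ n) (y : ℝ) : ‖(n : ℂ) ^ (I * (y : ℂ))‖ = 1 := by
  rw [Complex.norm_natCast_cpow_of_pos (by omega)]
  simp

lemma ncpow' {n : ℕ} (hn : 1 ≤ n) (y : ℝ) : ‖(n : ℂ) ^ (-(I * (y : ℂ)))‖ = 1 := by
  rw [Complex.norm_natCast_cpow_of_pos (by omega)]
  simp

lemma Wd_neg (d x : ℝ) : Wd (-d) x = Wd d x := by
  unfold Wd
  rw [neg_sq]

/-- the diagonal sum, for all `x > 0` -/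
lemma dg (hW : S_WD) (hDG : S_DG) (d : ℝ) (hd : d ≠ 0) : ∃ C : ℝ, 0 < C ∧ ∀ (x : ℝ) (G : ℕ), 0 < x →
    x ^ (1 + 1 / 20 : ℝ) ≤ ((G : ℝ) + 1) ^ 2 →
    ‖∑ g ∈ Finset.Icc 1 G, (g : ℂ) ^ (-1 + I * (d : ℂ)) * (Wd d ((g : ℝ) ^ 2 / x) : ℂ) -
      riemannZeta (1 - I * d)‖ ≤ C * (1 + Real.log ((G : ℝ) + 1)) * x ^ (-(1 / 2) : ℝ) := by
  obtain ⟨⟨C1, hC1, h1⟩, -, -, -⟩ := hW d hd
  obtain ⟨C2, hC2, h2⟩ := hDG d (1 / 20) hd (by norm_num)
  refine ⟨C1 + C2 + ‖riemannZeta (1 - I * d)‖, by positivity, ?_⟩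
  intro x G hx hG
  have hl : 0 ≤ Real.log ((G : ℝ) + 1) := Real.log_nonneg (by linarith [Nat.cast_nonneg (α := ℝ) G])
  rcases le_or_gt 1 x with hx1 | hx1
  · refine (h2 x G hx1 hG).trans ?_
    have hx2 : 0 ≤ x ^ (-(1 / 2) : ℝ) := by positivity
    have h3 : C2 ≤ (C1 + C2 + ‖riemannZeta (1 - I * d)‖) * (1 + Real.log ((G : ℝ) + 1)) := by
      nlinarith [norm_nonneg (riemannZeta (1 - I * d)), mul_nonneg hC1.le hl, mul_nonneg hC2.le hl,
        mul_nonneg (norm_nonneg (riemannZeta (1 - I * d))) hl]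
    exact mul_le_mul_of_nonneg_right h3 hx2
  · have hx2 : 1 ≤ x ^ (-(1 / 2) : ℝ) :=
      Real.one_le_rpow_of_pos_of_le_one_of_nonpos hx hx1.le (by norm_num)
    have h3 : ‖∑ g ∈ Finset.Icc 1 G, (g : ℂ) ^ (-1 + I * (d : ℂ)) *
        (Wd d ((g : ℝ) ^ 2 / x) : ℂ)‖ ≤ C1 * (1 + Real.log ((G : ℝ) + 1)) := by
      refine (norm_sum_le _ _).trans ?_
      have h4 : ∀ g ∈ Finset.Icc 1 G, ‖(g : ℂ) ^ (-1 + I * (d : ℂ)) *
          (Wd d ((g : ℝ) ^ 2 / x) : ℂ)‖ ≤ C1 * (g : ℝ)⁻¹ := by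
        intro g hg
        have hg1 : 1 ≤ g := (Finset.mem_Icc.1 hg).1
        have hg0 : (0 : ℝ) < g := by exact_mod_cast hg1
        rw [norm_mul, Complex.norm_natCast_cpow_of_pos (by omega), Complex.norm_real,
          Real.norm_eq_abs]
        have h5 := (h1 ((g : ℝ) ^ 2 / x) (by positivity)).1
        have h6 : (-1 + I * (d : ℂ)).re = -1 := by simp
        rw [h6, Real.rpow_neg_one, mul_comm]
        exact mul_le_mul_of_nonneg_right h5 (by positivity)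
      refine (Finset.sum_le_sum h4).trans ?_
      rw [← Finset.mul_sum]
      refine mul_le_mul_of_nonneg_left ?_ hC1.le
      have h7 := harmonic_le_one_add_log G
      rw [harmonic_eq_sum_Icc] at h7
      push_cast at h7
      refine h7.trans ?_
      rcases Nat.eq_zero_or_pos G with h0 | h0
      · subst h0
        simp
      · have h8 : Real.log (G : ℝ) ≤ Real.log ((G : ℝ) + 1) :=
          Real.log_le_log (by exact_mod_cast h0) (by linarith)
        linarith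
    refine (norm_sub_le _ _).trans ?_
    set Z := ‖riemannZeta (1 - I * d)‖
    have hZ : 0 ≤ Z := norm_nonneg _
    have h9 : C1 * (1 + Real.log ((G : ℝ) + 1)) + Z ≤
        (C1 + C2 + Z) * (1 + Real.log ((G : ℝ) + 1)) := by
      nlinarith [mul_nonneg hZ hl, mul_nonneg hC2.le hl]
    have h10 : 0 ≤ (C1 + C2 + Z) * (1 + Real.log ((G : ℝ) + 1)) := by positivity
    nlinarith

/-- the diagonal pairs -/
lemma dset (X l m : ℕ) (hl : 1 ≤ l) (hm : 1 ≤ m) (hlm : Nat.Coprime l m) (f : ℕ × ℕ → ℂ) :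
    ∑ p ∈ (PS X).filter (fun p => ¬ (p.1 * l ≠ p.2 * m)), f p =
      ∑ g ∈ Finset.Icc 1 (Nat.sqrt (X / (l * m))), f (g * m, g * l) := by
  symm
  have hlm0 : 0 < l * m := Nat.mul_pos hl hm
  refine Finset.sum_bij (fun g _ => (g * m, g * l)) ?_ ?_ ?_ ?_
  · intro g hg
    rw [Finset.mem_Icc, Nat.le_sqrt', Nat.le_div_iff_mul_le hlm0] at hg
    obtain ⟨h1, h2⟩ := hg
    unfold PS
    rw [Finset.mem_filter, Finset.mem_filter, Finset.mem_product, Finset.mem_Icc, Finset.mem_Icc]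
    have e1 : g * m * (g * l) = g ^ 2 * (l * m) := by ring
    have e2 : g * m ≤ g ^ 2 * (l * m) := by
      have : g * m * 1 ≤ g * m * (g * l) := Nat.mul_le_mul_left _ (Nat.mul_pos h1 hl)
      rw [mul_one] at this
      rwa [e1] at this
    have e3 : g * l ≤ g ^ 2 * (l * m) := by
      have : g * l * 1 ≤ g * l * (g * m) := Nat.mul_le_mul_left _ (Nat.mul_pos h1 hm)
      rw [mul_one] at this
      calc g * l ≤ g * l * (g * m) := this
        _ = g ^ 2 * (l * m) := by ring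
    refine ⟨⟨⟨⟨Nat.mul_pos h1 hm, e2.trans h2⟩, Nat.mul_pos h1 hl, e3.trans h2⟩, ?_⟩, ?_⟩
    · simp only
      rw [e1]
      exact h2
    · simp only [not_not]
      ring
  · intro g _ g' _ h
    simp only [Prod.mk.injEq] at h
    exact Nat.eq_of_mul_eq_mul_right hm h.1
  · rintro ⟨a, b⟩ hp
    unfold PS at hp
    rw [Finset.mem_filter, Finset.mem_filter, Finset.mem_product, Finset.mem_Icc,
      Finset.mem_Icc] at hp
    obtain ⟨⟨⟨⟨ha1, ha2⟩, hb1, hb2⟩, hab⟩, he⟩ := hp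
    simp only [not_not] at he ha1 ha2 hb1 hb2 hab
    have h1 : m ∣ a * l := ⟨b, by rw [he]; ring⟩
    have h2 : m ∣ a := hlm.symm.dvd_of_dvd_mul_right h1
    obtain ⟨g, hg⟩ := h2
    have h3 : b = g * l := by
      have : b * m = g * l * m := by rw [← he, hg]; ring
      exact Nat.eq_of_mul_eq_mul_right hm this
    refine ⟨g, ?_, ?_⟩
    · rw [Finset.mem_Icc, Nat.le_sqrt', Nat.le_div_iff_mul_le hlm0]
      constructor
      · rcases Nat.eq_zero_or_pos g with h0 | h0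
        · subst h0
          omega
        · exact h0
      · calc g ^ 2 * (l * m) = m * g * (g * l) := by ring
          _ = a * b := by rw [← hg, ← h3]
          _ ≤ X := hab
    · rw [hg, h3, mul_comm m g]
  · intro g _
    rfl

lemma dset_big (X l m : ℕ) (hl : 1 ≤ l) (hm : 1 ≤ m) :
    (X : ℝ) ≤ (((Nat.sqrt (X / (l * m)) : ℕ) : ℝ) + 1) ^ 2 * ((l : ℝ) * m) := by
  have hlm0 : 0 < l * m := Nat.mul_pos hl hm
  have h1 : X / (l * m) < (Nat.sqrt (X / (l * m)) + 1) ^ 2 := Nat.lt_succ_sqrt' _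
  rw [Nat.div_lt_iff_lt_mul hlm0] at h1
  exact_mod_cast h1.le

/-- the frequency is not zero -/
lemma freq (p : ℕ × ℕ) (l m : ℕ) (hp1 : 1 ≤ p.1) (hp2 : 1 ≤ p.2) (hl : 1 ≤ l) (hm : 1 ≤ m)
    (h : p.1 * l ≠ p.2 * m) : lam p - lam (m, l) ≠ 0 := by
  intro h0
  apply h
  have e1 : Real.log ((p.2 : ℝ) * m) = Real.log ((p.1 : ℝ) * l) := by
    have a1 : (p.1 : ℝ) ≠ 0 := by positivity
    have a2 : (p.2 : ℝ) ≠ 0 := by positivity
    have a3 : (l : ℝ) ≠ 0 := by positivity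
    have a4 : (m : ℝ) ≠ 0 := by positivity
    rw [Real.log_mul a2 a4, Real.log_mul a1 a3]
    unfold lam at h0
    simp only at h0
    linarith
  have e2 := Real.log_injOn_pos (by
    show (0 : ℝ) < (p.2 : ℝ) * m
    positivity) (by
    show (0 : ℝ) < (p.1 : ℝ) * l
    positivity) e1
  have e3 : p.2 * m = p.1 * l := by exact_mod_cast e2
  exact e3.symm

/-- the terms of the approximate functional equation, twisted -/
def Fp (d : ℝ) (l m : ℕ) (p : ℕ × ℕ) (u : ℝ) : ℂ :=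
  (cW d p u : ℂ) * ((p.2 : ℂ) ^ (I * (d : ℂ)) + Xd d u * (p.1 : ℂ) ^ (-(I * (d : ℂ)))) *
    cexp (I * ((u * lam p : ℝ) : ℂ)) * cexp (I * ((u * (Real.log m - Real.log l) : ℝ) : ℂ))

lemma Wd_contOn (hW : S_WD) (d : ℝ) (hd : d ≠ 0) (A B h : ℝ) (hA : 0 < A) (hh : 0 < h) :
    ContinuousOn (fun u : ℝ => Wd d (h / u)) (Icc A B) := by
  obtain ⟨⟨C1, hC1, h1⟩, -, -, -⟩ := hW d hd
  intro u hu
  have hu0 : 0 < u := hA.trans_le hu.1
  have h2 : ContinuousAt (Wd d) (h / u) := (h1 (h / u) (by positivity)).2.1.continuousAt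
  have h3 : ContinuousAt (fun u : ℝ => h / u) u := continuousAt_const.div continuousAt_id hu0.ne'
  exact (ContinuousAt.comp (f := fun u : ℝ => h / u) h2 h3).continuousWithinAt

lemma ht_pos (p : ℕ × ℕ) (hp1 : 1 ≤ p.1) (hp2 : 1 ≤ p.2) : 0 < ht p := by
  unfold Pool.Agent.Y969.GP.ht
  positivity

lemma Fp_contOn (hW : S_WD) (d : ℝ) (hd : d ≠ 0) (A B : ℝ) (l m : ℕ) (p : ℕ × ℕ) (hA : 0 < A)
    (hp1 : 1 ≤ p.1) (hp2 : 1 ≤ p.2) : ContinuousOn (Fp d l m p) (Icc A B) := by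
  have hh : 0 < 2 * Real.pi * ht p := by
    have := ht_pos p hp1 hp2
    have := Real.pi_pos
    positivity
  have h1 := Wd_contOn hW d hd A B (2 * Real.pi * ht p) hA hh
  have hX := (Xd_cont d).continuousOn (s := Icc A B)
  have h2 : ContinuousOn (fun u : ℝ => ((cW d p u : ℝ) : ℂ)) (Icc A B) := by
    unfold cW
    exact Complex.continuous_ofReal.comp_continuousOn (continuousOn_const.mul h1)
  unfold Fp
  refine ((h2.mul (continuousOn_const.add (hX.mul continuousOn_const))).mul ?_).mul ?_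
  · exact (by fun_prop : Continuous fun u : ℝ => cexp (I * ((u * lam p : ℝ) : ℂ))).continuousOn
  · exact (by fun_prop : Continuous fun u : ℝ =>
      cexp (I * ((u * (Real.log m - Real.log l) : ℝ) : ℂ))).continuousOn

lemma Fp_eq (d : ℝ) (l m : ℕ) (p : ℕ × ℕ) (u : ℝ) : Fp d l m p u =
    ((√(ht p))⁻¹ : ℝ) * (p.2 : ℂ) ^ (I * (d : ℂ)) * ((Wd d (2 * Real.pi * ht p / u) : ℂ) *
      cexp (I * ((u * (lam p - lam (m, l)) : ℝ) : ℂ))) +
    ((√(ht p))⁻¹ : ℝ) * (p.1 : ℂ) ^ (-(I * (d : ℂ))) * ((Wd d (2 * Real.pi * ht p / u) : ℂ) *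
      Xd d u * cexp (I * ((u * (lam p - lam (m, l)) : ℝ) : ℂ))) := by
  have h1 : cexp (I * ((u * (lam p - lam (m, l)) : ℝ) : ℂ)) = cexp (I * ((u * lam p : ℝ) : ℂ)) *
      cexp (I * ((u * (Real.log m - Real.log l) : ℝ) : ℂ)) := by
    rw [← Complex.exp_add]
    congr 1
    have h2 : lam (m, l) = Real.log l - Real.log m := rfl
    rw [h2]
    push_cast
    ring
  rw [h1]
  unfold Fp cW
  push_cast
  ring

/-- the off-diagonal terms -/
lemma off (hW : S_WD) (hBV : S_BV) (d : ℝ) (hd : d ≠ 0) : ∃ C : ℝ, 0 < C ∧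
    ∀ (A B : ℝ) (l m : ℕ) (p : ℕ × ℕ), 16 + |d| ≤ A → A ≤ B → 1 ≤ l → 1 ≤ m → 1 ≤ p.1 → 1 ≤ p.2 →
    p.1 * l ≠ p.2 * m → ‖∫ u in A..B, Fp d l m p u‖ ≤
      C * (1 + Real.log B) * ((√(ht p))⁻¹ / |lam p - lam (m, l)|) := by
  obtain ⟨C, hC, h1⟩ := hBV d hd
  refine ⟨2 * C, by positivity, ?_⟩
  intro A B l m p hA hAB hl hm hp1 hp2 hne
  have hΘ := freq p l m hp1 hp2 hl hm hne
  have hA0 : 0 < A := by have := abs_nonneg d; linarith
  have hh : 0 < 2 * Real.pi * ht p := by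
    have := ht_pos p hp1 hp2
    have := Real.pi_pos
    positivity
  obtain ⟨h2, h3⟩ := h1 A B (2 * Real.pi * ht p) (lam p - lam (m, l)) hA hAB hh hΘ
  have hWc := Wd_contOn hW d hd A B (2 * Real.pi * ht p) hA0 hh
  have hWc' : ContinuousOn (fun u : ℝ => ((Wd d (2 * Real.pi * ht p / u) : ℝ) : ℂ)) (Icc A B) :=
    Complex.continuous_ofReal.comp_continuousOn hWc
  have hE : ContinuousOn (fun u : ℝ => cexp (I * ((u * (lam p - lam (m, l)) : ℝ) : ℂ)))
      (Icc A B) := (by fun_prop : Continuous fun u : ℝ =>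
        cexp (I * ((u * (lam p - lam (m, l)) : ℝ) : ℂ))).continuousOn
  have hX := (Xd_cont d).continuousOn (s := Icc A B)
  have i1 : IntervalIntegrable (fun u : ℝ => ((Wd d (2 * Real.pi * ht p / u) : ℂ) *
      cexp (I * ((u * (lam p - lam (m, l)) : ℝ) : ℂ)))) volume A B :=
    (hWc'.mul hE).intervalIntegrable_of_Icc (μ := volume) hAB
  have i2 : IntervalIntegrable (fun u : ℝ => ((Wd d (2 * Real.pi * ht p / u) : ℂ) *
      Xd d u * cexp (I * ((u * (lam p - lam (m, l)) : ℝ) : ℂ)))) volume A B :=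
    ((hWc'.mul hX).mul hE).intervalIntegrable_of_Icc (μ := volume) hAB
  have e1 : (∫ u in A..B, Fp d l m p u) =
      ((√(ht p))⁻¹ : ℝ) * (p.2 : ℂ) ^ (I * (d : ℂ)) *
        (∫ u in A..B, ((Wd d (2 * Real.pi * ht p / u) : ℂ) *
      cexp (I * ((u * (lam p - lam (m, l)) : ℝ) : ℂ)))) +
      ((√(ht p))⁻¹ : ℝ) * (p.1 : ℂ) ^ (-(I * (d : ℂ))) *
        (∫ u in A..B, ((Wd d (2 * Real.pi * ht p / u) : ℂ) *
      Xd d u * cexp (I * ((u * (lam p - lam (m, l)) : ℝ) : ℂ)))) := by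
    rw [← intervalIntegral.integral_const_mul, ← intervalIntegral.integral_const_mul,
      ← intervalIntegral.integral_add (i1.const_mul _) (i2.const_mul _)]
    refine intervalIntegral.integral_congr fun u _ => ?_
    exact Fp_eq d l m p u
  rw [e1]
  have hs : 0 ≤ (√(ht p))⁻¹ := by positivity
  refine (norm_add_le _ _).trans ?_
  rw [norm_mul, norm_mul, norm_mul, norm_mul, ncpow hp2, ncpow' hp1, Complex.norm_real,
    Real.norm_eq_abs, abs_of_nonneg hs, mul_one]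
  have h4 := mul_le_mul_of_nonneg_left h2 hs
  have h5 := mul_le_mul_of_nonneg_left h3 hs
  calc _ ≤ (√(ht p))⁻¹ * (C * (1 + Real.log B) / |lam p - lam (m, l)|) +
        (√(ht p))⁻¹ * (C * (1 + Real.log B) / |lam p - lam (m, l)|) := add_le_add h4 h5
    _ = _ := by ring

lemma kap0 (d : ℝ) (l m : ℕ) : kap 0 d l m =
    ((((l : ℝ) * m) ^ (-(1 / 2 : ℝ)) : ℝ) : ℂ) * (l : ℂ) ^ (I * (d : ℂ)) := by
  unfold kap
  simp

lemma kap1 (d : ℝ) (l m : ℕ) : kap d 0 l m =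
    ((((l : ℝ) * m) ^ (-(1 / 2 : ℝ)) : ℝ) : ℂ) * (m : ℂ) ^ (-(I * (d : ℂ))) := by
  unfold kap
  simp

lemma kap0_norm (d : ℝ) (l m : ℕ) (hl : 1 ≤ l) :
    ‖kap 0 d l m‖ = ((l : ℝ) * m) ^ (-(1 / 2 : ℝ)) := by
  rw [kap0, norm_mul, ncpow hl, mul_one, Complex.norm_real, Real.norm_eq_abs,
    abs_of_nonneg (by positivity)]

lemma kap1_norm (d : ℝ) (l m : ℕ) (hm : 1 ≤ m) :
    ‖kap d 0 l m‖ = ((l : ℝ) * m) ^ (-(1 / 2 : ℝ)) := by
  rw [kap1, norm_mul, ncpow' hm, mul_one, Complex.norm_real, Real.norm_eq_abs,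
    abs_of_nonneg (by positivity)]

/-- the diagonal terms -/
lemma Fp_diag (d u : ℝ) (l m g : ℕ) (hl : 1 ≤ l) (hm : 1 ≤ m) (hg : 1 ≤ g) (hu : 0 < u) :
    Fp d l m (g * m, g * l) u =
      kap 0 d l m * ((g : ℂ) ^ (-1 + I * (d : ℂ)) *
        (Wd d ((g : ℝ) ^ 2 / (u / (2 * Real.pi * (l * m)))) : ℂ)) +
      kap d 0 l m * Xd d u * ((g : ℂ) ^ (-1 + I * ((-d : ℝ) : ℂ)) *
        (Wd (-d) ((g : ℝ) ^ 2 / (u / (2 * Real.pi * (l * m)))) : ℂ)) := by
  have hl0 : (l : ℝ) ≠ 0 := by positivity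
  have hm0 : (m : ℝ) ≠ 0 := by positivity
  have hg0 : (g : ℝ) ≠ 0 := by positivity
  have hg0' : (g : ℂ) ≠ 0 := by exact_mod_cast (by omega : g ≠ 0)
  have hpi : Real.pi ≠ 0 := Real.pi_pos.ne'
  have e0 : Wd (-d) ((g : ℝ) ^ 2 / (u / (2 * Real.pi * (l * m)))) =
      Wd d ((g : ℝ) ^ 2 / (u / (2 * Real.pi * (l * m)))) := Wd_neg d _
  have e1 : ht (g * m, g * l) = (g : ℝ) ^ 2 * ((l : ℝ) * m) := by
    unfold Pool.Agent.Y969.GP.ht
    push_cast
    ring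
  have e2 : 2 * Real.pi * ht (g * m, g * l) / u =
      (g : ℝ) ^ 2 / (u / (2 * Real.pi * (l * m))) := by
    rw [e1]
    field_simp
  have e3 : (√(ht (g * m, g * l)))⁻¹ = (g : ℝ)⁻¹ * ((l : ℝ) * m) ^ (-(1 / 2 : ℝ)) := by
    rw [e1, Real.sqrt_mul (by positivity), Real.sqrt_sq (by positivity), mul_inv,
      Real.rpow_neg (by positivity), ← Real.sqrt_eq_rpow]
  have e4 : lam (g * m, g * l) = Real.log l - Real.log m := by
    unfold Pool.Agent.Y969.GP.lam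
    push_cast
    rw [Real.log_mul hg0 hl0, Real.log_mul hg0 hm0]
    ring
  have e5 : cexp (I * ((u * lam (g * m, g * l) : ℝ) : ℂ)) *
      cexp (I * ((u * (Real.log m - Real.log l) : ℝ) : ℂ)) = 1 := by
    rw [← Complex.exp_add, e4]
    have : I * ((u * (Real.log l - Real.log m) : ℝ) : ℂ) +
        I * ((u * (Real.log m - Real.log l) : ℝ) : ℂ) = 0 := by
      push_cast
      ring
    rw [this, Complex.exp_zero]
  have e6 : ((g * l : ℕ) : ℂ) ^ (I * (d : ℂ)) = (g : ℂ) ^ (I * (d : ℂ)) *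
      (l : ℂ) ^ (I * (d : ℂ)) := by
    push_cast
    exact Complex.natCast_mul_natCast_cpow g l _
  have e7 : ((g * m : ℕ) : ℂ) ^ (-(I * (d : ℂ))) = (g : ℂ) ^ (-(I * (d : ℂ))) *
      (m : ℂ) ^ (-(I * (d : ℂ))) := by
    push_cast
    exact Complex.natCast_mul_natCast_cpow g m _
  have e8 : (g : ℂ) ^ (-1 + I * (d : ℂ)) = (g : ℂ)⁻¹ * (g : ℂ) ^ (I * (d : ℂ)) := by
    rw [Complex.cpow_add _ _ hg0', Complex.cpow_neg_one]
  have e9 : (g : ℂ) ^ (-1 + I * ((-d : ℝ) : ℂ)) = (g : ℂ)⁻¹ * (g : ℂ) ^ (-(I * (d : ℂ))) := by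
    rw [Complex.cpow_add _ _ hg0', Complex.cpow_neg_one]
    congr 2
    push_cast
    ring
  unfold Fp cW
  rw [mul_assoc _ (cexp _) (cexp _), e5, mul_one]
  simp only
  rw [e2, e3, e6, e7, e8, e9, e0, kap0, kap1]
  push_cast
  ring

lemma numL (T : ℝ) (X : ℕ) (hT : 2 ≤ T) (hX : (X : ℝ) ≤ 2 * T ^ (21 / 20 : ℝ)) :
    1 + Real.log ((X : ℝ) + 1) ≤ 83 * T ^ (1 / 40 : ℝ) := by
  have hT0 : 0 < T := by linarith
  have h1 : T ^ (21 / 20 : ℝ) ≤ T ^ (2 : ℝ) :=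
    Real.rpow_le_rpow_of_exponent_le (by linarith) (by norm_num)
  have h2 : (1 : ℝ) ≤ T ^ (2 : ℝ) := Real.one_le_rpow (by linarith) (by norm_num)
  have hX0 : (0 : ℝ) ≤ X := Nat.cast_nonneg X
  have h3 : Real.log ((X : ℝ) + 1) ≤ Real.log (3 * T ^ (2 : ℝ)) :=
    Real.log_le_log (by linarith) (by linarith)
  rw [Real.log_mul (by norm_num) (by positivity), Real.log_rpow hT0] at h3
  have h4 : Real.log 3 ≤ 2 := by
    have := Real.log_le_sub_one_of_pos (show (0 : ℝ) < 3 by norm_num)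
    linarith
  have h5 := Real.log_le_rpow_div hT0.le (show (0 : ℝ) < 1 / 40 by norm_num)
  have h6 : (1 : ℝ) ≤ T ^ (1 / 40 : ℝ) := Real.one_le_rpow (by linarith) (by norm_num)
  have h7 : T ^ (1 / 40 : ℝ) / (1 / 40) = 40 * T ^ (1 / 40 : ℝ) := by ring
  rw [h7] at h5
  linarith

lemma numT (T : ℝ) (hT : 2 ≤ T) : 1 + Real.log T ≤ 83 * T ^ (1 / 40 : ℝ) := by
  have hT0 : 0 < T := by linarith
  have h5 := Real.log_le_rpow_div hT0.le (show (0 : ℝ) < 1 / 40 by norm_num)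
  have h6 : (1 : ℝ) ≤ T ^ (1 / 40 : ℝ) := Real.one_le_rpow (by linarith) (by norm_num)
  have h7 : T ^ (1 / 40 : ℝ) / (1 / 40) = 40 * T ^ (1 / 40 : ℝ) := by ring
  rw [h7] at h5
  linarith

lemma xbig (T u : ℝ) (X l m : ℕ) (hT : 2 ≤ T) (hu : 0 < u) (huT : u ≤ T) (hl : 1 ≤ l) (hm : 1 ≤ m)
    (hX : T ^ (21 / 20 : ℝ) ≤ X) :
    (u / (2 * Real.pi * (l * m))) ^ (1 + 1 / 20 : ℝ) ≤
      (((Nat.sqrt (X / (l * m)) : ℕ) : ℝ) + 1) ^ 2 := by
  have hl1 : (1 : ℝ) ≤ l := by exact_mod_cast hl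
  have hm1 : (1 : ℝ) ≤ m := by exact_mod_cast hm
  have hlm : (1 : ℝ) ≤ (l : ℝ) * m := by nlinarith
  have hlm0 : (0 : ℝ) < (l : ℝ) * m := by linarith
  have hpi := Real.pi_gt_three
  have h1 : u / (2 * Real.pi * (l * m)) ≤ T / (l * m) := by
    rw [div_le_div_iff₀ (by positivity) hlm0]
    have : u * (l * m) ≤ T * (l * m) := mul_le_mul_of_nonneg_right huT hlm0.le
    nlinarith [mul_pos (show (0 : ℝ) < T by linarith) hlm0]
  have h2 : (u / (2 * Real.pi * (l * m))) ^ (1 + 1 / 20 : ℝ) ≤ (T / (l * m)) ^ (21 / 20 : ℝ) := by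
    rw [show (1 + 1 / 20 : ℝ) = 21 / 20 by norm_num]
    exact Real.rpow_le_rpow (by positivity) h1 (by norm_num)
  rw [Real.div_rpow (by linarith) hlm0.le] at h2
  have h3 : (l : ℝ) * m ≤ ((l : ℝ) * m) ^ (21 / 20 : ℝ) := by
    conv_lhs => rw [← Real.rpow_one ((l : ℝ) * m)]
    exact Real.rpow_le_rpow_of_exponent_le hlm (by norm_num)
  have h4 : T ^ (21 / 20 : ℝ) / ((l : ℝ) * m) ^ (21 / 20 : ℝ) ≤ X / ((l : ℝ) * m) :=
    div_le_div₀ (by positivity) hX hlm0 h3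
  refine (h2.trans h4).trans ?_
  rw [div_le_iff₀ hlm0]
  exact dset_big X l m hl hm

/-- the diagonal terms against the main terms, pointwise -/
lemma dpt (hW : S_WD) (hDG : S_DG) (d : ℝ) (hd : d ≠ 0) : ∃ C : ℝ, 0 < C ∧
    ∀ (T u : ℝ) (X l m : ℕ), 2 ≤ T → 0 < u → u ≤ T → 1 ≤ l → 1 ≤ m → T ^ (21 / 20 : ℝ) ≤ X →
    ‖(∑ g ∈ Finset.Icc 1 (Nat.sqrt (X / (l * m))), Fp d l m (g * m, g * l) u) -
      (kap 0 d l m * riemannZeta (1 - I * d) + kap d 0 l m * riemannZeta (1 + I * d) * Xd d u)‖ ≤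
      C * (1 + Real.log ((X : ℝ) + 1)) * u ^ (-(1 / 2) : ℝ) := by
  obtain ⟨C1, hC1, h1⟩ := dg hW hDG d hd
  obtain ⟨C2, hC2, h2⟩ := dg hW hDG (-d) (neg_ne_zero.2 hd)
  refine ⟨3 * (C1 + C2), by positivity, ?_⟩
  intro T u X l m hT hu huT hl hm hX
  have hl1 : (1 : ℝ) ≤ l := by exact_mod_cast hl
  have hm1 : (1 : ℝ) ≤ m := by exact_mod_cast hm
  have hlm : (1 : ℝ) ≤ (l : ℝ) * m := by nlinarith
  have hlm0 : (0 : ℝ) < (l : ℝ) * m := by linarith
  have hpi := Real.pi_gt_three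
  have hpi4 := Real.pi_lt_four
  set G := Nat.sqrt (X / (l * m)) with hG
  set x := u / (2 * Real.pi * (l * m)) with hx
  have hx0 : 0 < x := by positivity
  have hxb := xbig T u X l m hT hu huT hl hm hX
  have a1 := h1 x G hx0 hxb
  have a2 := h2 x G hx0 hxb
  have e1 : (1 - I * ((-d : ℝ) : ℂ)) = 1 + I * d := by push_cast; ring
  rw [e1] at a2
  have e2 : (∑ g ∈ Finset.Icc 1 G, Fp d l m (g * m, g * l) u) =
      kap 0 d l m * (∑ g ∈ Finset.Icc 1 G, (g : ℂ) ^ (-1 + I * (d : ℂ)) *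
        (Wd d ((g : ℝ) ^ 2 / x) : ℂ)) +
      kap d 0 l m * Xd d u * (∑ g ∈ Finset.Icc 1 G, (g : ℂ) ^ (-1 + I * ((-d : ℝ) : ℂ)) *
        (Wd (-d) ((g : ℝ) ^ 2 / x) : ℂ)) := by
    rw [Finset.mul_sum, Finset.mul_sum, ← Finset.sum_add_distrib]
    refine Finset.sum_congr rfl fun g hg => ?_
    exact Fp_diag d u l m g hl hm (Finset.mem_Icc.1 hg).1 hu
  rw [e2]
  set S1 := ∑ g ∈ Finset.Icc 1 G, (g : ℂ) ^ (-1 + I * (d : ℂ)) * (Wd d ((g : ℝ) ^ 2 / x) : ℂ)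
  set S2 := ∑ g ∈ Finset.Icc 1 G, (g : ℂ) ^ (-1 + I * ((-d : ℝ) : ℂ)) *
        (Wd (-d) ((g : ℝ) ^ 2 / x) : ℂ)
  have e3 : kap 0 d l m * S1 + kap d 0 l m * Xd d u * S2 -
      (kap 0 d l m * riemannZeta (1 - I * d) + kap d 0 l m * riemannZeta (1 + I * d) * Xd d u) =
      kap 0 d l m * (S1 - riemannZeta (1 - I * d)) +
      kap d 0 l m * Xd d u * (S2 - riemannZeta (1 + I * d)) := by ring
  rw [e3]
  have hxr : x ^ (-(1 / 2) : ℝ) * ((l : ℝ) * m) ^ (-(1 / 2 : ℝ)) ≤ 3 * u ^ (-(1 / 2) : ℝ) := by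
    have e4 : x * ((l : ℝ) * m) = u / (2 * Real.pi) := by
      rw [hx]
      field_simp
    have e5 : x ^ (-(1 / 2) : ℝ) * ((l : ℝ) * m) ^ (-(1 / 2 : ℝ)) =
        u ^ (-(1 / 2) : ℝ) * ((2 * Real.pi) ^ (-(1 / 2) : ℝ))⁻¹ := by
      rw [← Real.mul_rpow hx0.le hlm0.le, e4, Real.div_rpow hu.le (by positivity), div_eq_mul_inv]
    have h5 : ((2 * Real.pi) ^ (-(1 / 2) : ℝ))⁻¹ ≤ 3 := by
      rw [← Real.rpow_neg (by positivity), neg_neg, ← Real.sqrt_eq_rpow,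
        Real.sqrt_le_left (by norm_num)]
      linarith
    rw [e5]
    have := mul_le_mul_of_nonneg_left h5 (Real.rpow_nonneg hu.le (-(1 / 2) : ℝ))
    linarith
  have hG1 : (G : ℝ) ≤ X := by
    have : G ≤ X := (Nat.sqrt_le_self _).trans (Nat.div_le_self _ _)
    exact_mod_cast this
  have hG0 : (0 : ℝ) ≤ G := Nat.cast_nonneg G
  have hlog : Real.log ((G : ℝ) + 1) ≤ Real.log ((X : ℝ) + 1) :=
    Real.log_le_log (by linarith) (by linarith)
  have hlog0 : 0 ≤ Real.log ((G : ℝ) + 1) := Real.log_nonneg (by linarith)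
  have hk0 : 0 ≤ ((l : ℝ) * m) ^ (-(1 / 2 : ℝ)) := by positivity
  refine (norm_add_le _ _).trans ?_
  rw [norm_mul, norm_mul, norm_mul, kap0_norm d l m hl, kap1_norm d l m hm, Xd_norm, mul_one]
  have b1 := mul_le_mul_of_nonneg_left a1 hk0
  have b2 := mul_le_mul_of_nonneg_left a2 hk0
  refine (add_le_add b1 b2).trans ?_
  have e5 : ((l : ℝ) * m) ^ (-(1 / 2 : ℝ)) * (C1 * (1 + Real.log ((G : ℝ) + 1)) *
      x ^ (-(1 / 2) : ℝ)) + ((l : ℝ) * m) ^ (-(1 / 2 : ℝ)) * (C2 * (1 + Real.log ((G : ℝ) + 1)) *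
      x ^ (-(1 / 2) : ℝ)) = ((C1 + C2) * (1 + Real.log ((G : ℝ) + 1))) *
      (x ^ (-(1 / 2) : ℝ) * ((l : ℝ) * m) ^ (-(1 / 2 : ℝ))) := by ring
  rw [e5]
  have hu1 : 0 ≤ u ^ (-(1 / 2) : ℝ) := Real.rpow_nonneg hu.le _
  calc _ ≤ ((C1 + C2) * (1 + Real.log ((G : ℝ) + 1))) * (3 * u ^ (-(1 / 2) : ℝ)) :=
        mul_le_mul_of_nonneg_left hxr (by positivity)
    _ ≤ ((C1 + C2) * (1 + Real.log ((X : ℝ) + 1))) * (3 * u ^ (-(1 / 2) : ℝ)) := by
        refine mul_le_mul_of_nonneg_right ?_ (by positivity)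
        exact mul_le_mul_of_nonneg_left (by linarith) (by positivity)
    _ = _ := by ring

end TSMp

open TSMp

theorem t_TSM (hW : S_WD) (hAFD : S_AFD) (hSPC : S_SPC) (hDG : S_DG) (hBV : S_BV) : S_TSM := by
  intro d hd
  obtain ⟨C1, hC1, h1⟩ := hAFD d (1 / 20) hd (by norm_num)
  obtain ⟨C2, hC2, h2⟩ := off hW hBV d hd
  obtain ⟨C3, hC3, h3⟩ := hSPC
  obtain ⟨C4, hC4, h4⟩ := dpt hW hDG d hd
  refine ⟨2 * C1 + 3 * 83 ^ 4 * (C2 * C3) + 166 * C4, 2, by positivity, le_refl _, ?_⟩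
  intro T A B l m hT hA hAB hBT hl hm hco hlm
  have hT0 : 0 < T := by linarith
  have hT1 : 1 ≤ T := by linarith
  have hA16 : 16 ≤ A := by have := abs_nonneg d; linarith
  have hA0 : 0 < A := by linarith
  have hB0 : 0 < B := by linarith
  have hl1 : (1 : ℝ) ≤ l := by exact_mod_cast hl
  have hm1 : (1 : ℝ) ≤ m := by exact_mod_cast hm
  have hlm1 : (1 : ℝ) ≤ (l : ℝ) * m := by nlinarith
  -- the length of the polynomial
  obtain ⟨X, hXdef⟩ : ∃ X : ℕ, X = ⌈T ^ (21 / 20 : ℝ)⌉₊ := ⟨_, rfl⟩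
  have hTX1 : (1 : ℝ) ≤ T ^ (21 / 20 : ℝ) := Real.one_le_rpow hT1 (by norm_num)
  have hXl : T ^ (21 / 20 : ℝ) ≤ X := by
    rw [hXdef]
    exact Nat.le_ceil _
  have hXu : (X : ℝ) ≤ 2 * T ^ (21 / 20 : ℝ) := by
    have := Nat.ceil_lt_add_one (show 0 ≤ T ^ (21 / 20 : ℝ) by positivity)
    rw [hXdef]
    linarith
  have hX1 : 1 ≤ X := by
    have : (1 : ℝ) ≤ X := hTX1.trans hXl
    exact_mod_cast this
  have hX0 : (1 : ℝ) ≤ X := by exact_mod_cast hX1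
  have hLX := numL T X hT hXu
  have hLT := numT T hT
  set L := T ^ (1 / 40 : ℝ) with hL
  have hL1 : 1 ≤ L := Real.one_le_rpow hT1 (by norm_num)
  -- the functions
  have hFc : ∀ p ∈ PS X, ContinuousOn (Fp d l m p) (Icc A B) := by
    intro p hp
    unfold PS at hp
    rw [Finset.mem_filter, Finset.mem_product, Finset.mem_Icc, Finset.mem_Icc] at hp
    exact Fp_contOn hW d hd A B l m p hA0 hp.1.1.1 hp.1.2.1
  have hFi : ∀ p ∈ PS X, IntervalIntegrable (Fp d l m p) volume A B := fun p hp =>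
    (hFc p hp).intervalIntegrable_of_Icc hAB
  have hEc : Continuous fun u : ℝ => cexp (I * ((u * (Real.log m - Real.log l) : ℝ) : ℂ)) := by
    fun_prop
  have hPi : IntervalIntegrable (fun u => Pd d u *
      cexp (I * ((u * (Real.log m - Real.log l) : ℝ) : ℂ))) volume A B :=
    ((Pd_cont d).mul hEc).intervalIntegrable _ _
  have hSc : ContinuousOn (fun u => ∑ p ∈ PS X, Fp d l m p u) (Icc A B) :=
    continuousOn_finsetSum _ hFc
  have hSi : IntervalIntegrable (fun u => ∑ p ∈ PS X, Fp d l m p u) volume A B :=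
    hSc.intervalIntegrable_of_Icc hAB
  set G := Nat.sqrt (X / (l * m)) with hG
  have hgm : ∀ g ∈ Finset.Icc 1 G, 1 ≤ g * m ∧ 1 ≤ g * l := by
    intro g hg
    have := (Finset.mem_Icc.1 hg).1
    exact ⟨Nat.mul_pos this hm, Nat.mul_pos this hl⟩
  have hGc : ∀ g ∈ Finset.Icc 1 G, ContinuousOn (Fp d l m (g * m, g * l)) (Icc A B) := by
    intro g hg
    exact Fp_contOn hW d hd A B l m _ hA0 (hgm g hg).1 (hgm g hg).2
  have hDc : ContinuousOn (fun u => ∑ g ∈ Finset.Icc 1 G, Fp d l m (g * m, g * l) u) (Icc A B) :=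
    continuousOn_finsetSum _ hGc
  have hDi := hDc.intervalIntegrable_of_Icc (μ := volume) hAB
  have hMc : Continuous fun u => kap 0 d l m * riemannZeta (1 - I * d) +
      kap d 0 l m * riemannZeta (1 + I * d) * Xd d u :=
    continuous_const.add (continuous_const.mul (Xd_cont d))
  have hMi := hMc.intervalIntegrable (μ := volume) A B
  -- splitting
  have s1 : (∫ u in A..B, Pd d u * cexp (I * ((u * (Real.log m - Real.log l) : ℝ) : ℂ))) =
      (∫ u in A..B, (Pd d u * cexp (I * ((u * (Real.log m - Real.log l) : ℝ) : ℂ)) -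
        ∑ p ∈ PS X, Fp d l m p u)) + ∫ u in A..B, ∑ p ∈ PS X, Fp d l m p u := by
    rw [intervalIntegral.integral_sub hPi hSi]
    ring
  have s2 : (∫ u in A..B, ∑ p ∈ PS X, Fp d l m p u) =
      (∑ p ∈ (PS X).filter (fun p => p.1 * l ≠ p.2 * m), ∫ u in A..B, Fp d l m p u) +
      ∫ u in A..B, ∑ g ∈ Finset.Icc 1 G, Fp d l m (g * m, g * l) u := by
    rw [intervalIntegral.integral_finsetSum hFi,
      ← Finset.sum_filter_add_sum_filter_not (PS X) (fun p => p.1 * l ≠ p.2 * m),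
      dset X l m hl hm hco (fun p => ∫ u in A..B, Fp d l m p u),
      intervalIntegral.integral_finsetSum fun g hg => (hGc g hg).intervalIntegrable_of_Icc hAB]
  have s3 : (∫ u in A..B, (kap 0 d l m * riemannZeta (1 - I * d) +
      kap d 0 l m * riemannZeta (1 + I * d) * Xd d u)) =
      kap 0 d l m * riemannZeta (1 - I * d) * ((B - A : ℝ) : ℂ) +
      kap d 0 l m * riemannZeta (1 + I * d) * ∫ u in A..B, Xd d u := by
    have j1 : IntervalIntegrable (fun _ : ℝ => kap 0 d l m * riemannZeta (1 - I * d))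
        volume A B := intervalIntegrable_const
    have j2 : IntervalIntegrable (fun u : ℝ => kap d 0 l m * riemannZeta (1 + I * d) * Xd d u)
        volume A B := (continuous_const.mul (Xd_cont d)).intervalIntegrable _ _
    rw [intervalIntegral.integral_add j1 j2, intervalIntegral.integral_const,
      intervalIntegral.integral_const_mul]
    congr 1
    rw [Complex.real_smul, mul_comm]
  rw [s1, s2, ← s3]
  have s4 : ∀ a b c e : ℂ, a + (b + c) - e = a + b + (c - e) := by intros; ring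
  rw [s4, ← intervalIntegral.integral_sub hDi hMi]
  -- the three bounds
  have b1 : ‖∫ u in A..B, (Pd d u * cexp (I * ((u * (Real.log m - Real.log l) : ℝ) : ℂ)) -
        ∑ p ∈ PS X, Fp d l m p u)‖ ≤ 2 * C1 * T ^ (3 / 4 : ℝ) := by
    have c1 : IntervalIntegrable (fun u : ℝ => C1 * u ^ (-(1 / 2) + 1 / 20 : ℝ)) volume A B :=
      (intervalIntegral.intervalIntegrable_rpow' (by norm_num)).const_mul _
    refine (intervalIntegral.norm_integral_le_of_norm_le hAB ?_ c1).trans ?_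
    · refine Eventually.of_forall fun u hu => ?_
      have hu1 : 16 + |d| ≤ u := hA.trans hu.1.le
      have hu0 : 0 < u := hA0.trans hu.1
      have huT : u ≤ T := hu.2.trans hBT
      have huX : u ^ (1 + 1 / 20 : ℝ) ≤ X := by
        rw [show (1 + 1 / 20 : ℝ) = 21 / 20 by norm_num]
        exact (Real.rpow_le_rpow hu0.le huT (by norm_num)).trans hXl
      have c2 := h1 u X hu1 huX
      have c3 : Pd d u * cexp (I * ((u * (Real.log m - Real.log l) : ℝ) : ℂ)) -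
          ∑ p ∈ PS X, Fp d l m p u =
          (Pd d u - ∑ p ∈ PS X, (cW d p u : ℂ) * ((p.2 : ℂ) ^ (I * (d : ℂ)) +
            Xd d u * (p.1 : ℂ) ^ (-(I * (d : ℂ)))) * cexp (I * ((u * lam p : ℝ) : ℂ))) *
          cexp (I * ((u * (Real.log m - Real.log l) : ℝ) : ℂ)) := by
        rw [sub_mul, Finset.sum_mul]
        rfl
      have c9 : ‖cexp (I * ((u * (Real.log m - Real.log l) : ℝ) : ℂ))‖ = 1 := by
        rw [mul_comm I]
        exact Complex.norm_exp_ofReal_mul_I _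
      rw [c3, norm_mul, c9, mul_one]
      exact c2
    · rw [intervalIntegral.integral_const_mul, integral_rpow (Or.inl (by norm_num))]
      have c4 : (-(1 / 2) + 1 / 20 + 1 : ℝ) = 11 / 20 := by norm_num
      rw [c4]
      have c5 : 0 ≤ A ^ (11 / 20 : ℝ) := by positivity
      have c6 : B ^ (11 / 20 : ℝ) ≤ T ^ (3 / 4 : ℝ) :=
        (Real.rpow_le_rpow hB0.le hBT (by norm_num)).trans
          (Real.rpow_le_rpow_of_exponent_le hT1 (by norm_num))
      have c7 : (B ^ (11 / 20 : ℝ) - A ^ (11 / 20 : ℝ)) / (11 / 20) ≤ 2 * T ^ (3 / 4 : ℝ) := by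
        have c8 : 0 ≤ T ^ (3 / 4 : ℝ) := by positivity
        rw [div_le_iff₀ (by norm_num)]
        linarith
      calc _ ≤ C1 * (2 * T ^ (3 / 4 : ℝ)) := mul_le_mul_of_nonneg_left c7 hC1.le
        _ = _ := by ring
  have hqF : ((m, l) : ℕ × ℕ) ∈ FR X := by
    have hlmX : (l : ℝ) * m ≤ X := by
      refine hlm.trans (le_trans ?_ hXl)
      exact Real.rpow_le_rpow_of_exponent_le hT1 (by norm_num)
    have hlmX' : l * m ≤ X := by exact_mod_cast hlmX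
    have hm2 : m ≤ l * m := Nat.le_mul_of_pos_left m hl
    have hl2 : l ≤ l * m := Nat.le_mul_of_pos_right l hm
    unfold FR PS
    rw [Finset.mem_filter, Finset.mem_filter, Finset.mem_product, Finset.mem_Icc, Finset.mem_Icc]
    exact ⟨⟨⟨⟨hm, hm2.trans hlmX'⟩, hl, hl2.trans hlmX'⟩, by
      simp only
      rw [mul_comm]
      exact hlmX'⟩, hco.symm⟩
  have b2 : ‖∑ p ∈ (PS X).filter (fun p => p.1 * l ≠ p.2 * m), ∫ u in A..B, Fp d l m p u‖ ≤
      3 * 83 ^ 4 * (C2 * C3) * T ^ (3 / 4 : ℝ) := by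
    have c1 : ∀ p ∈ (PS X).filter (fun p => p.1 * l ≠ p.2 * m), ‖∫ u in A..B, Fp d l m p u‖ ≤
        C2 * (1 + Real.log B) * ((√(ht p))⁻¹ / |lam p - lam (m, l)|) := by
      intro p hp
      rw [Finset.mem_filter] at hp
      obtain ⟨hp, hne⟩ := hp
      unfold PS at hp
      rw [Finset.mem_filter, Finset.mem_product, Finset.mem_Icc, Finset.mem_Icc] at hp
      exact h2 A B l m p hA hAB hl hm hp.1.1.1 hp.1.2.1 hne
    have c2 := h3 X (m, l) hX1 hqF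
    simp only at c2
    refine ((norm_sum_le _ _).trans (Finset.sum_le_sum c1)).trans ?_
    rw [← Finset.mul_sum]
    have hlB : 0 ≤ Real.log B := Real.log_nonneg (by linarith)
    have hlBT : Real.log B ≤ Real.log T := Real.log_le_log hB0 hBT
    have c3 : 1 + Real.log B ≤ 83 * L := by linarith
    have hlX : 0 ≤ Real.log X := Real.log_nonneg hX0
    have c4 : 1 + Real.log X ≤ 83 * L := by
      have : Real.log (X : ℝ) ≤ Real.log ((X : ℝ) + 1) := Real.log_le_log (by linarith) (by linarith)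
      linarith
    have c5 : √(X : ℝ) + ht (m, l) ≤ 3 * T ^ (21 / 40 : ℝ) := by
      have d1 : √(X : ℝ) ≤ 2 * T ^ (21 / 40 : ℝ) := by
        rw [Real.sqrt_le_left (by positivity), mul_pow, ← Real.rpow_natCast (T ^ (21 / 40 : ℝ)) 2,
          ← Real.rpow_mul hT0.le]
        have : (21 / 40 * ((2 : ℕ) : ℝ) : ℝ) = 21 / 20 := by norm_num
        rw [this]
        nlinarith
      have d2 : ht (m, l) ≤ T ^ (21 / 40 : ℝ) := by
        have : ht (m, l) = (l : ℝ) * m := by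
          unfold Pool.Agent.Y969.GP.ht
          ring
        rw [this]
        exact hlm.trans (Real.rpow_le_rpow_of_exponent_le hT1 (by norm_num))
      linarith
    have hht : 0 ≤ ht (m, l) := (ht_pos (m, l) hm hl).le
    have c6 : (1 + Real.log X) ^ 3 ≤ (83 * L) ^ 3 :=
      pow_le_pow_left₀ (by linarith) c4 3
    have c7 : (∑ p ∈ (PS X).filter (fun p => p.1 * l ≠ p.2 * m),
        (√(ht p))⁻¹ / |lam p - lam (m, l)|) ≤ C3 * (3 * T ^ (21 / 40 : ℝ)) * (83 * L) ^ 3 := by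
      refine c2.trans ?_
      refine mul_le_mul ?_ c6 (by positivity) (by positivity)
      exact mul_le_mul_of_nonneg_left c5 hC3.le
    have c8 : 0 ≤ ∑ p ∈ (PS X).filter (fun p => p.1 * l ≠ p.2 * m),
        (√(ht p))⁻¹ / |lam p - lam (m, l)| := Finset.sum_nonneg fun p _ => by positivity
    have hL4 : T ^ (21 / 40 : ℝ) * L ^ 4 ≤ T ^ (3 / 4 : ℝ) := by
      rw [hL, ← Real.rpow_natCast (T ^ (1 / 40 : ℝ)) 4, ← Real.rpow_mul hT0.le,
        ← Real.rpow_add hT0]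
      exact Real.rpow_le_rpow_of_exponent_le hT1 (by norm_num)
    calc C2 * (1 + Real.log B) * ∑ p ∈ (PS X).filter (fun p => p.1 * l ≠ p.2 * m),
        (√(ht p))⁻¹ / |lam p - lam (m, l)|
        ≤ C2 * (83 * L) * (C3 * (3 * T ^ (21 / 40 : ℝ)) * (83 * L) ^ 3) :=
          mul_le_mul (mul_le_mul_of_nonneg_left c3 hC2.le) c7 c8 (by positivity)
      _ = 3 * 83 ^ 4 * (C2 * C3) * (T ^ (21 / 40 : ℝ) * L ^ 4) := by ring
      _ ≤ _ := mul_le_mul_of_nonneg_left hL4 (by positivity)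
  have b3 : ‖∫ u in A..B, ((∑ g ∈ Finset.Icc 1 G, Fp d l m (g * m, g * l) u) -
      (kap 0 d l m * riemannZeta (1 - I * d) + kap d 0 l m * riemannZeta (1 + I * d) * Xd d u))‖ ≤
      166 * C4 * T ^ (3 / 4 : ℝ) := by
    have c1 : IntervalIntegrable (fun u : ℝ => C4 * (83 * L) * u ^ (-(1 / 2) : ℝ)) volume A B :=
      (intervalIntegral.intervalIntegrable_rpow' (by norm_num)).const_mul _
    refine (intervalIntegral.norm_integral_le_of_norm_le hAB ?_ c1).trans ?_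
    · refine Eventually.of_forall fun u hu => ?_
      have hu0 : 0 < u := hA0.trans hu.1
      refine (h4 T u X l m hT hu0 (hu.2.trans hBT) hl hm hXl).trans ?_
      refine mul_le_mul_of_nonneg_right ?_ (Real.rpow_nonneg hu0.le _)
      exact mul_le_mul_of_nonneg_left hLX hC4.le
    · rw [intervalIntegral.integral_const_mul, integral_rpow (Or.inl (by norm_num))]
      have c4 : (-(1 / 2) + 1 : ℝ) = 1 / 2 := by norm_num
      rw [c4]
      have c5 : 0 ≤ A ^ (1 / 2 : ℝ) := by positivity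
      have c6 : B ^ (1 / 2 : ℝ) ≤ T ^ (1 / 2 : ℝ) := Real.rpow_le_rpow hB0.le hBT (by norm_num)
      have c7 : (B ^ (1 / 2 : ℝ) - A ^ (1 / 2 : ℝ)) / (1 / 2) ≤ 2 * T ^ (1 / 2 : ℝ) := by
        rw [div_le_iff₀ (by norm_num)]
        linarith
      have c8 : T ^ (1 / 2 : ℝ) * L ≤ T ^ (3 / 4 : ℝ) := by
        rw [hL, ← Real.rpow_add hT0]
        exact Real.rpow_le_rpow_of_exponent_le hT1 (by norm_num)
      calc _ ≤ C4 * (83 * L) * (2 * T ^ (1 / 2 : ℝ)) := mul_le_mul_of_nonneg_left c7 (by positivity)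
        _ = 166 * C4 * (T ^ (1 / 2 : ℝ) * L) := by ring
        _ ≤ _ := mul_le_mul_of_nonneg_left c8 (by positivity)
  refine (norm_add_le _ _).trans ?_
  refine (add_le_add ((norm_add_le _ _).trans (add_le_add b1 b2)) b3).trans ?_
  linarith

end

end Pool.Agent.T2H54.TP
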