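import Pool.Agent.T2H54.TP.Stm
import Pool.Agent.T2H54.SB.NSU

/-!
Package NSF of helper54 (MP_fa2474_nt, project TP), written by helper51: almost all vectors of a
translated box are separated from each other and from the two fixed shifts.
-/

set_option autoImplicit false
open Complex Filter Topology MeasureTheory Set
open Pool.Agent.TH612.GS Pool.Agent.T2H54.SB

namespace Pool.Agent.T2H54.TP

namespace NSFh

noncomputable section

lemma single_le {ι : Type} [Fintype ι] [DecidableEq ι] (T r : ℝ) (U : ι → ℝ) (a : ℝ) (p : ι) :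
    (Measure.pi fun _ : ι => (volume.restrict (Icc (0:ℝ) T)))
      {γ | |(U p + γ p) - a| < r} ≤
      ENNReal.ofReal (2 * r) * ENNReal.ofReal T ^ (Fintype.card ι - 1) := by
  set S : Set ℝ := {y | |y - (a - U p)| < r} with hS
  have h1 : {γ : ι → ℝ | |(U p + γ p) - a| < r} =
      Set.pi univ (Function.update (fun _ => (univ : Set ℝ)) p S) := by
    ext γ
    simp only [mem_ofPred_eq, mem_univ_pi]
    have e : U p + γ p - a = γ p - (a - U p) := by ring
    constructor
    · intro h i
      by_cases hi : i = p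
      · subst hi
        rw [Function.update_self]
        rw [e] at h
        exact h
      · rw [Function.update_of_ne hi]
        trivial
    · intro h
      have h2 := h p
      rw [Function.update_self] at h2
      rw [e]
      exact h2
  rw [h1, Measure.pi_pi, ← Finset.mul_prod_erase Finset.univ _ (Finset.mem_univ p),
    Function.update_self]
  have h3 : ∏ i ∈ Finset.univ.erase p, (volume.restrict (Icc (0:ℝ) T))
      (Function.update (fun _ => (univ : Set ℝ)) p S i) = ENNReal.ofReal T ^ (Fintype.card ι - 1) := by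
    have h4 : ∀ i ∈ Finset.univ.erase p, (volume.restrict (Icc (0:ℝ) T))
        (Function.update (fun _ => (univ : Set ℝ)) p S i) = ENNReal.ofReal T := by
      intro i hi
      rw [Function.update_of_ne (Finset.ne_of_mem_erase hi)]
      simp
    rw [Finset.prod_congr rfl h4, Finset.prod_const, Finset.card_erase_of_mem (Finset.mem_univ p),
      Finset.card_univ]
  rw [h3]
  gcongr
  exact NSU.slab_le T r (a - U p)

end

end NSFh

open NSFh in
theorem t_NSF : S_NSF := by
  intro n a b H U hH
  have hH0 : (0 : ℝ) < H := by linarith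
  set r : ℝ := H ^ (1 / 2 : ℝ) with hr
  have hr0 : 0 ≤ r := by positivity
  have hsub : (SepF a b H U)ᶜ ⊆ (SepU n H U)ᶜ ∪
      ⋃ i : (Fin n ⊕ Fin n) × Bool, {γ : Fin n ⊕ Fin n → ℝ |
        |(U i.1 + γ i.1) - (if i.2 then a else b)| < r} := by
    intro γ hγ
    by_cases h : γ ∈ SepU n H U
    · right
      have h2 : ¬ ∀ p, H ^ (1 / 2 : ℝ) ≤ |(U p + γ p) - a| ∧ H ^ (1 / 2 : ℝ) ≤ |(U p + γ p) - b| :=
        fun h2 => hγ ⟨h.1, h.2, h2⟩
      rw [not_forall] at h2
      obtain ⟨p, hp⟩ := h2
      rw [not_and_or, not_le, not_le] at hp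
      rcases hp with hp | hp
      · refine Set.mem_iUnion.2 ⟨(p, true), ?_⟩
        show |(U p + γ p) - (if true = true then a else b)| < r
        rw [if_pos rfl]
        exact hp
      · refine Set.mem_iUnion.2 ⟨(p, false), ?_⟩
        show |(U p + γ p) - (if false = true then a else b)| < r
        rw [if_neg (by decide)]
        exact hp
    · left; exact h
  have hcard : Fintype.card (Fin n ⊕ Fin n) = 2 * n := by
    rw [Fintype.card_sum, Fintype.card_fin]
    ring
  have hone : ∀ i : (Fin n ⊕ Fin n) × Bool, mP (Fin n ⊕ Fin n) H {γ : Fin n ⊕ Fin n → ℝ |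
        |(U i.1 + γ i.1) - (if i.2 then a else b)| < r} ≤
      ENNReal.ofReal (2 * H ^ (2 * n - 1 / 2 : ℝ)) := by
    rintro ⟨p, c⟩
    refine (single_le H r U (if c then a else b) p).trans ?_
    rw [hcard, ← ENNReal.ofReal_pow hH0.le, ← ENNReal.ofReal_mul (by positivity)]
    apply ENNReal.ofReal_le_ofReal
    have hk : 1 ≤ n := by
      rcases Nat.eq_zero_or_pos n with h | h
      · subst h
        rcases p with p | p <;> exact p.elim0
      · exact h
    have h5 : H ^ (2 * n - 1 / 2 : ℝ) = r * H ^ (2 * n - 1 : ℕ) := by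
      rw [hr, ← Real.rpow_natCast, ← Real.rpow_add hH0]
      congr 1
      rw [Nat.cast_sub (by omega)]
      push_cast
      ring
    rw [h5]
    apply le_of_eq
    ring
  calc mP (Fin n ⊕ Fin n) H (SepF a b H U)ᶜ ≤ _ := measure_mono hsub
    _ ≤ mP (Fin n ⊕ Fin n) H (SepU n H U)ᶜ + mP (Fin n ⊕ Fin n) H
      (⋃ i : (Fin n ⊕ Fin n) × Bool, {γ : Fin n ⊕ Fin n → ℝ |
        |(U i.1 + γ i.1) - (if i.2 then a else b)| < r}) := measure_union_le _ _
    _ ≤ ENNReal.ofReal (8 * n ^ 2 * H ^ (2 * n - 1 / 2 : ℝ)) +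
      ∑ i : (Fin n ⊕ Fin n) × Bool, mP (Fin n ⊕ Fin n) H {γ : Fin n ⊕ Fin n → ℝ |
        |(U i.1 + γ i.1) - (if i.2 then a else b)| < r} := by
        gcongr
        · exact NSU.ns n H hH U
        · exact measure_iUnion_fintype_le _ _
    _ ≤ ENNReal.ofReal (8 * n ^ 2 * H ^ (2 * n - 1 / 2 : ℝ)) +
      ∑ _i : (Fin n ⊕ Fin n) × Bool, ENNReal.ofReal (2 * H ^ (2 * n - 1 / 2 : ℝ)) := by
        gcongr with i _
        exact hone i
    _ ≤ ENNReal.ofReal (16 * (n + 1) ^ 2 * H ^ (2 * n - 1 / 2 : ℝ)) := by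
        rw [Finset.sum_const, Finset.card_univ, Fintype.card_prod, hcard, Fintype.card_bool,
          nsmul_eq_mul, ← ENNReal.ofReal_natCast, ← ENNReal.ofReal_mul (by positivity),
          ← ENNReal.ofReal_add (by positivity) (by positivity)]
        apply ENNReal.ofReal_le_ofReal
        have h1 : 0 ≤ H ^ (2 * n - 1 / 2 : ℝ) := by positivity
        have h2 : (0 : ℝ) ≤ n := Nat.cast_nonneg _
        push_cast
        nlinarith [mul_nonneg h2 h1, mul_nonneg (mul_nonneg h2 h2) h1]

end Pool.Agent.T2H54.TP
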