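import Pool.Agent.T2H54.TP.Stm
import Pool.Agent.TH612.GS.Inv

set_option autoImplicit false

/-!
Package QD of project TP: the terms of the recipe.
-/

namespace Pool.Agent.T2H54.TP

open Complex Filter Topology MeasureTheory Set
open Pool.Agent.TH612.CF Pool.Agent.TH612.GS Pool.Agent.T2H54.SB

noncomputable section

namespace PkgQD

/-- the swap of the fixed pair -/
def sw (n : ℕ) : Equiv.Perm (Fin (n + 1) ⊕ Fin (n + 1)) := Equiv.swap (Sum.inl 0) (Sum.inr 0)

lemma sw_l (n : ℕ) : sw n (Sum.inl 0) = Sum.inr 0 := Equiv.swap_apply_left _ _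
lemma sw_r (n : ℕ) : sw n (Sum.inr 0) = Sum.inl 0 := Equiv.swap_apply_right _ _
lemma sw_ls (n : ℕ) {j : Fin (n + 1)} (hj : j ≠ 0) : sw n (Sum.inl j) = Sum.inl j :=
  Equiv.swap_apply_of_ne_of_ne (fun h => hj (Sum.inl_injective h)) Sum.inl_ne_inr
lemma sw_rs (n : ℕ) {j : Fin (n + 1)} (hj : j ≠ 0) : sw n (Sum.inr j) = Sum.inr j :=
  Equiv.swap_apply_of_ne_of_ne Sum.inr_ne_inl (fun h => hj (Sum.inr_injective h))
lemma sw_sw (n : ℕ) (x : Fin (n + 1) ⊕ Fin (n + 1)) : sw n (sw n x) = x := Equiv.swap_apply_self _ _ _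
lemma sw_mul (n : ℕ) : sw n * sw n = 1 := Equiv.swap_mul_self _ _

lemma gc_sw {n : ℕ} (a b : ℝ) (θ : Fin n ⊕ Fin n → ℝ) (i : Fin (n + 1) ⊕ Fin (n + 1)) :
    gc a b θ (sw n i) = gc b a θ i := by
  rcases i with j | j
  · by_cases hj : j = 0
    · rw [hj, sw_l]; simp [gc]
    · rw [sw_ls n hj]
      obtain ⟨i, rfl⟩ := Fin.exists_succ_eq.2 hj
      simp [gc]
  · by_cases hj : j = 0
    · rw [hj, sw_r]; simp [gc]
    · rw [sw_rs n hj]
      obtain ⟨i, rfl⟩ := Fin.exists_succ_eq.2 hj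
      simp [gc]

lemma pos_sw {n : ℕ} (i : Fin n ⊕ Fin n) : sw n (pos i) = pos i := by
  rcases i with j | j
  · exact sw_ls n (Fin.succ_ne_zero j)
  · exact sw_rs n (Fin.succ_ne_zero j)

lemma pk_iff {k : ℕ} (π : Equiv.Perm (Fin k ⊕ Fin k)) :
    π ∈ Pk k ↔ ∀ j, (π (Sum.inr j)).isLeft = false := by
  unfold Pk
  rw [Finset.mem_filter]
  exact ⟨fun h => h.2, fun h => ⟨Finset.mem_univ _, h⟩⟩

lemma pk_left {k : ℕ} {π : Equiv.Perm (Fin k ⊕ Fin k)} (h : π ∈ Pk k) (x : Fin k ⊕ Fin k) :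
    (π x).isLeft = x.isLeft := by
  rw [pk_iff] at h
  rcases x with j | j
  · have := card_eq_zero_of h j
    cases hx : π (Sum.inl j) with
    | inl a => rfl
    | inr a => rw [hx] at this; simp at this
  · rw [h j]; rfl

/-- the complement of `Oth n` -/
lemma not_oth {n : ℕ} (π : Equiv.Perm (Fin (n + 1) ⊕ Fin (n + 1))) :
    π ∉ Oth n ↔ π ∈ Pk (n + 1) ∨ sw n * π ∈ Pk (n + 1) := by
  unfold Oth
  rw [Finset.mem_filter]
  constructor
  · intro h
    have h' : ∀ i : Fin n ⊕ Fin n, (π.symm (pos i)).isLeft = (pos i).isLeft := by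
      intro i
      by_contra hc
      exact h ⟨Finset.mem_univ _, i, hc⟩
    have hA : ∀ (x : Fin (n + 1) ⊕ Fin (n + 1)) (i : Fin n ⊕ Fin n), π x = pos i →
        x.isLeft = (pos i).isLeft := by
      intro x i hx
      rw [← h' i, ← hx, Equiv.symm_apply_apply]
    by_cases hc : ∃ j0, π (Sum.inr j0) = Sum.inl 0
    · right
      obtain ⟨j0, hj0⟩ := hc
      -- a left position with value `inr 0`
      have h1 : (SR π).Nonempty := by
        refine ⟨j0, ?_⟩
        unfold SR
        rw [Finset.mem_filter]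
        exact ⟨Finset.mem_univ _, by rw [hj0]; rfl⟩
      have h2 : (SL π).Nonempty := by
        rw [← Finset.card_pos, card_SL_SR]
        exact Finset.card_pos.2 h1
      obtain ⟨j1, hj1⟩ := h2
      unfold SL at hj1
      rw [Finset.mem_filter] at hj1
      have hj1' : π (Sum.inl j1) = Sum.inr 0 := by
        cases hx : π (Sum.inl j1) with
        | inl a => rw [hx] at hj1; simp at hj1
        | inr a =>
          by_cases ha : a = 0
          · rw [ha]
          · obtain ⟨i, rfl⟩ := Fin.exists_succ_eq.2 ha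
            have := hA (Sum.inl j1) (Sum.inr i) hx
            simp [pos] at this
      rw [pk_iff]
      intro j
      rw [Equiv.Perm.mul_apply]
      cases hx : π (Sum.inr j) with
      | inl a =>
        by_cases ha : a = 0
        · rw [ha, sw_l]; rfl
        · obtain ⟨i, rfl⟩ := Fin.exists_succ_eq.2 ha
          have := hA (Sum.inr j) (Sum.inl i) hx
          simp [pos] at this
      | inr a =>
        by_cases ha : a = 0
        · exfalso
          rw [ha, ← hj1'] at hx
          have := π.injective hx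
          simp at this
        · rw [sw_rs n ha]; rfl
    · left
      rw [pk_iff]
      intro j
      cases hx : π (Sum.inr j) with
      | inl a =>
        exfalso
        by_cases ha : a = 0
        · exact hc ⟨j, by rw [hx, ha]⟩
        · obtain ⟨i, rfl⟩ := Fin.exists_succ_eq.2 ha
          have := hA (Sum.inr j) (Sum.inl i) hx
          simp [pos] at this
      | inr a => rfl
  · rintro h ⟨-, i, hi⟩
    apply hi
    rcases h with h | h
    · have := pk_left h (π.symm (pos i))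
      rw [Equiv.apply_symm_apply] at this
      exact this.symm
    · have := pk_left h (π.symm (pos i))
      rw [Equiv.Perm.mul_apply, Equiv.apply_symm_apply, pos_sw] at this
      exact this.symm

lemma disj {n : ℕ} (π : Equiv.Perm (Fin (n + 1) ⊕ Fin (n + 1))) (h1 : π ∈ Pk (n + 1))
    (h2 : sw n * π ∈ Pk (n + 1)) : False := by
  have e1 := pk_left h1 (π.symm (Sum.inl 0))
  have e2 := pk_left h2 (π.symm (Sum.inl 0))
  rw [Equiv.Perm.mul_apply, Equiv.apply_symm_apply, sw_l] at e2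
  rw [Equiv.apply_symm_apply] at e1
  rw [← e1] at e2
  simp at e2

lemma GG_sw {n : ℕ} (a b t : ℝ) (θ : Fin n ⊕ Fin n → ℝ) {ρ : Equiv.Perm (Fin (n + 1) ⊕ Fin (n + 1))}
    (h : ρ ∈ Pk (n + 1)) : GG t (fun i => (gc a b θ i : ℂ)) (sw n * ρ) = Xab a b t := by
  have hl := pk_left h
  obtain ⟨j1, hj1⟩ : ∃ j1, ρ (Sum.inl j1) = Sum.inl 0 := by
    have h1 := hl (ρ.symm (Sum.inl 0))
    rw [Equiv.apply_symm_apply] at h1
    cases hx : ρ.symm (Sum.inl 0) with
    | inl x => exact ⟨x, by rw [← hx, Equiv.apply_symm_apply]⟩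
    | inr x => rw [hx] at h1; simp at h1
  obtain ⟨j2, hj2⟩ : ∃ j2, ρ (Sum.inr j2) = Sum.inr 0 := by
    have h1 := hl (ρ.symm (Sum.inr 0))
    rw [Equiv.apply_symm_apply] at h1
    cases hx : ρ.symm (Sum.inr 0) with
    | inr x => exact ⟨x, by rw [← hx, Equiv.apply_symm_apply]⟩
    | inl x => rw [hx] at h1; simp at h1
  unfold GG
  simp only [Equiv.Perm.mul_apply, gc_sw]
  have p1 : (∏ j : Fin (n + 1), if (sw n (ρ (Sum.inl j))).isRight then
      chi (1 / 2 - I * t - I * (gc b a θ (ρ (Sum.inl j)) : ℂ)) else 1) =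
      chi (1 / 2 - I * t - I * (b : ℂ)) := by
    rw [Finset.prod_eq_single j1]
    · rw [hj1, sw_l]
      simp [gc]
    · intro j _ hj
      rw [if_neg]
      cases hx : ρ (Sum.inl j) with
      | inl x =>
        have hx0 : x ≠ 0 := by
          intro h0
          rw [h0, ← hj1] at hx
          exact hj (Sum.inl_injective (ρ.injective hx))
        rw [sw_ls n hx0]; simp
      | inr x => have := hl (Sum.inl j); rw [hx] at this; simp at this
    · intro hh; exact absurd (Finset.mem_univ _) hh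
  have p2 : (∏ j : Fin (n + 1), if (sw n (ρ (Sum.inr j))).isLeft then
      chi (1 / 2 + I * t + I * (gc b a θ (ρ (Sum.inr j)) : ℂ)) else 1) =
      chi (1 / 2 + I * t + I * (a : ℂ)) := by
    rw [Finset.prod_eq_single j2]
    · rw [hj2, sw_r]
      simp [gc]
    · intro j _ hj
      rw [if_neg]
      cases hx : ρ (Sum.inr j) with
      | inr x =>
        have hx0 : x ≠ 0 := by
          intro h0
          rw [h0, ← hj2] at hx
          exact hj (Sum.inr_injective (ρ.injective hx))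
        rw [sw_rs n hx0]; simp
      | inl x => have := hl (Sum.inr j); rw [hx] at this; simp at this
    · intro hh; exact absurd (Finset.mem_univ _) hh
  rw [p1, p2, mul_comm]
  unfold Xab
  congr 2
  · push_cast; ring
  · push_cast; ring

end PkgQD

open PkgQD in
theorem t_QD : S_QD := by
  classical
  intro n a b t θ
  unfold Qs
  rw [← Finset.sum_add_sum_compl (Oth n), add_comm]
  have e0 : ∀ π : Equiv.Perm (Fin (n + 1) ⊕ Fin (n + 1)), Rt t (fun i => (gc a b θ i : ℂ)) π =
      GG t (fun i => (gc a b θ i : ℂ)) π * zp (gc a b θ) π := fun π => rfl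
  congr 1
  have e1 : (Oth n)ᶜ = Pk (n + 1) ∪ (Pk (n + 1)).image (fun ρ => sw n * ρ) := by
    ext π
    rw [Finset.mem_compl, not_oth, Finset.mem_union, Finset.mem_image]
    refine or_congr Iff.rfl ⟨fun h => ⟨sw n * π, h, ?_⟩, ?_⟩
    · rw [← mul_assoc, sw_mul, one_mul]
    · rintro ⟨ρ, hρ, rfl⟩
      rw [← mul_assoc, sw_mul, one_mul]
      exact hρ
  have e2 : Disjoint (Pk (n + 1)) ((Pk (n + 1)).image (fun ρ => sw n * ρ)) := by
    rw [Finset.disjoint_left]
    intro π h1 h2
    obtain ⟨ρ, hρ, rfl⟩ := Finset.mem_image.1 h2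
    refine disj _ h1 ?_
    rw [← mul_assoc, sw_mul, one_mul]
    exact hρ
  rw [e1, Finset.sum_union e2, Finset.sum_image (fun x _ y _ hxy => mul_left_cancel hxy)]
  have s1 : ∑ π ∈ Pk (n + 1), Rt t (fun i => (gc a b θ i : ℂ)) π =
      ((Nat.factorial (n + 1) : ℂ) ^ 2) * zr (gc a b θ) := by
    have h1 : ∀ π ∈ Pk (n + 1), Rt t (fun i => (gc a b θ i : ℂ)) π = zr (gc a b θ) := by
      intro π hπ
      obtain ⟨h2, h3⟩ := t_INV (n + 1) (gc a b θ) π ((pk_iff π).1 hπ)
      rw [e0, h3]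
      unfold zp
      rw [h2, one_mul]
    rw [Finset.sum_congr rfl h1, Finset.sum_const, card_Pk, nsmul_eq_mul]
    push_cast; ring
  have s2 : ∑ π ∈ Pk (n + 1), Rt t (fun i => (gc a b θ i : ℂ)) (sw n * π) =
      ((Nat.factorial (n + 1) : ℂ) ^ 2) * (Xab a b t * zr (gc b a θ)) := by
    have h1 : ∀ π ∈ Pk (n + 1), Rt t (fun i => (gc a b θ i : ℂ)) (sw n * π) =
        Xab a b t * zr (gc b a θ) := by
      intro π hπ
      obtain ⟨h2, -⟩ := t_INV (n + 1) (gc b a θ) π ((pk_iff π).1 hπ)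
      rw [e0, GG_sw a b t θ hπ]
      congr 1
      unfold zp
      simp only [Equiv.Perm.mul_apply, gc_sw]
      exact h2
    rw [Finset.sum_congr rfl h1, Finset.sum_const, card_Pk, nsmul_eq_mul]
    push_cast; ring
  rw [s1, s2]
  ring

end

end Pool.Agent.T2H54.TP
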