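import Pool.Agent.T2H54.TP.Stm
import Pool.Agent.T2H54.SB.FL2U
import Pool.Agent.TH367.GS.SS

set_option autoImplicit false

/-! Package SSR of project TP: from the sharp to the smooth sum of the reduced coefficients
(adapted from `Pool.Agent.TH367.GS.SS` and `Pool.Agent.T2H54.SB.SSU`). -/

namespace Pool.Agent.T2H54.TP.PkgSSR

open Complex Filter Topology MeasureTheory Set
open Pool.Agent.TH612.CF Pool.Agent.TH612.GS Pool.Agent.T2H54.SB
open Pool.Agent.T2H54.SB.PkgFL2U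
open Pool.Agent.TH367.GS (qq norm_one_sub mem_tup tup_card)

noncomputable section

variable {n : ℕ}

/-- the least common multiple of the two products -/
def lc (ν : Fin n ⊕ Fin n → ℕ) : ℕ := Nat.lcm (pl ν) (pr ν)

lemma pl_pos {N : ℕ} {ν : Fin n ⊕ Fin n → ℕ} (h : ν ∈ tup n N) : 0 < pl ν :=
  Finset.prod_pos fun j _ => (mem_tup.1 h (Sum.inl j)).1

lemma pr_pos {N : ℕ} {ν : Fin n ⊕ Fin n → ℕ} (h : ν ∈ tup n N) : 0 < pr ν :=
  Finset.prod_pos fun j _ => (mem_tup.1 h (Sum.inr j)).1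

lemma lc_pos {N : ℕ} {ν : Fin n ⊕ Fin n → ℕ} (h : ν ∈ tup n N) : 0 < lc ν :=
  Nat.lcm_pos (pl_pos h) (pr_pos h)

lemma kap_norm (a b : ℝ) (l m : ℕ) (hl : 0 < l) (hm : 0 < m) :
    ‖kap a b l m‖ = ((l : ℝ) * m) ^ (-(1 / 2 : ℝ)) := by
  unfold kap
  rw [norm_mul, norm_mul, norm_natCast_cpow_of_pos hm, norm_natCast_cpow_of_pos hl,
    Complex.norm_real, Real.norm_eq_abs, abs_of_nonneg (by positivity)]
  simp

lemma cf_norm (a b : ℝ) {N : ℕ} {ν : Fin n ⊕ Fin n → ℕ} (h : ν ∈ tup n N) :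
    ‖cf a b ν‖ = ((lc ν : ℕ) : ℝ)⁻¹ := by
  have hl := pl_pos h
  have hr := pr_pos h
  obtain ⟨g, hg⟩ : ∃ g, g = Nat.gcd (pl ν) (pr ν) := ⟨_, rfl⟩
  have hg0 : 0 < g := hg ▸ Nat.gcd_pos_of_pos_left _ hl
  have hgl : g ∣ pl ν := hg ▸ Nat.gcd_dvd_left _ _
  have hgr : g ∣ pr ν := hg ▸ Nat.gcd_dvd_right _ _
  have hl1 : g * (pl ν / g) = pl ν := Nat.mul_div_cancel' hgl
  have hr1 : g * (pr ν / g) = pr ν := Nat.mul_div_cancel' hgr
  have hl2 : 0 < pl ν / g := Nat.div_pos (Nat.le_of_dvd hl hgl) hg0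
  have hr2 : 0 < pr ν / g := Nat.div_pos (Nat.le_of_dvd hr hgr) hg0
  have hlc : lc ν = g * (pl ν / g) * (pr ν / g) := by
    unfold lc
    rw [hl1]
    have h1 := Nat.gcd_mul_lcm (pl ν) (pr ν)
    rw [← hg] at h1
    have h2 : g * (Nat.lcm (pl ν) (pr ν)) = g * (pl ν * (pr ν / g)) := by
      rw [h1]
      calc pl ν * pr ν = pl ν * (g * (pr ν / g)) := by rw [hr1]
        _ = _ := by ring
    exact Nat.eq_of_mul_eq_mul_left hg0 h2
  have hw : wt ν = (((pl ν : ℕ) : ℝ) * ((pr ν : ℕ) : ℝ)) ^ (-(1 / 2 : ℝ)) := by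
    unfold wt
    rw [Fintype.prod_sum_type]
    unfold pl pr
    push_cast
    rfl
  have hlcR : ((lc ν : ℕ) : ℝ) = g * ((pl ν / g : ℕ) : ℝ) * ((pr ν / g : ℕ) : ℝ) := by
    rw [hlc]
    push_cast
    rfl
  have hlc0 : (0:ℝ) < ((lc ν : ℕ) : ℝ) := by exact_mod_cast lc_pos h
  have hplR : ((pl ν : ℕ) : ℝ) = g * ((pl ν / g : ℕ) : ℝ) := by exact_mod_cast hl1.symm
  have hprR : ((pr ν : ℕ) : ℝ) = g * ((pr ν / g : ℕ) : ℝ) := by exact_mod_cast hr1.symm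
  unfold cf
  rw [← hg, norm_mul, Complex.norm_real, Real.norm_eq_abs, kap_norm a b _ _ hl2 hr2, hw,
    abs_of_nonneg (by positivity), ← Real.mul_rpow (by positivity) (by positivity)]
  have he : ((pl ν : ℕ) : ℝ) * ((pr ν : ℕ) : ℝ) * (((pl ν / g : ℕ) : ℝ) * ((pr ν / g : ℕ) : ℝ)) =
      ((lc ν : ℕ) : ℝ) ^ (2 : ℝ) := by
    rw [show (2:ℝ) = ((2:ℕ) : ℝ) by norm_num, Real.rpow_natCast, hlcR, hplR, hprR]
    ring
  rw [he, ← Real.rpow_mul hlc0.le, ← Real.rpow_neg_one]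
  norm_num

/-- number of tuples with given least common multiple -/
lemma fiber_card (N m : ℕ) (hm : 1 ≤ m) :
    ((tup n N).filter (fun ν => lc ν = m)).card ≤ m.divisors.card ^ (2 * n) := by
  have h1 : (tup n N).filter (fun ν => lc ν = m) ⊆
      Fintype.piFinset (fun _ : Fin n ⊕ Fin n => m.divisors) := by
    intro ν hν
    rw [Finset.mem_filter] at hν
    obtain ⟨_, hm'⟩ := hν
    rw [Fintype.mem_piFinset]
    intro i
    rw [Nat.mem_divisors]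
    refine ⟨?_, by omega⟩
    rw [← hm']
    rcases i with j | j
    · exact (Finset.dvd_prod_of_mem (fun j => ν (Sum.inl j)) (Finset.mem_univ j)).trans
        (Nat.dvd_lcm_left _ _)
    · exact (Finset.dvd_prod_of_mem (fun j => ν (Sum.inr j)) (Finset.mem_univ j)).trans
        (Nat.dvd_lcm_right _ _)
  refine (Finset.card_le_card h1).trans ?_
  rw [Fintype.card_piFinset]
  simp [two_mul]

/-- the sum of `lcm^(-3/2)` over the tuples is bounded -/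
lemma lcm_bound (n : ℕ) : ∃ K : ℝ, 0 ≤ K ∧ ∀ N : ℕ,
    ∑ ν ∈ tup n N, ((lc ν : ℕ) : ℝ) ^ (-(3 / 2) : ℝ) ≤ K := by
  obtain ⟨C, hC0, hC⟩ := Pool.Agent.H510R2.divisor_bound (1 / (8 * (n + 1))) (by positivity)
  have hs : Summable (fun m : ℕ => (m : ℝ) ^ (-(5 / 4) : ℝ)) :=
    Real.summable_nat_rpow.2 (by norm_num)
  refine ⟨C ^ (2 * n) * ∑' m : ℕ, (m : ℝ) ^ (-(5 / 4) : ℝ),
    mul_nonneg (by positivity) (tsum_nonneg fun m => by positivity), fun N => ?_⟩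
  classical
  rw [← Finset.sum_fiberwise_of_maps_to (s := tup n N) (t := (tup n N).image lc) (g := lc)
    (fun ν hν => Finset.mem_image_of_mem _ hν)]
  rw [← tsum_mul_left]
  refine le_trans ?_ ((hs.mul_left _).sum_le_tsum ((tup n N).image lc)
    (fun m _ => by positivity))
  refine Finset.sum_le_sum fun m hm => ?_
  have hm1 : 1 ≤ m := by
    obtain ⟨ν, hν, rfl⟩ := Finset.mem_image.1 hm
    exact lc_pos hν
  have hm0 : (0:ℝ) < m := by exact_mod_cast hm1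
  have h1 : ∑ ν ∈ (tup n N).filter (fun ν => lc ν = m), ((lc ν : ℕ) : ℝ) ^ (-(3 / 2) : ℝ) =
      ((tup n N).filter (fun ν => lc ν = m)).card * (m : ℝ) ^ (-(3 / 2) : ℝ) := by
    rw [Finset.sum_congr rfl (g := fun _ => (m : ℝ) ^ (-(3 / 2) : ℝ))]
    · rw [Finset.sum_const, nsmul_eq_mul]
    · intro ν hν
      rw [(Finset.mem_filter.1 hν).2]
  rw [h1]
  have h2 : (((tup n N).filter (fun ν => lc ν = m)).card : ℝ) ≤
      C ^ (2 * n) * (m : ℝ) ^ (1 / 4 : ℝ) := by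
    have h3 : (((tup n N).filter (fun ν => lc ν = m)).card : ℝ) ≤
        (m.divisors.card : ℝ) ^ (2 * n) := by
      exact_mod_cast fiber_card (n := n) N m hm1
    refine h3.trans ?_
    refine (pow_le_pow_left₀ (by positivity) (hC m hm1) _).trans ?_
    rw [mul_pow, ← Real.rpow_natCast ((m:ℝ) ^ _), ← Real.rpow_mul hm0.le]
    refine mul_le_mul_of_nonneg_left ?_ (by positivity)
    refine Real.rpow_le_rpow_of_exponent_le (by exact_mod_cast hm1) ?_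
    push_cast
    rw [div_mul_eq_mul_div, div_le_div_iff₀ (by positivity) (by norm_num)]
    nlinarith
  calc _ ≤ (C ^ (2 * n) * (m : ℝ) ^ (1 / 4 : ℝ)) * (m : ℝ) ^ (-(3 / 2) : ℝ) := by gcongr
    _ = C ^ (2 * n) * (m : ℝ) ^ (-(5 / 4) : ℝ) := by
      rw [mul_assoc, ← Real.rpow_add hm0]
      norm_num

lemma SPr_eq (hL : S_LCM) {ψ : ℝ → ℝ} (hψ : Cut ψ) {N : ℕ} (hN : 2 ≤ N) (a b : ℝ)
    (θ : Fin n ⊕ Fin n → ℝ) :
    SPr ψ N a b θ = ∑ ν ∈ tup n N, cf a b ν * (qq ψ N (lc ν) : ℂ) * ch ν θ := by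
  have hlog : 0 < Real.log N := Real.log_pos (by exact_mod_cast (by omega : 1 < N))
  have h1 : SPr ψ N a b θ = ∑ m ∈ Finset.Icc 1 N, ∑ ν ∈ tup n N,
      if lc ν = m then cf a b ν * (qq ψ N m : ℂ) * ch ν θ else 0 := by
    unfold SPr
    refine Finset.sum_congr rfl fun m hm => ?_
    rw [Finset.mem_Icc] at hm
    rw [← Finset.sum_filter, hL n a b θ N m hm.1 hm.2, Finset.sum_mul]
    refine Finset.sum_congr ?_ fun ν _ => ?_
    · ext ν
      simp [lc]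
    · unfold qq
      ring
  rw [h1, Finset.sum_comm]
  refine Finset.sum_congr rfl fun ν hν => ?_
  rw [Finset.sum_ite_eq]
  split_ifs with h2
  · rfl
  · have h3 : N < lc ν := by
      rw [Finset.mem_Icc] at h2
      have := lc_pos hν
      omega
    have h4 : qq ψ N (lc ν) = 0 := by
      unfold qq
      apply hψ.2.2.2
      rw [le_div_iff₀ (by positivity)]
      have h5 : Real.log N ≤ Real.log (lc ν : ℕ) :=
        Real.log_le_log (by positivity) (by exact_mod_cast h3.le)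
      linarith
    rw [h4]
    simp

/-- the coefficients of the difference -/
def cc (a b : ℝ) (ψ : ℝ → ℝ) (N : ℕ) (ν : Fin n ⊕ Fin n → ℕ) : ℂ :=
  cf a b ν * (1 - (qq ψ N (lc ν) : ℂ))

lemma diff_eq (hL : S_LCM) {ψ : ℝ → ℝ} (hψ : Cut ψ) {N : ℕ} (hN : 2 ≤ N) (a b : ℝ)
    (θ : Fin n ⊕ Fin n → ℝ) :
    RN a b N θ - SPr ψ N a b θ = ∑ ν ∈ tup n N, cc a b ψ N ν * ch ν θ := by
  rw [SPr_eq hL hψ hN]
  unfold RN
  rw [← Finset.sum_sub_distrib]
  refine Finset.sum_congr rfl fun ν _ => ?_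
  unfold cc
  ring

lemma cc_le_one (a b : ℝ) {ψ : ℝ → ℝ} (hψ : Cut ψ) {N : ℕ} {ν : Fin n ⊕ Fin n → ℕ}
    (hν : ν ∈ tup n N) : ‖cc a b ψ N ν‖ ≤ 1 := by
  unfold cc
  rw [norm_mul, cf_norm a b hν]
  have h1 : (1:ℝ) ≤ (lc ν : ℕ) := by exact_mod_cast lc_pos hν
  have h2 := norm_one_sub hψ N (lc ν)
  have h3 : ((lc ν : ℕ) : ℝ)⁻¹ ≤ 1 := inv_le_one_of_one_le₀ h1
  calc _ ≤ (1:ℝ) * 1 := by gcongr
    _ = 1 := one_mul 1

lemma cc_sq (a b : ℝ) {ψ : ℝ → ℝ} (hψ : Cut ψ) {N : ℕ} (hN : 2 ≤ N) {ν : Fin n ⊕ Fin n → ℕ}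
    (hν : ν ∈ tup n N) :
    ‖cc a b ψ N ν‖ ^ 2 ≤ (N : ℝ) ^ (-(1 / 8) : ℝ) * ((lc ν : ℕ) : ℝ) ^ (-(3 / 2) : ℝ) := by
  have hlog : 0 < Real.log N := Real.log_pos (by exact_mod_cast (by omega : 1 < N))
  have hN0 : (0:ℝ) < N := by positivity
  have hp0 : (0:ℝ) < (lc ν : ℕ) := by exact_mod_cast lc_pos hν
  unfold cc
  by_cases h1 : Real.log (lc ν : ℕ) ≤ Real.log N / 4
  · have h2 : qq ψ N (lc ν) = 1 := by
      unfold qq
      apply hψ.2.2.1
      rw [div_le_iff₀ (by positivity)]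
      linarith
    rw [h2, Complex.ofReal_one, sub_self, mul_zero, norm_zero, zero_pow two_ne_zero]
    positivity
  · push Not at h1
    rw [norm_mul, cf_norm a b hν]
    have h2 := norm_one_sub hψ N (lc ν)
    have h3 : (((lc ν : ℕ) : ℝ)⁻¹ * ‖(1 - (qq ψ N (lc ν) : ℂ))‖) ^ 2 ≤
        (((lc ν : ℕ) : ℝ)⁻¹) ^ 2 := by
      apply pow_le_pow_left₀ (by positivity)
      calc _ ≤ ((lc ν : ℕ) : ℝ)⁻¹ * 1 := by gcongr
        _ = _ := mul_one _
    refine h3.trans ?_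
    have h4 : (((lc ν : ℕ) : ℝ)⁻¹) ^ 2 = ((lc ν : ℕ) : ℝ) ^ (-(1 / 2) : ℝ) *
        ((lc ν : ℕ) : ℝ) ^ (-(3 / 2) : ℝ) := by
      rw [← Real.rpow_add hp0, ← Real.rpow_neg_one, ← Real.rpow_natCast, ← Real.rpow_mul hp0.le]
      norm_num
    rw [h4]
    refine mul_le_mul_of_nonneg_right ?_ (by positivity)
    rw [Real.rpow_def_of_pos hp0, Real.rpow_def_of_pos hN0, Real.exp_le_exp]
    linarith

end

end Pool.Agent.T2H54.TP.PkgSSR

namespace Pool.Agent.T2H54.TP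

open Complex Filter Topology MeasureTheory Set
open Pool.Agent.TH612.CF Pool.Agent.TH612.GS Pool.Agent.T2H54.SB
open Pool.Agent.T2H54.SB.PkgFL2U
open Pool.Agent.TH367.GS (tup_card qq)
open Pool.Agent.T2H54.TP.PkgSSR

/-- the package SSR -/
theorem t_SSR (hL : S_LCM) : S_SSR := by
  intro n ψ hψ
  obtain ⟨K, hK0, hK⟩ := lcm_bound n
  refine ⟨K + 1, by positivity, fun a b T N U hN hT => ?_⟩
  have hN0 : (0:ℝ) < N := by positivity
  have hN1 : (1:ℝ) ≤ N := by exact_mod_cast (by omega : 1 ≤ N)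
  have hT0 : 0 < T := lt_of_lt_of_le (by positivity) hT
  have h1 := fl2U n N T (cc a b ψ N) U (by omega) hT0
  simp_rw [diff_eq hL hψ hN]
  refine h1.trans (ENNReal.ofReal_le_ofReal ?_)
  have hS2 : ∑ ν ∈ tup n N, ‖cc a b ψ N ν‖ ^ 2 ≤ (N : ℝ) ^ (-(1 / 8) : ℝ) * K := by
    refine le_trans ?_ (mul_le_mul_of_nonneg_left (hK N) (by positivity))
    rw [Finset.mul_sum]
    exact Finset.sum_le_sum fun ν hν => cc_sq a b hψ hN hν
  have hS1 : 2 * (N : ℝ) * T ^ (2 * n - 1) * (∑ ν ∈ tup n N, ‖cc a b ψ N ν‖) ^ 2 ≤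
      T ^ (2 * n) * (N : ℝ) ^ (-(1 / 8) : ℝ) := by
    rcases Nat.eq_zero_or_pos n with hk | hk
    · subst hk
      have h0 : ∑ ν ∈ tup 0 N, ‖cc a b ψ N ν‖ = 0 := by
        refine Finset.sum_eq_zero fun ν _ => ?_
        have hp : lc ν = 1 := by unfold lc pl pr; simp
        have hq : qq ψ N 1 = 1 := by
          unfold qq
          apply hψ.2.2.1
          simp
        unfold cc
        rw [hp, hq]
        simp
      rw [h0]
      simp only [ne_eq, OfNat.ofNat_ne_zero, not_false_eq_true, zero_pow, mul_zero]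
      positivity
    · have h2 : ∑ ν ∈ tup n N, ‖cc a b ψ N ν‖ ≤ (N : ℝ) ^ (2 * n) := by
        refine (Finset.sum_le_sum fun ν hν => cc_le_one a b hψ hν).trans ?_
        rw [Finset.sum_const, tup_card]
        simp
      have h3 : (∑ ν ∈ tup n N, ‖cc a b ψ N ν‖) ^ 2 ≤ (N : ℝ) ^ (4 * n) := by
        refine (pow_le_pow_left₀ (Finset.sum_nonneg fun _ _ => norm_nonneg _) h2 2).trans ?_
        rw [← pow_mul]
        apply le_of_eq
        congr 1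
        ring
      have h4 : (N : ℝ) ^ (-(1 : ℝ)) ≤ (N : ℝ) ^ (-(1 / 8) : ℝ) :=
        Real.rpow_le_rpow_of_exponent_le hN1 (by norm_num)
      have h5 : T ^ (2 * n) = T ^ (2 * n - 1) * T := by
        rw [← pow_succ]
        congr 1
        omega
      calc 2 * (N : ℝ) * T ^ (2 * n - 1) * (∑ ν ∈ tup n N, ‖cc a b ψ N ν‖) ^ 2
          ≤ 2 * (N : ℝ) * T ^ (2 * n - 1) * (N : ℝ) ^ (4 * n) := by gcongr
        _ = T ^ (2 * n - 1) * (2 * (N : ℝ) ^ (4 * n + 2)) * (N : ℝ) ^ (-(1 : ℝ)) := by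
            rw [Real.rpow_neg_one, pow_add, pow_two]
            field_simp
        _ ≤ T ^ (2 * n - 1) * T * (N : ℝ) ^ (-(1 / 8) : ℝ) := by gcongr
        _ = _ := by rw [← h5]
  calc T ^ (2 * n) * ∑ ν ∈ tup n N, ‖cc a b ψ N ν‖ ^ 2 +
      2 * N * T ^ (2 * n - 1) * (∑ ν ∈ tup n N, ‖cc a b ψ N ν‖) ^ 2
      ≤ T ^ (2 * n) * ((N : ℝ) ^ (-(1 / 8) : ℝ) * K) + T ^ (2 * n) * (N : ℝ) ^ (-(1 / 8) : ℝ) := by
        gcongr
    _ = _ := by ring

end Pool.Agent.T2H54.TP
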