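import Pool.Agent.T2H54.TP.Stm

set_option autoImplicit false

/-! Package SWF of project TP: the permutations which move a random shift
(adapted from `swL` in `Pool.Agent.T2H54.SB.ZL`). -/

namespace Pool.Agent.T2H54.TP.PkgSWF

open Complex Filter Topology MeasureTheory Set
open Pool.Agent.TH612.CF Pool.Agent.TH612.GS Pool.Agent.T2H54.SB
open Pool.Agent.TH805.GS (RR RR_update GG_split norm_RR cont_RR cont_chi norm_chi norm_chi'
  norm_chi'')

noncomputable section

lemma conjA (t g : ℝ) : (starRingEnd ℂ) (chi (1 / 2 + I * t + I * g)) = chi (1 / 2 - I * t - I * g) := by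
  have h1 : (Xt t (g : ℂ))⁻¹ = chi (1 / 2 - I * t - I * g) := Xt_inv (by simp)
  have h2 : Xt t (g : ℂ) = chi (1 / 2 + I * t + I * g) := by
    unfold Xt
    congr 1
    ring
  rw [← h1, h2, Complex.inv_eq_conj (norm_chi'' t g)]

lemma conjB (t g : ℝ) : (starRingEnd ℂ) (chi (1 / 2 - I * t - I * g)) = chi (1 / 2 + I * t + I * g) := by
  rw [← conjA, Complex.conj_conj]

variable {k : ℕ}

/-- the permutation conjugated with the exchange of the two blocks -/
def pc (π : Equiv.Perm (Fin k ⊕ Fin k)) : Equiv.Perm (Fin k ⊕ Fin k) :=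
  ((Equiv.sumComm (Fin k) (Fin k)).trans π).trans (Equiv.sumComm (Fin k) (Fin k))

lemma pc_apply (π : Equiv.Perm (Fin k ⊕ Fin k)) (x : Fin k ⊕ Fin k) :
    pc π x = (π x.swap).swap := rfl

lemma GG_conj (t : ℝ) (γ : Fin k ⊕ Fin k → ℝ) (π : Equiv.Perm (Fin k ⊕ Fin k)) :
    (starRingEnd ℂ) (GG t (fun i => (γ i : ℂ)) π) =
      GG t (fun i => ((γ i.swap : ℝ) : ℂ)) (pc π) := by
  unfold GG
  rw [map_mul, map_prod, map_prod, mul_comm]
  congr 1
  · refine Finset.prod_congr rfl fun j _ => ?_
    have h1 : pc π (Sum.inl j) = (π (Sum.inr j)).swap := rfl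
    beta_reduce
    rw [h1, Sum.swap_swap, Sum.isRight_swap]
    split_ifs
    · exact conjA _ _
    · exact map_one _
  · refine Finset.prod_congr rfl fun j _ => ?_
    have h1 : pc π (Sum.inr j) = (π (Sum.inl j)).swap := rfl
    beta_reduce
    rw [h1, Sum.swap_swap, Sum.isLeft_swap]
    split_ifs
    · exact conjB _ _
    · exact map_one _

lemma IG_norm (S : ℝ) (γ : Fin k ⊕ Fin k → ℝ) (π : Equiv.Perm (Fin k ⊕ Fin k)) :
    ‖IG S γ π‖ = ‖∫ t in (0:ℝ)..S, GG t (fun i => ((γ i.swap : ℝ) : ℂ)) (pc π)‖ := by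
  have h : (∫ t in (0:ℝ)..S, GG t (fun i => ((γ i.swap : ℝ) : ℂ)) (pc π)) =
      (starRingEnd ℂ) (IG S γ π) := by
    unfold IG
    simp only [intervalIntegral, map_sub, ← integral_conj, GG_conj]
  rw [h, RCLike.norm_conj]

/-- separation of the factor of a moved shift -/
lemma split (π : Equiv.Perm (Fin k ⊕ Fin k)) (p : Fin k ⊕ Fin k)
    (hp : (π.symm p).isLeft ≠ p.isLeft) :
    ∃ R : ℝ → (Fin k ⊕ Fin k → ℝ) → ℂ, (∀ γ, Continuous fun t => R t γ) ∧
      (∀ t γ, ‖R t γ‖ ≤ 1) ∧ (∀ t γ y, R t (Function.update γ p y) = R t γ) ∧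
      ∀ S γ, ‖IG S γ π‖ = ‖∫ t in (0:ℝ)..S, chi (1 / 2 + I * (t + (γ p : ℂ))) * R t γ‖ := by
  rcases hq : π.symm p with j₀ | j₀
  · -- `p = π (inl j₀)` is right
    have hpp : π (Sum.inl j₀) = p := by rw [← hq, Equiv.apply_symm_apply]
    have hr : p.isLeft = false := by
      rw [hq] at hp
      simpa using hp
    have e0 : pc π (Sum.inr j₀) = p.swap := by
      rw [pc_apply, Sum.swap_inr, hpp]
    have hl : (pc π (Sum.inr j₀)).isLeft = true := by
      rw [e0, Sum.isLeft_swap]
      rcases p with i | i
      · simp at hr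
      · rfl
    refine ⟨fun t γ => RR j₀ t (fun i => γ i.swap) (pc π), fun γ => cont_RR _ _ _,
      fun t γ => norm_RR _ _ _ _, fun t γ y => ?_, fun S γ => ?_⟩
    · have e1 : (fun i : Fin k ⊕ Fin k => Function.update γ p y i.swap) =
          Function.update (fun i => γ i.swap) (pc π (Sum.inr j₀)) y := by
        funext i
        by_cases h : i = p.swap
        · subst h
          rw [e0, Function.update_self, Sum.swap_swap, Function.update_self]
        · have h' : i.swap ≠ p := fun h'' => h (by rw [← h'', Sum.swap_swap])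
          rw [e0, Function.update_of_ne h, Function.update_of_ne h']
      beta_reduce
      rw [e1, RR_update]
    · rw [IG_norm]
      congr 1
      refine intervalIntegral.integral_congr fun t _ => ?_
      have h2 := GG_split j₀ t (fun i => γ i.swap) (pc π) hl
      beta_reduce at h2 ⊢
      rw [h2, e0, Sum.swap_swap]
  · have hpp : π (Sum.inr j₀) = p := by rw [← hq, Equiv.apply_symm_apply]
    have hl : (π (Sum.inr j₀)).isLeft = true := by
      rw [hq] at hp
      rw [hpp]
      rcases p with i | i
      · rfl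
      · simp at hp
    refine ⟨fun t γ => RR j₀ t γ π, fun γ => cont_RR _ _ _,
      fun t γ => norm_RR _ _ _ _, fun t γ y => ?_, fun S γ => ?_⟩
    · beta_reduce
      rw [← hpp, RR_update]
    · congr 1
      unfold IG
      refine intervalIntegral.integral_congr fun t _ => ?_
      have h2 := GG_split j₀ t γ π hl
      beta_reduce at h2 ⊢
      rw [h2, hpp]

variable {n : ℕ}

lemma gc_cont (a b : ℝ) : Continuous fun θ : Fin n ⊕ Fin n → ℝ => gc a b θ := by
  refine continuous_pi fun i => ?_
  rcases i with j | j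
  · refine Fin.cases ?_ (fun j => ?_) j
    · exact continuous_const
    · exact continuous_apply _
  · refine Fin.cases ?_ (fun j => ?_) j
    · exact continuous_const
    · exact continuous_apply _

lemma gc_update (a b y : ℝ) (θ : Fin n ⊕ Fin n → ℝ) (i : Fin n ⊕ Fin n) :
    gc a b (Function.update θ i y) = Function.update (gc a b θ) (pos i) y := by
  funext q
  by_cases h : q = pos i
  · subst h
    rw [Function.update_self]
    rcases i with j | j
    · show Function.update θ (Sum.inl j) y (Sum.inl j) = y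
      rw [Function.update_self]
    · show Function.update θ (Sum.inr j) y (Sum.inr j) = y
      rw [Function.update_self]
  · rw [Function.update_of_ne h]
    rcases q with j | j
    · revert h
      refine Fin.cases ?_ (fun j => ?_) j
      · intro _
        rfl
      · intro h
        show Function.update θ i y (Sum.inl j) = θ (Sum.inl j)
        refine Function.update_of_ne (fun h' => h ?_) _ _
        rw [← h']
        rfl
    · revert h
      refine Fin.cases ?_ (fun j => ?_) j
      · intro _
        rfl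
      · intro h
        show Function.update θ i y (Sum.inr j) = θ (Sum.inr j)
        refine Function.update_of_ne (fun h' => h ?_) _ _
        rw [← h']
        rfl

end

end Pool.Agent.T2H54.TP.PkgSWF

namespace Pool.Agent.T2H54.TP

open Complex Filter Topology MeasureTheory Set
open Pool.Agent.TH612.CF Pool.Agent.TH612.GS Pool.Agent.T2H54.SB
open Pool.Agent.TH805.GS (cont_chi)
open Pool.Agent.T2H54.TP.PkgSWF

/-- the package SWF -/
theorem t_SWF : S_SWF := by
  intro n
  refine ⟨688, 16, by norm_num, le_rfl, fun a b T H S U π hT hH1 hU hS hST hπ => ?_⟩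
  obtain ⟨p, hp⟩ := (Finset.mem_filter.1 hπ).2
  obtain ⟨R, hRc, hR1, hRu, hRI⟩ := split π (pos p) hp
  have hT0 : 0 < T := by linarith
  have hH : 0 ≤ H := by linarith
  obtain ⟨hU0, hUT⟩ := hU p
  set F : (Fin n ⊕ Fin n → ℝ) → ENNReal :=
    fun γ => ENNReal.ofReal (‖IG S (gc a b (U + γ)) π‖ ^ 2) with hF
  have hFm : Measurable F := by
    have h0 : Continuous fun γ : Fin n ⊕ Fin n → ℝ => IG S (gc a b (U + γ)) π :=
      (IG_cont S π).comp ((gc_cont a b).comp (by fun_prop))
    have : Continuous F := ENNReal.continuous_ofReal.comp ((h0.norm).pow 2)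
    exact this.measurable
  have hup : ∀ (γ : Fin n ⊕ Fin n → ℝ) (y : ℝ),
      U + Function.update γ p y = Function.update (U + γ) p (U p + y) := by
    intro γ y
    funext i
    by_cases h : i = p
    · subst h
      rw [Pi.add_apply, Function.update_self, Function.update_self]
    · rw [Pi.add_apply, Function.update_of_ne h, Function.update_of_ne h, Pi.add_apply]
  have hin : ∀ γ : Fin n ⊕ Fin n → ℝ,
      ∫⁻ y, F (Function.update γ p y) ∂(volume.restrict (Icc 0 H)) ≤
        ENNReal.ofReal (688 * (S * T) * Real.log T ^ 2) := by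
    intro γ
    obtain ⟨G, hG⟩ : ∃ G : ℝ → ℂ, G = fun t => R t (gc a b (U + γ)) := ⟨_, rfl⟩
    have hGc : Continuous G := hG ▸ hRc _
    have hG1 : ∀ t, ‖G t‖ ≤ 1 := fun t => by rw [hG]; exact hR1 t _
    have h1 := CHIL.pCHIL (R := G) hT hS hST hGc hG1
    have hc : Continuous fun y : ℝ =>
        ‖∫ t in (0:ℝ)..S, chi (1 / 2 + I * (t + y)) * G t‖ ^ 2 := by
      refine Continuous.pow (Continuous.norm ?_) 2
      refine intervalIntegral.continuous_parametric_intervalIntegral_of_continuous'
        (f := fun (y t : ℝ) => chi (1 / 2 + I * ((t : ℂ) + (y : ℂ))) * G t) ?_ 0 S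
      have h2 : Continuous fun q : ℝ × ℝ => chi (1 / 2 + I * ((q.2 : ℂ) + (q.1 : ℂ))) := by
        have h := cont_chi.comp (g := fun u : ℝ => chi (1 / 2 + I * (u : ℂ)))
          (f := fun q : ℝ × ℝ => q.2 + q.1) (by fun_prop)
        refine h.congr fun t => ?_
        simp only [Function.comp]
        congr 1
        push_cast
        ring
      exact h2.mul (hGc.comp continuous_snd)
    have h3 : ∀ y : ℝ, F (Function.update γ p y) =
        ENNReal.ofReal (‖∫ t in (0:ℝ)..S, chi (1 / 2 + I * (t + ((U p + y : ℝ) : ℂ))) *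
          G t‖ ^ 2) := by
      intro y
      change ENNReal.ofReal (‖IG S (gc a b (U + Function.update γ p y)) π‖ ^ 2) = _
      rw [hRI]
      congr 3
      refine intervalIntegral.integral_congr fun t _ => ?_
      beta_reduce
      rw [hup, gc_update, hRu, Function.update_self, hG]
    simp only [h3]
    have hc' : Continuous fun y : ℝ => ‖∫ t in (0:ℝ)..S, chi (1 / 2 + I * (t + ((U p + y : ℝ) : ℂ))) *
          G t‖ ^ 2 := hc.comp (by fun_prop : Continuous fun y : ℝ => U p + y)
    rw [← ofReal_integral_eq_lintegral_ofReal]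
    · refine ENNReal.ofReal_le_ofReal ?_
      rw [integral_Icc_eq_integral_Ioc, ← intervalIntegral.integral_of_le hH]
      rw [intervalIntegral.integral_comp_add_left (fun y : ℝ => ‖∫ t in (0:ℝ)..S,
        chi (1 / 2 + I * (t + (y : ℂ))) * G t‖ ^ 2) (U p), add_zero]
      refine le_trans ?_ h1
      exact intervalIntegral.integral_mono_interval hU0 (by linarith) hUT
        (Eventually.of_forall fun _ => by positivity) (hc.intervalIntegrable _ _)
    · exact hc'.continuousOn.integrableOn_compact isCompact_Icc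
    · exact Eventually.of_forall fun y => by positivity
  change ∫⁻ γ, F γ ∂(Measure.pi fun _ => volume.restrict (Icc 0 H)) ≤ _
  rw [lintegral_eq_lmarginal_univ (fun _ => (0 : ℝ)), lmarginal_erase' F hFm (Finset.mem_univ p)]
  refine (lmarginal_mono (g := fun _ => ENNReal.ofReal (688 * (S * T) * Real.log T ^ 2))
    (fun γ => hin γ) _).trans ?_
  unfold lmarginal
  rw [lintegral_const, Measure.pi_univ]
  have hm : (∏ i : {x // x ∈ Finset.univ.erase p}, (volume.restrict (Icc 0 H) : Measure ℝ) univ)
      = ENNReal.ofReal H ^ (2 * n - 1) := by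
    rw [Measure.restrict_apply_univ, Real.volume_Icc, sub_zero, Finset.prod_const]
    congr 1
    rw [Finset.card_univ, Fintype.card_coe, Finset.card_erase_of_mem (Finset.mem_univ _),
      Finset.card_univ, Fintype.card_sum, Fintype.card_fin]
    omega
  rw [hm, ← ENNReal.ofReal_pow hH, ← ENNReal.ofReal_mul (by positivity)]
  have hn : 1 ≤ n := by
    rcases p with j | j
    · have := j.pos
      omega
    · have := j.pos
      omega
  have e1 : H ^ (2 * n - 1 : ℝ) = H ^ (2 * n - 1 : ℕ) := by
    rw [← Real.rpow_natCast]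
    congr 1
    have : 1 ≤ 2 * n := by omega
    push_cast [Nat.cast_sub this]
    ring
  rw [e1]
  refine ENNReal.ofReal_le_ofReal ?_
  have h9 : S * T ≤ T ^ 2 := by nlinarith
  gcongr

end Pool.Agent.T2H54.TP
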