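import Pool.Agent.T2H54.TP.Cnt

set_option autoImplicit false

/-! Assembly of project TP: the measure of the exceptional set. -/

namespace Pool.Agent.T2H54.TP

open Complex Filter Topology MeasureTheory Set
open Pool.Agent.TH612.CF Pool.Agent.TH612.GS Pool.Agent.T2H54.SB
open Pool.Agent.W182.KO hiding ee SS_summable DD
open scoped ContDiff

noncomputable section

/-- mean square of the fixed pair -/
lemma Q_bound (hQ4 : S_Q4) (a b : ℝ) {e : ℝ} (he : 0 < e) (he1 : e ≤ 1) : ∃ C T₀ : ℝ, 0 < C ∧ 2 ≤ T₀ ∧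
    ∀ T S : ℝ, T₀ ≤ T → 0 ≤ S → S ≤ T → ∫ t in (0:ℝ)..S, ‖Bab a b t‖ ^ 2 ≤ C * T ^ e * T := by
  obtain ⟨C, T0, hC, hT0, h⟩ := hQ4 e he
  refine ⟨4 * C, max T0 (|a| + |b|), by positivity, hT0.trans (le_max_left _ _), fun T S hT hS hST => ?_⟩
  have hT1 := (le_max_left _ _).trans hT
  have hT2 := (le_max_right _ _).trans hT
  have hTp : 0 < T := by linarith
  have hab0 := abs_nonneg a
  have hbb0 := abs_nonneg b
  have zc4 : Continuous fun u : ℝ => ‖z u‖ ^ 4 := z_cont.norm.pow 4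
  have one : ∀ x : ℝ, |x| ≤ T → ∫ t in (0:ℝ)..S, ‖z (t + x)‖ ^ 4 ≤ ∫ u in (-(2 * T))..(2 * T), ‖z u‖ ^ 4 := by
    intro x hx
    have hx' := abs_le.1 hx
    rw [intervalIntegral.integral_comp_add_right (fun u => ‖z u‖ ^ 4) x]
    refine intervalIntegral.integral_mono_interval (by linarith) (by linarith) (by linarith)
      (Eventually.of_forall fun u => by positivity) (zc4.intervalIntegrable _ _)
  have h2 := h (2 * T) (by linarith)
  have hb : ∀ t, ‖Bab a b t‖ ^ 2 ≤ (1 / 2) * ‖z (t + a)‖ ^ 4 + (1 / 2) * ‖z (t + b)‖ ^ 4 := by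
    intro t
    unfold Bab
    rw [norm_mul, Complex.norm_conj, mul_pow]
    nlinarith [sq_nonneg (‖z (t + a)‖ ^ 2 - ‖z (t + b)‖ ^ 2)]
  have c1 : Continuous fun t : ℝ => ‖z (t + a)‖ ^ 4 := (z_cont.comp (by fun_prop)).norm.pow 4
  have c2 : Continuous fun t : ℝ => ‖z (t + b)‖ ^ 4 := (z_cont.comp (by fun_prop)).norm.pow 4
  calc ∫ t in (0:ℝ)..S, ‖Bab a b t‖ ^ 2
      ≤ ∫ t in (0:ℝ)..S, ((1 / 2) * ‖z (t + a)‖ ^ 4 + (1 / 2) * ‖z (t + b)‖ ^ 4) := by
        refine intervalIntegral.integral_mono_on hS (((Bab_cont a b).norm.pow 2).intervalIntegrable _ _)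
          (((c1.const_mul _).add (c2.const_mul _)).intervalIntegrable _ _) fun t _ => hb t
    _ = (1 / 2) * (∫ t in (0:ℝ)..S, ‖z (t + a)‖ ^ 4) + (1 / 2) * ∫ t in (0:ℝ)..S, ‖z (t + b)‖ ^ 4 := by
        rw [intervalIntegral.integral_add ((c1.const_mul _).intervalIntegrable _ _)
          ((c2.const_mul _).intervalIntegrable _ _), intervalIntegral.integral_const_mul,
          intervalIntegral.integral_const_mul]
    _ ≤ ∫ u in (-(2 * T))..(2 * T), ‖z u‖ ^ 4 := by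
        have o1 := one a (by linarith)
        have o2 := one b (by linarith)
        linarith
    _ ≤ C * (2 * T) ^ (1 + e) := h2
    _ ≤ 4 * C * T ^ e * T := by
        rw [Real.mul_rpow (by norm_num) hTp.le]
        have g1 : (2:ℝ) ^ (1 + e) ≤ 4 := by
          calc (2:ℝ) ^ (1 + e) ≤ 2 ^ (2:ℝ) := Real.rpow_le_rpow_of_exponent_le (by norm_num) (by linarith)
            _ = 4 := by norm_num
        have g2 : T ^ (1 + e) = T ^ e * T := by
          rw [add_comm, Real.rpow_add hTp, Real.rpow_one]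
        rw [g2]
        have g3 : 0 ≤ T ^ e * T := by positivity
        calc C * (2 ^ (1 + e) * (T ^ e * T)) ≤ C * (4 * (T ^ e * T)) := by gcongr
          _ = _ := by ring

variable {n : ℕ}

lemma cheb3 {a b H y B3 B4 B5 : ℝ} {ψ : ℝ → ℝ} {N : ℕ} {U : Fin n ⊕ Fin n → ℝ} (hH : 1 ≤ H) (hy : 0 < y)
    (h3 : ∫⁻ θ, ENNReal.ofReal (‖RN a b N (U + θ) - SPr ψ N a b (U + θ)‖ ^ 2)
      ∂(mP (Fin n ⊕ Fin n) H) ≤ ENNReal.ofReal B3)
    (h4 : ∫⁻ θ, ENNReal.ofReal (‖SPr ψ N a b (U + θ) - GMr N a b (U + θ) 0‖ ^ 2)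
      ∂(mP (Fin n ⊕ Fin n) H) ≤ ENNReal.ofReal B4)
    (h5 : ∫⁻ θ in SepF a b H U, ENNReal.ofReal (‖GMr N a b (U + θ) 0 - zrr a b (U + θ)‖ ^ 2)
      ∂(mP (Fin n ⊕ Fin n) H) ≤ ENNReal.ofReal B5) {c : ℝ} (hc : 0 ≤ c)
    (g3 : B3 * y ^ 10 ≤ c) (g4 : B4 * y ^ 10 ≤ c) (g5 : B5 * y ^ 10 ≤ c) :
    mP (Fin n ⊕ Fin n) H (W3 ψ a b H y N U) ≤ ENNReal.ofReal (3 * c) := by
  have hcU : Continuous fun θ : Fin n ⊕ Fin n → ℝ => U + θ := by fun_prop
  have hl : 0 < 1 / y ^ 5 := by positivity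
  have hd : ∀ B : ℝ, B / (1 / y ^ 5) ^ 2 = B * y ^ 10 := by
    intro B
    field_simp
  have u3 : mP (Fin n ⊕ Fin n) H {θ | 1 / y ^ 5 < ‖RN a b N (U + θ) - SPr ψ N a b (U + θ)‖} ≤
      ENNReal.ofReal c := by
    refine (cheb ((((RN_cont a b N).comp hcU).sub ((SPr_cont ψ a b N).comp hcU)).norm.aemeasurable)
      hl h3).trans (ENNReal.ofReal_le_ofReal ?_)
    rw [hd]; exact g3
  have u4 : mP (Fin n ⊕ Fin n) H {θ | 1 / y ^ 5 < ‖SPr ψ N a b (U + θ) - GMr N a b (U + θ) 0‖} ≤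
      ENNReal.ofReal c := by
    refine (cheb ((((SPr_cont ψ a b N).comp hcU).sub ((GMr0_cont a b N).comp hcU)).norm.aemeasurable)
      hl h4).trans (ENNReal.ofReal_le_ofReal ?_)
    rw [hd]; exact g4
  have u5 : mP (Fin n ⊕ Fin n) H (SepF a b H U ∩
      {θ | 1 / y ^ 5 < ‖GMr N a b (U + θ) 0 - zrr a b (U + θ)‖}) ≤ ENNReal.ofReal c := by
    have hm : AEMeasurable (fun θ : Fin n ⊕ Fin n → ℝ => ‖GMr N a b (U + θ) 0 - zrr a b (U + θ)‖)
        ((mP (Fin n ⊕ Fin n) H).restrict (SepF a b H U)) :=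
      ((((GMr0_cont a b N).comp hcU).continuousOn.sub (zrr_cont hH)).norm).aemeasurable
        (SepF_meas a b H U)
    have hcb := cheb hm (lam := 1 / y ^ 5) hl h5
    have e0 : mP (Fin n ⊕ Fin n) H (SepF a b H U ∩
        {θ | 1 / y ^ 5 < ‖GMr N a b (U + θ) 0 - zrr a b (U + θ)‖}) ≤
        ((mP (Fin n ⊕ Fin n) H).restrict (SepF a b H U))
          {θ | 1 / y ^ 5 < ‖GMr N a b (U + θ) 0 - zrr a b (U + θ)‖} := by
      rw [inter_comm]
      exact Measure.le_restrict_apply _ _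
    refine e0.trans (hcb.trans (ENNReal.ofReal_le_ofReal ?_))
    rw [hd]; exact g5
  unfold W3
  have e3 : 3 * c = c + c + c := by ring
  rw [e3, ENNReal.ofReal_add (by positivity) hc, ENNReal.ofReal_add hc hc]
  refine (measure_union_le _ _).trans (add_le_add ?_ u5)
  exact (measure_union_le _ _).trans (add_le_add u3 u4)

end

end Pool.Agent.T2H54.TP
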