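import Pool.Agent.T2H54.TP.Stm
import Pool.Agent.TH406.GS.CHI

set_option autoImplicit false

/-!
Project TP, package BV: integration by parts.
-/

namespace Pool.Agent.T2H54.TP

open Complex Filter Topology MeasureTheory Set
open Pool.Agent.TH612.CF
open scoped ComplexConjugate

namespace BV

noncomputable section

/-- integration by parts -/
lemma ibp {f : ℝ → ℂ} {A B Θ C : ℝ} (hA : 1 ≤ A) (hAB : A ≤ B) (hΘ : Θ ≠ 0)
    (hf : ∀ u ∈ Icc A B, DifferentiableAt ℝ f u) (h0 : ∀ u ∈ Icc A B, ‖f u‖ ≤ C)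
    (h1 : ∀ u ∈ Icc A B, ‖deriv f u‖ ≤ C / u) :
    ‖∫ u in A..B, f u * cexp (I * ((u * Θ : ℝ) : ℂ))‖ ≤ 2 * C * (1 + Real.log B) / |Θ| := by
  have hA0 : 0 < A := by linarith
  have hB0 : 0 < B := by linarith
  have hΘc : (I * (Θ : ℂ)) ≠ 0 := mul_ne_zero I_ne_zero (by exact_mod_cast hΘ)
  have hΘa : 0 < |Θ| := abs_pos.2 hΘ
  have hC : 0 ≤ C := (norm_nonneg _).trans (h0 A (left_mem_Icc.2 hAB))
  obtain ⟨v, hv⟩ : ∃ v : ℝ → ℂ, v = fun u => cexp (I * ((u * Θ : ℝ) : ℂ)) / (I * Θ) := ⟨_, rfl⟩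
  have hvd : ∀ u, HasDerivAt v (cexp (I * ((u * Θ : ℝ) : ℂ))) u := by
    intro u
    have g1 : HasDerivAt (fun u : ℝ => I * ((u * Θ : ℝ) : ℂ)) (I * Θ) u := by
      have g0 : HasDerivAt (fun v : ℝ => (v : ℂ)) 1 u := Complex.ofRealCLM.hasDerivAt
      have g2 := (g0.mul_const (Θ : ℂ)).const_mul I
      simp only [one_mul] at g2
      simpa only [ofReal_mul] using g2
    have g3 := g1.cexp.div_const (I * Θ)
    rw [mul_div_assoc, div_self hΘc, mul_one] at g3
    rw [hv]
    exact g3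
  have hvn : ∀ u, ‖v u‖ = 1 / |Θ| := by
    intro u
    rw [hv]
    simp only
    have e : (I * ((u * Θ : ℝ) : ℂ)).re = 0 := by simp
    rw [norm_div, norm_exp, e, Real.exp_zero, norm_mul, norm_I, one_mul, norm_real,
      Real.norm_eq_abs]
  have hfint : IntervalIntegrable (deriv f) volume A B := by
    rw [intervalIntegrable_iff_integrableOn_Icc_of_le hAB]
    refine Measure.integrableOn_of_bounded (M := C / A) (by simp)
      (measurable_deriv f).aestronglyMeasurable ?_
    refine (ae_restrict_iff' measurableSet_Icc).2 (Eventually.of_forall fun u hu => ?_)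
    refine (h1 u hu).trans ?_
    exact div_le_div_of_nonneg_left hC hA0 hu.1
  have hvint : IntervalIntegrable (fun u : ℝ => cexp (I * ((u * Θ : ℝ) : ℂ))) volume A B :=
    Continuous.intervalIntegrable (by fun_prop) _ _
  have key := intervalIntegral.integral_mul_deriv_eq_deriv_mul (u := f) (v := v)
    (u' := deriv f) (v' := fun u : ℝ => cexp (I * ((u * Θ : ℝ) : ℂ))) (a := A) (b := B)
    (fun u hu => (hf u (by rwa [uIcc_of_le hAB] at hu)).hasDerivAt) (fun u _ => hvd u) hfint hvint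
  rw [key]
  have b1 : ‖f B * v B‖ ≤ C * (1 / |Θ|) := by
    rw [norm_mul, hvn]
    exact mul_le_mul_of_nonneg_right (h0 B (right_mem_Icc.2 hAB)) (by positivity)
  have b2 : ‖f A * v A‖ ≤ C * (1 / |Θ|) := by
    rw [norm_mul, hvn]
    exact mul_le_mul_of_nonneg_right (h0 A (left_mem_Icc.2 hAB)) (by positivity)
  have b3 : ‖∫ u in A..B, deriv f u * v u‖ ≤ C * (1 / |Θ|) * Real.log B := by
    have hinv : IntervalIntegrable (fun u : ℝ => C * (1 / |Θ|) * u⁻¹) volume A B := by
      refine IntervalIntegrable.const_mul ?_ _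
      refine intervalIntegral.intervalIntegrable_inv (fun u hu => ?_) continuousOn_id
      rw [uIcc_of_le hAB] at hu
      exact (lt_of_lt_of_le hA0 hu.1).ne'
    calc ‖∫ u in A..B, deriv f u * v u‖ ≤ ∫ u in A..B, C * (1 / |Θ|) * u⁻¹ := by
          refine intervalIntegral.norm_integral_le_of_norm_le hAB
            (Eventually.of_forall fun u hu => ?_) hinv
          have hu' : u ∈ Icc A B := ⟨hu.1.le, hu.2⟩
          rw [norm_mul, hvn]
          have g := h1 u hu'
          calc ‖deriv f u‖ * (1 / |Θ|) ≤ C / u * (1 / |Θ|) :=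
                mul_le_mul_of_nonneg_right g (by positivity)
            _ = _ := by rw [div_eq_mul_inv]; ring
      _ = C * (1 / |Θ|) * Real.log (B / A) := by
          rw [intervalIntegral.integral_const_mul, integral_inv_of_pos hA0 hB0]
      _ ≤ C * (1 / |Θ|) * Real.log B := by
          refine mul_le_mul_of_nonneg_left ?_ (by positivity)
          exact Real.log_le_log (by positivity) (div_le_self hB0.le hA)
  have hlog : 0 ≤ Real.log B := Real.log_nonneg (by linarith)
  have h3 : ‖f B * v B - f A * v A - ∫ u in A..B, deriv f u * v u‖ ≤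
      C * (1 / |Θ|) + C * (1 / |Θ|) + C * (1 / |Θ|) * Real.log B := by
    refine (norm_sub_le _ _).trans (add_le_add ((norm_sub_le _ _).trans (add_le_add b1 b2)) b3)
  refine h3.trans ?_
  have e : 2 * C * (1 + Real.log B) / |Θ| = C * (1 / |Θ|) + C * (1 / |Θ|) +
      2 * (C * (1 / |Θ|) * Real.log B) := by ring
  rw [e]
  have : 0 ≤ C * (1 / |Θ|) * Real.log B := by positivity
  linarith

lemma chi_minus (v : ℝ) : chi (1 / 2 - I * (v : ℂ)) = Pool.Agent.W182.KO.XX (1 / 2 + I * v) := by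
  have h1 := chi_XX (w := 1 / 2 + I * v) (by simp) (by simp; norm_num)
  rw [← h1]
  congr 1
  ring

/-- the two factors -/
lemma Xd_eq (d u : ℝ) : Xd d u = conj (Pool.Agent.W182.KO.XX (1 / 2 + I * u)) *
    Pool.Agent.W182.KO.XX (1 / 2 + I * ((u + d : ℝ) : ℂ)) := by
  unfold Xd
  rw [Pool.Agent.TH406.GS.chi_eq, chi_minus]

lemma Xd_norm (d u : ℝ) : ‖Xd d u‖ = 1 := by
  rw [Xd_eq]
  exact Pool.Agent.TH406.GS.norm_conj_mul Pool.Agent.TH406.GS.osc u (u + d)

lemma Xd_der (d u : ℝ) (hu : 16 + |d| ≤ u) : ∃ X' : ℂ, HasDerivAt (Xd d) X' u ∧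
    ‖X'‖ ≤ (16 + |d| + 17) * (16 + |d|) / u := by
  have hd := neg_abs_le d
  have hd' := le_abs_self d
  have hd0 := abs_nonneg d
  have hu0 : 0 < u := by linarith
  have hud : 16 ≤ u + d := by linarith
  have hud0 : 0 < u + d := by linarith
  obtain ⟨X, hX⟩ : ∃ X : ℝ → ℂ, X = fun u : ℝ => Pool.Agent.W182.KO.XX (1 / 2 + I * u) := ⟨_, rfl⟩
  obtain ⟨L, hL⟩ : ∃ L : ℝ → ℂ, L = fun u : ℝ => Pool.Agent.TH612.MD.LX (1 / 2 + I * u) := ⟨_, rfl⟩
  have hO : Pool.Agent.TH406.GS.Osc X L := by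
    rw [hX, hL]
    exact Pool.Agent.TH406.GS.osc
  have e : Xd d = fun v => conj (X v) * X (v + d) := by
    funext v
    rw [Xd_eq, hX]
  have h1 : HasDerivAt (fun v => conj (X v)) (conj (X u * L u * I)) u :=
    (hO.hd u (by linarith)).star
  have h2 : HasDerivAt (fun v => X (v + d)) (X (u + d) * L (u + d) * I) u := by
    have g := hO.hd (u + d) (by linarith)
    exact g.comp_add_const u d
  have h3 := h1.mul h2
  refine ⟨_, by rw [e]; exact h3, ?_⟩
  have e2 : conj (X u * L u * I) * X (u + d) + conj (X u) * (X (u + d) * L (u + d) * I) =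
      (conj (X u) * X (u + d)) * (I * (L (u + d) - conj (L u))) := by
    rw [map_mul, map_mul, conj_I]
    ring
  rw [e2, norm_mul, Pool.Agent.TH406.GS.norm_conj_mul hO, one_mul, norm_mul, norm_I, one_mul]
  have n1 := hO.near (u + d) hud
  have n2 := hO.near u (by linarith)
  have n2' : ‖conj (L u) - (Real.log (u / (2 * Real.pi)) : ℂ)‖ ≤ 16 / u := by
    have : conj (L u) - (Real.log (u / (2 * Real.pi)) : ℂ) =
        conj (L u - (Real.log (u / (2 * Real.pi)) : ℂ)) := by
      rw [map_sub, conj_ofReal]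
    rw [this, Complex.norm_conj]
    exact n2
  have hpi := Real.pi_pos
  have elog : Real.log ((u + d) / (2 * Real.pi)) - Real.log (u / (2 * Real.pi)) =
      Real.log ((u + d) / u) := by
    rw [Real.log_div hud0.ne' (by positivity), Real.log_div hu0.ne' (by positivity),
      Real.log_div hud0.ne' hu0.ne']
    ring
  have hK : 1 / (u + d) ≤ (16 + |d|) / u := by
    rw [div_le_div_iff₀ hud0 hu0]
    nlinarith
  have hlog : |Real.log ((u + d) / u)| ≤ |d| * ((16 + |d|) / u) := by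
    rw [abs_le]
    constructor
    · have g1 := Real.one_sub_inv_le_log_of_pos (x := (u + d) / u) (by positivity)
      rw [inv_div] at g1
      have g2 : 1 - u / (u + d) = d * (1 / (u + d)) := by field_simp; ring
      rw [g2] at g1
      refine le_trans ?_ g1
      have g3 : |d| * (1 / (u + d)) ≤ |d| * ((16 + |d|) / u) := mul_le_mul_of_nonneg_left hK hd0
      have g4 : -|d| * (1 / (u + d)) ≤ d * (1 / (u + d)) :=
        mul_le_mul_of_nonneg_right hd (by positivity)
      linarith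
    · have g1 := Real.log_le_sub_one_of_pos (x := (u + d) / u) (by positivity)
      have g2 : (u + d) / u - 1 = d * (1 / u) := by field_simp; ring
      rw [g2] at g1
      refine g1.trans ?_
      have g3 : d * (1 / u) ≤ |d| * (1 / u) := mul_le_mul_of_nonneg_right hd' (by positivity)
      refine g3.trans (mul_le_mul_of_nonneg_left ?_ hd0)
      exact div_le_div_of_nonneg_right (by linarith) hu0.le
  have e3 : L (u + d) - conj (L u) = (L (u + d) - (Real.log ((u + d) / (2 * Real.pi)) : ℂ)) -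
      (conj (L u) - (Real.log (u / (2 * Real.pi)) : ℂ)) +
      ((Real.log ((u + d) / u) : ℝ) : ℂ) := by
    rw [← elog]
    push_cast
    ring
  rw [e3]
  have n3 : ‖((Real.log ((u + d) / u) : ℝ) : ℂ)‖ ≤ |d| * ((16 + |d|) / u) := by
    rw [norm_real, Real.norm_eq_abs]
    exact hlog
  have hn1 : (16 : ℝ) / (u + d) ≤ 16 * ((16 + |d|) / u) := by
    rw [div_eq_mul_one_div]
    exact mul_le_mul_of_nonneg_left hK (by norm_num)
  have hn2 : (16 : ℝ) / u ≤ (16 + |d|) / u := div_le_div_of_nonneg_right (by linarith) hu0.le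
  have n1' : ‖L (u + d) - (Real.log ((u + d) / (2 * Real.pi)) : ℂ)‖ ≤ 16 / (u + d) := n1
  calc ‖(L (u + d) - (Real.log ((u + d) / (2 * Real.pi)) : ℂ)) -
      (conj (L u) - (Real.log (u / (2 * Real.pi)) : ℂ)) + ((Real.log ((u + d) / u) : ℝ) : ℂ)‖
      ≤ (16 / (u + d) + 16 / u) + |d| * ((16 + |d|) / u) :=
        (norm_add_le _ _).trans (add_le_add ((norm_sub_le _ _).trans (add_le_add n1' n2')) n3)
    _ ≤ (16 * ((16 + |d|) / u) + (16 + |d|) / u) + |d| * ((16 + |d|) / u) := by linarith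
    _ ≤ (16 + |d| + 17) * (16 + |d|) / u := by
        have : 0 ≤ (16 + |d|) / u := by positivity
        have e4 : (16 + |d| + 17) * (16 + |d|) / u = (33 + |d|) * ((16 + |d|) / u) := by ring
        rw [e4]
        nlinarith

end

end BV

open BV in
theorem t_BV (hWD : S_WD) : S_BV := by
  intro d hd
  obtain ⟨⟨C, hC, hW⟩, -, -, -⟩ := hWD d hd
  obtain ⟨K, hK⟩ : ∃ K : ℝ, K = (16 + |d| + 17) * (16 + |d|) := ⟨_, rfl⟩
  have hK0 : 0 < K := by rw [hK]; positivity
  refine ⟨2 * (C * (1 + K)), by positivity, fun A B h Θ hA hAB hh hΘ => ?_⟩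
  have hd0 := abs_nonneg d
  have hA1 : 1 ≤ A := by linarith
  have hpos : ∀ u ∈ Icc A B, 0 < u := fun u hu => by linarith [hu.1]
  -- the weight
  have hWf : ∀ u ∈ Icc A B, HasDerivAt (fun u : ℝ => ((Wd d (h / u) : ℝ) : ℂ))
      (((deriv (Wd d) (h / u) * (h * (-(u ^ 2)⁻¹)) : ℝ)) : ℂ) u := by
    intro u hu
    have hu0 := hpos u hu
    have g1 : HasDerivAt (Wd d) (deriv (Wd d) (h / u)) (h / u) :=
      (hW (h / u) (by positivity)).2.1.hasDerivAt
    have g2 : HasDerivAt (fun u : ℝ => h / u) (h * (-(u ^ 2)⁻¹)) u := by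
      have := (hasDerivAt_inv hu0.ne').const_mul h
      simpa only [div_eq_mul_inv] using this
    exact (HasDerivAt.comp u g1 g2).ofReal_comp
  have hWd' : ∀ u ∈ Icc A B, ‖(((deriv (Wd d) (h / u) * (h * (-(u ^ 2)⁻¹)) : ℝ)) : ℂ)‖ ≤ C / u := by
    intro u hu
    have hu0 := hpos u hu
    rw [norm_real, Real.norm_eq_abs]
    have g := (hW (h / u) (by positivity)).2.2
    have e : |deriv (Wd d) (h / u) * (h * (-(u ^ 2)⁻¹))| = |h / u * deriv (Wd d) (h / u)| / u := by
      have e1 : deriv (Wd d) (h / u) * (h * (-(u ^ 2)⁻¹)) =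
          -((h / u * deriv (Wd d) (h / u)) / u) := by
        field_simp
      rw [e1, abs_neg, abs_div, abs_of_pos hu0]
    rw [e]
    exact div_le_div_of_nonneg_right g hu0.le
  have hW0 : ∀ u ∈ Icc A B, ‖((Wd d (h / u) : ℝ) : ℂ)‖ ≤ C := by
    intro u hu
    have hu0 := hpos u hu
    rw [norm_real, Real.norm_eq_abs]
    exact (hW (h / u) (by positivity)).1
  have hCK : C ≤ C * (1 + K) := by nlinarith
  have hlogB : 0 ≤ Real.log B := Real.log_nonneg (by linarith)
  constructor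
  · refine (ibp (C := C) hA1 hAB hΘ (fun u hu => (hWf u hu).differentiableAt) hW0
      (fun u hu => by rw [(hWf u hu).deriv]; exact hWd' u hu)).trans ?_
    refine div_le_div_of_nonneg_right ?_ (abs_nonneg _)
    refine mul_le_mul_of_nonneg_right ?_ (by positivity)
    linarith
  · have hX : ∀ u ∈ Icc A B, ∃ X' : ℂ, HasDerivAt (Xd d) X' u ∧ ‖X'‖ ≤ K / u := by
      intro u hu
      obtain ⟨X', g1, g2⟩ := Xd_der d u (by linarith [hu.1])
      exact ⟨X', g1, by rw [hK]; exact g2⟩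
    refine ibp (C := C * (1 + K)) (f := fun u => ((Wd d (h / u) : ℝ) : ℂ) * Xd d u) hA1 hAB hΘ
      (fun u hu => ?_) (fun u hu => ?_) (fun u hu => ?_)
    · obtain ⟨X', g1, -⟩ := hX u hu
      exact ((hWf u hu).mul g1).differentiableAt
    · rw [norm_mul, Xd_norm, mul_one]
      exact (hW0 u hu).trans hCK
    · obtain ⟨X', g1, g2⟩ := hX u hu
      have hu0 := hpos u hu
      have g3 : HasDerivAt (fun u => ((Wd d (h / u) : ℝ) : ℂ) * Xd d u) _ u := (hWf u hu).mul g1
      rw [g3.deriv]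
      refine (norm_add_le _ _).trans ?_
      rw [norm_mul, norm_mul, Xd_norm, mul_one]
      have k1 := hWd' u hu
      have k2 : ‖((Wd d (h / u) : ℝ) : ℂ)‖ * ‖X'‖ ≤ C * (K / u) :=
        mul_le_mul (hW0 u hu) g2 (norm_nonneg _) hC.le
      calc _ ≤ C / u + C * (K / u) := add_le_add k1 k2
        _ = C * (1 + K) / u := by ring

end Pool.Agent.T2H54.TP
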