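import Pool.Agent.T2H54.TP.Stm
import Pool.Agent.TH347.GS.A4

set_option autoImplicit false

/-!
TP-A4R (helper69): the mean square form of CTR (adapted from `Pool.Agent.T2H54.SB.A4U`).
-/

namespace Pool.Agent.T2H54.TP.A4R

open Complex MeasureTheory Set
open Pool.Agent.TH612.CF Pool.Agent.TH612.GS Pool.Agent.T2H54.SB
open Pool.Agent.TH347.GS (mP_univ wy wy_cont wy_nonneg wy_int zN_cont im1 im2 cs)
open scoped ENNReal

noncomputable section

variable {n : ℕ}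

lemma gc_cont (a b : ℝ) (i : Fin (n + 1) ⊕ Fin (n + 1)) :
    Continuous fun θ : Fin n ⊕ Fin n → ℝ => gc a b θ i := by
  rcases i with i | i
  · refine Fin.cases ?_ (fun j => ?_) i
    · simp only [gc, Sum.elim_inl, Fin.cons_zero]; exact continuous_const
    · simp only [gc, Sum.elim_inl, Fin.cons_succ]; exact continuous_apply _
  · refine Fin.cases ?_ (fun j => ?_) i
    · simp only [gc, Sum.elim_inr, Fin.cons_zero]; exact continuous_const
    · simp only [gc, Sum.elim_inr, Fin.cons_succ]; exact continuous_apply _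

/-- `GMr` on the line to the left -/
def Gyr (M : ℕ) (a b : ℝ) (θ : Fin n ⊕ Fin n → ℝ) (y : ℝ) : ℂ :=
  GMr M a b θ (-(1 / 4) + I * (y / (Real.log M / 2)))

lemma Gyr_cont (M : ℕ) (a b : ℝ) :
    Continuous fun q : (Fin n ⊕ Fin n → ℝ) × ℝ => Gyr M a b q.1 q.2 := by
  have hg : ∀ i : Fin (n + 1) ⊕ Fin (n + 1), Continuous fun q : (Fin n ⊕ Fin n → ℝ) × ℝ =>
      ((gc a b q.1 i : ℝ) : ℂ) := fun i =>
    Complex.continuous_ofReal.comp ((gc_cont a b i).comp continuous_fst)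
  have hs : Continuous fun q : (Fin n ⊕ Fin n → ℝ) × ℝ =>
      (-(1 / 4) + I * ((q.2 : ℂ) / ((Real.log M : ℂ) / 2)) : ℂ) := by fun_prop
  have hs' : Continuous fun q : (Fin n ⊕ Fin n → ℝ) × ℝ =>
      I * (-(1 / 4) + I * ((q.2 : ℂ) / ((Real.log M : ℂ) / 2))) / 2 :=
    (continuous_const.mul hs).div_const 2
  unfold Gyr GMr
  refine Continuous.mul ?_ ?_
  · rw [← continuousOn_univ]
    refine FH_cont (c := 1 / 8) isOpen_univ (by norm_num) (fun j => ?_) (fun j => ?_)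
      fun q _ j => ?_
    · rw [continuousOn_univ]
      exact (hg _).sub hs'
    · rw [continuousOn_univ]
      exact (hg _).add hs'
    · have e : ((q.2 : ℂ) / ((Real.log M : ℂ) / 2)) = ((q.2 / (Real.log M / 2) : ℝ) : ℂ) := by
        push_cast
        rfl
      rw [e]
      constructor
      · rw [im1]
        norm_num
      · rw [im2]
        norm_num
  · refine continuous_finsetProd _ fun p _ => ?_
    refine zN_cont M ?_
    exact (continuous_const.add hs).add (continuous_const.mul ((hg _).sub (hg _)))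

end

end Pool.Agent.T2H54.TP.A4R

namespace Pool.Agent.T2H54.TP

open Complex MeasureTheory Set
open Pool.Agent.TH612.CF Pool.Agent.TH612.GS Pool.Agent.T2H54.SB
open Pool.Agent.TH347.GS (mP_univ wy wy_cont wy_nonneg wy_int zN_cont im1 im2 cs)
open A4R
open scoped ENNReal

theorem t_A4R (hC : S_CTR) (hG : S_GLR) : S_A4R := by
  intro k ψ hψ
  obtain ⟨C, M₀, hC0, hM₀, hC⟩ := hC k ψ hψ
  obtain ⟨C', hC'0, hG⟩ := hG k
  obtain ⟨W, hW⟩ : ∃ W : ℝ≥0∞, W = ∫⁻ y : ℝ, ENNReal.ofReal (wy y) := ⟨_, rfl⟩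
  have hWt : W ≠ ⊤ := by
    rw [hW]
    exact wy_int
  refine ⟨2 * C ^ 2 * (1 + W.toReal ^ 2 * C'), M₀, by positivity, hM₀, ?_⟩
  intro a b T M U hM hT hMT
  have hM1 : 1 ≤ M := by omega
  have hMp : (0 : ℝ) < M := by exact_mod_cast hM1
  have hT0 : (0 : ℝ) ≤ T := by linarith
  have key : ∀ γ : Fin k ⊕ Fin k → ℝ,
      ENNReal.ofReal (‖SPr ψ M a b (U + γ) - GMr M a b (U + γ) 0‖ ^ 2) ≤
      ENNReal.ofReal (2 * C ^ 2 * (M : ℝ) ^ (-(1 / 8) : ℝ)) *
        (1 + W * ∫⁻ y : ℝ, ENNReal.ofReal (wy y) * ENNReal.ofReal (‖Gyr M a b (U + γ) y‖ ^ 2)) := by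
    intro γ
    have h1 := hC M a b (U + γ) hM
    have h1' : ‖SPr ψ M a b (U + γ) - GMr M a b (U + γ) 0‖ ≤ C * (M : ℝ) ^ (-(1 / 16) : ℝ) *
        (1 + ∫ y : ℝ, wy y * ‖Gyr M a b (U + γ) y‖) := h1
    obtain ⟨J, hJ⟩ : ∃ J : ℝ, J = ∫ y : ℝ, wy y * ‖Gyr M a b (U + γ) y‖ := ⟨_, rfl⟩
    rw [← hJ] at h1'
    have hJ0 : 0 ≤ J := by
      rw [hJ]
      exact integral_nonneg fun y => mul_nonneg (wy_nonneg y) (norm_nonneg _)
    have h2 : ‖SPr ψ M a b (U + γ) - GMr M a b (U + γ) 0‖ ^ 2 ≤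
        2 * C ^ 2 * (M : ℝ) ^ (-(1 / 8) : ℝ) * (1 + J ^ 2) := by
      have h3 := pow_le_pow_left₀ (norm_nonneg _) h1' 2
      have h4 : ((M : ℝ) ^ (-(1 / 16) : ℝ)) ^ 2 = (M : ℝ) ^ (-(1 / 8) : ℝ) := by
        rw [← Real.rpow_natCast, ← Real.rpow_mul hMp.le]
        norm_num
      have h6 : 0 ≤ C ^ 2 * (M : ℝ) ^ (-(1 / 8) : ℝ) := by positivity
      calc ‖SPr ψ M a b (U + γ) - GMr M a b (U + γ) 0‖ ^ 2 ≤
            (C * (M : ℝ) ^ (-(1 / 16) : ℝ) * (1 + J)) ^ 2 := h3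
        _ = C ^ 2 * ((M : ℝ) ^ (-(1 / 16) : ℝ)) ^ 2 * (1 + J) ^ 2 := by ring
        _ = C ^ 2 * (M : ℝ) ^ (-(1 / 8) : ℝ) * (1 + J) ^ 2 := by rw [h4]
        _ ≤ C ^ 2 * (M : ℝ) ^ (-(1 / 8) : ℝ) * (2 * (1 + J ^ 2)) := by
            apply mul_le_mul_of_nonneg_left _ h6
            nlinarith [sq_nonneg (1 - J)]
        _ = _ := by ring
    have hmeas : Measurable fun y : ℝ => ‖Gyr M a b (U + γ) y‖ :=
      ((Gyr_cont M a b).comp (Continuous.prodMk_right (U + γ))).norm.measurable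
    have h5 := cs (fun y => ‖Gyr M a b (U + γ) y‖) hmeas (fun y => norm_nonneg _)
    rw [← hJ, ← hW] at h5
    calc ENNReal.ofReal (‖SPr ψ M a b (U + γ) - GMr M a b (U + γ) 0‖ ^ 2) ≤
        ENNReal.ofReal (2 * C ^ 2 * (M : ℝ) ^ (-(1 / 8) : ℝ) * (1 + J ^ 2)) :=
          ENNReal.ofReal_le_ofReal h2
      _ = ENNReal.ofReal (2 * C ^ 2 * (M : ℝ) ^ (-(1 / 8) : ℝ)) * ENNReal.ofReal (1 + J ^ 2) :=
          ENNReal.ofReal_mul (by positivity)
      _ ≤ _ := by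
          refine mul_le_mul' le_rfl ?_
          rw [ENNReal.ofReal_add zero_le_one (sq_nonneg J), ENNReal.ofReal_one]
          exact add_le_add le_rfl h5
  have hF : ∫⁻ γ, (∫⁻ y : ℝ, ENNReal.ofReal (wy y) * ENNReal.ofReal (‖Gyr M a b (U + γ) y‖ ^ 2))
      ∂(mP (Fin k ⊕ Fin k) T) ≤ W * ENNReal.ofReal (C' * T ^ (2 * k)) := by
    rw [lintegral_lintegral_swap]
    · calc ∫⁻ y : ℝ, ∫⁻ γ, ENNReal.ofReal (wy y) * ENNReal.ofReal (‖Gyr M a b (U + γ) y‖ ^ 2)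
            ∂(mP (Fin k ⊕ Fin k) T)
          ≤ ∫⁻ y, ENNReal.ofReal (wy y) * ENNReal.ofReal (C' * T ^ (2 * k)) := by
            refine lintegral_mono fun y => ?_
            rw [lintegral_const_mul' _ _ ENNReal.ofReal_ne_top]
            refine mul_le_mul' le_rfl ?_
            have h7 := hG a b T M (y / (Real.log M / 2)) U hM1 hMT hT
            refine le_trans (le_of_eq ?_) h7
            refine lintegral_congr fun γ => ?_
            unfold Gyr
            push_cast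
            rfl
        _ = W * ENNReal.ofReal (C' * T ^ (2 * k)) := by
            rw [lintegral_mul_const' _ _ ENNReal.ofReal_ne_top, ← hW]
    · refine Measurable.aemeasurable ?_
      exact ((wy_cont.comp continuous_snd).measurable.ennreal_ofReal).mul
        ((((Gyr_cont M a b).comp
          ((continuous_const.add continuous_fst).prodMk continuous_snd)).norm.pow
          2).measurable.ennreal_ofReal)
  calc ∫⁻ γ, ENNReal.ofReal (‖SPr ψ M a b (U + γ) - GMr M a b (U + γ) 0‖ ^ 2)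
        ∂(mP (Fin k ⊕ Fin k) T) ≤
      ∫⁻ γ, ENNReal.ofReal (2 * C ^ 2 * (M : ℝ) ^ (-(1 / 8) : ℝ)) *
        (1 + W * ∫⁻ y : ℝ, ENNReal.ofReal (wy y) * ENNReal.ofReal (‖Gyr M a b (U + γ) y‖ ^ 2))
          ∂(mP (Fin k ⊕ Fin k) T) := lintegral_mono key
    _ = ENNReal.ofReal (2 * C ^ 2 * (M : ℝ) ^ (-(1 / 8) : ℝ)) *
        (mP (Fin k ⊕ Fin k) T univ + W * ∫⁻ γ, (∫⁻ y : ℝ, ENNReal.ofReal (wy y) *
          ENNReal.ofReal (‖Gyr M a b (U + γ) y‖ ^ 2)) ∂(mP (Fin k ⊕ Fin k) T)) := by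
        rw [lintegral_const_mul' _ _ ENNReal.ofReal_ne_top, lintegral_add_left measurable_const,
          lintegral_const_mul' _ _ hWt, lintegral_const, one_mul]
    _ ≤ ENNReal.ofReal (2 * C ^ 2 * (M : ℝ) ^ (-(1 / 8) : ℝ)) *
        (ENNReal.ofReal (T ^ (2 * k)) + W * (W * ENNReal.ofReal (C' * T ^ (2 * k)))) := by
        rw [mP_univ k hT0]
        exact mul_le_mul' le_rfl (add_le_add le_rfl (mul_le_mul' le_rfl hF))
    _ = ENNReal.ofReal (2 * C ^ 2 * (1 + W.toReal ^ 2 * C') * T ^ (2 * k) *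
        (M : ℝ) ^ (-(1 / 8) : ℝ)) := by
        have hw0 : (0 : ℝ) ≤ W.toReal := ENNReal.toReal_nonneg
        rw [← ENNReal.ofReal_toReal hWt, ← ENNReal.ofReal_mul hw0, ← ENNReal.ofReal_mul hw0,
          ← ENNReal.ofReal_add (by positivity) (by positivity),
          ← ENNReal.ofReal_mul (by positivity), ENNReal.toReal_ofReal hw0]
        congr 1
        ring

end Pool.Agent.T2H54.TP
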