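import Pool.Agent.T2H54.TP.Stm
import Pool.Agent.Y891.GP.AfeB
import Pool.Agent.TH805.GS.SW

set_option autoImplicit false

/-!
Project TP (helper54), package AFA: the contour shift (port of `Y891.GP.AfeA`, `AfeB`).
-/

namespace Pool.Agent.T2H54.TP.PkgAFA

open Complex Filter Topology MeasureTheory Set
open Pool.Agent.TH612.CF Pool.Agent.TH612.GS
open Pool.Agent.Y891.GP (poly_exp z1_eq_mul z1_growth line_ne line_norm ZZ zeta_le ZZ_nonneg norm_pw
  norm_gs exp_le_half)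

noncomputable section

/-- functional equation -/
lemma zfe {s : ℂ} (h : s.re < 1) (h0 : s ≠ 0) : riemannZeta s = chi s * riemannZeta (1 - s) := by
  have h1 : (1 - s) ≠ 0 := by
    intro h2
    have := congrArg Complex.re h2
    simp at this
    linarith
  have hG : Gammaℝ (1 - s) ≠ 0 := Gammaℝ_ne_zero_of_re_pos (by simp; linarith)
  have hpi : (Real.pi : ℂ) ≠ 0 := by exact_mod_cast Real.pi_ne_zero
  have hc : chi s = Gammaℝ (1 - s) / Gammaℝ s := by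
    unfold chi
    rw [Gammaℝ_def, Gammaℝ_def]
    have e : (Real.pi : ℂ) ^ (s - 1 / 2) = (Real.pi : ℂ) ^ (-(1 - s) / 2) / (Real.pi : ℂ) ^ (-s / 2) := by
      rw [← Complex.cpow_sub _ _ hpi]
      congr 1
      ring
    rw [e, div_mul_eq_mul_div, div_div]
  rw [riemannZeta_def_of_ne_zero h0, riemannZeta_def_of_ne_zero h1, completedRiemannZeta_one_sub, hc]
  rw [div_mul_div_comm, mul_comm (Gammaℝ s), mul_div_mul_left _ _ hG]

/-- the polynomial factor -/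
def pf (d : ℝ) (w : ℂ) : ℂ := 1 + 4 * w ^ 2 / (d : ℂ) ^ 2

/-- the entire function -/
def YD (u v d : ℝ) (w : ℂ) : ℂ :=
  riemannZeta₁ (1 / 2 + I * u + w) * riemannZeta₁ (1 / 2 - I * v + w) *
    ((w + (1 / 2 - I * u)) * (w + (1 / 2 + I * v))) /
      ((1 / 2 - I * u) * (1 / 2 + I * v)) ^ 2 * cexp (w ^ 2) * pf d w

/-- the even polynomial which removes the poles -/
def qd (u v : ℝ) (w : ℂ) : ℂ :=
  (w ^ 2 - (1 / 2 - I * u) ^ 2) * (w ^ 2 - (1 / 2 + I * v) ^ 2) /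
    ((1 / 2 - I * u) * (1 / 2 + I * v)) ^ 2

lemma YD_diff (u v d : ℝ) : Differentiable ℂ (YD u v d) := by
  unfold YD pf
  have h1 : Differentiable ℂ (fun w : ℂ => riemannZeta₁ (1 / 2 + I * u + w)) :=
    differentiable_riemannZeta₁.comp (by fun_prop)
  have h2 : Differentiable ℂ (fun w : ℂ => riemannZeta₁ (1 / 2 - I * v + w)) :=
    differentiable_riemannZeta₁.comp (by fun_prop)
  exact ((((h1.mul h2).mul (by fun_prop)).div_const _).mul (by fun_prop)).mul (by fun_prop)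

lemma pf_le (d : ℝ) (w : ℂ) (x : ℝ) (hx : 1 ≤ x) (hw : ‖w‖ ≤ x) :
    ‖pf d w‖ ≤ (1 + 4 / d ^ 2) * x ^ 2 := by
  unfold pf
  refine (norm_add_le _ _).trans ?_
  rw [norm_one, norm_div, norm_mul, norm_pow, norm_pow, norm_real, Real.norm_eq_abs, sq_abs,
    show ‖(4 : ℂ)‖ = 4 by simp]
  have h1 : 1 ≤ x ^ 2 := one_le_pow₀ hx
  have h2 : 4 * ‖w‖ ^ 2 / d ^ 2 ≤ 4 * x ^ 2 / d ^ 2 := by gcongr
  calc 1 + 4 * ‖w‖ ^ 2 / d ^ 2 ≤ x ^ 2 + 4 * x ^ 2 / d ^ 2 := by linarith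
    _ = _ := by ring

lemma YD_bd (u v d : ℝ) : ∃ M : ℝ, ∀ s : ℂ, -(3 / 4) ≤ s.re → s.re ≤ 3 / 4 →
    ‖YD u v d s‖ ≤ M * Real.exp (-(1 / 2) * s.im ^ 2) := by
  obtain ⟨K, B, hK, hg⟩ := z1_growth
  obtain ⟨a, ha⟩ : ∃ a : ℂ, a = 1 / 2 + I * u := ⟨_, rfl⟩
  obtain ⟨b, hb⟩ : ∃ b : ℂ, b = 1 / 2 - I * v := ⟨_, rfl⟩
  obtain ⟨a', ha'⟩ : ∃ a : ℂ, a = 1 / 2 - I * u := ⟨_, rfl⟩
  obtain ⟨b', hb'⟩ : ∃ b : ℂ, b = 1 / 2 + I * v := ⟨_, rfl⟩
  obtain ⟨N, hN⟩ : ∃ N : ℝ, N = 2 + ‖a‖ + ‖b‖ + ‖a'‖ + ‖b'‖ := ⟨_, rfl⟩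
  have hN2 : 2 ≤ N := by
    rw [hN]; linarith [norm_nonneg a, norm_nonneg b, norm_nonneg a', norm_nonneg b']
  have hare : a.re = 1 / 2 := by rw [ha]; simp
  have hbre : b.re = 1 / 2 := by rw [hb]; simp
  refine ⟨K ^ 2 * N ^ (2 * B + 4) * ‖((a' * b') ^ 2)‖⁻¹ * (1 + 4 / d ^ 2) * Real.exp 1 *
    ((2 * B + 4).factorial * Real.exp (3 / 2)), fun s h1 h2 => ?_⟩
  obtain ⟨x, hx⟩ : ∃ x : ℝ, x = 1 + |s.im| := ⟨_, rfl⟩
  have hx1 : 1 ≤ x := by rw [hx]; linarith [abs_nonneg s.im]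
  have hsn : ‖s‖ ≤ x := by
    have h3 := norm_le_abs_re_add_abs_im s
    have h4 : |s.re| ≤ 1 := abs_le.2 ⟨by linarith, by linarith⟩
    rw [hx]; linarith
  have hA : ∀ z : ℂ, ‖z‖ ≤ ‖a‖ + ‖b‖ + ‖a'‖ + ‖b'‖ → 1 + ‖z + s‖ ≤ N * x := by
    intro z hz
    have h3 := norm_add_le z s
    have h4 : 0 ≤ ‖a‖ + ‖b‖ + ‖a'‖ + ‖b'‖ := by positivity
    rw [hN]
    nlinarith
  have hNx : 0 ≤ N * x := by nlinarith
  have n1 := norm_nonneg a
  have n2 := norm_nonneg b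
  have n3 := norm_nonneg a'
  have n4 := norm_nonneg b'
  have hza : 1 + ‖a + s‖ ≤ N * x := hA a (by linarith)
  have hzb : 1 + ‖b + s‖ ≤ N * x := hA b (by linarith)
  have hza' : 1 + ‖a' + s‖ ≤ N * x := hA a' (by linarith)
  have hzb' : 1 + ‖b' + s‖ ≤ N * x := hA b' (by linarith)
  have hga : ‖riemannZeta₁ (a + s)‖ ≤ K * (N * x) ^ B := by
    refine (hg (a + s) (by rw [add_re, hare]; linarith)).trans ?_
    gcongr
  have hgb : ‖riemannZeta₁ (b + s)‖ ≤ K * (N * x) ^ B := by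
    refine (hg (b + s) (by rw [add_re, hbre]; linarith)).trans ?_
    gcongr
  have hla : ‖s + a'‖ ≤ N * x := by
    rw [add_comm]; linarith
  have hlb : ‖s + b'‖ ≤ N * x := by
    rw [add_comm]; linarith
  have hpf : ‖pf d s‖ ≤ (1 + 4 / d ^ 2) * (N * x) ^ 2 :=
    pf_le d s (N * x) (by nlinarith) (by nlinarith)
  have he : ‖cexp (s ^ 2)‖ ≤ Real.exp 1 * Real.exp (-(1 / 2) * s.im ^ 2) *
      Real.exp (-(1 / 2) * s.im ^ 2) := by
    rw [norm_exp, ← Real.exp_add, ← Real.exp_add]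
    apply Real.exp_le_exp.2
    have h3 : (s ^ 2).re = s.re ^ 2 - s.im ^ 2 := by
      rw [pow_two, mul_re]; ring
    rw [h3]
    nlinarith
  have hpe := poly_exp (2 * B + 4) s.im
  rw [← hx] at hpe
  have hmain : ‖YD u v d s‖ ≤ (K * (N * x) ^ B) * (K * (N * x) ^ B) * ((N * x) * (N * x)) *
      ‖((a' * b') ^ 2)‖⁻¹ * (Real.exp 1 * Real.exp (-(1 / 2) * s.im ^ 2) *
      Real.exp (-(1 / 2) * s.im ^ 2)) * ((1 + 4 / d ^ 2) * (N * x) ^ 2) := by
    unfold YD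
    rw [← ha, ← hb, ← ha', ← hb', norm_mul, norm_mul, norm_div, div_eq_mul_inv, norm_mul, norm_mul,
      norm_mul]
    gcongr
  refine hmain.trans ?_
  have hpos : 0 ≤ K ^ 2 * N ^ (2 * B + 4) * ‖((a' * b') ^ 2)‖⁻¹ * (1 + 4 / d ^ 2) * Real.exp 1 *
      Real.exp (-(1 / 2) * s.im ^ 2) := by positivity
  calc (K * (N * x) ^ B) * (K * (N * x) ^ B) * ((N * x) * (N * x)) *
      ‖((a' * b') ^ 2)‖⁻¹ * (Real.exp 1 * Real.exp (-(1 / 2) * s.im ^ 2) *
      Real.exp (-(1 / 2) * s.im ^ 2)) * ((1 + 4 / d ^ 2) * (N * x) ^ 2)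
      = (K ^ 2 * N ^ (2 * B + 4) * ‖((a' * b') ^ 2)‖⁻¹ * (1 + 4 / d ^ 2) * Real.exp 1 *
        Real.exp (-(1 / 2) * s.im ^ 2)) *
        (x ^ (2 * B + 4) * Real.exp (-(1 / 2) * s.im ^ 2)) := by ring
    _ ≤ (K ^ 2 * N ^ (2 * B + 4) * ‖((a' * b') ^ 2)‖⁻¹ * (1 + 4 / d ^ 2) * Real.exp 1 *
        Real.exp (-(1 / 2) * s.im ^ 2)) * ((2 * B + 4).factorial * Real.exp (3 / 2)) :=
        mul_le_mul_of_nonneg_left hpe hpos
    _ = _ := by ring

lemma ab_ne (u v : ℝ) : (1 / 2 - I * u : ℂ) * (1 / 2 + I * v) ≠ 0 := by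
  have h1 : (1 / 2 + I * v : ℂ) ≠ 0 := by
    intro h
    have := congrArg Complex.re h
    simp at this
  have h2 : (1 / 2 - I * u : ℂ) ≠ 0 := by
    intro h
    have := congrArg Complex.re h
    simp at this
  exact mul_ne_zero h2 h1

/-- away from the poles -/
lemma YD_eq (u v d : ℝ) (w : ℂ) (h1 : 1 / 2 + I * u + w ≠ 1) (h2 : 1 / 2 - I * v + w ≠ 1) :
    YD u v d w = riemannZeta (1 / 2 + I * u + w) * riemannZeta (1 / 2 - I * v + w) * qd u v w *
      cexp (w ^ 2) * pf d w := by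
  unfold YD qd
  rw [z1_eq_mul h1, z1_eq_mul h2]
  ring

lemma qd_zero (u v : ℝ) : qd u v 0 = 1 := by
  unfold qd
  have e : ((0 : ℂ) ^ 2 - (1 / 2 - I * u) ^ 2) * (0 ^ 2 - (1 / 2 + I * v) ^ 2) =
      ((1 / 2 - I * u) * (1 / 2 + I * v)) ^ 2 := by ring
  rw [e, div_self (pow_ne_zero 2 (ab_ne u v))]

lemma qd_neg (u v : ℝ) (w : ℂ) : qd u v (-w) = qd u v w := by
  unfold qd
  ring

lemma pf_neg (d : ℝ) (w : ℂ) : pf d (-w) = pf d w := by
  unfold pf
  ring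

lemma YD_zero (d u : ℝ) : YD u (u + d) d 0 = Pd d u := by
  have h1 : (1 / 2 + I * u + 0 : ℂ) ≠ 1 := by
    intro h
    have := congrArg Complex.re h
    norm_num at this
  have h2 : (1 / 2 - I * ((u + d : ℝ) : ℂ) + 0 : ℂ) ≠ 1 := by
    intro h
    have := congrArg Complex.re h
    norm_num at this
  rw [YD_eq u (u + d) d 0 h1 h2, qd_zero]
  have h4 : (1 / 2 - I * ((u + d : ℝ) : ℂ) : ℂ) = (starRingEnd ℂ) (1 / 2 + I * ((u + d : ℝ) : ℂ)) := by
    apply Complex.ext <;> simp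
  rw [add_zero, add_zero, h4, riemannZeta_conj]
  unfold Pd z pf
  simp

/-- the functional equation -/
lemma YD_neg (u v d : ℝ) (w : ℂ) (hw : 1 / 2 < w.re) :
    YD u v d (-w) = chi (1 / 2 + I * u - w) * chi (1 / 2 - I * v - w) *
      (riemannZeta (1 / 2 - I * u + w) * riemannZeta (1 / 2 + I * v + w) * qd u v w *
      cexp (w ^ 2) * pf d w) := by
  have hre3 : (1 / 2 + I * u + -w : ℂ).re = 1 / 2 - w.re := by simp [sub_eq_add_neg]
  have hre4 : (1 / 2 - I * v + -w : ℂ).re = 1 / 2 - w.re := by simp [sub_eq_add_neg]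
  have n3 : (1 / 2 + I * u + -w : ℂ) ≠ 1 := by
    intro h
    have := congrArg Complex.re h
    rw [hre3, one_re] at this
    linarith
  have n4 : (1 / 2 - I * v + -w : ℂ) ≠ 1 := by
    intro h
    have := congrArg Complex.re h
    rw [hre4, one_re] at this
    linarith
  have m3 : (1 / 2 + I * u + -w : ℂ) ≠ 0 := by
    intro h
    have := congrArg Complex.re h
    rw [hre3, zero_re] at this
    linarith
  have m4 : (1 / 2 - I * v + -w : ℂ) ≠ 0 := by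
    intro h
    have := congrArg Complex.re h
    rw [hre4, zero_re] at this
    linarith
  rw [YD_eq u v d (-w) n3 n4, qd_neg, pf_neg, zfe (by rw [hre3]; linarith) m3,
    zfe (by rw [hre4]; linarith) m4, neg_sq]
  rw [show (1 - (1 / 2 + I * u + -w) : ℂ) = 1 / 2 - I * u + w by ring,
    show (1 - (1 / 2 - I * v + -w) : ℂ) = 1 / 2 + I * v + w by ring,
    show (1 / 2 + I * u + -w : ℂ) = 1 / 2 + I * u - w by ring,
    show (1 / 2 - I * v + -w : ℂ) = 1 / 2 - I * v - w by ring]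
  ring

lemma int_aux (u v d c ρ e : ℝ) (hc : 0 < c) (hc' : c ≤ 3 / 4) (he : e ^ 2 = 1) :
    Integrable (fun t : ℝ => YD u v d ((e : ℂ) * (c + I * t)) *
      cexp (-((e : ℂ) * (c + I * t)) * ρ) / (c + I * t)) := by
  obtain ⟨M, hM⟩ := YD_bd u v d
  have he1 : e = 1 ∨ e = -1 := by
    rcases mul_eq_zero.1 (show (e - 1) * (e + 1) = 0 by nlinarith) with h | h
    · left; linarith
    · right; linarith
  have hcont : Continuous (fun t : ℝ => YD u v d ((e : ℂ) * (c + I * t)) *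
      cexp (-((e : ℂ) * (c + I * t)) * ρ) / (c + I * t)) := by
    refine Continuous.div ?_ (by fun_prop) (fun t => line_ne c hc t)
    exact ((YD_diff u v d).continuous.comp (by fun_prop)).mul (by fun_prop)
  refine Integrable.mono' (((integrable_exp_neg_mul_sq (show (0 : ℝ) < 1 / 2 by norm_num)).const_mul
    M).mul_const (Real.exp (-(e * c * ρ)) / c)) hcont.aestronglyMeasurable
    (Eventually.of_forall fun t => ?_)
  have hre : ((e : ℂ) * (c + I * t)).re = e * c := by simp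
  have him : ((e : ℂ) * (c + I * t)).im = e * t := by simp
  have h1 : ‖YD u v d ((e : ℂ) * (c + I * t))‖ ≤ M * Real.exp (-(1 / 2) * t ^ 2) := by
    have h := hM ((e : ℂ) * (c + I * t)) (by rw [hre]; rcases he1 with h | h <;> rw [h] <;> linarith)
      (by rw [hre]; rcases he1 with h | h <;> rw [h] <;> linarith)
    rw [him, mul_pow, he, one_mul] at h
    exact h
  have h2 : ‖cexp (-((e : ℂ) * (c + I * t)) * ρ)‖ = Real.exp (-(e * c * ρ)) := by
    rw [norm_exp]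
    congr 1
    simp
  rw [norm_div, norm_mul, h2]
  have h3 : 0 ≤ M * Real.exp (-(1 / 2) * t ^ 2) := (norm_nonneg _).trans h1
  have h4 := line_norm c hc t
  calc ‖YD u v d ((e : ℂ) * (c + I * t))‖ * Real.exp (-(e * c * ρ)) / ‖((c : ℂ) + I * t)‖
      ≤ (M * Real.exp (-(1 / 2) * t ^ 2)) * Real.exp (-(e * c * ρ)) / c := by
        gcongr
    _ = M * Real.exp (-(1 / 2) * t ^ 2) * (Real.exp (-(e * c * ρ)) / c) := by ring

/-- contour shift -/
lemma shiftYD (d u c ρ : ℝ) (hc : 0 < c) (hc' : c ≤ 3 / 4) :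
    2 * Real.pi * Pd d u =
      (∫ t : ℝ, YD u (u + d) d (c + I * t) * cexp (-(c + I * t) * ρ) / (c + I * t)) +
      ∫ t : ℝ, YD u (u + d) d (-(c + I * t)) * cexp ((c + I * t) * ρ) / (c + I * t) := by
  obtain ⟨M, hM⟩ := YD_bd u (u + d) d
  have h := (Pool.Agent.TH41.LP.SHIFTf.shift (YD u (u + d) d) (3 / 4) c M (1 / 2) (by norm_num) hc
    (by norm_num) (YD_diff u (u + d) d) (fun s h1 h2 => hM s h1 (by linarith)) ρ).2 (-c) (by linarith)
    (by linarith)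
  rw [YD_zero] at h
  rw [← h]
  unfold Pool.Agent.TH41.LP.WW
  rw [← integral_neg_eq_self (fun t : ℝ => YD u (u + d) d (((-c : ℝ) : ℂ) + t * I) /
    (((-c : ℝ) : ℂ) + t * I) * cexp (-(((-c : ℝ) : ℂ) + t * I) * ρ)), sub_eq_add_neg,
    ← integral_neg]
  congr 1
  · refine integral_congr_ae (Eventually.of_forall fun t => ?_)
    simp only
    rw [mul_comm I (t : ℂ)]
    ring
  · refine integral_congr_ae (Eventually.of_forall fun t => ?_)
    simp only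
    have e : (((-c : ℝ) : ℂ) + ((-t : ℝ) : ℂ) * I) = -(c + I * t) := by
      push_cast
      ring
    rw [e, neg_neg, div_neg]
    ring

/-- the dual integrand -/
def Gd (d u c t : ℝ) : ℂ :=
  riemannZeta (1 / 2 - I * u + (c + I * t)) * riemannZeta (1 / 2 + I * ((u + d : ℝ) : ℂ) + (c + I * t)) *
    cexp ((c + I * t) * (Real.log (u / (2 * Real.pi)) : ℝ)) * cexp ((c + I * t) ^ 2) *
      (1 + 4 * (c + I * t) ^ 2 / (d : ℂ) ^ 2) / (c + I * t)

lemma Gd_eq (d u c t : ℝ) : Gd d u c t = (starRingEnd ℂ) (Fd d u c (-t)) := by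
  unfold Gd Fd
  have h1 : (1 / 2 - I * u + (c + I * t) : ℂ) =
      (starRingEnd ℂ) (1 / 2 + I * u + (c + I * ((-t : ℝ) : ℂ))) := by
    apply Complex.ext <;> simp
  have h2 : (1 / 2 + I * ((u + d : ℝ) : ℂ) + (c + I * t) : ℂ) =
      (starRingEnd ℂ) (1 / 2 - I * ((u + d : ℝ) : ℂ) + (c + I * ((-t : ℝ) : ℂ))) := by
    apply Complex.ext <;> simp
  have h3 : ((c : ℂ) + I * t) = (starRingEnd ℂ) ((c : ℂ) + I * ((-t : ℝ) : ℂ)) := by
    apply Complex.ext <;> simp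
  rw [h1, h2, riemannZeta_conj, riemannZeta_conj]
  rw [map_div₀, map_mul, map_mul, map_mul, map_mul, ← Complex.exp_conj, ← Complex.exp_conj, map_mul,
    map_pow, map_add (starRingEnd ℂ) 1, map_div₀, map_mul, map_pow, map_pow, conj_ofReal, conj_ofReal,
    map_one, ← h3, show (starRingEnd ℂ) (4 : ℂ) = 4 by apply Complex.ext <;> simp]

/-- the factor from the functional equation -/
def RR (d u c t : ℝ) : ℂ :=
  chi (1 / 2 + I * u - (c + I * t)) * chi (1 / 2 - I * ((u + d : ℝ) : ℂ) - (c + I * t)) *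
    cexp (-(2 * (c + I * t) * (Real.log (u / (2 * Real.pi)) : ℝ)))

lemma ne1 (u c t : ℝ) (hc : 1 / 2 < c) : (1 / 2 + I * u + (c + I * t) : ℂ) ≠ 1 := by
  intro h
  have := congrArg Complex.re h
  simp at this
  linarith

lemma ne2 (u c t : ℝ) (hc : 1 / 2 < c) : (1 / 2 - I * u + (c + I * t) : ℂ) ≠ 1 := by
  intro h
  have := congrArg Complex.re h
  simp at this
  linarith

lemma J1_eq (d u c t : ℝ) (hc : 1 / 2 < c) :
    YD u (u + d) d (c + I * t) * cexp (-(c + I * t) * ((-Real.log (u / (2 * Real.pi)) : ℝ) : ℂ)) /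
      (c + I * t) = Fd d u c t * qd u (u + d) (c + I * t) := by
  rw [YD_eq u (u + d) d _ (ne1 u c t hc) (ne2 (u + d) c t hc)]
  unfold Fd pf
  rw [show (-((c : ℂ) + I * t) * ((-Real.log (u / (2 * Real.pi)) : ℝ) : ℂ)) =
    (c + I * t) * (Real.log (u / (2 * Real.pi)) : ℝ) by push_cast; ring]
  ring

lemma J2_eq (d u c t : ℝ) (hc : 1 / 2 < c) :
    YD u (u + d) d (-(c + I * t)) * cexp ((c + I * t) * ((-Real.log (u / (2 * Real.pi)) : ℝ) : ℂ)) /
      (c + I * t) = Gd d u c t * qd u (u + d) (c + I * t) * RR d u c t := by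
  rw [YD_neg u (u + d) d _ (by simpa using hc)]
  unfold Gd RR pf
  rw [show (((c : ℂ) + I * t) * ((-Real.log (u / (2 * Real.pi)) : ℝ) : ℂ)) =
    (c + I * t) * (Real.log (u / (2 * Real.pi)) : ℝ) +
      -(2 * (c + I * t) * (Real.log (u / (2 * Real.pi)) : ℝ)) by push_cast; ring, Complex.exp_add]
  ring

lemma Fd_le (d u c t x : ℝ) (hu : 1 ≤ u) (hc : 1 / 2 < c) (hx : 1 ≤ x) (hw : ‖(c : ℂ) + I * t‖ ≤ x) :
    ‖Fd d u c t‖ ≤ ZZ (1 / 2 + c) ^ 2 * u ^ c * Real.exp (c ^ 2 - t ^ 2) *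
      ((1 + 4 / d ^ 2) * x ^ 2) / c := by
  have hc0 : 0 < c := by linarith
  have h1 : ‖riemannZeta (1 / 2 + I * u + (c + I * t))‖ ≤ ZZ (1 / 2 + c) := by
    have h := zeta_le (1 / 2 + I * u + (c + I * t)) (by simp; linarith)
    simpa using h
  have h2 : ‖riemannZeta (1 / 2 - I * ((u + d : ℝ) : ℂ) + (c + I * t))‖ ≤ ZZ (1 / 2 + c) := by
    have h := zeta_le (1 / 2 - I * ((u + d : ℝ) : ℂ) + (c + I * t)) (by simp; linarith)
    simpa using h
  have h3 := norm_pw u c t hu hc0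
  have h4 := line_norm c hc0 t
  have h5 := ZZ_nonneg (1 / 2 + c)
  have h6 := pf_le d (c + I * t) x hx hw
  unfold pf at h6
  unfold Fd
  rw [norm_div, norm_mul, norm_mul, norm_mul, norm_mul, norm_gs, pow_two (ZZ (1 / 2 + c))]
  gcongr

lemma Fd_cont (d u c : ℝ) (hc : 1 / 2 < c) : Continuous (Fd d u c) := by
  have h1 : Continuous (fun t : ℝ => riemannZeta (1 / 2 + I * u + (c + I * t))) := by
    rw [continuous_iff_continuousAt]
    intro t
    exact ContinuousAt.comp (f := fun t : ℝ => (1 / 2 + I * u + (c + I * t) : ℂ))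
      (differentiableAt_riemannZeta (ne1 u c t hc)).continuousAt
      (Continuous.continuousAt (by fun_prop))
  have h2 : Continuous (fun t : ℝ => riemannZeta (1 / 2 - I * ((u + d : ℝ) : ℂ) + (c + I * t))) := by
    rw [continuous_iff_continuousAt]
    intro t
    exact ContinuousAt.comp (f := fun t : ℝ => (1 / 2 - I * ((u + d : ℝ) : ℂ) + (c + I * t) : ℂ))
      (differentiableAt_riemannZeta (ne2 (u + d) c t hc)).continuousAt
      (Continuous.continuousAt (by fun_prop))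
  unfold Fd
  exact ((((h1.mul h2).mul (by fun_prop)).mul (by fun_prop)).mul (by fun_prop)).div (by fun_prop)
    (fun t => line_ne c (by linarith) t)

lemma qd_sub (u v k : ℝ) (hu : 1 ≤ u) (hv : 1 ≤ v) (hk : u ≤ k * v) (w : ℂ) (x : ℝ) (hx : 1 ≤ x)
    (hw : ‖w‖ ≤ x) : ‖qd u v w - 1‖ ≤ (2 + k) * x ^ 4 / u := by
  obtain ⟨a, ha⟩ : ∃ a : ℂ, a = 1 / 2 - I * u := ⟨_, rfl⟩
  obtain ⟨b, hb⟩ : ∃ b : ℂ, b = 1 / 2 + I * v := ⟨_, rfl⟩
  have hab : a * b ≠ 0 := by rw [ha, hb]; exact ab_ne u v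
  have ha2 : ‖a‖ ^ 2 = 1 / 4 + u ^ 2 := by
    rw [← normSq_eq_norm_sq, normSq_apply, ha]
    simp
    ring
  have hb2 : ‖b‖ ^ 2 = 1 / 4 + v ^ 2 := by
    rw [← normSq_eq_norm_sq, normSq_apply, hb]
    simp
    ring
  have e : qd u v w - 1 = (w ^ 4 - w ^ 2 * (a ^ 2 + b ^ 2)) / (a * b) ^ 2 := by
    unfold qd
    rw [← ha, ← hb, eq_div_iff (pow_ne_zero 2 hab), sub_mul, div_mul_cancel₀ _ (pow_ne_zero 2 hab)]
    ring
  have hk0 : 0 < k := by
    by_contra h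
    push Not at h
    nlinarith
  have hu0 : 0 < u := by linarith
  have hv0 : 0 < v := by linarith
  obtain ⟨α, hα⟩ : ∃ α : ℝ, α = 1 / 4 + u ^ 2 := ⟨_, rfl⟩
  obtain ⟨β, hβ⟩ : ∃ β : ℝ, β = 1 / 4 + v ^ 2 := ⟨_, rfl⟩
  rw [← hα] at ha2
  rw [← hβ] at hb2
  have hαu : u ≤ α := by rw [hα]; nlinarith
  have hβv : v ≤ β := by rw [hβ]; nlinarith
  have hα0 : 0 < α := by linarith
  have hβ0 : 0 < β := by linarith
  have hx24 : x ^ 2 ≤ x ^ 4 := pow_le_pow_right₀ hx (by norm_num)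
  have hx40 : 0 ≤ x ^ 4 := by positivity
  have h1 : ‖w ^ 4 - w ^ 2 * (a ^ 2 + b ^ 2)‖ ≤ x ^ 4 * (1 + α + β) := by
    refine (norm_sub_le _ _).trans ?_
    rw [norm_mul, norm_pow, norm_pow]
    have h2 : ‖a ^ 2 + b ^ 2‖ ≤ α + β := by
      refine (norm_add_le _ _).trans ?_
      rw [norm_pow, norm_pow, ha2, hb2]
    have h3 : ‖w‖ ^ 2 ≤ x ^ 4 := by
      calc ‖w‖ ^ 2 ≤ x ^ 2 := by gcongr
        _ ≤ x ^ 4 := hx24
    have h4 : ‖w‖ ^ 4 ≤ x ^ 4 := by gcongr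
    calc ‖w‖ ^ 4 + ‖w‖ ^ 2 * ‖a ^ 2 + b ^ 2‖ ≤ x ^ 4 + x ^ 4 * (α + β) := by gcongr
      _ = _ := by ring
  have hn : ‖(a * b) ^ 2‖ = α * β := by
    rw [norm_pow, norm_mul, mul_pow, ha2, hb2]
  rw [e, norm_div, hn]
  have h5 : ‖w ^ 4 - w ^ 2 * (a ^ 2 + b ^ 2)‖ / (α * β) ≤ x ^ 4 * (1 + α + β) / (α * β) := by gcongr
  refine h5.trans ?_
  rw [div_le_div_iff₀ (by positivity) hu0]
  have h6 : (1 + α + β) * u ≤ (2 + k) * (α * β) := by
    have g1 : u * 1 ≤ α * β := mul_le_mul hαu (by linarith) (by norm_num) hα0.le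
    have g2 : α * u ≤ k * (α * β) := by
      calc α * u ≤ α * (k * v) := by gcongr
        _ ≤ α * (k * β) := by gcongr
        _ = _ := by ring
    have g3 : β * u ≤ α * β := by
      calc β * u ≤ β * α := by gcongr
        _ = _ := by ring
    nlinarith
  calc x ^ 4 * (1 + α + β) * u = x ^ 4 * ((1 + α + β) * u) := by ring
    _ ≤ x ^ 4 * ((2 + k) * (α * β)) := by gcongr
    _ = _ := by ring

lemma Xd_norm (d u : ℝ) : ‖Xd d u‖ = 1 := by
  unfold Xd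
  have h1 := Pool.Agent.TH805.GS.norm_chi u
  have h2 := Pool.Agent.TH805.GS.norm_chi (-(u + d))
  have e : (1 / 2 + I * ((-(u + d) : ℝ) : ℂ)) = (1 / 2 - I * ((u + d : ℝ) : ℂ)) := by
    push_cast; ring
  rw [e] at h2
  rw [norm_mul, h1, h2, mul_one]

end

end Pool.Agent.T2H54.TP.PkgAFA

namespace Pool.Agent.T2H54.TP

open Complex Filter Topology MeasureTheory Set
open Pool.Agent.TH612.CF Pool.Agent.TH612.GS
open Pool.Agent.Y891.GP (poly_exp line_norm ZZ ZZ_nonneg exp_le_half)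
open PkgAFA

theorem t_AFA (hCHD : S_CHD) : S_AFA := by
  intro d c hd hc hc'
  obtain ⟨C, A, hC, hR⟩ := hCHD d c (by linarith) (by linarith)
  have hc0 : 0 < c := by linarith
  obtain ⟨Q, hQ⟩ : ∃ Q : ℝ, Q = 2 + (1 + |d|) := ⟨_, rfl⟩
  have hd0 := abs_nonneg d
  have hQ0 : 3 ≤ Q := by rw [hQ]; linarith
  obtain ⟨P, hP⟩ : ∃ P : ℝ, P = 1 + 4 / d ^ 2 := ⟨_, rfl⟩
  have hP0 : 0 < P := by rw [hP]; positivity
  obtain ⟨D, hD⟩ : ∃ D : ℝ, D = ZZ (1 / 2 + c) ^ 2 * Real.exp (c ^ 2) * P / c *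
    (2 * Q + (Q + 1) * C) * ((A + 6).factorial * Real.exp (3 / 2)) := ⟨_, rfl⟩
  have hZ := ZZ_nonneg (1 / 2 + c)
  have hD0 : 0 ≤ D := by rw [hD]; positivity
  obtain ⟨G, hG⟩ : ∃ G : ℝ, G = ∫ t : ℝ, Real.exp (-(1 / 2) * t ^ 2) := ⟨_, rfl⟩
  have hG0 : 0 ≤ G := by rw [hG]; exact integral_nonneg fun t => (Real.exp_pos _).le
  have hgi := integrable_exp_neg_mul_sq (show (0 : ℝ) < 1 / 2 by norm_num)
  refine ⟨D * G + 1, by positivity, fun u hud => ?_⟩
  have hu : 1 ≤ u := by linarith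
  have hu0 : 0 < u := by linarith
  obtain ⟨hda, hdb⟩ := abs_le.1 (le_refl |d|)
  have hv : 1 ≤ u + d := by linarith
  have hk : u ≤ (1 + |d|) * (u + d) := by nlinarith
  obtain ⟨ρ, hρ⟩ : ∃ ρ : ℝ, ρ = -Real.log (u / (2 * Real.pi)) := ⟨_, rfl⟩
  have h1 := shiftYD d u c ρ hc0 hc'
  have i1 : Integrable (fun t : ℝ => Fd d u c t * qd u (u + d) (c + I * t)) := by
    have h := int_aux u (u + d) d c ρ 1 hc0 hc' (by norm_num)
    refine h.congr (Eventually.of_forall fun t => ?_)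
    simp only [ofReal_one, one_mul]
    rw [hρ]
    exact J1_eq d u c t hc
  have i2 : Integrable (fun t : ℝ => Gd d u c t * qd u (u + d) (c + I * t) * RR d u c t) := by
    have h := int_aux u (u + d) d c ρ (-1) hc0 hc' (by norm_num)
    refine h.congr (Eventually.of_forall fun t => ?_)
    simp only [ofReal_neg, ofReal_one, neg_mul, one_mul, neg_neg]
    rw [hρ]
    exact J2_eq d u c t hc
  have e1 : (∫ t : ℝ, YD u (u + d) d (c + I * t) * cexp (-(c + I * t) * ρ) / (c + I * t)) =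
      ∫ t : ℝ, Fd d u c t * qd u (u + d) (c + I * t) := by
    refine integral_congr_ae (Eventually.of_forall fun t => ?_)
    simp only
    rw [hρ]
    exact J1_eq d u c t hc
  have e2 : (∫ t : ℝ, YD u (u + d) d (-(c + I * t)) * cexp ((c + I * t) * ρ) / (c + I * t)) =
      ∫ t : ℝ, Gd d u c t * qd u (u + d) (c + I * t) * RR d u c t := by
    refine integral_congr_ae (Eventually.of_forall fun t => ?_)
    simp only
    rw [hρ]
    exact J2_eq d u c t hc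
  -- pointwise facts
  have hx0 : ∀ t : ℝ, 1 ≤ 1 + |t| ∧ ‖(c : ℂ) + I * t‖ ≤ 1 + |t| := by
    intro t
    refine ⟨by linarith [abs_nonneg t], ?_⟩
    have h3 := norm_le_abs_re_add_abs_im ((c : ℂ) + I * t)
    have h4 : ((c : ℂ) + I * t).re = c := by simp
    have h5 : ((c : ℂ) + I * t).im = t := by simp
    rw [h4, h5, abs_of_pos hc0] at h3
    linarith
  have hF : ∀ t : ℝ, ‖Fd d u c t‖ ≤ ZZ (1 / 2 + c) ^ 2 * u ^ c * Real.exp (c ^ 2 - t ^ 2) *
      (P * (1 + |t|) ^ 2) / c := by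
    intro t
    rw [hP]
    exact Fd_le d u c t _ hu hc (hx0 t).1 (hx0 t).2
  have hGl : ∀ t : ℝ, ‖Gd d u c t‖ ≤ ZZ (1 / 2 + c) ^ 2 * u ^ c * Real.exp (c ^ 2 - t ^ 2) *
      (P * (1 + |t|) ^ 2) / c := by
    intro t
    have h := hF (-t)
    rw [abs_neg, neg_sq] at h
    rw [Gd_eq, RCLike.norm_conj]
    exact h
  have hcontF := Fd_cont d u c hc
  have hpu : 0 ≤ u ^ c := by positivity
  have i0 : Integrable (Fd d u c) := by
    refine Integrable.mono' ((integrable_exp_neg_mul_sq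
      (show (0 : ℝ) < 1 / 2 by norm_num)).const_mul
      (ZZ (1 / 2 + c) ^ 2 * u ^ c * Real.exp (c ^ 2) * P * ((2).factorial * Real.exp (3 / 2)) / c))
      hcontF.aestronglyMeasurable (Eventually.of_forall fun t => ?_)
    refine (hF t).trans ?_
    have hpe := poly_exp 2 t
    have hexp : Real.exp (c ^ 2 - t ^ 2) = Real.exp (c ^ 2) * Real.exp (-(1 / 2) * t ^ 2) *
        Real.exp (-(1 / 2) * t ^ 2) := by
      rw [← Real.exp_add, ← Real.exp_add]
      congr 1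
      ring
    rw [hexp]
    calc ZZ (1 / 2 + c) ^ 2 * u ^ c * (Real.exp (c ^ 2) * Real.exp (-(1 / 2) * t ^ 2) *
        Real.exp (-(1 / 2) * t ^ 2)) * (P * (1 + |t|) ^ 2) / c
        = ZZ (1 / 2 + c) ^ 2 * u ^ c * Real.exp (c ^ 2) * P / c * Real.exp (-(1 / 2) * t ^ 2) *
          ((1 + |t|) ^ 2 * Real.exp (-(1 / 2) * t ^ 2)) := by ring
      _ ≤ ZZ (1 / 2 + c) ^ 2 * u ^ c * Real.exp (c ^ 2) * P / c * Real.exp (-(1 / 2) * t ^ 2) *
          ((2).factorial * Real.exp (3 / 2)) := by gcongr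
      _ = _ := by ring
  have iG : Integrable (Gd d u c) := by
    have h := (i0.comp_neg)
    have h2 : Integrable (fun t : ℝ => (starRingEnd ℂ) (Fd d u c (-t))) := by
      refine Integrable.mono h ?_ (Eventually.of_forall fun t => by rw [RCLike.norm_conj])
      exact (continuous_conj.comp (hcontF.comp continuous_neg)).aestronglyMeasurable
    refine h2.congr (Eventually.of_forall fun t => ?_)
    simp only
    rw [Gd_eq]
  have eG : (starRingEnd ℂ) (∫ t : ℝ, Fd d u c t) = ∫ t : ℝ, Gd d u c t := by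
    rw [← integral_conj, ← integral_neg_eq_self (fun t : ℝ => (starRingEnd ℂ) (Fd d u c t))]
    refine integral_congr_ae (Eventually.of_forall fun t => ?_)
    simp only
    rw [Gd_eq]
  have i12 : Integrable (fun t : ℝ => Fd d u c t * qd u (u + d) (c + I * t) +
      Gd d u c t * qd u (u + d) (c + I * t) * RR d u c t) := i1.add i2
  have i3 : Integrable (fun t : ℝ => Xd d u * Gd d u c t) := iG.const_mul _
  have i4 : Integrable (fun t : ℝ => Fd d u c t * qd u (u + d) (c + I * t) +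
      Gd d u c t * qd u (u + d) (c + I * t) * RR d u c t - Fd d u c t) := i12.sub i0
  rw [h1, e1, e2, eG, ← integral_const_mul, ← integral_add i1 i2, ← integral_sub i12 i0,
    ← integral_sub i4 i3]
  have hb : ∀ t : ℝ, ‖Fd d u c t * qd u (u + d) (c + I * t) +
      Gd d u c t * qd u (u + d) (c + I * t) * RR d u c t - Fd d u c t - Xd d u * Gd d u c t‖ ≤
      D * u ^ (c - 1) * Real.exp (-(1 / 2) * t ^ 2) := by
    intro t
    obtain ⟨hx1', hwx'⟩ := hx0 t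
    have hF' := hF t
    have hG' := hGl t
    have hr : ‖RR d u c t - Xd d u‖ ≤ C * (1 + |t|) ^ A / u := hR u t hud
    have hpe := poly_exp (A + 6) t
    obtain ⟨x, hx⟩ : ∃ x : ℝ, x = 1 + |t| := ⟨_, rfl⟩
    rw [← hx] at hx1' hwx' hF' hG' hr hpe
    have hq := qd_sub u (u + d) (1 + |d|) hu hv hk (c + I * t) x hx1' hwx'
    rw [← hQ] at hq
    have hqn : ‖qd u (u + d) (c + I * t)‖ ≤ (Q + 1) * x ^ 4 := by
      have h3 : qd u (u + d) (c + I * t) = (qd u (u + d) (c + I * t) - 1) + 1 := by ring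
      rw [h3]
      refine (norm_add_le _ _).trans ?_
      rw [norm_one]
      have h4 : Q * x ^ 4 / u ≤ Q * x ^ 4 := div_le_self (by positivity) hu
      have h5 : 1 ≤ x ^ 4 := one_le_pow₀ hx1'
      linarith
    obtain ⟨N0, hN0⟩ : ∃ N0 : ℝ, N0 = ZZ (1 / 2 + c) ^ 2 * u ^ c * Real.exp (c ^ 2 - t ^ 2) *
      (P * x ^ 2) / c := ⟨_, rfl⟩
    have hN00 : 0 ≤ N0 := by rw [hN0]; positivity
    rw [← hN0] at hF' hG'
    have e3 : Fd d u c t * qd u (u + d) (c + I * t) +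
      Gd d u c t * qd u (u + d) (c + I * t) * RR d u c t - Fd d u c t - Xd d u * Gd d u c t =
      Fd d u c t * (qd u (u + d) (c + I * t) - 1) + Gd d u c t * (qd u (u + d) (c + I * t) *
        (RR d u c t - Xd d u) + Xd d u * (qd u (u + d) (c + I * t) - 1)) := by ring
    rw [e3]
    have h6 : ‖qd u (u + d) (c + I * t) *
        (RR d u c t - Xd d u) + Xd d u * (qd u (u + d) (c + I * t) - 1)‖ ≤
        (Q + 1) * x ^ 4 * (C * x ^ A / u) + Q * x ^ 4 / u := by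
      refine (norm_add_le _ _).trans ?_
      rw [norm_mul, norm_mul, Xd_norm, one_mul]
      gcongr
    have h7 : x ^ 4 ≤ x ^ (A + 4) := pow_le_pow_right₀ hx1' (by omega)
    have h8 : ‖Fd d u c t * (qd u (u + d) (c + I * t) - 1) + Gd d u c t * (qd u (u + d) (c + I * t) *
        (RR d u c t - Xd d u) + Xd d u * (qd u (u + d) (c + I * t) - 1))‖ ≤
        N0 * ((2 * Q + (Q + 1) * C) * x ^ (A + 4) / u) := by
      refine (norm_add_le _ _).trans ?_
      rw [norm_mul, norm_mul]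
      calc ‖Fd d u c t‖ * ‖qd u (u + d) (c + I * t) - 1‖ + ‖Gd d u c t‖ *
          ‖qd u (u + d) (c + I * t) * (RR d u c t - Xd d u) +
            Xd d u * (qd u (u + d) (c + I * t) - 1)‖
          ≤ N0 * (Q * x ^ 4 / u) + N0 * ((Q + 1) * x ^ 4 * (C * x ^ A / u) + Q * x ^ 4 / u) := by
            gcongr
        _ = N0 * ((2 * Q * x ^ 4 + (Q + 1) * C * x ^ (A + 4)) / u) := by
            rw [pow_add]; ring
        _ ≤ N0 * ((2 * Q * x ^ (A + 4) + (Q + 1) * C * x ^ (A + 4)) / u) := by gcongr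
        _ = _ := by ring
    refine h8.trans ?_
    have hexp : Real.exp (c ^ 2 - t ^ 2) = Real.exp (c ^ 2) * Real.exp (-(1 / 2) * t ^ 2) *
        Real.exp (-(1 / 2) * t ^ 2) := by
      rw [← Real.exp_add, ← Real.exp_add]
      congr 1
      ring
    have hpw : u ^ c / u = u ^ (c - 1) := by
      rw [Real.rpow_sub hu0, Real.rpow_one]
    calc N0 * ((2 * Q + (Q + 1) * C) * x ^ (A + 4) / u)
        = (ZZ (1 / 2 + c) ^ 2 * Real.exp (c ^ 2) * P / c * (2 * Q + (Q + 1) * C) * u ^ (c - 1) *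
          Real.exp (-(1 / 2) * t ^ 2)) * (x ^ (A + 6) * Real.exp (-(1 / 2) * t ^ 2)) := by
          rw [hN0, hexp, ← hpw, show A + 6 = (A + 4) + 2 by ring, pow_add x (A + 4) 2]; ring
      _ ≤ (ZZ (1 / 2 + c) ^ 2 * Real.exp (c ^ 2) * P / c * (2 * Q + (Q + 1) * C) * u ^ (c - 1) *
          Real.exp (-(1 / 2) * t ^ 2)) * ((A + 6).factorial * Real.exp (3 / 2)) := by
          gcongr
      _ = D * u ^ (c - 1) * Real.exp (-(1 / 2) * t ^ 2) := by rw [hD]; ring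
  have h8 := norm_integral_le_of_norm_le (hgi.const_mul (D * u ^ (c - 1)))
    (Eventually.of_forall hb)
  refine h8.trans ?_
  rw [integral_const_mul, ← hG]
  have hup : 0 ≤ u ^ (c - 1) := by positivity
  nlinarith

end Pool.Agent.T2H54.TP
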