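import Pool.Agent.T2H54.TP.Stm
import Pool.Agent.Y891.GP.AFE

set_option autoImplicit false

/-!
Project TP, package AFB: from the integral to the Dirichlet polynomial.
-/

namespace Pool.Agent.T2H54.TP

open Complex Filter Topology MeasureTheory Set
open Pool.Agent.Y969.GP (ht lam PS)
open Pool.Agent.Y891.GP (Ft Ft_zero Ft_norm Ft_eq ZZ ZZ_nonneg norm_term line_ne)

namespace AFB

noncomputable section

/-- the polynomial factor -/
def pf (d c t : ℝ) : ℂ := 1 + 4 * (c + I * t) ^ 2 / (d : ℂ) ^ 2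

/-- term of the double series -/
def Gt (d u c : ℝ) (p : ℕ × ℕ) (t : ℝ) : ℂ := (p.2 : ℂ) ^ (I * (d : ℂ)) * (Ft u c p t * pf d c t)

lemma pf_norm (d c t : ℝ) (hd : d ≠ 0) :
    ‖pf d c t‖ ≤ (1 + 4 * (c ^ 2 + 1) / d ^ 2) * (4 * Real.exp (t ^ 2 / 4)) := by
  have hd2 : 0 < d ^ 2 := by positivity
  have h1 : ‖((c : ℂ) + I * t) ^ 2‖ = c ^ 2 + t ^ 2 := by
    rw [norm_pow, ← Complex.normSq_eq_norm_sq, Complex.normSq_apply]
    simp
    ring
  have h2 : ‖pf d c t‖ ≤ 1 + 4 * (c ^ 2 + t ^ 2) / d ^ 2 := by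
    unfold pf
    refine (norm_add_le _ _).trans ?_
    rw [norm_one, norm_div, norm_mul, h1, norm_pow, norm_real, Real.norm_eq_abs, sq_abs]
    simp
  have h3 := Real.add_one_le_exp (t ^ 2 / 4)
  have h4 : (1 : ℝ) + t ^ 2 ≤ 4 * Real.exp (t ^ 2 / 4) := by linarith
  have h5 : 1 + 4 * (c ^ 2 + t ^ 2) / d ^ 2 ≤ (1 + 4 * (c ^ 2 + 1) / d ^ 2) * (1 + t ^ 2) := by
    have e : (1 + 4 * (c ^ 2 + 1) / d ^ 2) * (1 + t ^ 2) - (1 + 4 * (c ^ 2 + t ^ 2) / d ^ 2) =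
        t ^ 2 + 4 * (1 + c ^ 2 * t ^ 2) / d ^ 2 := by
      field_simp
      ring
    have e2 : 0 ≤ t ^ 2 + 4 * (1 + c ^ 2 * t ^ 2) / d ^ 2 := by positivity
    linarith
  exact (h2.trans h5).trans (mul_le_mul_of_nonneg_left h4 (by positivity))

lemma cpow_norm (d : ℝ) (n : ℕ) : ‖(n : ℂ) ^ (I * (d : ℂ))‖ ≤ 1 := by
  rcases Nat.eq_zero_or_pos n with h | h
  · subst h
    by_cases h2 : I * (d : ℂ) = 0
    · rw [h2, cpow_zero, norm_one]
    · rw [Nat.cast_zero, zero_cpow h2, norm_zero]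
      exact zero_le_one
  · rw [Complex.norm_natCast_cpow_of_pos h]
    simp

lemma Gt_norm (d u c t : ℝ) (hd : d ≠ 0) (hu : 1 ≤ u) (hc : 0 < c) (p : ℕ × ℕ) :
    ‖Gt d u c p t‖ ≤ (1 / (p.1 : ℝ) ^ (1 / 2 + c)) * (1 / (p.2 : ℝ) ^ (1 / 2 + c)) *
      (Real.exp (c ^ 2) * u ^ c / c * (1 + 4 * (c ^ 2 + 1) / d ^ 2) * 4 *
        Real.exp (-(1 / 4) * t ^ 2)) := by
  unfold Gt
  rw [norm_mul, norm_mul]
  have h1 := Ft_norm u c t hu hc p
  have h2 := pf_norm d c t hd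
  have h3 := cpow_norm d p.2
  have e : Real.exp (-(1 / 2) * t ^ 2) * Real.exp (t ^ 2 / 4) = Real.exp (-(1 / 4) * t ^ 2) := by
    rw [← Real.exp_add]
    congr 1
    ring
  calc ‖(p.2 : ℂ) ^ (I * (d : ℂ))‖ * (‖Ft u c p t‖ * ‖pf d c t‖)
      ≤ 1 * (((1 / (p.1 : ℝ) ^ (1 / 2 + c)) * (1 / (p.2 : ℝ) ^ (1 / 2 + c)) *
      (Real.exp (c ^ 2) * u ^ c / c * Real.exp (-(1 / 2) * t ^ 2))) *
        ((1 + 4 * (c ^ 2 + 1) / d ^ 2) * (4 * Real.exp (t ^ 2 / 4)))) := by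
        refine mul_le_mul h3 (mul_le_mul h1 h2 (norm_nonneg _) (by positivity)) (by positivity)
          zero_le_one
    _ = (1 / (p.1 : ℝ) ^ (1 / 2 + c)) * (1 / (p.2 : ℝ) ^ (1 / 2 + c)) *
      (Real.exp (c ^ 2) * u ^ c / c * (1 + 4 * (c ^ 2 + 1) / d ^ 2) * 4 *
        (Real.exp (-(1 / 2) * t ^ 2) * Real.exp (t ^ 2 / 4))) := by ring
    _ = _ := by rw [e]

lemma Gt_zero (d u c : ℝ) (hc : 0 < c) (p : ℕ × ℕ) (hp : p.1 = 0 ∨ p.2 = 0) (t : ℝ) :
    Gt d u c p t = 0 := by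
  unfold Gt
  rw [Ft_zero u c hc p hp t, zero_mul, mul_zero]

lemma Gt_tsum (d u c t : ℝ) (hc : 1 / 2 < c) : ∑' p : ℕ × ℕ, Gt d u c p t = Fd d u c t := by
  have e1 : (1 / 2 + I * u + (c + I * t) : ℂ).re = 1 / 2 + c := by simp
  have e2 : (1 / 2 - I * ((u + d : ℝ) : ℂ) + (c + I * t) : ℂ).re = 1 / 2 + c := by simp
  have h1 : 1 < (1 / 2 + I * u + (c + I * t) : ℂ).re := by rw [e1]; linarith
  have h2 : 1 < (1 / 2 - I * ((u + d : ℝ) : ℂ) + (c + I * t) : ℂ).re := by rw [e2]; linarith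
  have s1 := (Complex.summable_one_div_nat_cpow.2 h1).norm
  have s2 := (Complex.summable_one_div_nat_cpow.2 h2).norm
  have hG : ∀ p : ℕ × ℕ, Gt d u c p t = (1 / (p.1 : ℂ) ^ (1 / 2 + I * u + (c + I * t))) *
      (1 / (p.2 : ℂ) ^ (1 / 2 - I * ((u + d : ℝ) : ℂ) + (c + I * t))) *
      (cexp ((c + I * t) ^ 2) * cexp ((c + I * t) * (Real.log (u / (2 * Real.pi)) : ℝ)) /
        (c + I * t) * pf d c t) := by
    intro p
    unfold Gt Ft
    rcases Nat.eq_zero_or_pos p.2 with h | h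
    · have g1 : (1 / 2 - I * u + (c + I * t) : ℂ) ≠ 0 := by
        intro h
        have := congrArg Complex.re h
        simp at this
        linarith
      have g2 : (1 / 2 - I * ((u + d : ℝ) : ℂ) + (c + I * t) : ℂ) ≠ 0 := by
        intro h
        have := congrArg Complex.re h
        rw [e2, zero_re] at this
        linarith
      rw [h, Nat.cast_zero, Complex.zero_cpow g1, Complex.zero_cpow g2]
      simp
    · have hc2 : ((p.2 : ℕ) : ℂ) ≠ 0 := by exact_mod_cast h.ne'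
      have e3 : (p.2 : ℂ) ^ (I * (d : ℂ)) * (1 / (p.2 : ℂ) ^ (1 / 2 - I * u + (c + I * t))) =
          1 / (p.2 : ℂ) ^ (1 / 2 - I * ((u + d : ℝ) : ℂ) + (c + I * t)) := by
        rw [one_div ((p.2 : ℂ) ^ _), one_div ((p.2 : ℂ) ^ _), ← Complex.cpow_neg,
          ← Complex.cpow_neg, ← Complex.cpow_add _ _ hc2]
        congr 1
        push_cast
        ring
      rw [← e3]
      ring
  simp only [hG]
  rw [tsum_mul_right, ← tsum_mul_tsum_of_summable_norm s1 s2, ← zeta_eq_tsum_one_div_nat_cpow h1,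
    ← zeta_eq_tsum_one_div_nat_cpow h2]
  unfold Fd pf
  ring

lemma Gt_eq (d u c t : ℝ) (hu : 0 < u) (p : ℕ × ℕ) (h1 : p.1 ≠ 0) (h2 : p.2 ≠ 0) :
    Gt d u c p t = ((p.2 : ℂ) ^ (I * (d : ℂ)) * ((((√(ht p))⁻¹ : ℝ) : ℂ) *
      cexp (I * ((u * lam p : ℝ) : ℂ)))) *
      (cexp (-((c + I * t) * (Real.log (2 * Real.pi * ht p / u) : ℝ))) *
        cexp ((c + I * t) ^ 2) * (1 + 4 * (c + I * t) ^ 2 / (d : ℂ) ^ 2) / (c + I * t)) := by
  unfold Gt
  rw [Ft_eq u c t hu p h1 h2]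
  unfold pf
  ring

lemma Gt_int (d u c : ℝ) (hd : d ≠ 0) (hu : 1 ≤ u) (hc : 0 < c) (p : ℕ × ℕ) :
    Integrable (Gt d u c p) := by
  by_cases hp : p.1 = 0 ∨ p.2 = 0
  · have : Gt d u c p = fun _ => 0 := funext fun t => Gt_zero d u c hc p hp t
    rw [this]
    exact integrable_zero _ _ _
  · push Not at hp
    have hcont : Continuous (Gt d u c p) := by
      have e : Gt d u c p = fun t : ℝ => ((p.2 : ℂ) ^ (I * (d : ℂ)) * ((((√(ht p))⁻¹ : ℝ) : ℂ) *
          cexp (I * ((u * lam p : ℝ) : ℂ)))) *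
          (cexp (-((c + I * t) * (Real.log (2 * Real.pi * ht p / u) : ℝ))) *
          cexp ((c + I * t) ^ 2) * (1 + 4 * (c + I * t) ^ 2 / (d : ℂ) ^ 2) / (c + I * t)) :=
        funext fun t => Gt_eq d u c t (by linarith) p hp.1 hp.2
      rw [e]
      exact continuous_const.mul (Continuous.div (by fun_prop) (by fun_prop)
        (fun t => line_ne c hc t))
    exact Integrable.mono' (((integrable_exp_neg_mul_sq
      (show (0 : ℝ) < 1 / 4 by norm_num)).const_mul _).const_mul _)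
      hcont.aestronglyMeasurable (Eventually.of_forall fun t => Gt_norm d u c t hd hu hc p)

/-- the terms of the series -/
def TT (d u : ℝ) (p : ℕ × ℕ) : ℂ :=
  (cW d p u : ℂ) * (p.2 : ℂ) ^ (I * (d : ℂ)) * cexp (I * ((u * lam p : ℝ) : ℂ))

lemma cW_zero (d u : ℝ) (p : ℕ × ℕ) (hp : p.1 = 0 ∨ p.2 = 0) : cW d p u = 0 := by
  have h0 : ht p = 0 := by
    unfold Pool.Agent.Y969.GP.ht
    rcases hp with h | h <;> rw [h] <;> simp
  unfold cW
  rw [h0, Real.sqrt_zero, inv_zero, zero_mul]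

lemma Gt_val (hWD : S_WD) (d u c : ℝ) (hd : d ≠ 0) (hu : 1 ≤ u) (hc : 0 < c) (p : ℕ × ℕ) :
    ∫ t : ℝ, Gt d u c p t = (2 * Real.pi : ℂ) * TT d u p := by
  by_cases hp : p.1 = 0 ∨ p.2 = 0
  · unfold TT
    rw [cW_zero d u p hp]
    simp [Gt_zero d u c hc p hp]
  · push Not at hp
    have hu0 : 0 < u := by linarith
    have hpi := Real.pi_pos
    have m0 : (0 : ℝ) < p.1 := by exact_mod_cast Nat.pos_of_ne_zero hp.1
    have k0 : (0 : ℝ) < p.2 := by exact_mod_cast Nat.pos_of_ne_zero hp.2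
    have hh : 0 < ht p := by unfold Pool.Agent.Y969.GP.ht; positivity
    have h7 := (hWD d hd).2.2.2 c (2 * Real.pi * ht p / u) hc (by positivity)
    simp only [Gt_eq d u c _ hu0 p hp.1 hp.2]
    rw [integral_const_mul]
    have h8 : (∫ t : ℝ, cexp (-((c + I * t) * (Real.log (2 * Real.pi * ht p / u) : ℝ))) *
        cexp ((c + I * t) ^ 2) * (1 + 4 * (c + I * t) ^ 2 / (d : ℂ) ^ 2) / (c + I * t)) =
        ((2 * Real.pi : ℝ) : ℂ) * ((Wd d (2 * Real.pi * ht p / u) : ℝ) : ℂ) := by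
      rw [h7, ← mul_assoc, mul_inv_cancel₀, one_mul]
      exact_mod_cast (by positivity : (2 * Real.pi : ℝ) ≠ 0)
    rw [h8]
    unfold TT cW
    push_cast
    ring

lemma partC (hWD : S_WD) (d u c : ℝ) (hd : d ≠ 0) (hu : 1 ≤ u) (hc : 1 / 2 < c) :
    HasSum (TT d u) ((2 * Real.pi : ℂ)⁻¹ * ∫ t : ℝ, Fd d u c t) := by
  have hc0 : 0 < c := by linarith
  have hs : Summable fun n : ℕ => 1 / (n : ℝ) ^ (1 / 2 + c) :=
    Real.summable_one_div_nat_rpow.2 (by linarith)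
  obtain ⟨G, hG⟩ : ∃ G : ℝ, G = ∫ t : ℝ, Real.exp (c ^ 2) * u ^ c / c *
    (1 + 4 * (c ^ 2 + 1) / d ^ 2) * 4 * Real.exp (-(1 / 4) * t ^ 2) := ⟨_, rfl⟩
  have hgi : Integrable (fun t : ℝ => Real.exp (c ^ 2) * u ^ c / c *
      (1 + 4 * (c ^ 2 + 1) / d ^ 2) * 4 * Real.exp (-(1 / 4) * t ^ 2)) :=
    (integrable_exp_neg_mul_sq (show (0 : ℝ) < 1 / 4 by norm_num)).const_mul _
  have h1 := hasSum_integral_of_summable_integral_norm (fun p => Gt_int d u c hd hu hc0 p) (by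
    refine Summable.of_nonneg_of_le (fun p => integral_nonneg fun t => norm_nonneg _)
      (fun p => ?_) ((hs.mul_of_nonneg hs (fun n => by positivity)
        (fun n => by positivity)).mul_right G)
    calc ∫ t : ℝ, ‖Gt d u c p t‖ ≤ ∫ t : ℝ, (1 / (p.1 : ℝ) ^ (1 / 2 + c)) *
          (1 / (p.2 : ℝ) ^ (1 / 2 + c)) *
          (Real.exp (c ^ 2) * u ^ c / c * (1 + 4 * (c ^ 2 + 1) / d ^ 2) * 4 *
            Real.exp (-(1 / 4) * t ^ 2)) :=
          integral_mono (Gt_int d u c hd hu hc0 p).norm (hgi.const_mul _)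
            (fun t => Gt_norm d u c t hd hu hc0 p)
      _ = (1 / (p.1 : ℝ) ^ (1 / 2 + c)) * (1 / (p.2 : ℝ) ^ (1 / 2 + c)) * G := by
          rw [integral_const_mul, hG])
  simp only [Gt_tsum d u c _ hc, Gt_val hWD d u c hd hu hc0] at h1
  have h2 := h1.mul_left (2 * Real.pi : ℂ)⁻¹
  have hpi : (2 * Real.pi : ℂ) ≠ 0 := by
    exact_mod_cast (by positivity : (2 * Real.pi : ℝ) ≠ 0)
  have h3 : (fun p : ℕ × ℕ => (2 * Real.pi : ℂ)⁻¹ * ((2 * Real.pi : ℂ) * TT d u p)) = TT d u := by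
    funext p
    rw [inv_mul_cancel_left₀ hpi]
  rwa [h3] at h2

lemma TT_norm (d u : ℝ) (p : ℕ × ℕ) : ‖TT d u p‖ ≤ |cW d p u| := by
  unfold TT
  rw [norm_mul, norm_mul, norm_real, Real.norm_eq_abs, norm_exp]
  have e : (I * ((u * lam p : ℝ) : ℂ)).re = 0 := by simp
  rw [e, Real.exp_zero, mul_one]
  calc |cW d p u| * ‖(p.2 : ℂ) ^ (I * (d : ℂ))‖ ≤ |cW d p u| * 1 :=
        mul_le_mul_of_nonneg_left (cpow_norm d p.2) (abs_nonneg _)
    _ = _ := mul_one _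

/-- truncation -/
lemma partD (hWD : S_WD) (d ε : ℝ) (hd : d ≠ 0) (hε : 0 < ε) (hε' : ε ≤ 1 / 4) :
    ∃ D : ℝ, 0 < D ∧ ∀ (u : ℝ) (X : ℕ) (S : ℂ), 1 ≤ u → u ^ (1 + ε) ≤ X → HasSum (TT d u) S →
      ‖S - ∑ p ∈ PS X, TT d u p‖ ≤ D * u ^ (-(1 / 2) + ε) := by
  obtain ⟨A, hA⟩ : ∃ A : ℝ, A = 3 / (2 * ε) := ⟨_, rfl⟩
  have hA1 : 1 ≤ A := by
    rw [hA, le_div_iff₀ (by positivity)]
    linarith
  have hAε : ε * A = 3 / 2 := by rw [hA]; field_simp
  obtain ⟨C, hC, hVC⟩ := (hWD d hd).2.2.1 A (by linarith)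
  have hZ := ZZ_nonneg (3 / 2)
  refine ⟨C * ZZ (3 / 2) ^ 2 + 1, by positivity, fun u X S hu hX hS => ?_⟩
  have hu0 : 0 < u := by linarith
  have hX1 : (1 : ℝ) ≤ X := le_trans (Real.one_le_rpow hu (by linarith)) hX
  have hX0 : (0 : ℝ) < X := by linarith
  have h1 : HasSum (fun p => if p ∈ PS X then TT d u p else 0) (∑ p ∈ PS X, TT d u p) := by
    have h : HasSum (fun p => if p ∈ PS X then TT d u p else 0)
        (∑ p ∈ PS X, if p ∈ PS X then TT d u p else 0) :=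
      hasSum_sum_of_ne_finset_zero (fun p hp => if_neg hp)
    have e : ∑ p ∈ PS X, (if p ∈ PS X then TT d u p else 0) = ∑ p ∈ PS X, TT d u p :=
      Finset.sum_congr rfl fun p hp => if_pos hp
    rwa [e] at h
  have h2 := hS.sub h1
  rw [← h2.tsum_eq]
  have hs : Summable fun n : ℕ => 1 / (n : ℝ) ^ (3 / 2 : ℝ) :=
    Real.summable_one_div_nat_rpow.2 (by norm_num)
  have hs2 : HasSum (fun p : ℕ × ℕ => (1 / (p.1 : ℝ) ^ (3 / 2 : ℝ)) *
      (1 / (p.2 : ℝ) ^ (3 / 2 : ℝ))) (ZZ (3 / 2) * ZZ (3 / 2)) := by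
    have h := (hs.mul_of_nonneg hs (fun n => by positivity) (fun n => by positivity))
    have h4 := hs.tsum_mul_tsum hs h
    unfold Pool.Agent.Y891.GP.ZZ
    rw [h4]
    exact h.hasSum
  obtain ⟨W, hW⟩ : ∃ W : ℝ, W = C * (u ^ A * (X : ℝ) ^ (-(A - 1))) := ⟨_, rfl⟩
  have h5 := tsum_of_norm_bounded (f := fun p => TT d u p - if p ∈ PS X then TT d u p else 0)
    (hs2.mul_left W) (fun p => by
      by_cases hp : p ∈ PS X
      · rw [if_pos hp, sub_self, norm_zero, hW]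
        positivity
      · rw [if_neg hp, sub_zero]
        refine (TT_norm d u p).trans ?_
        by_cases h0 : p.1 = 0 ∨ p.2 = 0
        · rw [cW_zero d u p h0, abs_zero, hW]
          positivity
        · push Not at h0
          have m1 : 1 ≤ p.1 := Nat.one_le_iff_ne_zero.2 h0.1
          have k1 : 1 ≤ p.2 := Nat.one_le_iff_ne_zero.2 h0.2
          have m0 : (0 : ℝ) < p.1 := by exact_mod_cast m1
          have k0 : (0 : ℝ) < p.2 := by exact_mod_cast k1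
          have hh : 0 < ht p := by unfold Pool.Agent.Y969.GP.ht; positivity
          have hbig : (X : ℝ) ≤ ht p := by
            have h6 : X ≤ p.1 * p.2 := by
              by_contra hcon
              push Not at hcon
              apply hp
              unfold Pool.Agent.Y969.GP.PS
              rw [Finset.mem_filter, Finset.mem_product, Finset.mem_Icc, Finset.mem_Icc]
              refine ⟨⟨⟨m1, ?_⟩, ⟨k1, ?_⟩⟩, hcon.le⟩
              · exact (Nat.le_mul_of_pos_right _ k1).trans hcon.le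
              · exact (Nat.le_mul_of_pos_left _ m1).trans hcon.le
            unfold Pool.Agent.Y969.GP.ht
            exact_mod_cast h6
          have hpi := Real.pi_gt_three
          have hx0 : 0 < 2 * Real.pi * ht p / u := by positivity
          have hV2 := hVC _ hx0
          have hco : |cW d p u| = (√(ht p))⁻¹ * |Wd d (2 * Real.pi * ht p / u)| := by
            unfold cW
            rw [abs_mul, abs_of_nonneg (by positivity)]
          have hxle : (2 * Real.pi * ht p / u) ^ (-A) ≤ (ht p / u) ^ (-A) := by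
            apply Real.rpow_le_rpow_of_nonpos (by positivity) _ (by linarith)
            apply div_le_div_of_nonneg_right _ hu0.le
            nlinarith
          have e2 : (ht p / u) ^ (-A) = ht p ^ (-A) * u ^ A := by
            rw [Real.div_rpow hh.le hu0.le, Real.rpow_neg hu0.le, div_inv_eq_mul]
          have e3 : (√(ht p))⁻¹ = ht p ^ (-(1 / 2) : ℝ) := by
            rw [Real.sqrt_eq_rpow, ← Real.rpow_neg hh.le]
          have e4 : ht p ^ (-(1 / 2) : ℝ) * ht p ^ (-A) =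
              ht p ^ (-(3 / 2) : ℝ) * ht p ^ (-(A - 1)) := by
            rw [← Real.rpow_add hh, ← Real.rpow_add hh]
            congr 1
            ring
          have e5 : ht p ^ (-(A - 1)) ≤ (X : ℝ) ^ (-(A - 1)) :=
            Real.rpow_le_rpow_of_nonpos hX0 hbig (by linarith)
          have e6 : ht p ^ (-(3 / 2) : ℝ) = (1 / (p.1 : ℝ) ^ (3 / 2 : ℝ)) *
              (1 / (p.2 : ℝ) ^ (3 / 2 : ℝ)) := by
            unfold Pool.Agent.Y969.GP.ht
            rw [Real.rpow_neg (by positivity), Real.mul_rpow m0.le k0.le]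
            field_simp
          rw [hco]
          calc (√(ht p))⁻¹ * |Wd d (2 * Real.pi * ht p / u)|
              ≤ (√(ht p))⁻¹ * (C * (ht p / u) ^ (-A)) := by
                gcongr
                exact hV2.trans (by gcongr)
            _ = C * u ^ A * (ht p ^ (-(1 / 2) : ℝ) * ht p ^ (-A)) := by
                rw [e2, e3]; ring
            _ = C * u ^ A * (ht p ^ (-(3 / 2) : ℝ) * ht p ^ (-(A - 1))) := by rw [e4]
            _ ≤ C * u ^ A * (ht p ^ (-(3 / 2) : ℝ) * (X : ℝ) ^ (-(A - 1))) := by gcongr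
            _ = W * ((1 / (p.1 : ℝ) ^ (3 / 2 : ℝ)) * (1 / (p.2 : ℝ) ^ (3 / 2 : ℝ))) := by
                rw [e6, hW]; ring)
  refine h5.trans ?_
  have h6 : u ^ A * (X : ℝ) ^ (-(A - 1)) ≤ u ^ (-(1 / 2) + ε) := by
    have h7 : (X : ℝ) ^ (-(A - 1)) ≤ (u ^ (1 + ε)) ^ (-(A - 1)) :=
      Real.rpow_le_rpow_of_nonpos (by positivity) hX (by linarith)
    calc u ^ A * (X : ℝ) ^ (-(A - 1)) ≤ u ^ A * (u ^ (1 + ε)) ^ (-(A - 1)) := by gcongr
      _ = u ^ (A + (1 + ε) * (-(A - 1))) := by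
          rw [← Real.rpow_mul hu0.le, ← Real.rpow_add hu0]
      _ = u ^ (-(1 / 2) + ε) := by
          congr 1
          nlinarith
  have h8 : 0 ≤ u ^ (-(1 / 2) + ε) := by positivity
  rw [hW]
  calc C * (u ^ A * (X : ℝ) ^ (-(A - 1))) * (ZZ (3 / 2) * ZZ (3 / 2))
      ≤ C * (u ^ (-(1 / 2) + ε)) * (ZZ (3 / 2) * ZZ (3 / 2)) := by gcongr
    _ ≤ (C * ZZ (3 / 2) ^ 2 + 1) * u ^ (-(1 / 2) + ε) := by nlinarith

end

end AFB

theorem t_AFB (hWD : S_WD) : S_AFB := by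
  intro d ε hd hε hε'
  obtain ⟨D, hD, h⟩ := AFB.partD hWD d ε hd hε hε'
  refine ⟨D, hD, fun u X hu hX => ?_⟩
  exact h u X _ hu hX (AFB.partC hWD d u (1 / 2 + ε) hd hu (by linarith))

end Pool.Agent.T2H54.TP
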