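import Pool.Agent.T2H54.TP.Stm

set_option autoImplicit false

namespace Pool.Agent.T2H54.TP

open Complex Filter Topology MeasureTheory Set
open Pool.Agent.TH612.CF Pool.Agent.TH612.GS Pool.Agent.T2H54.SB
open Pool.Agent.Y969.GP (V ht lam PS FR)

noncomputable section

lemma AFD_X (d u : ℝ) : ‖Xd d u‖ = 1 := by
  unfold Xd
  rw [norm_mul]
  have h1 : ‖chi (1 / 2 + I * (u : ℂ))‖ = 1 := norm_chi u
  have h2 : ‖chi (1 / 2 - I * ((u + d : ℝ) : ℂ))‖ = 1 := by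
    have h := norm_chi (-(u + d))
    rw [show (1 / 2 - I * ((u + d : ℝ) : ℂ)) = 1 / 2 + I * ((-(u + d) : ℝ) : ℂ) by
      push_cast; ring]
    exact h
  rw [h1, h2, one_mul]

/-- the swap of the pairs -/
lemma AFD_swap (X : ℕ) (f : ℕ × ℕ → ℂ) : ∑ p ∈ PS X, f p = ∑ p ∈ PS X, f p.swap := by
  refine Finset.sum_bij' (fun p _ => p.swap) (fun p _ => p.swap) ?_ ?_ ?_ ?_ ?_
  · intro p hp
    simp only [PS, Finset.mem_filter, Finset.mem_product, Finset.mem_Icc, Prod.fst_swap,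
      Prod.snd_swap] at hp ⊢
    exact ⟨⟨hp.1.2, hp.1.1⟩, by rw [mul_comm]; exact hp.2⟩
  · intro p hp
    simp only [PS, Finset.mem_filter, Finset.mem_product, Finset.mem_Icc, Prod.fst_swap,
      Prod.snd_swap] at hp ⊢
    exact ⟨⟨hp.1.2, hp.1.1⟩, by rw [mul_comm]; exact hp.2⟩
  · intro p _; exact Prod.swap_swap p
  · intro p _; exact Prod.swap_swap p
  · intro p _; rw [Prod.swap_swap]

lemma AFD_term (d u : ℝ) (p : ℕ × ℕ) (hp : 1 ≤ p.1) :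
    (starRingEnd ℂ) ((cW d p.swap u : ℂ) * (p.swap.2 : ℂ) ^ (I * (d : ℂ)) *
      cexp (I * ((u * lam p.swap : ℝ) : ℂ))) =
    (cW d p u : ℂ) * (p.1 : ℂ) ^ (-(I * (d : ℂ))) * cexp (I * ((u * lam p : ℝ) : ℂ)) := by
  have h1 : cW d p.swap u = cW d p u := by
    unfold cW ht
    simp only [Prod.fst_swap, Prod.snd_swap]
    rw [mul_comm (p.2 : ℝ) (p.1 : ℝ)]
  have h2 : lam p.swap = - lam p := by
    unfold lam
    simp only [Prod.fst_swap, Prod.snd_swap]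
    ring
  rw [map_mul, map_mul, conj_ofReal, h1, h2]
  congr 1
  · congr 1
    simp only [Prod.snd_swap]
    have hp0 : (p.1 : ℂ) ≠ 0 := by
      have : p.1 ≠ 0 := by omega
      exact_mod_cast this
    have hl : (starRingEnd ℂ) (Complex.log (p.1 : ℂ)) = Complex.log (p.1 : ℂ) := by
      rw [← Complex.natCast_log, conj_ofReal]
    rw [cpow_def_of_ne_zero hp0, cpow_def_of_ne_zero hp0, ← exp_conj]
    congr 1
    rw [map_mul, map_mul, hl, conj_I, conj_ofReal]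
    ring
  · rw [← exp_conj, map_mul, conj_I, conj_ofReal]
    congr 1
    push_cast; ring

theorem t_AFD (hA : S_AFA) (hB : S_AFB) : S_AFD := by
  intro d ε hd hε
  set e : ℝ := min ε (1 / 4) with he
  have he0 : 0 < e := lt_min hε (by norm_num)
  have he4 : e ≤ 1 / 4 := min_le_right _ _
  have heε : e ≤ ε := min_le_left _ _
  obtain ⟨C₁, hC₁, hA'⟩ := hA d (1 / 2 + e) hd (by linarith) (by linarith)
  obtain ⟨C₂, hC₂, hB'⟩ := hB d e hd he0 he4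
  refine ⟨C₁ + 2 * C₂, by positivity, ?_⟩
  intro u X hu hX
  have hu1 : 1 ≤ u := by linarith [abs_nonneg d]
  have hu0 : 0 < u := by linarith
  have hX' : u ^ (1 + e) ≤ X :=
    (Real.rpow_le_rpow_of_exponent_le hu1 (by linarith)).trans hX
  have h1 := hA' u hu
  have h2 := hB' u X hu1 hX'
  set J : ℂ := ∫ t : ℝ, Fd d u (1 / 2 + e) t with hJ
  set S : ℂ := ∑ p ∈ PS X, (cW d p u : ℂ) * (p.2 : ℂ) ^ (I * (d : ℂ)) *
    cexp (I * ((u * lam p : ℝ) : ℂ)) with hS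
  have hpi : (0 : ℝ) < 2 * Real.pi := by positivity
  have hpi1 : (1 : ℝ) ≤ 2 * Real.pi := by linarith [Real.pi_gt_three]
  have hpic : (2 * Real.pi : ℂ) ≠ 0 := by
    have : ((2 * Real.pi : ℝ) : ℂ) ≠ 0 := by exact_mod_cast hpi.ne'
    simpa using this
  have hcS : (starRingEnd ℂ) S = ∑ p ∈ PS X, (cW d p u : ℂ) * (p.1 : ℂ) ^ (-(I * (d : ℂ))) *
      cexp (I * ((u * lam p : ℝ) : ℂ)) := by
    rw [hS, AFD_swap, map_sum]
    refine Finset.sum_congr rfl fun p hp => ?_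
    apply AFD_term
    simp only [PS, Finset.mem_filter, Finset.mem_product, Finset.mem_Icc] at hp
    exact hp.1.1.1
  have hsum : ∑ p ∈ PS X, (cW d p u : ℂ) * ((p.2 : ℂ) ^ (I * (d : ℂ)) +
      Xd d u * (p.1 : ℂ) ^ (-(I * (d : ℂ)))) * cexp (I * ((u * lam p : ℝ) : ℂ)) =
      S + Xd d u * (starRingEnd ℂ) S := by
    rw [hcS, hS, Finset.mul_sum, ← Finset.sum_add_distrib]
    refine Finset.sum_congr rfl fun p _ => ?_
    ring
  rw [hsum]
  have hdec : Pd d u - (S + Xd d u * (starRingEnd ℂ) S) =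
      (2 * Real.pi : ℂ)⁻¹ * (2 * Real.pi * Pd d u - J - Xd d u * (starRingEnd ℂ) J) +
      ((2 * Real.pi : ℂ)⁻¹ * J - S) +
      Xd d u * (starRingEnd ℂ) ((2 * Real.pi : ℂ)⁻¹ * J - S) := by
    have hc : (starRingEnd ℂ) ((2 * Real.pi : ℂ)⁻¹) = (2 * Real.pi : ℂ)⁻¹ := by
      have e1 : (2 * Real.pi : ℂ)⁻¹ = (((2 * Real.pi)⁻¹ : ℝ) : ℂ) := by push_cast; rfl
      rw [e1, conj_ofReal]
    rw [map_sub, map_mul, hc]
    field_simp
    ring
  rw [hdec]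
  have hexp : (1 / 2 + e : ℝ) - 1 = -(1 / 2) + e := by ring
  rw [hexp] at h1
  have hpow : u ^ (-(1 / 2) + e) ≤ u ^ (-(1 / 2) + ε) :=
    Real.rpow_le_rpow_of_exponent_le hu1 (by linarith)
  have n1 : ‖(2 * Real.pi : ℂ)⁻¹ * (2 * Real.pi * Pd d u - J - Xd d u * (starRingEnd ℂ) J)‖ ≤
      C₁ * u ^ (-(1 / 2) + e) := by
    rw [norm_mul, norm_inv]
    have h3 : ‖(2 * Real.pi : ℂ)‖ = 2 * Real.pi := by
      have : (2 * Real.pi : ℂ) = ((2 * Real.pi : ℝ) : ℂ) := by push_cast; rfl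
      rw [this, Complex.norm_real, Real.norm_of_nonneg hpi.le]
    rw [h3]
    have h4 : (2 * Real.pi)⁻¹ ≤ 1 := inv_le_one_of_one_le₀ hpi1
    calc (2 * Real.pi)⁻¹ * ‖2 * Real.pi * Pd d u - J - Xd d u * (starRingEnd ℂ) J‖
        ≤ 1 * ‖2 * Real.pi * Pd d u - J - Xd d u * (starRingEnd ℂ) J‖ :=
          mul_le_mul_of_nonneg_right h4 (norm_nonneg _)
      _ = ‖2 * Real.pi * Pd d u - J - Xd d u * (starRingEnd ℂ) J‖ := one_mul _
      _ ≤ _ := h1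
  have n3 : ‖Xd d u * (starRingEnd ℂ) ((2 * Real.pi : ℂ)⁻¹ * J - S)‖ ≤
      C₂ * u ^ (-(1 / 2) + e) := by
    rw [norm_mul, AFD_X, one_mul, RCLike.norm_conj]
    exact h2
  calc _ ≤ ‖(2 * Real.pi : ℂ)⁻¹ * (2 * Real.pi * Pd d u - J - Xd d u * (starRingEnd ℂ) J)‖ +
      ‖(2 * Real.pi : ℂ)⁻¹ * J - S‖ +
      ‖Xd d u * (starRingEnd ℂ) ((2 * Real.pi : ℂ)⁻¹ * J - S)‖ := norm_add₃_le
    _ ≤ C₁ * u ^ (-(1 / 2) + e) + C₂ * u ^ (-(1 / 2) + e) + C₂ * u ^ (-(1 / 2) + e) := by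
        linarith
    _ = (C₁ + 2 * C₂) * u ^ (-(1 / 2) + e) := by ring
    _ ≤ (C₁ + 2 * C₂) * u ^ (-(1 / 2) + ε) :=
        mul_le_mul_of_nonneg_left hpow (by positivity)

end

end Pool.Agent.T2H54.TP
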