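import Pool.Agent.T2H54.TP.Stm
import Pool.Agent.Y587.GP.Chi

set_option autoImplicit false

namespace Pool.Agent.T2H54.TP

open Complex Filter Topology MeasureTheory Set
open Pool.Agent.TH612.CF Pool.Agent.TH612.GS Pool.Agent.T2H54.SB
open Pool.Agent.Y969.GP (V ht lam PS FR)

namespace CHDp

open Pool.Agent.Y969.GP (XF)
open Pool.Agent.Y587.GP.Chi (XF_conj log_lin)

/-- link with `XF`, on the wider strip -/
lemma chi_XF {w : ℂ} (h0 : 0 < w.re) (h1 : w.re < 3) : chi (1 - w) = XF w := by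
  have hpi : (Real.pi : ℂ) ≠ 0 := by exact_mod_cast Real.pi_ne_zero
  by_cases hw : w = 1
  · subst hw
    unfold chi XF
    have e1 : cos (Real.pi * 1 / 2) = 0 := by
      rw [mul_one, Complex.cos_pi_div_two]
    rw [e1, mul_zero, sub_self, zero_div, Complex.Gamma_zero, div_zero]
  unfold chi XF
  have d1 := Complex.Gamma_mul_Gamma_add_half (w / 2)
  have d2 := Complex.Gamma_mul_Gamma_one_sub ((1 + w) / 2)
  have e1 : 2 * (w / 2) = w := by ring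
  have e2 : w / 2 + 1 / 2 = (1 + w) / 2 := by ring
  have e3 : 1 - (1 + w) / 2 = (1 - w) / 2 := by ring
  have e4 : sin (Real.pi * ((1 + w) / 2)) = cos (Real.pi * w / 2) := by
    have : (Real.pi : ℂ) * ((1 + w) / 2) = Real.pi * w / 2 + Real.pi / 2 := by ring
    rw [this, Complex.sin_add_pi_div_two]
  rw [e1, e2] at d1
  rw [e3, e4] at d2
  have g1 : Gamma ((1 + w) / 2) ≠ 0 := Gne (by simp; linarith)
  have g2 : Gamma ((1 - w) / 2) ≠ 0 := by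
    apply Complex.Gamma_ne_zero
    intro m hm
    have hw2 : w = 1 + 2 * (m : ℂ) := by
      linear_combination (-2 : ℂ) * hm
    have hre : w.re = 1 + 2 * m := by
      rw [hw2]
      simp
    have hm1 : (m : ℝ) < 1 := by linarith
    have hm0 : m = 0 := by
      have : m < 1 := by exact_mod_cast hm1
      omega
    apply hw
    rw [hw2, hm0]
    simp
  have hcos : cos (Real.pi * w / 2) ≠ 0 := by
    intro h
    rw [h, div_zero] at d2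
    exact (mul_ne_zero g1 g2) d2
  have hsq : ((√Real.pi : ℝ) : ℂ) = (Real.pi : ℂ) ^ (1 / 2 : ℂ) := by
    rw [Real.sqrt_eq_rpow, Complex.ofReal_cpow Real.pi_pos.le]
    push_cast; rfl
  rw [hsq] at d1
  have e5 : (1 - (1 - w)) / 2 = w / 2 := by ring
  rw [e5]
  have e6 : (2 * Real.pi : ℂ) ^ (-w) = 2 ^ (-w) * (Real.pi : ℂ) ^ (-w) := by
    rw [show (2 * Real.pi : ℂ) = ((2:ℝ) : ℂ) * ((Real.pi : ℝ) : ℂ) by push_cast; rfl,
      Complex.mul_cpow_ofReal_nonneg (by norm_num) Real.pi_pos.le]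
    push_cast; rfl
  have e7 : (2:ℂ) ^ (1 - w) = 2 * 2 ^ (-w) := by
    rw [sub_eq_add_neg, Complex.cpow_add _ _ two_ne_zero, Complex.cpow_one]
  have e8 : (Real.pi : ℂ) ^ (1 - w - 1 / 2) * (Real.pi : ℂ) ^ (1 / 2 : ℂ) = Real.pi * (Real.pi : ℂ) ^ (-w) := by
    rw [← Complex.cpow_add _ _ hpi]
    have : (1 - w - 1 / 2 + 1 / 2 : ℂ) = 1 + -w := by ring
    rw [this, Complex.cpow_add _ _ hpi, Complex.cpow_one]
  have hph : (Real.pi : ℂ) ^ (1 / 2 : ℂ) ≠ 0 := by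
    rw [Complex.cpow_ne_zero_iff]; left; exact hpi
  rw [e7] at d1
  rw [e6]
  rw [eq_div_iff hcos] at d2
  rw [div_eq_iff g2]
  refine mul_right_cancel₀ hph (mul_right_cancel₀ g1 ?_)
  calc (Real.pi : ℂ) ^ (1 - w - 1 / 2) * Gamma (w / 2) * (Real.pi : ℂ) ^ (1 / 2 : ℂ) * Gamma ((1 + w) / 2)
      = ((Real.pi : ℂ) ^ (1 - w - 1 / 2) * (Real.pi : ℂ) ^ (1 / 2 : ℂ)) *
        (Gamma (w / 2) * Gamma ((1 + w) / 2)) := by ring
    _ = (Real.pi * (Real.pi : ℂ) ^ (-w)) * (Gamma w * (2 * 2 ^ (-w)) * (Real.pi : ℂ) ^ (1 / 2 : ℂ)) := by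
        rw [e8, d1]
    _ = _ := by
        linear_combination (-(2 * 2 ^ (-w) * (Real.pi : ℂ) ^ (-w) * Gamma w * (Real.pi : ℂ) ^ (1 / 2 : ℂ))) * d2

/-- both products in terms of `XF` -/
lemma eqA (d c u y : ℝ) (hc0 : 0 < c) (hc1 : c < 1) :
    chi (1 / 2 + I * u - (c + I * y)) * chi (1 / 2 - I * ((u + d : ℝ) : ℂ) - (c + I * y)) =
      XF (1 / 2 + (c + I * y) + I * ((u + d : ℝ) : ℂ)) * XF (1 / 2 + (c + I * y) - I * u) := by
  have e1 : chi (1 / 2 + I * u - (c + I * y)) = XF (1 / 2 + (c + I * y) - I * u) := by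
    rw [← chi_XF (by simp; linarith) (by simp; linarith)]
    congr 1
    ring
  have e2 : chi (1 / 2 - I * ((u + d : ℝ) : ℂ) - (c + I * y)) =
      XF (1 / 2 + (c + I * y) + I * ((u + d : ℝ) : ℂ)) := by
    rw [← chi_XF (by simp; linarith) (by simp; linarith)]
    congr 1
    ring
  rw [e1, e2, mul_comm]

lemma eqB (d u : ℝ) : Xd d u = XF (1 / 2 + I * ((u + d : ℝ) : ℂ)) * XF (1 / 2 - I * u) := by
  unfold Xd
  have e1 : chi (1 / 2 + I * u) = XF (1 / 2 - I * u) := by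
    rw [← chi_XF (by simp) (by simp; norm_num)]
    congr 1
    ring
  have e2 : chi (1 / 2 - I * ((u + d : ℝ) : ℂ)) = XF (1 / 2 + I * ((u + d : ℝ) : ℂ)) := by
    rw [← chi_XF (by simp) (by simp; norm_num)]
    congr 1
    ring
  rw [e1, e2, mul_comm]

/-- Stirling -/
lemma asy (σ v : ℝ) (h1 : 1 / 2 ≤ σ) (h2 : σ ≤ 3 / 2) (hv : 9 ≤ v) : ∃ e : ℂ, ‖e‖ ≤ 27 / v ∧
    XF ((σ : ℂ) + v * I) = cexp (Pool.Agent.W182.KO.Mx σ v) * (1 + e) := by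
  obtain ⟨e, he, hX⟩ := Pool.Agent.W182.KO.XX_asymp (c := 3 / 2) (σ := σ) (v := v)
    (by norm_num) h1 h2 (by linarith)
  refine ⟨e, he.trans (le_of_eq (by ring)), hX⟩

lemma asyc (σ v : ℝ) (h1 : 1 / 2 ≤ σ) (h2 : σ ≤ 3 / 2) (hv : 9 ≤ v) : ∃ e : ℂ, ‖e‖ ≤ 27 / v ∧
    XF ((σ : ℂ) - v * I) = cexp ((starRingEnd ℂ) (Pool.Agent.W182.KO.Mx σ v)) * (1 + e) := by
  obtain ⟨e, he, hX⟩ := asy σ v h1 h2 hv
  refine ⟨(starRingEnd ℂ) e, by rw [RCLike.norm_conj]; exact he, ?_⟩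
  have e1 : ((σ : ℂ) - v * I) = (starRingEnd ℂ) ((σ : ℂ) + v * I) := by
    rw [map_add, map_mul, conj_ofReal, conj_ofReal, conj_I]
    ring
  rw [e1, XF_conj, hX, map_mul, ← Complex.exp_conj, map_add, map_one]

lemma prod_bd {e1 e2 : ℂ} {r : ℝ} (hr : r ≤ 1) (h1 : ‖e1‖ ≤ r) (h2 : ‖e2‖ ≤ r) :
    ‖(1 + e1) * (1 + e2)‖ ≤ 4 ∧ ‖(1 + e1) * (1 + e2) - 1‖ ≤ 3 * r := by
  have hr0 : 0 ≤ r := (norm_nonneg _).trans h1
  constructor
  · rw [norm_mul]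
    have a1 : ‖1 + e1‖ ≤ 2 := by
      refine (norm_add_le _ _).trans ?_
      rw [norm_one]
      linarith
    have a2 : ‖1 + e2‖ ≤ 2 := by
      refine (norm_add_le _ _).trans ?_
      rw [norm_one]
      linarith
    calc ‖1 + e1‖ * ‖1 + e2‖ ≤ 2 * 2 := mul_le_mul a1 a2 (norm_nonneg _) (by norm_num)
      _ = 4 := by norm_num
  · have e : (1 + e1) * (1 + e2) - 1 = e1 + e2 + e1 * e2 := by ring
    rw [e]
    refine (norm_add_le _ _).trans ?_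
    have a1 := norm_add_le e1 e2
    have a2 : ‖e1 * e2‖ ≤ r * 1 := by
      rw [norm_mul]
      exact mul_le_mul h1 (h2.trans hr) (norm_nonneg _) hr0
    linarith

lemma caseA (d c u y : ℝ) (hc0 : 0 < c) (hc1 : c < 1)
    (hu : 100 * ((1 + |d|) * (1 + |y|)) ^ 2 ≤ u) :
    ‖XF (1 / 2 + (c + I * y) + I * ((u + d : ℝ) : ℂ)) * XF (1 / 2 + (c + I * y) - I * u) *
      cexp (-(2 * (c + I * y) * (Real.log (u / (2 * Real.pi)) : ℝ))) -
      XF (1 / 2 + I * ((u + d : ℝ) : ℂ)) * XF (1 / 2 - I * u)‖ ≤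
      452 * ((1 + |d|) * (1 + |y|)) ^ 2 / u := by
  obtain ⟨m, hm⟩ : ∃ m, m = (1 + |d|) * (1 + |y|) := ⟨_, rfl⟩
  rw [← hm] at hu ⊢
  have hd0 := abs_nonneg d
  have hy0 := abs_nonneg y
  have hdy : |d| + |y| ≤ m := by rw [hm]; nlinarith [mul_nonneg hd0 hy0]
  have hm1 : 1 ≤ m := by rw [hm]; nlinarith [mul_nonneg hd0 hy0]
  have hmm : m ≤ m ^ 2 := by nlinarith
  have hu1 : 100 ≤ u := by nlinarith
  have hu0 : 0 < u := by linarith
  have hmu : 100 * m ≤ u := by linarith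
  have hpi := Real.pi_pos
  obtain ⟨hd1, hd2⟩ := abs_le.1 (show |d| ≤ m by linarith)
  obtain ⟨hy1, hy2⟩ := abs_le.1 (show |y| ≤ m by linarith)
  obtain ⟨hdy1, hdy2⟩ := abs_le.1 (show |d + y| ≤ m from (abs_add_le _ _).trans hdy)
  obtain ⟨e1, he1, hX1⟩ := asy (1 / 2 + c) (u + (d + y)) (by linarith) (by linarith) (by linarith)
  obtain ⟨e2, he2, hX2⟩ := asyc (1 / 2 + c) (u - y) (by linarith) (by linarith) (by linarith)
  obtain ⟨e3, he3, hX3⟩ := asy (1 / 2) (u + d) (by linarith) (by linarith) (by linarith)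
  obtain ⟨e4, he4, hX4⟩ := asyc (1 / 2) u (by linarith) (by linarith) (by linarith)
  have hs1 : (1 / 2 + (c + I * y) + I * ((u + d : ℝ) : ℂ) : ℂ) =
      ((1 / 2 + c : ℝ) : ℂ) + ((u + (d + y) : ℝ) : ℂ) * I := by
    push_cast
    ring
  have hs2 : (1 / 2 + (c + I * y) - I * u : ℂ) =
      ((1 / 2 + c : ℝ) : ℂ) - ((u - y : ℝ) : ℂ) * I := by
    push_cast
    ring
  have hs3 : (1 / 2 + I * ((u + d : ℝ) : ℂ) : ℂ) = ((1 / 2 : ℝ) : ℂ) + ((u + d : ℝ) : ℂ) * I := by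
    push_cast
    ring
  have hs4 : (1 / 2 - I * u : ℂ) = ((1 / 2 : ℝ) : ℂ) - (u : ℂ) * I := by
    push_cast
    ring
  rw [hs1, hs2, hs3, hs4, hX1, hX2, hX3, hX4]
  -- the logarithms
  obtain ⟨τ, hτ⟩ : ∃ τ : ℝ, τ = y / u := ⟨_, rfl⟩
  obtain ⟨δ, hδ⟩ : ∃ δ : ℝ, δ = d / u := ⟨_, rfl⟩
  have hτu : u * τ = y := by rw [hτ]; field_simp
  have hδu : u * δ = d := by rw [hδ]; field_simp
  obtain ⟨ρ, hρ⟩ : ∃ ρ : ℝ, ρ = m / u := ⟨_, rfl⟩
  have hρ0 : 0 < ρ := by rw [hρ]; positivity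
  have hρ1 : ρ ≤ 1 / 100 := by
    rw [hρ, div_le_iff₀ hu0]
    linarith
  have hρu : u * ρ = m := by rw [hρ]; field_simp
  have hρ2 : u * ρ ^ 2 = m ^ 2 / u := by rw [hρ]; field_simp
  have hτb : |τ| ≤ ρ := by
    rw [hτ, hρ, abs_div, abs_of_pos hu0]
    exact div_le_div_of_nonneg_right (by linarith) hu0.le
  have hδb : |δ| ≤ ρ := by
    rw [hδ, hρ, abs_div, abs_of_pos hu0]
    exact div_le_div_of_nonneg_right (by linarith) hu0.le
  have hδτb : |δ + τ| ≤ ρ := by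
    have : δ + τ = (d + y) / u := by rw [hδ, hτ]; ring
    rw [this, hρ, abs_div, abs_of_pos hu0]
    exact div_le_div_of_nonneg_right ((abs_add_le _ _).trans hdy) hu0.le
  obtain ⟨l1, -⟩ := log_lin (δ + τ) (by linarith)
  obtain ⟨-, l2⟩ := log_lin τ (by linarith)
  obtain ⟨l3, -⟩ := log_lin δ (by linarith)
  obtain ⟨a1, ha1⟩ : ∃ a, a = Real.log (1 + (δ + τ)) := ⟨_, rfl⟩
  obtain ⟨a2, ha2⟩ : ∃ a, a = Real.log (1 - τ) := ⟨_, rfl⟩
  obtain ⟨a3, ha3⟩ : ∃ a, a = Real.log (1 + δ) := ⟨_, rfl⟩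
  obtain ⟨L, hL⟩ : ∃ L, L = Real.log (u / (2 * Real.pi)) := ⟨_, rfl⟩
  rw [← ha1] at l1
  rw [← ha2] at l2
  rw [← ha3] at l3
  obtain ⟨t1, t2⟩ := abs_le.1 hτb
  obtain ⟨t3, t4⟩ := abs_le.1 hδb
  obtain ⟨t5, t6⟩ := abs_le.1 hδτb
  have hup : 0 < u / (2 * Real.pi) := by positivity
  have g1 : Real.log ((u + (d + y)) / (2 * Real.pi)) = a1 + L := by
    rw [ha1, hL, ← Real.log_mul (by linarith) hup.ne']
    congr 1
    rw [← hτu, ← hδu]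
    ring
  have g2 : Real.log ((u - y) / (2 * Real.pi)) = a2 + L := by
    rw [ha2, hL, ← Real.log_mul (by linarith) hup.ne']
    congr 1
    rw [← hτu]
    ring
  have g3 : Real.log ((u + d) / (2 * Real.pi)) = a3 + L := by
    rw [ha3, hL, ← Real.log_mul (by linarith) hup.ne']
    congr 1
    rw [← hδu]
    ring
  obtain ⟨z0, hz0⟩ : ∃ z0 : ℂ, z0 = Pool.Agent.W182.KO.Mx (1 / 2) (u + d) +
    (starRingEnd ℂ) (Pool.Agent.W182.KO.Mx (1 / 2) u) := ⟨_, rfl⟩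
  have hz0re : z0.re = 0 := by
    rw [hz0]
    unfold Pool.Agent.W182.KO.Mx
    simp only [map_add, map_mul, conj_ofReal, conj_I]
    simp
  have hz0n : ‖cexp z0‖ = 1 := by rw [Complex.norm_exp, hz0re, Real.exp_zero]
  obtain ⟨z, hz⟩ : ∃ z : ℂ, z = ((c * (a1 + a2) : ℝ) : ℂ) +
    (((u + (d + y)) * a1 - (u - y) * a2 - 2 * y - (u + d) * a3 : ℝ) : ℂ) * I := ⟨_, rfl⟩
  have hz2 : Pool.Agent.W182.KO.Mx (1 / 2 + c) (u + (d + y)) +
      (starRingEnd ℂ) (Pool.Agent.W182.KO.Mx (1 / 2 + c) (u - y)) +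
      -(2 * (c + I * y) * (L : ℝ)) = z0 + z := by
    rw [hz0, hz]
    unfold Pool.Agent.W182.KO.Mx
    simp only [map_add, map_mul, conj_ofReal, conj_I, g1, g2, g3, ← hL]
    push_cast
    ring
  obtain ⟨E, hE⟩ : ∃ E : ℂ, E = (1 + e1) * (1 + e2) := ⟨_, rfl⟩
  obtain ⟨E', hE'⟩ : ∃ E' : ℂ, E' = (1 + e3) * (1 + e4) := ⟨_, rfl⟩
  have hfin : cexp (Pool.Agent.W182.KO.Mx (1 / 2 + c) (u + (d + y))) * (1 + e1) *
      (cexp ((starRingEnd ℂ) (Pool.Agent.W182.KO.Mx (1 / 2 + c) (u - y))) * (1 + e2)) *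
      cexp (-(2 * (c + I * y) * (L : ℝ))) -
      cexp (Pool.Agent.W182.KO.Mx (1 / 2) (u + d)) * (1 + e3) *
      (cexp ((starRingEnd ℂ) (Pool.Agent.W182.KO.Mx (1 / 2) u)) * (1 + e4)) =
      cexp z0 * ((cexp z - 1) * E + (E - 1) - (E' - 1)) := by
    have h1 : cexp (Pool.Agent.W182.KO.Mx (1 / 2 + c) (u + (d + y))) *
        cexp ((starRingEnd ℂ) (Pool.Agent.W182.KO.Mx (1 / 2 + c) (u - y))) *
        cexp (-(2 * (c + I * y) * (L : ℝ))) = cexp z0 * cexp z := by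
      rw [← Complex.exp_add, ← Complex.exp_add, ← Complex.exp_add, hz2]
    have h2 : cexp (Pool.Agent.W182.KO.Mx (1 / 2) (u + d)) *
        cexp ((starRingEnd ℂ) (Pool.Agent.W182.KO.Mx (1 / 2) u)) = cexp z0 := by
      rw [← Complex.exp_add, hz0]
    rw [hE, hE']
    linear_combination ((1 + e1) * (1 + e2)) * h1 - ((1 + e3) * (1 + e4)) * h2
  rw [← hL, hfin, norm_mul, hz0n, one_mul]
  -- bounds
  obtain ⟨r1, hr1⟩ : ∃ r, r = a1 - (δ + τ) := ⟨_, rfl⟩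
  obtain ⟨r2, hr2⟩ : ∃ r, r = a2 + τ := ⟨_, rfl⟩
  obtain ⟨r3, hr3⟩ : ∃ r, r = a3 - δ := ⟨_, rfl⟩
  rw [← hr1] at l1
  rw [← hr2] at l2
  rw [← hr3] at l3
  have sq1 : (δ + τ) ^ 2 ≤ ρ ^ 2 := sq_le_sq' t5 t6
  have sq2 : τ ^ 2 ≤ ρ ^ 2 := sq_le_sq' t1 t2
  have sq3 : δ ^ 2 ≤ ρ ^ 2 := sq_le_sq' t3 t4
  have l1' : |r1| ≤ 2 * ρ ^ 2 := by linarith
  have l2' : |r2| ≤ 2 * ρ ^ 2 := by linarith
  have l3' : |r3| ≤ 2 * ρ ^ 2 := by linarith
  have hρρ : ρ ≤ u * ρ ^ 2 := by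
    have : ρ * 1 ≤ ρ * (u * ρ) := mul_le_mul_of_nonneg_left (by rw [hρu]; exact hm1) hρ0.le
    nlinarith
  have hρρ2 : ρ ^ 2 ≤ u * ρ ^ 2 := le_mul_of_one_le_left (sq_nonneg _) (by linarith)
  have hzn : ‖z‖ ≤ 16 * (m ^ 2 / u) := by
    rw [hz, ← hρ2]
    refine (norm_add_le _ _).trans ?_
    rw [norm_mul, norm_I, mul_one, Complex.norm_real, Complex.norm_real, Real.norm_eq_abs,
      Real.norm_eq_abs]
    have h1 : |c * (a1 + a2)| ≤ 5 * (u * ρ ^ 2) := by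
      have e : a1 + a2 = δ + r1 + r2 := by rw [hr1, hr2]; ring
      rw [e, abs_mul, abs_of_pos hc0]
      have h9 := abs_add_three δ r1 r2
      have h0 := abs_nonneg (δ + r1 + r2)
      calc c * |δ + r1 + r2| ≤ 1 * |δ + r1 + r2| := mul_le_mul_of_nonneg_right hc1.le h0
        _ ≤ _ := by linarith
    have h2 : |(u + (d + y)) * a1 - (u - y) * a2 - 2 * y - (u + d) * a3| ≤ 11 * (u * ρ ^ 2) := by
      have e : (u + (d + y)) * a1 - (u - y) * a2 - 2 * y - (u + d) * a3 =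
          u * (2 * (δ * τ) + (1 + (δ + τ)) * r1 - (1 - τ) * r2 - (1 + δ) * r3) := by
        rw [hr1, hr2, hr3, ← hτu, ← hδu]
        ring
      rw [e, abs_mul, abs_of_pos hu0]
      have b0 : |2 * (δ * τ)| ≤ 2 * ρ ^ 2 := by
        rw [abs_mul, abs_two, abs_mul]
        have : |δ| * |τ| ≤ ρ * ρ := mul_le_mul hδb hτb (abs_nonneg _) hρ0.le
        nlinarith
      have b1 : |(1 + (δ + τ)) * r1| ≤ 3 / 2 * (2 * ρ ^ 2) := by
        rw [abs_mul, abs_of_pos (by linarith : (0 : ℝ) < 1 + (δ + τ))]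
        exact mul_le_mul (by linarith) l1' (abs_nonneg _) (by norm_num)
      have b2 : |(1 - τ) * r2| ≤ 3 / 2 * (2 * ρ ^ 2) := by
        rw [abs_mul, abs_of_pos (by linarith : (0 : ℝ) < 1 - τ)]
        exact mul_le_mul (by linarith) l2' (abs_nonneg _) (by norm_num)
      have b3 : |(1 + δ) * r3| ≤ 3 / 2 * (2 * ρ ^ 2) := by
        rw [abs_mul, abs_of_pos (by linarith : (0 : ℝ) < 1 + δ)]
        exact mul_le_mul (by linarith) l3' (abs_nonneg _) (by norm_num)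
      have h3 : |2 * (δ * τ) + (1 + (δ + τ)) * r1 - (1 - τ) * r2 - (1 + δ) * r3| ≤ 11 * ρ ^ 2 := by
        have c1 := abs_sub (2 * (δ * τ) + (1 + (δ + τ)) * r1 - (1 - τ) * r2) ((1 + δ) * r3)
        have c2 := abs_sub (2 * (δ * τ) + (1 + (δ + τ)) * r1) ((1 - τ) * r2)
        have c3 := abs_add_le (2 * (δ * τ)) ((1 + (δ + τ)) * r1)
        linarith
      calc u * |2 * (δ * τ) + (1 + (δ + τ)) * r1 - (1 - τ) * r2 - (1 + δ) * r3|
          ≤ u * (11 * ρ ^ 2) := mul_le_mul_of_nonneg_left h3 hu0.le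
        _ = 11 * (u * ρ ^ 2) := by ring
    linarith
  have hmu2 : m ^ 2 / u ≤ 1 / 100 := by
    rw [div_le_iff₀ hu0]
    linarith
  have hexp : ‖cexp z - 1‖ ≤ 32 * (m ^ 2 / u) := by
    have := Complex.norm_exp_sub_one_le (x := z) (by linarith)
    linarith
  have hinv : 1 / u ≤ m ^ 2 / u := div_le_div_of_nonneg_right (by nlinarith) hu0.le
  have k : ∀ v : ℝ, u / 2 ≤ v → 27 / v ≤ 54 / u := by
    intro v hv
    rw [div_le_div_iff₀ (by linarith) hu0]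
    linarith
  have h54 : 54 / u ≤ 1 := by rw [div_le_one hu0]; linarith
  obtain ⟨hE1, hE2⟩ := prod_bd h54 (he1.trans (k _ (by linarith))) (he2.trans (k _ (by linarith)))
  obtain ⟨-, hE4⟩ := prod_bd h54 (he3.trans (k _ (by linarith))) (he4.trans (k _ (by linarith)))
  rw [← hE] at hE1 hE2
  rw [← hE'] at hE4
  have h1 : ‖(cexp z - 1) * E‖ ≤ 32 * (m ^ 2 / u) * 4 := by
    rw [norm_mul]
    exact mul_le_mul hexp hE1 (norm_nonneg _) (by positivity)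
  have h2 := norm_sub_le ((cexp z - 1) * E + (E - 1)) (E' - 1)
  have h3 := norm_add_le ((cexp z - 1) * E) (E - 1)
  have h4 : 54 / u = 54 * (1 / u) := by ring
  have h5 : 452 * m ^ 2 / u = 452 * (m ^ 2 / u) := by ring
  rw [h5]
  rw [h4] at hE2 hE4
  linarith

lemma caseB {C1 : ℝ} (hC1 : 0 < C1) (hX : ∀ w : ℂ, 1 / 2 ≤ w.re → w.re ≤ 3 / 2 →
    ‖XF w‖ ≤ C1 * (1 + |w.im|) ^ (w.re - 1 / 2)) (d c u y : ℝ) (hc0 : 0 < c) (hc1 : c < 1)
    (hu : 1 ≤ u) (huy : u ≤ 100 * ((1 + |d|) * (1 + |y|)) ^ 2) :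
    ‖XF (1 / 2 + (c + I * y) + I * ((u + d : ℝ) : ℂ)) * XF (1 / 2 + (c + I * y) - I * u) *
      cexp (-(2 * (c + I * y) * (Real.log (u / (2 * Real.pi)) : ℝ))) -
      XF (1 / 2 + I * ((u + d : ℝ) : ℂ)) * XF (1 / 2 - I * u)‖ ≤
      100 * (C1 ^ 2 * 102 ^ 2 * (2 * Real.pi) ^ 2 + C1 ^ 2) * ((1 + |d|) * (1 + |y|)) ^ 6 / u := by
  have hpi := Real.pi_gt_three
  have hu0 : 0 < u := by linarith
  obtain ⟨m, hm⟩ : ∃ m, m = (1 + |d|) * (1 + |y|) := ⟨_, rfl⟩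
  rw [← hm] at huy ⊢
  have hd0 := abs_nonneg d
  have hy0 := abs_nonneg y
  have hdy : 1 + |d| + |y| ≤ m := by rw [hm]; nlinarith [mul_nonneg hd0 hy0]
  have hm1 : 1 ≤ m := by linarith
  have hmm : m ≤ m ^ 2 := by nlinarith
  have key : ∀ (w : ℂ), w.re = 1 / 2 + c → |w.im| ≤ |d| + |y| + u → ‖XF w‖ ≤ C1 * (102 * m ^ 2) := by
    intro w hw hwi
    refine (hX w (by rw [hw]; linarith) (by rw [hw]; linarith)).trans ?_
    refine mul_le_mul_of_nonneg_left ?_ hC1.le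
    have h1 : (1 : ℝ) ≤ 1 + |w.im| := by linarith [abs_nonneg w.im]
    have h2 : (1 + |w.im|) ^ (w.re - 1 / 2) ≤ (1 + |w.im|) ^ (1 : ℝ) :=
      Real.rpow_le_rpow_of_exponent_le h1 (by rw [hw]; linarith)
    rw [Real.rpow_one] at h2
    refine h2.trans ?_
    nlinarith
  have key0 : ∀ (w : ℂ), w.re = 1 / 2 → ‖XF w‖ ≤ C1 := by
    intro w hw
    refine (hX w (by rw [hw]) (by rw [hw]; norm_num)).trans ?_
    rw [hw, sub_self, Real.rpow_zero, mul_one]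
  have k1 := key (1 / 2 + (c + I * y) + I * ((u + d : ℝ) : ℂ)) (by simp) (by
    have e : (1 / 2 + ((c : ℂ) + I * y) + I * ((u + d : ℝ) : ℂ)).im = y + (u + d) := by simp
    rw [e]
    have h1 := abs_add_le y (u + d)
    have h2 := abs_add_le u d
    rw [abs_of_pos hu0] at h2
    linarith)
  have k2 := key (1 / 2 + (c + I * y) - I * u) (by simp) (by
    have e : (1 / 2 + ((c : ℂ) + I * y) - I * u).im = y - u := by simp
    rw [e]
    have h1 := abs_sub y u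
    rw [abs_of_pos hu0] at h1
    linarith)
  have k3 : ‖cexp (-(2 * (c + I * y) * (Real.log (u / (2 * Real.pi)) : ℝ)))‖ ≤
      (2 * Real.pi) ^ 2 := by
    rw [Complex.norm_exp]
    have e : (-(2 * ((c : ℂ) + I * y) * (Real.log (u / (2 * Real.pi)) : ℝ))).re =
        -(2 * c * Real.log (u / (2 * Real.pi))) := by simp
    rw [e]
    have h1 : Real.log (u / (2 * Real.pi)) = Real.log u - Real.log (2 * Real.pi) :=
      Real.log_div hu0.ne' (by positivity)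
    have h2 : 0 ≤ Real.log u := Real.log_nonneg hu
    have h3 : 0 ≤ Real.log (2 * Real.pi) := Real.log_nonneg (by linarith)
    have h4 : (2 * Real.pi) ^ 2 = Real.exp (2 * Real.log (2 * Real.pi)) := by
      rw [two_mul (Real.log _), Real.exp_add, Real.exp_log (by positivity)]
      ring
    rw [h4, h1]
    apply Real.exp_le_exp.2
    nlinarith [mul_nonneg hc0.le h2]
  have k4 := key0 (1 / 2 + I * ((u + d : ℝ) : ℂ)) (by simp)
  have k5 := key0 (1 / 2 - I * u) (by simp)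
  have h1 : ‖XF (1 / 2 + (c + I * y) + I * ((u + d : ℝ) : ℂ)) * XF (1 / 2 + (c + I * y) - I * u) *
      cexp (-(2 * (c + I * y) * (Real.log (u / (2 * Real.pi)) : ℝ)))‖ ≤
      (C1 * (102 * m ^ 2)) * (C1 * (102 * m ^ 2)) * (2 * Real.pi) ^ 2 := by
    rw [norm_mul, norm_mul]
    exact mul_le_mul (mul_le_mul k1 k2 (norm_nonneg _) (by positivity)) k3 (norm_nonneg _)
      (by positivity)
  have h2 : ‖XF (1 / 2 + I * ((u + d : ℝ) : ℂ)) * XF (1 / 2 - I * u)‖ ≤ C1 * C1 := by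
    rw [norm_mul]
    exact mul_le_mul k4 k5 (norm_nonneg _) hC1.le
  have h3 := norm_sub_le (XF (1 / 2 + (c + I * y) + I * ((u + d : ℝ) : ℂ)) *
      XF (1 / 2 + (c + I * y) - I * u) *
      cexp (-(2 * (c + I * y) * (Real.log (u / (2 * Real.pi)) : ℝ))))
      (XF (1 / 2 + I * ((u + d : ℝ) : ℂ)) * XF (1 / 2 - I * u))
  refine h3.trans ?_
  rw [le_div_iff₀ hu0]
  obtain ⟨B, hB⟩ : ∃ B, B = C1 ^ 2 * 102 ^ 2 * (2 * Real.pi) ^ 2 := ⟨_, rfl⟩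
  have hB0 : 0 ≤ B := by rw [hB]; positivity
  have h4 : (C1 * (102 * m ^ 2)) * (C1 * (102 * m ^ 2)) * (2 * Real.pi) ^ 2 = B * m ^ 4 := by
    rw [hB]
    ring
  rw [h4] at h1
  rw [← hB]
  have hm4 : 1 ≤ m ^ 4 := one_le_pow₀ hm1
  have hCC : C1 * C1 ≤ C1 ^ 2 * m ^ 4 := by nlinarith [sq_nonneg C1]
  calc (‖XF (1 / 2 + (c + I * y) + I * ((u + d : ℝ) : ℂ)) * XF (1 / 2 + (c + I * y) - I * u) *
      cexp (-(2 * (c + I * y) * (Real.log (u / (2 * Real.pi)) : ℝ)))‖ +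
      ‖XF (1 / 2 + I * ((u + d : ℝ) : ℂ)) * XF (1 / 2 - I * u)‖) * u
      ≤ (B * m ^ 4 + C1 ^ 2 * m ^ 4) * (100 * m ^ 2) := by
        refine mul_le_mul (by linarith) huy hu0.le (by positivity)
    _ = 100 * (B + C1 ^ 2) * m ^ 6 := by ring

end CHDp

theorem t_CHD : S_CHD := by
  intro d c hc0 hc1
  obtain ⟨C1, hC1, hX⟩ := Pool.Agent.H448R2.GC.XX_upper (3 / 2)
  have hX' : ∀ w : ℂ, 1 / 2 ≤ w.re → w.re ≤ 3 / 2 →
    ‖Pool.Agent.Y969.GP.XF w‖ ≤ C1 * (1 + |w.im|) ^ (w.re - 1 / 2) := hX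
  obtain ⟨K, hK⟩ : ∃ K, K = 100 * (C1 ^ 2 * 102 ^ 2 * (2 * Real.pi) ^ 2 + C1 ^ 2) := ⟨_, rfl⟩
  have hpi := Real.pi_pos
  have hK0 : 0 < K := by rw [hK]; positivity
  have hd0 := abs_nonneg d
  refine ⟨(452 + K) * (1 + |d|) ^ 6, 6, by positivity, fun u y hu => ?_⟩
  rw [CHDp.eqA d c u y hc0 hc1, CHDp.eqB]
  have hu1 : 1 ≤ u := by linarith
  have hu0 : 0 < u := by linarith
  have hY1 : 1 ≤ 1 + |y| := by linarith [abs_nonneg y]
  have hD1 : 1 ≤ 1 + |d| := by linarith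
  have hm1 : 1 ≤ (1 + |d|) * (1 + |y|) := by nlinarith
  have h26 : ((1 + |d|) * (1 + |y|)) ^ 2 ≤ ((1 + |d|) * (1 + |y|)) ^ 6 :=
    pow_le_pow_right₀ hm1 (by norm_num)
  have h60 : 0 ≤ ((1 + |d|) * (1 + |y|)) ^ 6 := by positivity
  have e6 : (452 + K) * (1 + |d|) ^ 6 * (1 + |y|) ^ 6 = (452 + K) * ((1 + |d|) * (1 + |y|)) ^ 6 := by
    ring
  rw [e6]
  by_cases h : 100 * ((1 + |d|) * (1 + |y|)) ^ 2 ≤ u
  · refine (CHDp.caseA d c u y hc0 hc1 h).trans ?_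
    apply div_le_div_of_nonneg_right _ hu0.le
    nlinarith [mul_nonneg hK0.le h60]
  · refine (CHDp.caseB hC1 hX' d c u y hc0 hc1 hu1 (not_le.1 h).le).trans ?_
    apply div_le_div_of_nonneg_right _ hu0.le
    rw [← hK]
    nlinarith [mul_nonneg hK0.le h60]

end Pool.Agent.T2H54.TP
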