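import Pool.Agent.T2H54.TP.Stm
import Pool.Agent.H307R2.LU

set_option autoImplicit false

/-!
Project TP, package DG: the diagonal sums.
-/

namespace Pool.Agent.T2H54.TP

open Complex Filter Topology MeasureTheory Set
open Pool.Agent.Y969.GP (V V1)
open Pool.Agent.Y587.GP (gs gs_int gs_total gs_cont V_eq V_deriv c0_pos)

noncomputable section

namespace PkgDG

/-! ### Gaussian bounds -/

lemma e8_le (A L : ℝ) : Real.exp (-L ^ 2 / 8) ≤ Real.exp (2 * A ^ 2) * Real.exp (-(A * L)) := by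
  rw [← Real.exp_add]
  apply Real.exp_le_exp.2
  nlinarith [sq_nonneg (L - 4 * A)]

lemma e8_le_one (L : ℝ) : Real.exp (-L ^ 2 / 8) ≤ 1 := by
  rw [Real.exp_le_one_iff]
  have := sq_nonneg L
  linarith

lemma e4_eq (L : ℝ) : Real.exp (-L ^ 2 / 4) = Real.exp (-L ^ 2 / 8) * Real.exp (-L ^ 2 / 8) := by
  rw [← Real.exp_add]
  congr 1
  ring

lemma quad_le (L : ℝ) : (1 + L ^ 2 / 2) * Real.exp (-L ^ 2 / 8) ≤ 4 := by
  have h1 : 1 + L ^ 2 / 8 ≤ Real.exp (L ^ 2 / 8) := by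
    have := Real.add_one_le_exp (L ^ 2 / 8)
    linarith
  have h2 : Real.exp (L ^ 2 / 8) * Real.exp (-L ^ 2 / 8) = 1 := by
    rw [← Real.exp_add]
    have : L ^ 2 / 8 + -L ^ 2 / 8 = 0 := by ring
    rw [this, Real.exp_zero]
  have h3 := Real.exp_pos (-L ^ 2 / 8)
  calc (1 + L ^ 2 / 2) * Real.exp (-L ^ 2 / 8) ≤ (4 * Real.exp (L ^ 2 / 8)) * Real.exp (-L ^ 2 / 8) := by
        apply mul_le_mul_of_nonneg_right _ h3.le
        have := sq_nonneg L
        linarith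
    _ = 4 := by rw [mul_assoc, h2, mul_one]

/-- the logarithmic derivative of the weight -/
def om (d L : ℝ) : ℝ :=
  (-(2 * √Real.pi)⁻¹ + (1 - L ^ 2 / 2) / (d ^ 2 * √Real.pi)) * Real.exp (-L ^ 2 / 4)

lemma om_le (d : ℝ) : ∃ C : ℝ, 0 < C ∧ ∀ L : ℝ, |om d L| ≤ C * Real.exp (-L ^ 2 / 8) := by
  have h0 : 0 < (2 * √Real.pi)⁻¹ := inv_pos.2 c0_pos
  have h1 : 0 ≤ (d ^ 2 * √Real.pi)⁻¹ := by positivity
  refine ⟨(2 * √Real.pi)⁻¹ + 4 * (d ^ 2 * √Real.pi)⁻¹, by positivity, fun L => ?_⟩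
  unfold om
  have h2 : |(-(2 * √Real.pi)⁻¹ + (1 - L ^ 2 / 2) / (d ^ 2 * √Real.pi))| ≤
      (2 * √Real.pi)⁻¹ + (1 + L ^ 2 / 2) * (d ^ 2 * √Real.pi)⁻¹ := by
    refine (abs_add_le _ _).trans ?_
    rw [abs_neg, abs_of_pos h0, div_eq_mul_inv, abs_mul, abs_of_nonneg h1]
    apply add_le_add le_rfl
    apply mul_le_mul_of_nonneg_right _ h1
    rw [abs_le]
    have := sq_nonneg L
    constructor <;> linarith
  have h3 := Real.exp_pos (-L ^ 2 / 8)
  rw [abs_mul, abs_of_pos (Real.exp_pos _), e4_eq, ← mul_assoc]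
  apply mul_le_mul_of_nonneg_right _ h3.le
  calc |(-(2 * √Real.pi)⁻¹ + (1 - L ^ 2 / 2) / (d ^ 2 * √Real.pi))| * Real.exp (-L ^ 2 / 8)
      ≤ ((2 * √Real.pi)⁻¹ + (1 + L ^ 2 / 2) * (d ^ 2 * √Real.pi)⁻¹) * Real.exp (-L ^ 2 / 8) :=
        mul_le_mul_of_nonneg_right h2 h3.le
    _ = (2 * √Real.pi)⁻¹ * Real.exp (-L ^ 2 / 8) +
        (d ^ 2 * √Real.pi)⁻¹ * ((1 + L ^ 2 / 2) * Real.exp (-L ^ 2 / 8)) := by ring
    _ ≤ (2 * √Real.pi)⁻¹ * 1 + (d ^ 2 * √Real.pi)⁻¹ * 4 := by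
        apply add_le_add
        · exact mul_le_mul_of_nonneg_left (e8_le_one L) h0.le
        · exact mul_le_mul_of_nonneg_left (quad_le L) h1
    _ = _ := by ring

/-- the antiderivative of `om d L * exp (i d L / 2)` -/
def Ph (d L : ℝ) : ℂ :=
  (((d ^ 2 * √Real.pi)⁻¹ : ℝ) : ℂ) * (((L : ℂ) + I * d) * cexp (-(L : ℂ) ^ 2 / 4 + I * d * L / 2))

lemma Ph_deriv {d : ℝ} (hd : d ≠ 0) (L : ℝ) :
    HasDerivAt (Ph d) ((om d L : ℂ) * cexp (I * d * L / 2)) L := by
  unfold Ph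
  have hL : HasDerivAt (fun L : ℝ => (L : ℂ)) 1 L := Complex.ofRealCLM.hasDerivAt
  have h1 : HasDerivAt (fun L : ℝ => (L : ℂ) + I * d) 1 L := hL.add_const _
  have h2 : HasDerivAt (fun L : ℝ => -(L : ℂ) ^ 2 / 4 + I * d * L / 2)
      (-(L : ℂ) / 2 + I * d / 2) L := by
    have h3 := ((hL.pow 2).neg.div_const 4).add ((hL.const_mul (I * d)).div_const 2)
    refine h3.congr_deriv ?_
    push_cast
    ring
  have h4 := (h1.mul h2.cexp).const_mul (((d ^ 2 * √Real.pi)⁻¹ : ℝ) : ℂ)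
  refine h4.congr_deriv ?_
  have hexp : cexp (-(L : ℂ) ^ 2 / 4 + I * d * L / 2) =
      cexp (-(L : ℂ) ^ 2 / 4) * cexp (I * d * L / 2) := Complex.exp_add _ _
  have hom : (om d L : ℂ) = (-(2 * (√Real.pi : ℂ))⁻¹ + (1 - (L : ℂ) ^ 2 / 2) /
      ((d : ℂ) ^ 2 * (√Real.pi : ℂ))) * cexp (-(L : ℂ) ^ 2 / 4) := by
    unfold om
    push_cast
    rfl
  rw [hexp, hom]
  have hd' : (d : ℂ) ≠ 0 := by exact_mod_cast hd
  have hp : ((√Real.pi : ℝ) : ℂ) ≠ 0 := by
    have : √Real.pi ≠ 0 := (Real.sqrt_pos.2 Real.pi_pos).ne'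
    exact_mod_cast this
  push_cast
  have hI : I * I = -1 := Complex.I_mul_I
  field_simp
  linear_combination ((d : ℂ) ^ 2) * Complex.I_sq

lemma Ph_le (d : ℝ) : ∃ C : ℝ, 0 < C ∧ ∀ L : ℝ, ‖Ph d L‖ ≤ C * Real.exp (-L ^ 2 / 8) := by
  have h1 : 0 ≤ (d ^ 2 * √Real.pi)⁻¹ := by positivity
  refine ⟨(d ^ 2 * √Real.pi)⁻¹ * (4 + |d|) + 1, by positivity, fun L => ?_⟩
  have h3 := Real.exp_pos (-L ^ 2 / 8)
  have h4 : ‖cexp (-(L : ℂ) ^ 2 / 4 + I * d * L / 2)‖ = Real.exp (-L ^ 2 / 4) := by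
    rw [Complex.norm_exp]
    congr 1
    have : -(L : ℂ) ^ 2 / 4 + I * d * L / 2 = ((-L ^ 2 / 4 : ℝ) : ℂ) + ((d * L / 2 : ℝ) : ℂ) * I := by
      push_cast
      ring
    rw [this, Complex.add_re, Complex.ofReal_re, Complex.re_ofReal_mul, Complex.I_re, mul_zero,
      add_zero]
  have h5 : ‖(L : ℂ) + I * d‖ ≤ |L| + |d| := by
    refine (norm_add_le _ _).trans ?_
    rw [norm_mul, Complex.norm_I, one_mul, Complex.norm_real, Complex.norm_real]
    exact le_rfl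
  have h6 : (|L| + |d|) * Real.exp (-L ^ 2 / 8) ≤ 4 + |d| := by
    have h7 : |L| ≤ 1 + L ^ 2 / 2 := by
      have := sq_nonneg (|L| - 1)
      rw [← sq_abs L]
      nlinarith
    have h8 := quad_le L
    have h9 := e8_le_one L
    have h10 : |L| * Real.exp (-L ^ 2 / 8) ≤ 4 :=
      (mul_le_mul_of_nonneg_right h7 h3.le).trans h8
    have h11 : |d| * Real.exp (-L ^ 2 / 8) ≤ |d| * 1 := mul_le_mul_of_nonneg_left h9 (abs_nonneg d)
    linarith
  unfold Ph
  rw [norm_mul, norm_mul, Complex.norm_real, Real.norm_of_nonneg h1, h4, e4_eq]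
  calc (d ^ 2 * √Real.pi)⁻¹ * (‖(L : ℂ) + I * d‖ * (Real.exp (-L ^ 2 / 8) * Real.exp (-L ^ 2 / 8)))
      ≤ (d ^ 2 * √Real.pi)⁻¹ * ((|L| + |d|) * (Real.exp (-L ^ 2 / 8) * Real.exp (-L ^ 2 / 8))) := by
        apply mul_le_mul_of_nonneg_left _ h1
        exact mul_le_mul_of_nonneg_right h5 (by positivity)
    _ = (d ^ 2 * √Real.pi)⁻¹ * ((|L| + |d|) * Real.exp (-L ^ 2 / 8)) * Real.exp (-L ^ 2 / 8) := by ring
    _ ≤ (d ^ 2 * √Real.pi)⁻¹ * (4 + |d|) * Real.exp (-L ^ 2 / 8) := by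
        apply mul_le_mul_of_nonneg_right _ h3.le
        exact mul_le_mul_of_nonneg_left h6 h1
    _ ≤ _ := by
        apply mul_le_mul_of_nonneg_right _ h3.le
        linarith

/-! ### The weight -/

lemma Wd_deriv (d : ℝ) {v : ℝ} (hv : 0 < v) : HasDerivAt (Wd d) (om d (Real.log v) / v) v := by
  have h1 := V_deriv v hv
  have hlog := Real.hasDerivAt_log hv.ne'
  have h2 : HasDerivAt (fun x : ℝ => -(Real.log x) ^ 2 / 4) (-(Real.log v) / 2 * v⁻¹) v := by
    have h3 := ((hlog.pow 2).neg).div_const 4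
    refine h3.congr_deriv ?_
    push_cast
    ring
  have h4 := (hlog.mul h2.exp).div_const (d ^ 2 * √Real.pi)
  have h5 := h1.add h4
  have h6 : Wd d = fun x => V x + (Real.log * fun x => Real.exp (-(Real.log x) ^ 2 / 4)) x /
      (d ^ 2 * √Real.pi) := by
    funext x
    rfl
  rw [h6]
  refine h5.congr_deriv ?_
  unfold V1 om
  field_simp
  ring

lemma V_inv (x : ℝ) : V x⁻¹ = 1 - V x := by
  rw [V_eq, V_eq, Real.log_inv]
  have h1 : ∫ v in Ioi (-Real.log x), gs v = ∫ v in Iic (Real.log x), gs v := by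
    have h2 := integral_comp_neg_Iic (Real.log x) gs
    rw [← h2]
    refine setIntegral_congr_fun measurableSet_Iic fun v _ => ?_
    unfold gs
    simp only [neg_sq]
  have h3 : (∫ v in Iic (Real.log x), gs v) + ∫ v in Ioi (Real.log x), gs v = 2 * √Real.pi := by
    rw [← gs_total]
    exact intervalIntegral.integral_Iic_add_Ioi gs_int.integrableOn gs_int.integrableOn
  rw [h1]
  have h4 := c0_pos
  field_simp
  linarith

lemma Wd_inv (d x : ℝ) : Wd d x⁻¹ = 1 - Wd d x := by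
  unfold Wd
  rw [V_inv, Real.log_inv, neg_sq]
  ring

/-! ### The powers -/

/-- `y ^ (i d)` -/
def yd (d y : ℝ) : ℂ := cexp (I * ((d * Real.log y : ℝ) : ℂ))

lemma yd_nat (d : ℝ) {n : ℕ} (hn : 1 ≤ n) : ((n : ℂ)) ^ (I * (d : ℂ)) = yd d n := by
  have h0 : (n : ℂ) ≠ 0 := by
    have : n ≠ 0 := by omega
    exact_mod_cast this
  rw [Complex.cpow_def_of_ne_zero h0]
  unfold yd
  congr 1
  rw [← Complex.ofReal_natCast, ← Complex.ofReal_log (Nat.cast_nonneg n)]
  push_cast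
  ring

lemma yd_norm (d y : ℝ) : ‖yd d y‖ = 1 := by
  unfold yd
  rw [mul_comm]
  exact Complex.norm_exp_ofReal_mul_I _

lemma yd_close (d : ℝ) {n y : ℝ} (hn : 1 ≤ n) (h1 : n ≤ y) (h2 : y ≤ n + 1) :
    ‖yd d n - yd d y‖ ≤ |d| / n := by
  have hn0 : 0 < n := by linarith
  have hy0 : 0 < y := by linarith
  have h3 : yd d n - yd d y = yd d y * (cexp (I * ((d * (Real.log n - Real.log y) : ℝ) : ℂ)) - 1) := by
    unfold yd
    rw [mul_sub, ← Complex.exp_add, mul_one]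
    congr 2
    push_cast
    ring
  rw [h3, norm_mul, yd_norm, one_mul]
  refine (Real.norm_exp_I_mul_ofReal_sub_one_le).trans ?_
  rw [Real.norm_eq_abs, abs_mul, div_eq_mul_inv]
  apply mul_le_mul_of_nonneg_left _ (abs_nonneg d)
  have h4 : Real.log n ≤ Real.log y := Real.log_le_log hn0 h1
  rw [abs_of_nonpos (by linarith)]
  have h5 : Real.log y - Real.log n = Real.log (y / n) := (Real.log_div hy0.ne' hn0.ne').symm
  have h6 : Real.log (y / n) ≤ y / n - 1 := Real.log_le_sub_one_of_pos (by positivity)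
  have h7 : y / n - 1 ≤ n⁻¹ := by
    have h8 : y / n ≤ (n + 1) / n := div_le_div_of_nonneg_right h2 hn0.le
    have h9 : (n + 1) / n = 1 + n⁻¹ := by field_simp
    linarith
  linarith

/-! ### The function to be summed -/

/-- the weight along the squares -/
def fy (d x y : ℝ) : ℝ := Wd d (y ^ 2 / x)

/-- the antiderivative of `fy' * y ^ (i d)` -/
def Fy (d x y : ℝ) : ℂ := cexp (I * ((d * Real.log x / 2 : ℝ) : ℂ)) * Ph d (Real.log (y ^ 2 / x))

lemma fy_deriv (d : ℝ) {x y : ℝ} (hx : 0 < x) (hy : 0 < y) :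
    HasDerivAt (fy d x) (2 / y * om d (Real.log (y ^ 2 / x))) y := by
  have h0 : 0 < y ^ 2 / x := by positivity
  have h1 : HasDerivAt (fun y : ℝ => y ^ 2 / x) (2 * y / x) y := by
    have := (hasDerivAt_pow 2 y).div_const x
    refine this.congr_deriv ?_
    push_cast
    ring
  have h2 := (Wd_deriv d h0).comp y h1
  refine h2.congr_deriv ?_
  field_simp

lemma Ly_deriv {x y : ℝ} (hx : 0 < x) (hy : 0 < y) :
    HasDerivAt (fun y : ℝ => Real.log (y ^ 2 / x)) (2 / y) y := by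
  have h0 : 0 < y ^ 2 / x := by positivity
  have h1 : HasDerivAt (fun y : ℝ => y ^ 2 / x) (2 * y / x) y := by
    have := (hasDerivAt_pow 2 y).div_const x
    refine this.congr_deriv ?_
    push_cast
    ring
  have h2 := h1.log h0.ne'
  refine h2.congr_deriv ?_
  field_simp

lemma Fy_deriv {d : ℝ} (hd : d ≠ 0) {x y : ℝ} (hx : 0 < x) (hy : 0 < y) :
    HasDerivAt (Fy d x) (((2 / y * om d (Real.log (y ^ 2 / x)) : ℝ) : ℂ) * yd d y) y := by
  have h1 := (Ph_deriv hd (Real.log (y ^ 2 / x))).scomp y (Ly_deriv hx hy)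
  have h2 := h1.const_mul (cexp (I * ((d * Real.log x / 2 : ℝ) : ℂ)))
  refine h2.congr_deriv ?_
  have h3 : yd d y = cexp (I * ((d * Real.log x / 2 : ℝ) : ℂ)) *
      cexp (I * d * (Real.log (y ^ 2 / x) : ℝ) / 2) := by
    unfold yd
    rw [← Complex.exp_add]
    congr 1
    rw [Real.log_div (by positivity) hx.ne', Real.log_pow]
    push_cast
    ring
  rw [h3, Complex.real_smul]
  push_cast
  ring

lemma sup_le {d : ℝ} {C : ℝ} (hC : ∀ L : ℝ, |om d L| ≤ C * Real.exp (-L ^ 2 / 8)) (hC0 : 0 < C)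
    {x n y : ℝ} (hx : 0 < x) (hn : 1 ≤ n) (h1 : n ≤ y) (h2 : y ≤ n + 1) :
    |2 / y * om d (Real.log (y ^ 2 / x))| ≤
      2 / n * (C * (4 * Real.exp 2 * min 1 (n ^ 2 / x))) := by
  have hn0 : 0 < n := by linarith
  have hy0 : 0 < y := by linarith
  rw [abs_mul, abs_of_pos (by positivity : 0 < 2 / y)]
  have h3 : 2 / y ≤ 2 / n := div_le_div_of_nonneg_left (by norm_num) hn0 h1
  refine mul_le_mul h3 ?_ (abs_nonneg _) (by positivity)
  refine (hC _).trans ?_
  apply mul_le_mul_of_nonneg_left _ hC0.le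
  have hE : (1 : ℝ) ≤ Real.exp 2 := Real.one_le_exp (by norm_num)
  rcases le_total 1 (n ^ 2 / x) with h4 | h4
  · rw [min_eq_left h4]
    have := e8_le_one (Real.log (y ^ 2 / x))
    linarith
  · rw [min_eq_right h4]
    refine (e8_le (-1) _).trans ?_
    have h5 : -(-1 * Real.log (y ^ 2 / x)) = Real.log (y ^ 2 / x) := by ring
    have h6 : (2 : ℝ) * (-1) ^ 2 = 2 := by norm_num
    rw [h5, h6, Real.exp_log (by positivity)]
    have h7 : y ^ 2 / x ≤ 4 * (n ^ 2 / x) := by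
      have h8 : y ≤ 2 * n := by linarith
      have h9 : y ^ 2 ≤ 4 * n ^ 2 := by nlinarith
      calc y ^ 2 / x ≤ (4 * n ^ 2) / x := div_le_div_of_nonneg_right h9 hx.le
        _ = _ := by ring
    calc Real.exp 2 * (y ^ 2 / x) ≤ Real.exp 2 * (4 * (n ^ 2 / x)) :=
          mul_le_mul_of_nonneg_left h7 (by positivity)
      _ = _ := by ring

/-- one step of the telescoping sum -/
lemma tele {x n : ℝ} (hx : 0 < x) (hn : 1 ≤ n) :
    min 1 (n ^ 2 / x) / n ^ 2 ≤ 4 * ((n - 1 + √x)⁻¹ - (n + √x)⁻¹) := by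
  have hs : 0 < √x := Real.sqrt_pos.2 hx
  have hss : √x * √x = x := Real.mul_self_sqrt hx.le
  have hn0 : 0 < n := by linarith
  have h1 : min 1 (n ^ 2 / x) / n ^ 2 ≤ 4 / (n + √x) ^ 2 := by
    rcases le_total (√x) n with h | h
    · calc min 1 (n ^ 2 / x) / n ^ 2 ≤ 1 / n ^ 2 :=
            div_le_div_of_nonneg_right (min_le_left _ _) (by positivity)
        _ = 4 / (2 * n) ^ 2 := by field_simp; norm_num
        _ ≤ 4 / (n + √x) ^ 2 := by
            apply div_le_div_of_nonneg_left (by norm_num) (by positivity)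
            apply pow_le_pow_left₀ (by positivity)
            linarith
    · calc min 1 (n ^ 2 / x) / n ^ 2 ≤ (n ^ 2 / x) / n ^ 2 :=
            div_le_div_of_nonneg_right (min_le_right _ _) (by positivity)
        _ = 4 / (2 * √x) ^ 2 := by
            have : (2 * √x) ^ 2 = 4 * x := by nlinarith
            rw [this]
            field_simp
        _ ≤ 4 / (n + √x) ^ 2 := by
            apply div_le_div_of_nonneg_left (by norm_num) (by positivity)
            apply pow_le_pow_left₀ (by positivity)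
            linarith
  refine h1.trans ?_
  rw [div_eq_mul_inv]
  apply mul_le_mul_of_nonneg_left _ (by norm_num)
  have h2 : 0 < n - 1 + √x := by linarith
  have h3 : 0 < n + √x := by linarith
  have h4 : (n - 1 + √x)⁻¹ - (n + √x)⁻¹ = ((n - 1 + √x) * (n + √x))⁻¹ := by
    field_simp
    ring
  rw [h4]
  apply inv_anti₀ (by positivity)
  nlinarith

/-- the partial sums -/
def As (d : ℝ) (n : ℕ) : ℂ := ∑ g ∈ Finset.Icc 1 n, (g : ℂ) ^ (-1 + I * (d : ℂ))

lemma As_succ (d : ℝ) (n : ℕ) : As d (n + 1) = As d n + ((n + 1 : ℕ) : ℂ) ^ (-1 + I * (d : ℂ)) := by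
  unfold As
  rw [Finset.sum_Icc_succ_top (by omega)]

lemma As_eq {d : ℝ} (hd : d ≠ 0) {n : ℕ} (hn : 1 ≤ n) :
    ‖As d n - riemannZeta (1 - I * d) - yd d n / (I * d)‖ ≤ ‖1 - I * (d : ℂ)‖ / n := by
  have hd' : (d : ℂ) ≠ 0 := by exact_mod_cast hd
  have hre : (1 - I * (d : ℂ)).re = 1 := by simp
  have hs1 : (1 - I * (d : ℂ)) ≠ 1 := by
    intro h
    have h2 : I * (d : ℂ) = 0 := by linear_combination -h
    exact (mul_ne_zero Complex.I_ne_zero hd') h2
  have h := Pool.Agent.H307R2.zeta_eq hn (s := 1 - I * (d : ℂ)) (by rw [hre]; norm_num) hs1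
  have h2 : -(1 - I * (d : ℂ)) = -1 + I * d := by ring
  have h3 : 1 - (1 - I * (d : ℂ)) = I * d := by ring
  have h4 : 1 - I * (d : ℂ) - 1 = -(I * d) := by ring
  rw [h2, h3, h4, yd_nat d hn] at h
  have h5 : As d n - riemannZeta (1 - I * d) - yd d n / (I * d) =
      -((1 - I * (d : ℂ)) * Pool.Agent.H307R2.TM n Pool.Agent.H307R2.Ez (1 - I * (d : ℂ))) := by
    rw [h]
    unfold As
    rw [div_neg]
    ring
  rw [h5, norm_neg, norm_mul, div_eq_mul_inv]
  apply mul_le_mul_of_nonneg_left _ (norm_nonneg _)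
  have h6 := Pool.Agent.H307R2.TM_norm_le hn Pool.Agent.H307R2.Ez_norm_le
    (s := 1 - I * (d : ℂ)) (by rw [hre]; norm_num)
  rw [hre, one_mul, div_one, Real.rpow_neg_one] at h6
  exact h6

/-- the error terms -/
def Ee (d x : ℝ) (n : ℕ) : ℂ :=
  (yd d n * ((fy d x ((n + 1 : ℕ) : ℝ) - fy d x n : ℝ) : ℂ) -
    (Fy d x ((n + 1 : ℕ) : ℝ) - Fy d x n)) / (I * d) +
  (As d n - riemannZeta (1 - I * d) - yd d n / (I * d)) *
    ((fy d x ((n + 1 : ℕ) : ℝ) - fy d x n : ℝ) : ℂ)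

lemma abel (d x : ℝ) (G : ℕ) (hG : 1 ≤ G) :
    ∑ g ∈ Finset.Icc 1 G, (g : ℂ) ^ (-1 + I * (d : ℂ)) * (fy d x g : ℂ) =
      riemannZeta (1 - I * d) * (fy d x 1 : ℂ) +
      (fy d x G : ℂ) * (As d G - riemannZeta (1 - I * d)) -
      (Fy d x G - Fy d x 1) / (I * d) - ∑ n ∈ Finset.Ico 1 G, Ee d x n := by
  induction G, hG using Nat.le_induction with
  | base =>
    simp [As]
    ring
  | succ G hG ih =>
    rw [Finset.sum_Icc_succ_top (by omega), ih, Finset.sum_Ico_succ_top hG, As_succ]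
    unfold Ee
    push_cast
    ring

lemma Ee_le {d : ℝ} (hd : d ≠ 0) {C : ℝ} (hC : ∀ L : ℝ, |om d L| ≤ C * Real.exp (-L ^ 2 / 8))
    (hC0 : 0 < C) {x : ℝ} (hx : 0 < x) {n : ℕ} (hn : 1 ≤ n) :
    ‖Ee d x n‖ ≤ (8 * Real.exp 2 * C * (1 + ‖1 - I * (d : ℂ)‖)) *
      (min 1 ((n : ℝ) ^ 2 / x) / (n : ℝ) ^ 2) := by
  have hn1 : (1 : ℝ) ≤ n := by exact_mod_cast hn
  have hn0 : (0 : ℝ) < n := by linarith
  set B : ℝ := 2 / (n : ℝ) * (C * (4 * Real.exp 2 * min 1 ((n : ℝ) ^ 2 / x))) with hB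
  have hB0 : 0 ≤ B := by positivity
  have hdp : 0 < |d| := abs_pos.2 hd
  have hcast : (((n + 1 : ℕ) : ℝ)) = (n : ℝ) + 1 := by push_cast; rfl
  -- the increment of `fy`
  have h1 : |fy d x ((n + 1 : ℕ) : ℝ) - fy d x n| ≤ B := by
    rw [hcast]
    have h := norm_image_sub_le_of_norm_deriv_le_segment' (f := fy d x)
      (f' := fun y => 2 / y * om d (Real.log (y ^ 2 / x))) (C := B) (a := (n : ℝ)) (b := n + 1)
      (fun y hy => (fy_deriv d hx (by linarith [hy.1])).hasDerivWithinAt)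
      (fun y hy => by
        rw [Real.norm_eq_abs]
        exact sup_le hC hC0 hx hn1 hy.1 hy.2.le) ((n : ℝ) + 1) ⟨by linarith, le_rfl⟩
    rw [Real.norm_eq_abs] at h
    linarith
  -- the difference with the antiderivative
  have h2 : ‖yd d n * ((fy d x ((n + 1 : ℕ) : ℝ) - fy d x n : ℝ) : ℂ) -
      (Fy d x ((n + 1 : ℕ) : ℝ) - Fy d x n)‖ ≤ B * (|d| / n) := by
    rw [hcast]
    have h := norm_image_sub_le_of_norm_deriv_le_segment'
      (f := fun y : ℝ => yd d n * ((fy d x y : ℝ) : ℂ) - Fy d x y)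
      (f' := fun y => ((2 / y * om d (Real.log (y ^ 2 / x)) : ℝ) : ℂ) * (yd d n - yd d y))
      (C := B * (|d| / n)) (a := (n : ℝ)) (b := n + 1)
      (fun y hy => by
        have hy0 : 0 < y := by linarith [hy.1]
        have e1 := ((fy_deriv d hx hy0).ofReal_comp).const_mul (yd d n)
        have e2 := Fy_deriv hd hx hy0
        have e3 := (e1.sub e2).hasDerivWithinAt (s := Icc (n : ℝ) (n + 1))
        refine e3.congr_deriv ?_
        ring)
      (fun y hy => by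
        rw [norm_mul, Complex.norm_real, Real.norm_eq_abs]
        exact mul_le_mul (sup_le hC hC0 hx hn1 hy.1 hy.2.le)
          (yd_close d hn1 hy.1 hy.2.le) (norm_nonneg _) hB0) ((n : ℝ) + 1) ⟨by linarith, le_rfl⟩
    have e : yd d n * ((fy d x ((n : ℝ) + 1) - fy d x n : ℝ) : ℂ) -
        (Fy d x ((n : ℝ) + 1) - Fy d x n) =
        (yd d n * ((fy d x ((n : ℝ) + 1) : ℝ) : ℂ) - Fy d x ((n : ℝ) + 1)) -
        (yd d n * ((fy d x n : ℝ) : ℂ) - Fy d x n) := by
      push_cast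
      ring
    rw [e]
    refine h.trans ?_
    rw [add_sub_cancel_left, mul_one]
  have h3 := As_eq hd hn
  unfold Ee
  refine (norm_add_le _ _).trans ?_
  have h4 : ‖(yd d n * ((fy d x ((n + 1 : ℕ) : ℝ) - fy d x n : ℝ) : ℂ) -
      (Fy d x ((n + 1 : ℕ) : ℝ) - Fy d x n)) / (I * d)‖ ≤ B / n := by
    rw [norm_div, norm_mul, Complex.norm_I, one_mul, Complex.norm_real, Real.norm_eq_abs,
      div_le_iff₀ hdp]
    refine h2.trans (le_of_eq ?_)
    ring
  have h5 : ‖(As d n - riemannZeta (1 - I * d) - yd d n / (I * d)) *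
      ((fy d x ((n + 1 : ℕ) : ℝ) - fy d x n : ℝ) : ℂ)‖ ≤ ‖1 - I * (d : ℂ)‖ / n * B := by
    rw [norm_mul, Complex.norm_real, Real.norm_eq_abs]
    exact mul_le_mul h3 h1 (abs_nonneg _) (by positivity)
  refine (add_le_add h4 h5).trans (le_of_eq ?_)
  rw [hB]
  field_simp
  ring

end PkgDG

open PkgDG in
theorem t_DG (hWD : S_WD) : S_DG := by
  intro d ε hd hε
  obtain ⟨-, -, hdec, -⟩ := hWD d hd
  obtain ⟨Co, hCo0, hCo⟩ := om_le d
  obtain ⟨Cp, hCp0, hCp⟩ := Ph_le d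
  set A : ℝ := 1 / (2 * ε) with hA
  have hA0 : 0 < A := by positivity
  obtain ⟨C1, hC10, hC1⟩ := hdec A hA0.le
  obtain ⟨C2, hC20, hC2⟩ := hdec (1 / 2) (by norm_num)
  have hdp : 0 < |d| := abs_pos.2 hd
  set Z : ℝ := ‖riemannZeta (1 - I * d)‖ with hZ
  set s1 : ℝ := ‖1 - I * (d : ℂ)‖ with hs1
  set K : ℝ := 8 * Real.exp 2 * Co * (1 + s1) with hK
  set C : ℝ := Z * C2 + C1 * 4 ^ A * (1 / |d| + s1) +
    (Cp * (Real.exp (2 * A ^ 2) * 4 ^ A) + Cp * Real.exp (2 * (1 / 2) ^ 2)) / |d| +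
    K * 4 + Z + 1 with hC
  have hs10 : 0 ≤ s1 := norm_nonneg _
  have hZ0 : 0 ≤ Z := norm_nonneg _
  have h4A : (0 : ℝ) < 4 ^ A := Real.rpow_pos_of_pos (by norm_num) _
  have hK0 : 0 ≤ K := by positivity
  refine ⟨C, by positivity, ?_⟩
  intro x G hx hG
  have hx0 : 0 < x := by linarith
  set q : ℝ := x ^ (-(1 / 2) : ℝ) with hq
  have hq0 : 0 < q := Real.rpow_pos_of_pos hx0 _
  rcases Nat.eq_zero_or_pos G with hG0 | hG0
  · -- the empty sum
    subst hG0
    have h1 : x = 1 := by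
      by_contra hne
      have h2 : 1 < x := lt_of_le_of_ne hx (Ne.symm hne)
      have h3 : 1 < x ^ (1 + ε) := Real.one_lt_rpow h2 (by linarith)
      have h4 : (((0 : ℕ) : ℝ) + 1) ^ 2 = 1 := by norm_num
      rw [h4] at hG
      linarith
    have h2 : q = 1 := by rw [hq, h1, Real.one_rpow]
    rw [h2]
    simp only [Finset.Icc_eq_empty_of_lt (by norm_num : (0 : ℕ) < 1), Finset.sum_empty, zero_sub,
      norm_neg, mul_one]
    have h5 : 0 ≤ Z * C2 + C1 * 4 ^ A * (1 / |d| + s1) +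
      (Cp * (Real.exp (2 * A ^ 2) * 4 ^ A) + Cp * Real.exp (2 * (1 / 2) ^ 2)) / |d| +
      K * 4 := by positivity
    rw [hC]
    linarith
  · have hG1 : (1 : ℝ) ≤ G := by exact_mod_cast hG0
    have hGp : (0 : ℝ) < G := by linarith
    -- the size of `G² / x`
    have hv : x ^ ε / 4 ≤ (G : ℝ) ^ 2 / x := by
      rw [div_le_div_iff₀ (by norm_num) hx0]
      have h1 : x ^ ε * x = x ^ (1 + ε) := by
        rw [add_comm, Real.rpow_add hx0, Real.rpow_one]
      rw [h1]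
      have h2 : ((G : ℝ) + 1) ^ 2 ≤ (G : ℝ) ^ 2 * 4 := by nlinarith
      linarith
    have hv0 : 0 < (G : ℝ) ^ 2 / x := by positivity
    have hvA : ((G : ℝ) ^ 2 / x) ^ (-A) ≤ 4 ^ A * q := by
      have h1 : ((G : ℝ) ^ 2 / x) ^ (-A) ≤ (x ^ ε / 4) ^ (-A) :=
        Real.rpow_le_rpow_of_nonpos (by positivity) hv (by linarith)
      refine h1.trans (le_of_eq ?_)
      rw [Real.div_rpow (by positivity) (by norm_num), ← Real.rpow_mul hx0.le,
        Real.rpow_neg (by norm_num : (0 : ℝ) ≤ 4), div_inv_eq_mul, mul_comm]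
      congr 1
      rw [hq]
      congr 1
      rw [hA]
      field_simp
    have b1 : |fy d x G| ≤ C1 * 4 ^ A * q := by
      unfold fy
      refine (hC1 _ hv0).trans ?_
      rw [mul_assoc]
      exact mul_le_mul_of_nonneg_left hvA hC10.le
    have b2 : ‖Fy d x G‖ ≤ Cp * (Real.exp (2 * A ^ 2) * 4 ^ A) * q := by
      unfold Fy
      rw [norm_mul, mul_comm I, Complex.norm_exp_ofReal_mul_I, one_mul]
      refine (hCp _).trans ?_
      rw [mul_assoc]
      apply mul_le_mul_of_nonneg_left _ hCp0.le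
      refine (e8_le A _).trans ?_
      rw [mul_assoc]
      apply mul_le_mul_of_nonneg_left _ (Real.exp_pos _).le
      refine le_trans (le_of_eq ?_) hvA
      rw [Real.rpow_def_of_pos hv0]
      congr 1
      ring
    have b3 : ‖Fy d x 1‖ ≤ Cp * Real.exp (2 * (1 / 2) ^ 2) * q := by
      unfold Fy
      rw [norm_mul, mul_comm I, Complex.norm_exp_ofReal_mul_I, one_mul]
      refine (hCp _).trans ?_
      rw [mul_assoc]
      apply mul_le_mul_of_nonneg_left _ hCp0.le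
      refine (e8_le (-(1 / 2)) _).trans ?_
      rw [show (-(1 / 2) : ℝ) ^ 2 = (1 / 2) ^ 2 by norm_num]
      apply mul_le_mul_of_nonneg_left _ (Real.exp_pos _).le
      apply le_of_eq
      rw [hq, Real.rpow_def_of_pos hx0]
      congr 1
      rw [one_pow, Real.log_div one_ne_zero hx0.ne', Real.log_one]
      ring
    have b4 : ‖(fy d x 1 : ℂ) - 1‖ ≤ C2 * q := by
      have h1 : fy d x 1 = 1 - Wd d x := by
        unfold fy
        rw [one_pow, one_div, Wd_inv]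
      rw [h1]
      have h2 : (((1 - Wd d x : ℝ)) : ℂ) - 1 = -((Wd d x : ℝ) : ℂ) := by
        push_cast
        ring
      rw [h2, norm_neg, Complex.norm_real, Real.norm_eq_abs]
      exact hC2 x hx0
    have b5 : ‖As d G - riemannZeta (1 - I * d)‖ ≤ 1 / |d| + s1 := by
      have h1 := As_eq hd hG0
      have h2 : As d G - riemannZeta (1 - I * d) = yd d G / (I * d) +
          (As d G - riemannZeta (1 - I * d) - yd d G / (I * d)) := by ring
      rw [h2]
      refine (norm_add_le _ _).trans (add_le_add ?_ (h1.trans ?_))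
      · rw [norm_div, yd_norm, norm_mul, Complex.norm_I, one_mul, Complex.norm_real,
          Real.norm_eq_abs]
      · exact div_le_self hs10 hG1
    have b6 : ‖∑ n ∈ Finset.Ico 1 G, Ee d x n‖ ≤ K * 4 * q := by
      have h1 : ∀ n ∈ Finset.Ico 1 G, ‖Ee d x n‖ ≤
          K * (4 * (((n : ℝ) - 1 + √x)⁻¹ - ((n : ℝ) + √x)⁻¹)) := by
        intro n hn
        have hn1 := (Finset.mem_Ico.1 hn).1
        refine (Ee_le hd hCo hCo0 hx0 hn1).trans ?_
        apply mul_le_mul_of_nonneg_left _ hK0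
        exact tele hx0 (by exact_mod_cast hn1)
      refine (norm_sum_le_of_le _ h1).trans ?_
      rw [← Finset.mul_sum, ← Finset.mul_sum]
      have h2 : ∀ G : ℕ, 1 ≤ G → ∑ n ∈ Finset.Ico 1 G, (((n : ℝ) - 1 + √x)⁻¹ - ((n : ℝ) + √x)⁻¹) =
          (√x)⁻¹ - ((G : ℝ) - 1 + √x)⁻¹ := by
        intro G hG
        induction G, hG using Nat.le_induction with
        | base => simp
        | succ G hG ih =>
          rw [Finset.sum_Ico_succ_top hG, ih]
          push_cast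
          ring_nf
      rw [h2 G hG0, show K * 4 * q = K * (4 * q) by ring]
      apply mul_le_mul_of_nonneg_left _ hK0
      apply mul_le_mul_of_nonneg_left _ (by norm_num)
      have h3 : (√x)⁻¹ = q := by
        rw [hq, Real.rpow_neg hx0.le, Real.sqrt_eq_rpow]
      rw [h3]
      have h4 : 0 ≤ ((G : ℝ) - 1 + √x)⁻¹ := by
        apply inv_nonneg.2
        have := Real.sqrt_nonneg x
        linarith
      linarith
    have hmain := abel d x G hG0
    have hsum : ∑ g ∈ Finset.Icc 1 G, (g : ℂ) ^ (-1 + I * (d : ℂ)) * (Wd d ((g : ℝ) ^ 2 / x) : ℂ) =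
        ∑ g ∈ Finset.Icc 1 G, (g : ℂ) ^ (-1 + I * (d : ℂ)) * (fy d x g : ℂ) := rfl
    rw [hsum, hmain]
    have e : riemannZeta (1 - I * d) * (fy d x 1 : ℂ) +
        (fy d x G : ℂ) * (As d G - riemannZeta (1 - I * d)) -
        (Fy d x G - Fy d x 1) / (I * d) - ∑ n ∈ Finset.Ico 1 G, Ee d x n -
        riemannZeta (1 - I * d) =
        riemannZeta (1 - I * d) * ((fy d x 1 : ℂ) - 1) +
        (fy d x G : ℂ) * (As d G - riemannZeta (1 - I * d)) +
        (-((Fy d x G - Fy d x 1) / (I * d))) + (-∑ n ∈ Finset.Ico 1 G, Ee d x n) := by ring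
    rw [e]
    have n1 : ‖riemannZeta (1 - I * d) * ((fy d x 1 : ℂ) - 1)‖ ≤ Z * (C2 * q) := by
      rw [norm_mul]
      exact mul_le_mul_of_nonneg_left b4 hZ0
    have n2 : ‖(fy d x G : ℂ) * (As d G - riemannZeta (1 - I * d))‖ ≤
        C1 * 4 ^ A * q * (1 / |d| + s1) := by
      rw [norm_mul, Complex.norm_real, Real.norm_eq_abs]
      exact mul_le_mul b1 b5 (norm_nonneg _) (by positivity)
    have n3 : ‖-((Fy d x G - Fy d x 1) / (I * d))‖ ≤
        (Cp * (Real.exp (2 * A ^ 2) * 4 ^ A) + Cp * Real.exp (2 * (1 / 2) ^ 2)) / |d| * q := by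
      rw [norm_neg, norm_div, norm_mul, Complex.norm_I, one_mul, Complex.norm_real,
        Real.norm_eq_abs, div_mul_eq_mul_div]
      apply div_le_div_of_nonneg_right _ hdp.le
      refine (norm_sub_le _ _).trans ?_
      rw [add_mul]
      exact add_le_add b2 b3
    have n4 : ‖-∑ n ∈ Finset.Ico 1 G, Ee d x n‖ ≤ K * 4 * q := by
      rw [norm_neg]
      exact b6
    refine (norm_add_le _ _).trans ((add_le_add ((norm_add_le _ _).trans
      (add_le_add ((norm_add_le _ _).trans (add_le_add n1 n2)) n3)) n4).trans ?_)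
    rw [hC]
    have h9 : 0 ≤ Z * q := by positivity
    nlinarith

end

end Pool.Agent.T2H54.TP
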