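import Pool.Agent.T2H54.TP.Stm

set_option autoImplicit false

/-! Project TP, package LCM (helper21): the reduced coefficients as sums over tuples. -/

namespace Pool.Agent.T2H54.TP

open Complex Filter Topology MeasureTheory Set
open Pool.Agent.TH612.CF Pool.Agent.TH612.GS Pool.Agent.T2H54.SB
open Pool.Agent.W182.KO hiding ee SS_summable

noncomputable section

namespace PkgLCM

/-- the coefficient of a pair `(l, r)` -/
def cc (a b : ℝ) (l r : ℕ) : ℂ :=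
  ((Nat.lcm l r : ℕ) : ℂ)⁻¹ * ((r / Nat.gcd l r : ℕ) : ℂ) ^ (-(I * a)) * ((l / Nat.gcd l r : ℕ) : ℂ) ^ (I * b)

lemma real_id (l r : ℕ) (hl : 0 < l) (hr : 0 < r) :
    ((l : ℝ) * r) ^ (-(1 / 2 : ℝ)) *
      (((l / Nat.gcd l r : ℕ) : ℝ) * ((r / Nat.gcd l r : ℕ) : ℝ)) ^ (-(1 / 2 : ℝ)) =
      ((Nat.lcm l r : ℕ) : ℝ)⁻¹ := by
  have hg : 0 < Nat.gcd l r := Nat.gcd_pos_of_pos_left _ hl
  obtain ⟨l', hl'⟩ := Nat.gcd_dvd_left l r
  obtain ⟨r', hr'⟩ := Nat.gcd_dvd_right l r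
  have e1 : l / Nat.gcd l r = l' := Nat.div_eq_of_eq_mul_right hg hl'
  have e2 : r / Nat.gcd l r = r' := Nat.div_eq_of_eq_mul_right hg hr'
  have e3 : Nat.lcm l r = Nat.gcd l r * l' * r' := by
    have h1 := Nat.gcd_mul_lcm l r
    have h2 : l * r = Nat.gcd l r * (Nat.gcd l r * l' * r') := by
      calc l * r = (Nat.gcd l r * l') * (Nat.gcd l r * r') := by rw [← hl', ← hr']
        _ = _ := by ring
    rw [h2] at h1
    exact Nat.eq_of_mul_eq_mul_left hg h1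
  have hl0 : 0 < l' := by
    rcases Nat.eq_zero_or_pos l' with h | h
    · rw [h] at hl'; omega
    · exact h
  have hr0 : 0 < r' := by
    rcases Nat.eq_zero_or_pos r' with h | h
    · rw [h] at hr'; omega
    · exact h
  rw [e1, e2, ← Real.mul_rpow (by positivity) (by positivity)]
  have e4 : (l : ℝ) * r * ((l' : ℝ) * r') = ((Nat.lcm l r : ℕ) : ℝ) ^ 2 := by
    rw [e3]
    have f1 : (l : ℝ) = (Nat.gcd l r : ℕ) * l' := by exact_mod_cast hl'
    have f2 : (r : ℝ) = (Nat.gcd l r : ℕ) * r' := by exact_mod_cast hr'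
    push_cast
    generalize ((Nat.gcd l r : ℕ) : ℝ) = g at f1 f2 ⊢
    rw [f1, f2]
    ring
  have hm : (0 : ℝ) ≤ ((Nat.lcm l r : ℕ) : ℝ) := Nat.cast_nonneg _
  rw [e4, ← Real.rpow_natCast, ← Real.rpow_mul hm]
  norm_num
  rw [Real.rpow_neg_one]

variable {n : ℕ}

lemma cf_eq (a b : ℝ) (ν : Fin n ⊕ Fin n → ℕ) (hν : ∀ i, 0 < ν i) :
    cf a b ν = cc a b (pl ν) (pr ν) := by
  have h1 : 0 < pl ν := Finset.prod_pos fun i _ => hν _
  have h2 : 0 < pr ν := Finset.prod_pos fun i _ => hν _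
  have h3 := real_id (pl ν) (pr ν) h1 h2
  have h4 : wt ν = ((pl ν : ℝ) * pr ν) ^ (-(1 / 2 : ℝ)) := by
    unfold wt pl pr
    rw [Fintype.prod_sum_type]
    push_cast
    rfl
  unfold cf kap cc
  rw [h4]
  have h5 : (((Nat.lcm (pl ν) (pr ν) : ℕ) : ℂ))⁻¹ = ((((Nat.lcm (pl ν) (pr ν) : ℕ) : ℝ)⁻¹ : ℝ) : ℂ) := by
    push_cast
    rfl
  rw [h5, ← h3]
  push_cast
  ring

/-- the coefficients of `dr` -/
lemma coef (a b : ℝ) (N l r : ℕ) (hN : N ≠ 0) (hl : l ∣ N) (hr : r ∣ N) :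
    ((N / Nat.lcm l r : ℕ) : ℂ) ^ (-(1 + I * ((a : ℂ) - b))) * cc a b l r =
      (N : ℂ)⁻¹ * (((N / r : ℕ) : ℂ) ^ (I * b) * ((N / l : ℕ) : ℂ) ^ (-(I * a))) := by
  have hN0 : 0 < N := Nat.pos_of_ne_zero hN
  have hl0 : 0 < l := Nat.pos_of_dvd_of_pos hl hN0
  have hr0 : 0 < r := Nat.pos_of_dvd_of_pos hr hN0
  have hg : 0 < Nat.gcd l r := Nat.gcd_pos_of_pos_left _ hl0
  obtain ⟨l', hl'⟩ := Nat.gcd_dvd_left l r
  obtain ⟨r', hr'⟩ := Nat.gcd_dvd_right l r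
  have e1 : l / Nat.gcd l r = l' := Nat.div_eq_of_eq_mul_right hg hl'
  have e2 : r / Nat.gcd l r = r' := Nat.div_eq_of_eq_mul_right hg hr'
  have e3 : Nat.lcm l r = Nat.gcd l r * l' * r' := by
    have h1 := Nat.gcd_mul_lcm l r
    have h2 : l * r = Nat.gcd l r * (Nat.gcd l r * l' * r') := by
      calc l * r = (Nat.gcd l r * l') * (Nat.gcd l r * r') := by rw [← hl', ← hr']
        _ = _ := by ring
    rw [h2] at h1
    exact Nat.eq_of_mul_eq_mul_left hg h1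
  have hm : Nat.lcm l r ∣ N := Nat.lcm_dvd hl hr
  have hm0 : 0 < Nat.lcm l r := Nat.lcm_pos hl0 hr0
  obtain ⟨e, he⟩ := hm
  have he0 : 0 < e := by
    rcases Nat.eq_zero_or_pos e with h | h
    · rw [h] at he; omega
    · exact h
  have f1 : N / Nat.lcm l r = e := Nat.div_eq_of_eq_mul_right hm0 he
  have f2 : N / r = e * l' := by
    refine Nat.div_eq_of_eq_mul_right hr0 ?_
    rw [he, e3]
    calc Nat.gcd l r * l' * r' * e = (Nat.gcd l r * r') * (e * l') := by ring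
      _ = r * (e * l') := by rw [← hr']
  have f3 : N / l = e * r' := by
    refine Nat.div_eq_of_eq_mul_right hl0 ?_
    rw [he, e3]
    calc Nat.gcd l r * l' * r' * e = (Nat.gcd l r * l') * (e * r') := by ring
      _ = l * (e * r') := by rw [← hl']
  unfold cc
  rw [f1, f2, f3, e1, e2]
  have he1 : (e : ℂ) ≠ 0 := by exact_mod_cast he0.ne'
  have hmc : ((Nat.lcm l r : ℕ) : ℂ) ≠ 0 := by exact_mod_cast hm0.ne'
  have g1 : (N : ℂ) = ((Nat.lcm l r : ℕ) : ℂ) * e := by exact_mod_cast he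
  have g2 : (e : ℂ) ^ (-(1 + I * ((a : ℂ) - b))) = (e : ℂ)⁻¹ * ((e : ℂ) ^ (I * b) * (e : ℂ) ^ (-(I * a))) := by
    have : -(1 + I * ((a : ℂ) - b)) = -1 + (I * b + -(I * a)) := by ring
    rw [this, Complex.cpow_add _ _ he1, Complex.cpow_add _ _ he1, Complex.cpow_neg_one]
  rw [g1, g2, Nat.cast_mul, Nat.cast_mul, Complex.natCast_mul_natCast_cpow, Complex.natCast_mul_natCast_cpow,
    mul_inv]
  ring

/-- the two generalised divisor functions -/
def Tl (θ : Fin n ⊕ Fin n → ℝ) (l : ℕ) : ℂ := tau (fun j : Fin n => -(I * (θ (Sum.inl j) : ℂ))) l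
def Tr (θ : Fin n ⊕ Fin n → ℝ) (r : ℕ) : ℂ := tau (fun j : Fin n => I * (θ (Sum.inr j) : ℂ)) r

/-- the right side as a sum over pairs -/
def F (a b : ℝ) (θ : Fin n ⊕ Fin n → ℝ) (m : ℕ) : ℂ :=
  ∑ q ∈ (m.divisors ×ˢ m.divisors).filter (fun q => Nat.lcm q.1 q.2 = m), cc a b q.1 q.2 * (Tl θ q.1 * Tr θ q.2)

lemma F_eq (a b : ℝ) (θ : Fin n ⊕ Fin n → ℝ) {m N : ℕ} (hN : N ≠ 0) (hm : m ∣ N) :
    F a b θ m = ∑ q ∈ N.divisors ×ˢ N.divisors,
      if Nat.lcm q.1 q.2 = m then cc a b q.1 q.2 * (Tl θ q.1 * Tr θ q.2) else 0 := by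
  rw [← Finset.sum_filter]
  unfold F
  refine Finset.sum_congr ?_ fun _ _ => rfl
  have hm0 : m ≠ 0 := fun h => hN (by rw [h] at hm; exact Nat.eq_zero_of_zero_dvd hm)
  ext q
  simp only [Finset.mem_filter, Finset.mem_product, Nat.mem_divisors]
  constructor
  · rintro ⟨⟨⟨h1, -⟩, h2, -⟩, h3⟩
    exact ⟨⟨⟨h1.trans hm, hN⟩, h2.trans hm, hN⟩, h3⟩
  · rintro ⟨-, h3⟩
    refine ⟨⟨⟨?_, hm0⟩, ?_, hm0⟩, h3⟩
    · rw [← h3]; exact Nat.dvd_lcm_left _ _
    · rw [← h3]; exact Nat.dvd_lcm_right _ _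

/-- convolution identity -/
lemma dr_eq (a b : ℝ) (θ : Fin n ⊕ Fin n → ℝ) (N : ℕ) (hN : N ≠ 0) :
    dr (gc a b θ) N = ∑ p ∈ N.divisorsAntidiagonal, (p.1 : ℂ) ^ (-(1 + I * ((a : ℂ) - b))) * F a b θ p.2 := by
  have h1 : dr (gc a b θ) N = (∑ r ∈ N.divisors, ((N / r : ℕ) : ℂ) ^ (I * b) * Tr θ r) *
      (∑ l ∈ N.divisors, ((N / l : ℕ) : ℂ) ^ (-(I * a)) * Tl θ l) * (N : ℂ)⁻¹ := by
    unfold dr dg
    rw [tau_succ, tau_succ]
    rw [Nat.sum_divisorsAntidiagonal' (fun x y => (x : ℂ) ^ (I * ((gc a b θ (Sum.inr 0) : ℝ) : ℂ)) *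
      tau (fun j : Fin n => I * ((gc a b θ (Sum.inr j.succ) : ℝ) : ℂ)) y),
      Nat.sum_divisorsAntidiagonal' (fun x y => (x : ℂ) ^ (-(I * ((gc a b θ (Sum.inl 0) : ℝ) : ℂ))) *
      tau (fun j : Fin n => -(I * ((gc a b θ (Sum.inl j.succ) : ℝ) : ℂ))) y)]
    simp only [gc, Sum.elim_inl, Sum.elim_inr, Fin.cons_zero, Fin.cons_succ, Tl, Tr]
  have h2 : ∑ p ∈ N.divisorsAntidiagonal, (p.1 : ℂ) ^ (-(1 + I * ((a : ℂ) - b))) * F a b θ p.2 =
      ∑ m ∈ N.divisors, ((N / m : ℕ) : ℂ) ^ (-(1 + I * ((a : ℂ) - b))) * F a b θ m :=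
    Nat.sum_divisorsAntidiagonal' (fun x y => (x : ℂ) ^ (-(1 + I * ((a : ℂ) - b))) * F a b θ y)
  rw [h1, h2]
  have h3 : ∑ m ∈ N.divisors, ((N / m : ℕ) : ℂ) ^ (-(1 + I * ((a : ℂ) - b))) * F a b θ m =
      ∑ q ∈ N.divisors ×ˢ N.divisors, ∑ m ∈ N.divisors,
        (if Nat.lcm q.1 q.2 = m then ((N / m : ℕ) : ℂ) ^ (-(1 + I * ((a : ℂ) - b))) *
          (cc a b q.1 q.2 * (Tl θ q.1 * Tr θ q.2)) else 0) := by
    rw [Finset.sum_comm]
    refine Finset.sum_congr rfl fun m hm => ?_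
    rw [F_eq a b θ hN (Nat.dvd_of_mem_divisors hm), Finset.mul_sum]
    refine Finset.sum_congr rfl fun q _ => ?_
    rw [mul_ite, mul_zero]
  rw [h3, Finset.sum_mul_sum, Finset.sum_comm, ← Finset.sum_product', Finset.sum_mul]
  refine Finset.sum_congr rfl fun q hq => ?_
  rw [Finset.mem_product] at hq
  have hq1 := Nat.dvd_of_mem_divisors hq.1
  have hq2 := Nat.dvd_of_mem_divisors hq.2
  rw [Finset.sum_ite_eq, if_pos (Nat.mem_divisors.2 ⟨Nat.lcm_dvd hq1 hq2, hN⟩)]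
  have h4 := coef a b N q.1 q.2 hN hq1 hq2
  linear_combination (-(Tl θ q.1 * Tr θ q.2)) * h4

/-- Moebius inversion -/
lemma inversion (a b : ℝ) (θ : Fin n ⊕ Fin n → ℝ) (m : ℕ) (hm : m ≠ 0) : Ar a b θ m = F a b θ m := by
  set w : ℂ := -(1 + I * ((a : ℂ) - b)) with hw
  set H : ArithmeticFunction ℂ := ⟨fun k => if k = 0 then 0 else (k : ℂ) ^ w, by simp⟩ with hH
  set MH : ArithmeticFunction ℂ := ⟨fun k => if k = 0 then 0 else (ArithmeticFunction.moebius k : ℂ) * (k : ℂ) ^ w, by simp⟩ with hMH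
  set FF : ArithmeticFunction ℂ := ⟨fun k => if k = 0 then 0 else F a b θ k, by simp⟩ with hFF
  have h1 : MH * H = 1 := by
    ext k
    rcases Nat.eq_zero_or_pos k with h | h
    · subst h; simp
    rw [ArithmeticFunction.mul_apply]
    have h2 : ∀ x ∈ k.divisorsAntidiagonal, MH x.1 * H x.2 =
        (k : ℂ) ^ w * ((ArithmeticFunction.moebius x.1 : ℤ) : ℂ) := by
      intro x hx
      obtain ⟨h3, h4⟩ := Nat.mem_divisorsAntidiagonal.1 hx
      have h5 : x.1 ≠ 0 := fun h0 => h4 (by rw [← h3, h0, zero_mul])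
      have h6 : x.2 ≠ 0 := fun h0 => h4 (by rw [← h3, h0, mul_zero])
      simp only [hMH, hH, ArithmeticFunction.coe_mk, if_neg h5, if_neg h6]
      rw [← h3, Nat.cast_mul, Complex.natCast_mul_natCast_cpow]
      ring
    rw [Finset.sum_congr rfl h2, ← Finset.mul_sum]
    have h7 : ∑ x ∈ k.divisorsAntidiagonal, ((ArithmeticFunction.moebius x.1 : ℤ) : ℂ) =
        if k = 1 then 1 else 0 := by
      have h8 : (ArithmeticFunction.moebius * (ArithmeticFunction.zeta : ArithmeticFunction ℤ)) k =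
          (1 : ArithmeticFunction ℤ) k := by rw [ArithmeticFunction.moebius_mul_coe_zeta]
      rw [ArithmeticFunction.mul_apply] at h8
      have h9 : ∑ x ∈ k.divisorsAntidiagonal, ArithmeticFunction.moebius x.1 = if k = 1 then 1 else 0 := by
        rw [ArithmeticFunction.one_apply] at h8
        rw [← h8]
        refine Finset.sum_congr rfl fun x hx => ?_
        obtain ⟨h3, h4⟩ := Nat.mem_divisorsAntidiagonal.1 hx
        have h6 : x.2 ≠ 0 := fun h0 => h4 (by rw [← h3, h0, mul_zero])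
        rw [ArithmeticFunction.natCoe_apply, ArithmeticFunction.zeta_apply, if_neg h6]
        simp
      have h10 := congrArg (fun t : ℤ => (t : ℂ)) h9
      simp only [Int.cast_sum] at h10
      rw [h10]
      split_ifs <;> simp
    rw [h7, ArithmeticFunction.one_apply]
    split_ifs with h8
    · subst h8; simp
    · simp
  have h2 : ∀ k, k ≠ 0 → dr (gc a b θ) k = (H * FF) k := by
    intro k hk
    rw [dr_eq a b θ k hk, ArithmeticFunction.mul_apply]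
    refine Finset.sum_congr rfl fun x hx => ?_
    obtain ⟨h3, h4⟩ := Nat.mem_divisorsAntidiagonal.1 hx
    have h5 : x.1 ≠ 0 := fun h0 => h4 (by rw [← h3, h0, zero_mul])
    have h6 : x.2 ≠ 0 := fun h0 => h4 (by rw [← h3, h0, mul_zero])
    simp only [hH, hFF, ArithmeticFunction.coe_mk, if_neg h5, if_neg h6]
    rfl
  have h3 : Ar a b θ m = (MH * (H * FF)) m := by
    unfold Ar
    rw [ArithmeticFunction.mul_apply]
    refine Finset.sum_congr rfl fun x hx => ?_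
    obtain ⟨h3, h4⟩ := Nat.mem_divisorsAntidiagonal.1 hx
    have h5 : x.1 ≠ 0 := fun h0 => h4 (by rw [← h3, h0, zero_mul])
    have h6 : x.2 ≠ 0 := fun h0 => h4 (by rw [← h3, h0, mul_zero])
    rw [← h2 _ h6]
    simp only [hMH, ArithmeticFunction.coe_mk, if_neg h5]
    rfl
  rw [h3, ← mul_assoc, h1, one_mul]
  simp only [hFF, ArithmeticFunction.coe_mk, if_neg hm]

/-- the sum over tuples -/
lemma tuples (a b : ℝ) (θ : Fin n ⊕ Fin n → ℝ) (M m : ℕ) (hm : 1 ≤ m) (hM : m ≤ M) :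
    ∑ ν ∈ (tup n M).filter (fun ν => Nat.lcm (pl ν) (pr ν) = m), cf a b ν * ch ν θ = F a b θ m := by
  unfold F
  set S := (tup n M).filter (fun ν => Nat.lcm (pl ν) (pr ν) = m) with hS
  have hpos : ∀ ν ∈ S, ∀ i, 0 < ν i := by
    intro ν hν i
    rw [hS, Finset.mem_filter] at hν
    have h1 := Fintype.mem_piFinset.1 hν.1 i
    exact (Finset.mem_Icc.1 h1).1
  have hmap : ∀ ν ∈ S, (pl ν, pr ν) ∈ (m.divisors ×ˢ m.divisors).filter (fun q => Nat.lcm q.1 q.2 = m) := by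
    intro ν hν
    rw [hS, Finset.mem_filter] at hν
    rw [Finset.mem_filter, Finset.mem_product, Nat.mem_divisors, Nat.mem_divisors]
    refine ⟨⟨⟨?_, by omega⟩, ?_, by omega⟩, hν.2⟩
    · rw [← hν.2]; exact Nat.dvd_lcm_left _ _
    · rw [← hν.2]; exact Nat.dvd_lcm_right _ _
  rw [← Finset.sum_fiberwise_of_maps_to hmap]
  refine Finset.sum_congr rfl fun q hq => ?_
  rw [Finset.mem_filter, Finset.mem_product, Nat.mem_divisors, Nat.mem_divisors] at hq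
  obtain ⟨⟨⟨hq1, -⟩, hq2, -⟩, hq3⟩ := hq
  have hq10 : q.1 ≠ 0 := fun h0 => by rw [h0] at hq1; have := Nat.eq_zero_of_zero_dvd hq1; omega
  have hq20 : q.2 ≠ 0 := fun h0 => by rw [h0] at hq2; have := Nat.eq_zero_of_zero_dvd hq2; omega
  have h1 : Tl θ q.1 * Tr θ q.2 = ∑ ff ∈ Nat.finMulAntidiag n q.1 ×ˢ Nat.finMulAntidiag n q.2,
      (∏ j, (ff.1 j : ℂ) ^ (-(I * (θ (Sum.inl j) : ℂ)))) * ∏ j, (ff.2 j : ℂ) ^ (I * (θ (Sum.inr j) : ℂ)) := by
    unfold Tl Tr tau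
    rw [Finset.sum_mul_sum, ← Finset.sum_product']
  rw [h1, Finset.mul_sum]
  refine Finset.sum_bij' (fun ν _ => ((fun j => ν (Sum.inl j)), fun j => ν (Sum.inr j)))
    (fun ff _ => Sum.elim ff.1 ff.2) ?_ ?_ ?_ ?_ ?_
  · intro ν hν
    rw [Finset.mem_filter] at hν
    obtain ⟨hν1, hν2⟩ := hν
    rw [Finset.mem_product, Nat.mem_finMulAntidiag, Nat.mem_finMulAntidiag, ← hν2]
    refine ⟨⟨rfl, ?_⟩, rfl, ?_⟩
    · rw [← hν2] at hq10; exact hq10
    · rw [← hν2] at hq20; exact hq20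
  · rintro ⟨f, f'⟩ hff
    rw [Finset.mem_product, Nat.mem_finMulAntidiag, Nat.mem_finMulAntidiag] at hff
    obtain ⟨⟨h2, h3⟩, h4, h5⟩ := hff
    simp only at h2 h4
    rw [Finset.mem_filter, hS, Finset.mem_filter]
    refine ⟨⟨?_, ?_⟩, ?_⟩
    · refine Fintype.mem_piFinset.2 fun i => ?_
      rw [Finset.mem_Icc]
      rcases i with i | i
      · have h6 : f i ∣ m := (h2 ▸ Finset.dvd_prod_of_mem f (Finset.mem_univ i)).trans hq1
        exact ⟨Nat.pos_of_dvd_of_pos h6 (by omega), (Nat.le_of_dvd (by omega) h6).trans hM⟩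
      · have h6 : f' i ∣ m := (h4 ▸ Finset.dvd_prod_of_mem f' (Finset.mem_univ i)).trans hq2
        exact ⟨Nat.pos_of_dvd_of_pos h6 (by omega), (Nat.le_of_dvd (by omega) h6).trans hM⟩
    · have e1 : pl (Sum.elim f f') = q.1 := h2
      have e2 : pr (Sum.elim f f') = q.2 := h4
      rw [e1, e2]
      exact hq3
    · exact Prod.ext h2 h4
  · intro ν _
    funext i
    rcases i with i | i <;> rfl
  · rintro ⟨f, f'⟩ _
    rfl
  · intro ν hν
    rw [Finset.mem_filter] at hν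
    obtain ⟨hν1, hν2⟩ := hν
    rw [cf_eq a b ν (hpos ν hν1), ← hν2]
    rfl

end PkgLCM

open PkgLCM

theorem t_LCM : S_LCM := by
  intro n a b θ M m h1 h2
  rw [inversion a b θ m (by omega), tuples a b θ M m h1 h2]

end

end Pool.Agent.T2H54.TP
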