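import Pool.Agent.T2H54.TP.Stm
import Pool.Agent.TH158.FM.Main

set_option autoImplicit false

/-!
TP-Q4 (helper69): the fourth moment of zeta.
-/

namespace Pool.Agent.T2H54.TP

open Complex Filter Topology MeasureTheory Set
open Pool.Agent.TH612.CF Pool.Agent.TH612.GS Pool.Agent.T2H54.SB

theorem t_Q4 : S_Q4 := by
  intro ε hε
  have hz1 : ∀ u : ℝ, z u = riemannZeta ⟨1 / 2, u⟩ := by
    intro u
    unfold z
    congr 1
    apply Complex.ext <;> simp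
  have hz2 : ∀ u : ℝ, z u = riemannZeta (((1 / 2 : ℝ) : ℂ) + (u : ℂ) * I) := by
    intro u
    unfold z
    congr 1
    push_cast
    ring
  have hz3 : ∀ u : ℝ, ‖z (-u)‖ = ‖z u‖ := by
    intro u
    have h1 : z (-u) = (starRingEnd ℂ) (z u) := by
      rw [hz1, hz1, ← riemannZeta_conj]
      congr 1
    rw [h1, Complex.norm_conj]
  have hc4 : Continuous fun u => ‖z u‖ ^ 4 := z_cont.norm.pow 4
  refine ⟨8 / 5 * (4 / ε) ^ 4, 1000, by positivity, by norm_num, fun T hT => ?_⟩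
  have hT0 : 0 < T := by linarith
  have h4 : ∫ t in (0:ℝ)..T, ‖riemannZeta (((1 / 2 : ℝ) : ℂ) + (t : ℂ) * I)‖ ^ 4 ≤
      4 / 5 * (T * Real.log T ^ 4) := Pool.Agent.TH158.FM.fourth_all T hT
  simp only [← hz2] at h4
  have h3 : ∫ u in (-T)..T, ‖z u‖ ^ 4 = 2 * ∫ u in (0:ℝ)..T, ‖z u‖ ^ 4 := by
    rw [← intervalIntegral.integral_add_adjacent_intervals (hc4.intervalIntegrable (-T) 0)
      (hc4.intervalIntegrable 0 T)]
    have h5 : ∫ u in (0:ℝ)..T, ‖z (-u)‖ ^ 4 = ∫ u in (-T)..(-0), ‖z u‖ ^ 4 :=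
      intervalIntegral.integral_comp_neg (fun u => ‖z u‖ ^ 4)
    rw [neg_zero] at h5
    simp only [hz3] at h5
    rw [← h5]
    ring
  rw [h3]
  have hε4 : 0 < ε / 4 := by linarith
  have hlog : Real.log T ≤ T ^ (ε / 4) / (ε / 4) := Real.log_le_rpow_div hT0.le hε4
  have hlog0 : 0 ≤ Real.log T := Real.log_nonneg (by linarith)
  have h6 : Real.log T ^ 4 ≤ (4 / ε) ^ 4 * T ^ ε := by
    calc Real.log T ^ 4 ≤ (T ^ (ε / 4) / (ε / 4)) ^ 4 := pow_le_pow_left₀ hlog0 hlog 4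
      _ = (4 / ε) ^ 4 * (T ^ (ε / 4)) ^ 4 := by
          rw [div_pow]
          field_simp
      _ = (4 / ε) ^ 4 * T ^ ε := by
          rw [← Real.rpow_natCast (T ^ (ε / 4)) 4, ← Real.rpow_mul hT0.le]
          congr 2
          push_cast
          ring
  have h7 : T ^ (1 + ε) = T * T ^ ε := by rw [Real.rpow_add hT0, Real.rpow_one]
  rw [h7]
  have h8 : T * Real.log T ^ 4 ≤ T * ((4 / ε) ^ 4 * T ^ ε) := mul_le_mul_of_nonneg_left h6 hT0.le
  calc 2 * ∫ u in (0:ℝ)..T, ‖z u‖ ^ 4 ≤ 2 * (4 / 5 * (T * Real.log T ^ 4)) := by linarith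
    _ ≤ 2 * (4 / 5 * (T * ((4 / ε) ^ 4 * T ^ ε))) := by linarith
    _ = 8 / 5 * (4 / ε) ^ 4 * (T * T ^ ε) := by ring

end Pool.Agent.T2H54.TP
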