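import Pool.Agent.T2H54.TP.Stm
import Pool.Agent.TH509.GS.DIAG

/-!
Package TN of helper54 (MP_fa2474_nt, project TP), written by helper51: the twisted second moment
with the short polynomials.
-/

set_option autoImplicit false
open Complex Filter Topology MeasureTheory Set
open Pool.Agent.TH612.GS Pool.Agent.T2H54.SB

namespace Pool.Agent.T2H54.TP

namespace TNh

noncomputable section

lemma z_cont : Continuous z := by
  unfold z
  rw [continuous_iff_continuousAt]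
  intro u
  have h1 : (1 / 2 + I * (u : ℂ)) ≠ 1 := by
    intro h
    have := congrArg Complex.re h
    simp at this
  exact (differentiableAt_riemannZeta h1).continuousAt.comp (f := fun u : ℝ => 1 / 2 + I * (u : ℂ))
    (by fun_prop)

lemma Bab_cont (a b : ℝ) : Continuous (Bab a b) := by
  unfold Bab
  have h1 : Continuous fun t : ℝ => z (t + a) := z_cont.comp (by fun_prop)
  have h2 : Continuous fun t : ℝ => z (t + b) := z_cont.comp (by fun_prop)
  exact h1.mul (Complex.continuous_conj.comp h2)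

variable {n : ℕ}

lemma tup_pos {N : ℕ} {ν : Fin n ⊕ Fin n → ℕ} (hν : ν ∈ tup n N) (i : Fin n ⊕ Fin n) : 1 ≤ ν i :=
  (Finset.mem_Icc.1 (Fintype.mem_piFinset.1 hν i)).1

lemma pl_pos {N : ℕ} {ν : Fin n ⊕ Fin n → ℕ} (hν : ν ∈ tup n N) : 0 < pl ν :=
  Finset.prod_pos fun _ _ => tup_pos hν _

lemma pr_pos {N : ℕ} {ν : Fin n ⊕ Fin n → ℕ} (hν : ν ∈ tup n N) : 0 < pr ν :=
  Finset.prod_pos fun _ _ => tup_pos hν _

lemma pl_le {N : ℕ} {ν : Fin n ⊕ Fin n → ℕ} (hν : ν ∈ tup n N) : pl ν ≤ N ^ n := by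
  have := Finset.prod_le_pow_card Finset.univ (fun j : Fin n => ν (Sum.inl j)) N
    fun j _ => (Finset.mem_Icc.1 (Fintype.mem_piFinset.1 hν (Sum.inl j))).2
  simpa [pl] using this

lemma pr_le {N : ℕ} {ν : Fin n ⊕ Fin n → ℕ} (hν : ν ∈ tup n N) : pr ν ≤ N ^ n := by
  have := Finset.prod_le_pow_card Finset.univ (fun j : Fin n => ν (Sum.inr j)) N
    fun j _ => (Finset.mem_Icc.1 (Fintype.mem_piFinset.1 hν (Sum.inr j))).2
  simpa [pr] using this

end

end TNh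

open TNh Pool.Agent.TH509.GS in
theorem t_TN (h : S_TAB) : S_TN := by
  classical
  intro n a b hab
  obtain ⟨C, T₀, hC, hT₀, hT⟩ := h a b hab
  refine ⟨C, T₀, hC, hT₀, ?_⟩
  intro T S N θ hT1 hS0 hST hN hNT
  have hT0 : (0 : ℝ) < T := by linarith
  set Z₁ : ℂ := riemannZeta (1 + I * ((a - b : ℝ) : ℂ)) with hZ₁
  set Z₂ : ℂ := riemannZeta (1 - I * ((a - b : ℝ) : ℂ)) with hZ₂
  set J : ℂ := ∫ t in (0:ℝ)..S, Xab a b t with hJ
  set lo : (Fin n ⊕ Fin n → ℕ) → ℕ := fun ν => pl ν / Nat.gcd (pl ν) (pr ν) with hlo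
  set hi : (Fin n ⊕ Fin n → ℕ) → ℕ := fun ν => pr ν / Nat.gcd (pl ν) (pr ν) with hhi
  have hfreq : ∀ ν ∈ tup n N, th ν = Real.log (hi ν) - Real.log (lo ν) := by
    intro ν hν
    rw [th_eq ν (tup_pos hν)]
    have h1 := pl_pos hν
    have h2 := pr_pos hν
    have hg : 0 < Nat.gcd (pl ν) (pr ν) := Nat.gcd_pos_of_pos_left _ h1
    have hgr : (0 : ℝ) < Nat.gcd (pl ν) (pr ν) := by exact_mod_cast hg
    have e1 : ((lo ν : ℕ) : ℝ) = (pl ν : ℝ) / Nat.gcd (pl ν) (pr ν) :=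
      Nat.cast_div (Nat.gcd_dvd_left _ _) hgr.ne'
    have e2 : ((hi ν : ℕ) : ℝ) = (pr ν : ℝ) / Nat.gcd (pl ν) (pr ν) :=
      Nat.cast_div (Nat.gcd_dvd_right _ _) hgr.ne'
    have h1r : (0 : ℝ) < pl ν := by exact_mod_cast h1
    have h2r : (0 : ℝ) < pr ν := by exact_mod_cast h2
    rw [e1, e2, Real.log_div h2r.ne' hgr.ne', Real.log_div h1r.ne' hgr.ne']
    show Real.log (pr ν : ℝ) - Real.log (pl ν : ℝ) = _
    ring
  have e1 : (∫ t in (0:ℝ)..S, Bab a b t * ∏ j : Fin n, PN N (t + θ (Sum.inl j)) *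
      (starRingEnd ℂ) (PN N (t + θ (Sum.inr j)))) =
      ∑ ν ∈ tup n N, (wt ν : ℂ) * ch ν θ *
        ∫ t in (0:ℝ)..S, Bab a b t *
          cexp (I * ((t * (Real.log (hi ν) - Real.log (lo ν)) : ℝ) : ℂ)) := by
    have e0 : ∀ t : ℝ, Bab a b t * (∏ j : Fin n, PN N (t + θ (Sum.inl j)) *
        (starRingEnd ℂ) (PN N (t + θ (Sum.inr j)))) =
        ∑ ν ∈ tup n N, (wt ν : ℂ) * ch ν θ * (Bab a b t *
          cexp (I * ((t * (Real.log (hi ν) - Real.log (lo ν)) : ℝ) : ℂ))) := by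
      intro t
      rw [integrand_eq, Finset.mul_sum]
      refine Finset.sum_congr rfl fun ν hν => ?_
      rw [hfreq ν hν]
      have e3 : I * (t : ℂ) * ((Real.log (hi ν) - Real.log (lo ν) : ℝ) : ℂ) =
          I * ((t * (Real.log (hi ν) - Real.log (lo ν)) : ℝ) : ℂ) := by
        push_cast; ring
      rw [e3]
      ring
    simp_rw [e0]
    rw [intervalIntegral.integral_finsetSum]
    · refine Finset.sum_congr rfl fun ν _ => ?_
      exact intervalIntegral.integral_const_mul _ _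
    · intro ν _
      apply Continuous.intervalIntegrable
      have := Bab_cont a b
      fun_prop
  have e2 : Z₁ * RN a b N θ * (S : ℂ) + Z₂ * RN b a N θ * J =
      ∑ ν ∈ tup n N, (wt ν : ℂ) * ch ν θ *
        (kap a b (lo ν) (hi ν) * Z₁ * (S : ℂ) + kap b a (lo ν) (hi ν) * Z₂ * J) := by
    unfold RN cf
    rw [Finset.mul_sum, Finset.sum_mul, Finset.mul_sum, Finset.sum_mul, ← Finset.sum_add_distrib]
    refine Finset.sum_congr rfl fun ν _ => ?_
    simp only [hlo, hhi]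
    ring
  rw [e1, e2, ← Finset.sum_sub_distrib]
  have hterm : ∀ ν ∈ tup n N, ‖(wt ν : ℂ) * ch ν θ *
        (∫ t in (0:ℝ)..S, Bab a b t *
          cexp (I * ((t * (Real.log (hi ν) - Real.log (lo ν)) : ℝ) : ℂ))) -
      (wt ν : ℂ) * ch ν θ *
        (kap a b (lo ν) (hi ν) * Z₁ * (S : ℂ) + kap b a (lo ν) (hi ν) * Z₂ * J)‖ ≤
      C * T ^ (4 / 5 : ℝ) := by
    intro ν hν
    rw [← mul_sub, norm_mul, norm_mul, norm_ch (tup_pos hν), mul_one, Complex.norm_real,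
      Real.norm_of_nonneg (wt_bd (tup_pos hν)).1]
    have h1 := pl_pos hν
    have h2 := pr_pos hν
    have hg : 0 < Nat.gcd (pl ν) (pr ν) := Nat.gcd_pos_of_pos_left _ h1
    have hl1 : 1 ≤ lo ν := Nat.div_pos (Nat.le_of_dvd h1 (Nat.gcd_dvd_left _ _)) hg
    have hm1 : 1 ≤ hi ν := Nat.div_pos (Nat.le_of_dvd h2 (Nat.gcd_dvd_right _ _)) hg
    have hcop : Nat.Coprime (lo ν) (hi ν) := Nat.coprime_div_gcd_div_gcd hg
    have hle : ((lo ν : ℕ) : ℝ) * (hi ν : ℕ) ≤ T ^ (1 / 8 : ℝ) := by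
      refine le_trans ?_ hNT
      have h3 : lo ν * hi ν ≤ N ^ (2 * n) := by
        calc lo ν * hi ν ≤ pl ν * pr ν := Nat.mul_le_mul (Nat.div_le_self _ _) (Nat.div_le_self _ _)
          _ ≤ N ^ n * N ^ n := Nat.mul_le_mul (pl_le hν) (pr_le hν)
          _ = N ^ (2 * n) := by rw [← pow_add]; congr 1; ring
      exact_mod_cast h3
    have hmain := hT T S (lo ν) (hi ν) hT1 hS0 hST hl1 hm1 hcop hle
    calc wt ν * ‖(∫ t in (0:ℝ)..S, Bab a b t *
          cexp (I * ((t * (Real.log (hi ν) - Real.log (lo ν)) : ℝ) : ℂ))) -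
          (kap a b (lo ν) (hi ν) * Z₁ * (S : ℂ) + kap b a (lo ν) (hi ν) * Z₂ * J)‖
        ≤ 1 * (C * T ^ (4 / 5 : ℝ)) :=
          mul_le_mul (wt_bd (tup_pos hν)).2 hmain (norm_nonneg _) zero_le_one
      _ = _ := one_mul _
  refine (norm_sum_le_of_le _ hterm).trans ?_
  rw [Finset.sum_const, nsmul_eq_mul]
  have hcard : (tup n N).card = N ^ (2 * n) := by
    unfold tup
    rw [Fintype.card_piFinset]
    simp [two_mul]
  rw [hcard]
  push_cast
  apply le_of_eq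
  ring

end Pool.Agent.T2H54.TP
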