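import Pool.Agent.T2H54.TP.Stm

set_option autoImplicit false

namespace Pool.Agent.T2H54.TP

open Complex Filter Topology MeasureTheory Set
open Pool.Agent.TH612.CF Pool.Agent.TH612.GS Pool.Agent.T2H54.SB
open Pool.Agent.Y969.GP (V ht lam PS FR)

namespace WDp

open Pool.Agent.Y587.GP

lemma eexp (t : ℝ) : t ≤ Real.exp t := by linarith [Real.add_one_le_exp t]

/-- `|l| gs l ≤ 2` -/
lemma lgs (l : ℝ) : |l| * gs l ≤ 4 := by
  have h := exp_bd l
  have h0 := (gs_pos l).le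
  nlinarith [abs_nonneg l]

/-- `l² gs l ≤ 4` -/
lemma l2gs (l : ℝ) : l ^ 2 * gs l ≤ 4 := by
  have h1 : gs l * Real.exp (l ^ 2 / 4) = 1 := by
    unfold gs
    rw [← Real.exp_add]
    rw [show -l ^ 2 / 4 + l ^ 2 / 4 = 0 by ring, Real.exp_zero]
  have h2 := eexp (l ^ 2 / 4)
  have h3 := (gs_pos l).le
  have h4 : gs l * (l ^ 2 / 4) ≤ gs l * Real.exp (l ^ 2 / 4) := mul_le_mul_of_nonneg_left h2 h3
  linarith

/-- the second part as a function of `l = log x` -/
noncomputable def hh (d l : ℝ) : ℝ := l * gs l / (d ^ 2 * √Real.pi)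

/-- its derivative -/
noncomputable def hh1 (d l : ℝ) : ℝ := gs l * (1 - l ^ 2 / 2) / (d ^ 2 * √Real.pi)

lemma Wd_eq (d x : ℝ) : Wd d x = V x + hh d (Real.log x) := rfl

lemma hh_deriv (d l : ℝ) : HasDerivAt (hh d) (hh1 d l) l := by
  have h1 := ((hasDerivAt_id l).mul (gs_deriv l)).div_const (d ^ 2 * √Real.pi)
  refine h1.congr_deriv ?_
  unfold hh1
  simp only [id]
  ring

lemma Wd_deriv (d x : ℝ) (hx : 0 < x) :
    HasDerivAt (Wd d) (Pool.Agent.Y969.GP.V1 x + hh1 d (Real.log x) * x⁻¹) x := by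
  have h1 := V_deriv x hx
  have h2 := (hh_deriv d (Real.log x)).comp x (Real.hasDerivAt_log hx.ne')
  exact h1.add h2

lemma den_pos (d : ℝ) (hd : d ≠ 0) : 0 < d ^ 2 * √Real.pi := by
  have := Real.pi_pos
  positivity

lemma hh_bd (d l : ℝ) (hd : d ≠ 0) : |hh d l| ≤ 4 / (d ^ 2 * √Real.pi) := by
  unfold hh
  rw [abs_div, abs_of_pos (den_pos d hd), abs_mul, abs_of_pos (gs_pos l)]
  exact div_le_div_of_nonneg_right (lgs l) (den_pos d hd).le

lemma hh1_bd (d l : ℝ) (hd : d ≠ 0) : |hh1 d l| ≤ 3 / (d ^ 2 * √Real.pi) := by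
  unfold hh1
  rw [abs_div, abs_of_pos (den_pos d hd), abs_mul, abs_of_pos (gs_pos l)]
  refine div_le_div_of_nonneg_right ?_ (den_pos d hd).le
  have h1 : |1 - l ^ 2 / 2| ≤ 1 + l ^ 2 / 2 := by
    rw [abs_le]
    constructor <;> nlinarith [sq_nonneg l]
  have h2 := l2gs l
  have h3 := gs_le_one l
  have h4 := (gs_pos l).le
  nlinarith [mul_le_mul_of_nonneg_left h1 h4]

lemma p1 (d : ℝ) (hd : d ≠ 0) : ∃ C : ℝ, 0 < C ∧ ∀ x : ℝ, 0 < x → |Wd d x| ≤ C ∧
    DifferentiableAt ℝ (Wd d) x ∧ |x * deriv (Wd d) x| ≤ C := by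
  obtain ⟨hV1, -, -, ⟨C2, hC2, hV4⟩, -⟩ := t_V
  have hD := den_pos d hd
  refine ⟨1 + C2 + 4 / (d ^ 2 * √Real.pi), by positivity, fun x hx => ⟨?_,
    (Wd_deriv d x hx).differentiableAt, ?_⟩⟩
  · rw [Wd_eq]
    have h1 := hV1 x hx
    have h2 := hh_bd d (Real.log x) hd
    have h3 : |V x| ≤ 1 := by rw [abs_of_nonneg h1.1]; exact h1.2
    have h4 := abs_add_le (V x) (hh d (Real.log x))
    linarith
  · rw [(Wd_deriv d x hx).deriv]
    have e : x * (Pool.Agent.Y969.GP.V1 x + hh1 d (Real.log x) * x⁻¹) =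
        x * Pool.Agent.Y969.GP.V1 x + hh1 d (Real.log x) := by
      field_simp
    rw [e]
    have h1 := (hV4 x hx).1
    have h2 := hh1_bd d (Real.log x) hd
    have h3 := abs_add_le (x * Pool.Agent.Y969.GP.V1 x) (hh1 d (Real.log x))
    have h4 : 3 / (d ^ 2 * √Real.pi) ≤ 4 / (d ^ 2 * √Real.pi) :=
      div_le_div_of_nonneg_right (by norm_num) hD.le
    linarith

lemma p2 (d : ℝ) : ContinuousOn (deriv (Wd d)) (Ioi 0) := by
  have hc : ContinuousOn (fun x => Pool.Agent.Y969.GP.V1 x + hh1 d (Real.log x) * x⁻¹) (Ioi 0) := by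
    intro x hx
    have hx' : (0 : ℝ) < x := hx
    have h1 : ContinuousAt Real.log x := Real.continuousAt_log hx'.ne'
    have h2 : ContinuousAt Pool.Agent.Y969.GP.V1 x := (V1_deriv x hx').continuousAt
    have h3 : Continuous (hh1 d) := by
      unfold hh1
      have := gs_cont
      fun_prop
    have h4 : ContinuousAt (fun x => hh1 d (Real.log x)) x :=
      ContinuousAt.comp (g := hh1 d) h3.continuousAt h1
    exact (h2.add (h4.mul (continuousAt_inv₀ hx'.ne'))).continuousWithinAt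
  exact hc.congr fun x hx => (Wd_deriv d x hx).deriv

lemma p3 (d : ℝ) (hd : d ≠ 0) (A : ℝ) (hA : 0 ≤ A) : ∃ C : ℝ, 0 < C ∧ ∀ x : ℝ, 0 < x →
    |Wd d x| ≤ C * x ^ (-A) := by
  obtain ⟨hV1, -, -, -, -, hV6, -⟩ := t_V
  obtain ⟨C1, hC1, h6⟩ := hV6 A hA
  have hD := den_pos d hd
  refine ⟨C1 + 2 * Real.exp (2 * A ^ 2) / (d ^ 2 * √Real.pi), by positivity, fun x hx => ?_⟩
  rw [Wd_eq]
  have h1 := h6 x hx
  have h2 : |V x| = V x := abs_of_nonneg (hV1 x hx).1
  have h3 : |hh d (Real.log x)| ≤ 2 * Real.exp (2 * A ^ 2) / (d ^ 2 * √Real.pi) * x ^ (-A) := by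
    obtain ⟨l, hl⟩ : ∃ l, l = Real.log x := ⟨_, rfl⟩
    have hx2 : x ^ (-A) = Real.exp (-(l * A)) := by
      rw [Real.rpow_def_of_pos hx, ← hl]
      ring_nf
    rw [hx2, ← hl]
    unfold hh
    rw [abs_div, abs_of_pos hD, abs_mul, abs_of_pos (gs_pos l), div_mul_eq_mul_div]
    refine div_le_div_of_nonneg_right ?_ hD.le
    have h4 : |l| ≤ 2 * Real.exp (l ^ 2 / 8) := by
      have := Real.add_one_le_exp (l ^ 2 / 8)
      nlinarith [sq_nonneg (|l| - 2), sq_abs l]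
    have h5 : gs l ≤ Real.exp (-(l ^ 2) / 8) * (Real.exp (2 * A ^ 2) * Real.exp (-(l * A))) := by
      unfold gs
      rw [← Real.exp_add, ← Real.exp_add]
      apply Real.exp_le_exp.2
      nlinarith [sq_nonneg (l - 4 * A)]
    have h6 : Real.exp (l ^ 2 / 8) * Real.exp (-(l ^ 2) / 8) = 1 := by
      rw [← Real.exp_add, show l ^ 2 / 8 + -(l ^ 2) / 8 = 0 by ring, Real.exp_zero]
    calc |l| * gs l ≤ (2 * Real.exp (l ^ 2 / 8)) *
          (Real.exp (-(l ^ 2) / 8) * (Real.exp (2 * A ^ 2) * Real.exp (-(l * A)))) :=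
          mul_le_mul h4 h5 (gs_pos l).le (by positivity)
      _ = 2 * (Real.exp (l ^ 2 / 8) * Real.exp (-(l ^ 2) / 8)) *
          (Real.exp (2 * A ^ 2) * Real.exp (-(l * A))) := by ring
      _ = 2 * Real.exp (2 * A ^ 2) * Real.exp (-(l * A)) := by rw [h6]; ring
  have h4 := abs_add_le (V x) (hh d (Real.log x))
  rw [add_mul]
  linarith

/-- the Gaussian with complex centre -/
noncomputable def EG (σ m y : ℝ) : ℂ := cexp ((σ + I * y) ^ 2 - (σ + I * y) * (m : ℂ))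

lemma EG_norm (σ m y : ℝ) : ‖EG σ m y‖ = Real.exp (σ ^ 2 - σ * m) * Real.exp (-1 * y ^ 2) := by
  unfold EG
  rw [Complex.norm_exp, ← Real.exp_add]
  congr 1
  simp [pow_two]
  ring

lemma EG_deriv (σ m y : ℝ) :
    HasDerivAt (EG σ m) (EG σ m y * (2 * I * (σ + I * y) - I * m)) y := by
  unfold EG
  have h0 : HasDerivAt (fun y : ℝ => (σ + I * y : ℂ)) I y := by
    have h1 : HasDerivAt (fun y : ℝ => (y : ℂ)) 1 y := Complex.ofRealCLM.hasDerivAt
    have h2 := (h1.const_mul I).const_add (σ : ℂ)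
    rw [mul_one] at h2
    exact h2
  have h1 : HasDerivAt (fun y : ℝ => (σ + I * y : ℂ) ^ 2 - (σ + I * y) * (m : ℂ))
      (2 * I * (σ + I * y) - I * m) y := by
    refine ((h0.pow 2).sub (h0.mul_const (m : ℂ))).congr_deriv ?_
    push_cast
    ring
  exact h1.cexp

lemma EG_cont (σ m : ℝ) : Continuous (EG σ m) := by
  unfold EG
  fun_prop

lemma EG_int (σ m : ℝ) : Integrable (EG σ m) := by
  have h1 : Integrable (fun y : ℝ => Real.exp (σ ^ 2 - σ * m) * Real.exp (-1 * y ^ 2)) :=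
    (integrable_exp_neg_mul_sq one_pos).const_mul _
  exact h1.mono' (EG_cont σ m).aestronglyMeasurable
    (Filter.Eventually.of_forall fun y => (EG_norm σ m y).le)

lemma sEG_int (σ m : ℝ) : Integrable (fun y : ℝ => (σ + I * y : ℂ) * EG σ m y) := by
  have h0 : Integrable (fun y : ℝ => |y * Real.exp (-1 * y ^ 2)|) :=
    (integrable_mul_exp_neg_mul_sq one_pos).abs
  have h1 : Integrable (fun y : ℝ => Real.exp (σ ^ 2 - σ * m) *
      (|σ| * Real.exp (-1 * y ^ 2) + |y * Real.exp (-1 * y ^ 2)|)) :=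
    (((integrable_exp_neg_mul_sq one_pos).const_mul _).add h0).const_mul _
  refine h1.mono' (Continuous.aestronglyMeasurable ?_) (Filter.Eventually.of_forall fun y => ?_)
  · have := EG_cont σ m
    fun_prop
  · rw [norm_mul, EG_norm]
    have h2 : ‖(σ + I * y : ℂ)‖ ≤ |σ| + |y| := by
      refine (norm_add_le _ _).trans ?_
      rw [norm_mul, norm_I, one_mul, Complex.norm_real, Complex.norm_real, Real.norm_eq_abs,
        Real.norm_eq_abs]
    rw [abs_mul, abs_of_pos (Real.exp_pos (-1 * y ^ 2))]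
    calc ‖(σ + I * y : ℂ)‖ * (Real.exp (σ ^ 2 - σ * m) * Real.exp (-1 * y ^ 2))
        ≤ (|σ| + |y|) * (Real.exp (σ ^ 2 - σ * m) * Real.exp (-1 * y ^ 2)) :=
          mul_le_mul_of_nonneg_right h2 (by positivity)
      _ = _ := by ring

lemma exp_sq_top : Tendsto (fun y : ℝ => Real.exp (-1 * y ^ 2)) atTop (𝓝 0) := by
  apply Real.tendsto_exp_atBot.comp
  have h : Tendsto (fun y : ℝ => y ^ 2) atTop atTop := tendsto_pow_atTop (by norm_num)
  have h2 := tendsto_neg_atTop_atBot.comp h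
  refine h2.congr fun y => ?_
  simp [Function.comp]

lemma exp_sq_bot : Tendsto (fun y : ℝ => Real.exp (-1 * y ^ 2)) atBot (𝓝 0) := by
  have h := exp_sq_top.comp tendsto_neg_atBot_atTop
  refine h.congr fun y => ?_
  simp [Function.comp]

lemma EG_lim (σ m : ℝ) (F : Filter ℝ) (h : Tendsto (fun y : ℝ => Real.exp (-1 * y ^ 2)) F (𝓝 0)) :
    Tendsto (EG σ m) F (𝓝 0) := by
  rw [tendsto_zero_iff_norm_tendsto_zero]
  have h2 := h.const_mul (Real.exp (σ ^ 2 - σ * m))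
  rw [mul_zero] at h2
  exact h2.congr fun y => (EG_norm σ m y).symm

lemma dEG_int (σ m : ℝ) : Integrable (fun y : ℝ => EG σ m y * (2 * I * (σ + I * y) - I * m)) := by
  have h := ((sEG_int σ m).const_mul (2 * I)).sub ((EG_int σ m).const_mul (I * (m : ℂ)))
  refine h.congr (Filter.Eventually.of_forall fun y => ?_)
  simp only [Pi.sub_apply]
  ring

lemma first_moment (σ m : ℝ) : ∫ y : ℝ, (σ + I * y : ℂ) * EG σ m y =
    (m / 2 : ℂ) * ∫ y : ℝ, EG σ m y := by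
  have h0 := integral_of_hasDerivAt_of_tendsto (fun y => EG_deriv σ m y) (dEG_int σ m)
    (EG_lim σ m _ exp_sq_bot) (EG_lim σ m _ exp_sq_top)
  rw [sub_zero] at h0
  have h1 : ∫ y : ℝ, EG σ m y * (2 * I * (σ + I * y) - I * m) =
      (2 * I) * (∫ y : ℝ, (σ + I * y : ℂ) * EG σ m y) - (I * m) * ∫ y : ℝ, EG σ m y := by
    rw [← integral_const_mul, ← integral_const_mul, ← integral_sub
      ((sEG_int σ m).const_mul (2 * I)) ((EG_int σ m).const_mul (I * (m : ℂ)))]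
    congr 1
    funext y
    ring
  rw [h1] at h0
  have h2 : (2 * I) * ((∫ y : ℝ, (σ + I * y : ℂ) * EG σ m y) -
      (m / 2 : ℂ) * ∫ y : ℝ, EG σ m y) = 0 := by
    rw [← h0]
    ring
  have h3 : (2 * I : ℂ) ≠ 0 := mul_ne_zero two_ne_zero I_ne_zero
  exact sub_eq_zero.1 ((mul_eq_zero.1 h2).resolve_left h3)

lemma p4 (d : ℝ) (hd : d ≠ 0) (σ x : ℝ) (hσ : 0 < σ) :
    ((Wd d x : ℝ) : ℂ) = ((2 * Real.pi : ℝ) : ℂ)⁻¹ *
    ∫ y : ℝ, cexp (-((σ + I * y) * (Real.log x : ℝ))) * cexp ((σ + I * y) ^ 2) *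
      (1 + 4 * (σ + I * y) ^ 2 / (d : ℂ) ^ 2) / (σ + I * y) := by
  obtain ⟨l, hl⟩ : ∃ l, l = Real.log x := ⟨_, rfl⟩
  rw [Wd_eq, Complex.ofReal_add, part7 σ x hσ, ← hl]
  have hne : ∀ y : ℝ, (σ + I * y : ℂ) ≠ 0 := by
    intro y h
    have := congrArg Complex.re h
    simp at this
    linarith
  have hdc : (d : ℂ) ≠ 0 := by exact_mod_cast hd
  have e1 : ∀ y : ℝ, cexp (-((σ + I * y) * (l : ℝ))) * cexp ((σ + I * y) ^ 2) *
      (1 + 4 * (σ + I * y) ^ 2 / (d : ℂ) ^ 2) / (σ + I * y) =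
      cexp (-((σ + I * y) * (l : ℝ))) * cexp ((σ + I * y) ^ 2) / (σ + I * y) +
      (4 / (d : ℂ) ^ 2) * ((σ + I * y : ℂ) * EG σ l y) := by
    intro y
    have e2 : EG σ l y = cexp (-((σ + I * y) * (l : ℝ))) * cexp ((σ + I * y) ^ 2) := by
      unfold EG
      rw [← Complex.exp_add]
      congr 1
      ring
    rw [e2]
    have := hne y
    field_simp
  have i1 : Integrable (fun y : ℝ => cexp (-((σ + I * y) * (l : ℝ))) * cexp ((σ + I * y) ^ 2) /
      (σ + I * y)) := by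
    have h1 := (EG_int σ l).norm.const_mul (σ⁻¹)
    refine h1.mono' (Continuous.aestronglyMeasurable ?_) (Filter.Eventually.of_forall fun y => ?_)
    · refine Continuous.div (by fun_prop) (by fun_prop) hne
    · have e2 : EG σ l y = cexp (-((σ + I * y) * (l : ℝ))) * cexp ((σ + I * y) ^ 2) := by
        unfold EG
        rw [← Complex.exp_add]
        congr 1
        ring
      rw [← e2, norm_div, div_eq_inv_mul]
      refine mul_le_mul_of_nonneg_right ?_ (norm_nonneg _)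
      rw [inv_le_inv₀ (norm_pos_iff.2 (hne y)) hσ]
      have := Complex.re_le_norm (σ + I * y : ℂ)
      simpa using this
  simp only [e1]
  rw [integral_add i1 ((sEG_int σ l).const_mul _), integral_const_mul, first_moment, mul_add]
  congr 1
  have h3 : ∫ y : ℝ, EG σ l y = ((√Real.pi * gs l : ℝ) : ℂ) := inner_gauss σ l
  rw [h3]
  unfold hh
  have hp : 0 < √Real.pi := Real.sqrt_pos.2 Real.pi_pos
  have hpp : (√Real.pi : ℂ) * (√Real.pi : ℂ) = (Real.pi : ℂ) := by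
    rw [← Complex.ofReal_mul, Real.mul_self_sqrt Real.pi_nonneg]
  have hpc : (√Real.pi : ℂ) ≠ 0 := by exact_mod_cast hp.ne'
  have hpi : (Real.pi : ℂ) ≠ 0 := by exact_mod_cast Real.pi_ne_zero
  push_cast
  rw [← hpp]
  field_simp
  ring

end WDp

theorem t_WD : S_WD := by
  intro d hd
  exact ⟨WDp.p1 d hd, WDp.p2 d, fun A hA => WDp.p3 d hd A hA,
    fun σ x hσ _ => WDp.p4 d hd σ x hσ⟩

end Pool.Agent.T2H54.TP
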