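import Pool.Agent.T2H54.TP.AsmE
import Pool.Agent.T2H54.TP.QD
import Pool.Agent.T2H54.TP.AFA
import Pool.Agent.T2H54.TP.AFB
import Pool.Agent.T2H54.TP.AFD
import Pool.Agent.T2H54.TP.BV
import Pool.Agent.T2H54.TP.CHD
import Pool.Agent.T2H54.TP.CTR
import Pool.Agent.T2H54.TP.DG
import Pool.Agent.T2H54.TP.GLR
import Pool.Agent.T2H54.TP.LCM
import Pool.Agent.T2H54.TP.NSF
import Pool.Agent.T2H54.TP.Q4
import Pool.Agent.T2H54.TP.SPC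
import Pool.Agent.T2H54.TP.SSR
import Pool.Agent.T2H54.TP.SWF
import Pool.Agent.T2H54.TP.TAB
import Pool.Agent.T2H54.TP.TN
import Pool.Agent.T2H54.TP.TSM
import Pool.Agent.T2H54.TP.WD
import Pool.Agent.T2H54.TP.ZMR
import Pool.Agent.T2H54.TP.A4R
import Pool.Agent.T2H54.SB.V3
import Pool.Agent.TH612.GS.All

set_option autoImplicit false

/-! Project TP: all parts together. -/

namespace Pool.Agent.T2H54.TP

open MeasureTheory Pool.Agent.TH612.GS Pool.Agent.T2H54.SB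

theorem allF (n : ℕ) (hn : 1 ≤ n) :
    ∃ η δ : ℝ, 0 < η ∧ 0 < δ ∧ ∀ a b : ℝ, a ≠ b → ∃ T₀ : ℝ, ∀ (T H : ℝ) (U : Fin n ⊕ Fin n → ℝ),
      T₀ ≤ T → T ^ (1 / 3 - η) ≤ H → H ≤ T → (∀ i, 0 ≤ U i ∧ U i + H ≤ T) →
      mP (Fin n ⊕ Fin n) H (BadF a b H T (T * T ^ (-δ)) U) ≤
        ENNReal.ofReal (H ^ (2 * n) * T ^ (-δ)) := by
  have hWD := t_WD
  have hAFD := t_AFD (t_AFA t_CHD) (t_AFB hWD)
  have hTSM := t_TSM hWD hAFD t_SPC (t_DG hWD) (t_BV hWD)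
  have hONE := Pool.Agent.TH811.GS.t_ONE Pool.Agent.TH928.GS.t_MV
  exact mainF pV3 t_QD (t_TN (t_TAB hTSM)) (t_SSR t_LCM) (t_A4R t_CTR t_GLR) t_ZMR t_NSF t_SWF
    t_Q4 hONE n hn

end Pool.Agent.T2H54.TP
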