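import Pool.Agent.T2H54.TP.ZF

set_option autoImplicit false

/-! Assembly of project TP, first part: the decomposition. -/

namespace Pool.Agent.T2H54.TP

open Complex Filter Topology MeasureTheory Set
open Pool.Agent.TH612.CF Pool.Agent.TH612.GS Pool.Agent.T2H54.SB
open Pool.Agent.W182.KO hiding ee SS_summable DD

noncomputable section

variable {n : ℕ}

lemma univ_eq_insert_PQ : (Finset.univ : Finset (Fin (n + 1) × Fin (n + 1))) =
    insert (0, 0) (PQ n) := by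
  ext p
  simp only [Finset.mem_univ, Finset.mem_insert, PQ, Finset.mem_filter, true_and, true_iff]
  exact em _

lemma zr_gc (a b : ℝ) (θ : Fin n ⊕ Fin n → ℝ) :
    zr (gc a b θ) = riemannZeta (1 + I * ((a - b : ℝ) : ℂ)) * zrr a b θ := by
  unfold zr zab zrr
  have e1 : ∏ j : Fin (n + 1), ∏ l : Fin (n + 1), riemannZeta (1 + I * (gc a b θ (Sum.inl j) : ℂ) -
      I * (gc a b θ (Sum.inr l) : ℂ)) = ∏ p ∈ (Finset.univ : Finset (Fin (n + 1) × Fin (n + 1))),
      riemannZeta (1 + I * (gc a b θ (Sum.inl p.1) - gc a b θ (Sum.inr p.2))) := by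
    rw [← Finset.univ_product_univ, Finset.prod_product]
    refine Finset.prod_congr rfl fun j _ => Finset.prod_congr rfl fun l _ => ?_
    congr 1
    ring
  rw [e1, univ_eq_insert_PQ, Finset.prod_insert (by simp [PQ])]
  have e2 : (1 + I * ((gc a b θ (Sum.inl 0) : ℂ) - gc a b θ (Sum.inr 0))) =
      1 + I * ((a - b : ℝ) : ℂ) := by
    simp [gc]
  simp only [e2]
  ring

lemma Zg_gc (a b : ℝ) (θ : Fin n ⊕ Fin n → ℝ) (t : ℝ) :
    Zg (gc a b θ) t = Bab a b t * ∏ j : Fin n, z (t + θ (Sum.inl j)) *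
      (starRingEnd ℂ) (z (t + θ (Sum.inr j))) := by
  rw [Zg_fz, Fin.prod_univ_succ]
  rfl

lemma Xab_norm (a b t : ℝ) : ‖Xab a b t‖ = 1 := by
  have h := norm_GG (k := 1) t (gc a b (fun _ => 0)) (Equiv.swap (Sum.inl 0) (Sum.inr 0))
  have e : GG t (fun i => (gc (n := 0) a b (fun _ => 0) i : ℂ))
      (Equiv.swap (Sum.inl 0) (Sum.inr 0)) = Xab a b t := by
    unfold GG Xab
    simp only [Finset.univ_unique, Fin.default_eq_zero, Fin.isValue, Finset.prod_singleton,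
      Equiv.swap_apply_left, Sum.isRight_inr, if_true, Equiv.swap_apply_right, Sum.isLeft_inl]
    rw [mul_comm]
    congr 2
    · simp [gc]; ring
    · simp [gc]; ring
  rw [e] at h
  exact h

lemma Xab_cont (a b : ℝ) : Continuous (Xab a b) := by
  have h := GG_cont_t (k := 1) (gc (n := 0) a b (fun _ => 0)) (Equiv.swap (Sum.inl 0) (Sum.inr 0))
  refine h.congr fun t => ?_
  unfold GG Xab
  simp only [Finset.univ_unique, Fin.default_eq_zero, Fin.isValue, Finset.prod_singleton,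
    Equiv.swap_apply_left, Sum.isRight_inr, if_true, Equiv.swap_apply_right, Sum.isLeft_inl]
  rw [mul_comm]
  congr 2
  · simp [gc]; ring
  · simp [gc]; ring

lemma int_X_le (a b : ℝ) {S : ℝ} (hS : 0 ≤ S) : ‖∫ t in (0:ℝ)..S, Xab a b t‖ ≤ S := by
  have h := intervalIntegral.norm_integral_le_of_norm_le_const (a := 0) (b := S) (C := 1)
    (f := Xab a b) fun t _ => (Xab_norm a b t).le
  simpa [abs_of_nonneg hS] using h

/-- the decomposition -/
lemma DD_eqF (hQD : S_QD) (a b S : ℝ) (θ : Fin n ⊕ Fin n → ℝ) : DD S (gc a b θ) =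
    (∫ t in (0:ℝ)..S, Zg (gc a b θ) t) - S * zr (gc a b θ) -
      (∫ t in (0:ℝ)..S, Xab a b t) * zr (gc b a θ) -
      ((Nat.factorial (n + 1) : ℂ) ^ 2)⁻¹ * ∑ π ∈ Oth n, IG S (gc a b θ) π * zp (gc a b θ) π := by
  unfold DD
  have hf : ((Nat.factorial (n + 1) : ℂ) ^ 2) ≠ 0 :=
    pow_ne_zero _ (by exact_mod_cast (Nat.factorial_pos _).ne')
  have hs : ∀ π ∈ Oth n, IntervalIntegrable (fun t : ℝ =>
      GG t (fun i => (gc a b θ i : ℂ)) π * zp (gc a b θ) π) volume 0 S := fun π _ =>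
    ((GG_cont_t _ π).mul continuous_const).intervalIntegrable _ _
  have hc : Continuous fun t : ℝ => ∑ π ∈ Oth n,
      GG t (fun i => (gc a b θ i : ℂ)) π * zp (gc a b θ) π :=
    continuous_finsetSum _ fun π _ => (GG_cont_t _ π).mul continuous_const
  have e1 : ∀ t : ℝ, Zg (gc a b θ) t - ((Nat.factorial (n + 1) : ℂ) ^ 2)⁻¹ *
      Qs t (fun i => (gc a b θ i : ℂ)) = Zg (gc a b θ) t - zr (gc a b θ) -
      Xab a b t * zr (gc b a θ) - ((Nat.factorial (n + 1) : ℂ) ^ 2)⁻¹ *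
        ∑ π ∈ Oth n, GG t (fun i => (gc a b θ i : ℂ)) π * zp (gc a b θ) π := by
    intro t
    rw [hQD n a b t θ]
    have hff := inv_mul_cancel₀ hf
    linear_combination (-(zr (gc a b θ)) - Xab a b t * zr (gc b a θ)) * hff
  simp only [e1]
  have i1 : IntervalIntegrable (fun t : ℝ => Zg (gc a b θ) t) volume 0 S :=
    (Zg_cont _).intervalIntegrable _ _
  have i2 : IntervalIntegrable (fun _ : ℝ => zr (gc a b θ)) volume 0 S :=
    continuous_const.intervalIntegrable _ _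
  have i3 : IntervalIntegrable (fun t : ℝ => Xab a b t * zr (gc b a θ)) volume 0 S :=
    ((Xab_cont a b).mul continuous_const).intervalIntegrable _ _
  have i4 : IntervalIntegrable (fun t : ℝ => ((Nat.factorial (n + 1) : ℂ) ^ 2)⁻¹ *
        ∑ π ∈ Oth n, GG t (fun i => (gc a b θ i : ℂ)) π * zp (gc a b θ) π) volume 0 S :=
    (continuous_const.mul hc).intervalIntegrable _ _
  rw [intervalIntegral.integral_sub ((i1.sub i2).sub i3) i4,
    intervalIntegral.integral_sub (i1.sub i2) i3, intervalIntegral.integral_sub i1 i2,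
    intervalIntegral.integral_const, intervalIntegral.integral_mul_const,
    intervalIntegral.integral_const_mul, intervalIntegral.integral_finsetSum hs, sub_zero]
  simp only [intervalIntegral.integral_mul_const]
  rfl

lemma zp_bdF {k : ℕ} {K : ℝ} (hK : 0 ≤ K) {γ : Fin k ⊕ Fin k → ℝ}
    (h : ∀ p q, p ≠ q → ‖riemannZeta (1 + I * ((γ p - γ q : ℝ) : ℂ))‖ ≤ K)
    (π : Equiv.Perm (Fin k ⊕ Fin k)) : ‖zp γ π‖ ≤ BF k (1 / 8) * K ^ (k ^ 2) := by
  unfold zp zab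
  rw [norm_mul, norm_prod]
  refine mul_le_mul ?_ ?_ (by positivity) ((norm_nonneg _).trans (FH_le (a := fun _ => (0:ℂ))
    (b := fun _ => (0:ℂ)) (by norm_num) (fun j => by simp)))
  · refine FH_le (by norm_num) fun j => ?_
    rw [Complex.ofReal_im, Complex.ofReal_im, abs_zero]
    norm_num
  · have h2 : ∀ j l : Fin k, ‖riemannZeta (1 + I * (γ (π (Sum.inl j)) : ℂ) -
        I * (γ (π (Sum.inr l)) : ℂ))‖ ≤ K := by
      intro j l
      have hne : π (Sum.inl j) ≠ π (Sum.inr l) := fun h => by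
        have := π.injective h
        simp at this
      have e : (1 + I * (γ (π (Sum.inl j)) : ℂ) - I * (γ (π (Sum.inr l)) : ℂ) : ℂ) =
          1 + I * ((γ (π (Sum.inl j)) - γ (π (Sum.inr l)) : ℝ) : ℂ) := by push_cast; ring
      rw [e]
      exact h _ _ hne
    calc ∏ j, ‖∏ l, riemannZeta (1 + I * (γ (π (Sum.inl j)) : ℂ) - I * (γ (π (Sum.inr l)) : ℂ))‖
        ≤ ∏ _j : Fin k, K ^ k := by
          refine Finset.prod_le_prod (fun _ _ => norm_nonneg _) fun j _ => ?_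
          rw [norm_prod]
          refine (Finset.prod_le_prod (fun _ _ => norm_nonneg _) fun l _ => h2 j l).trans ?_
          simp
      _ = K ^ (k ^ 2) := by
          rw [Finset.prod_const, Finset.card_univ, Fintype.card_fin, ← pow_mul]
          congr 1; ring

lemma inv_fac_le (k : ℕ) : ‖(((Nat.factorial k : ℂ) ^ 2)⁻¹ : ℂ)‖ ≤ 1 := by
  rw [norm_inv, norm_pow, Complex.norm_natCast]
  have h1 : (1:ℝ) ≤ (Nat.factorial k : ℝ) := by exact_mod_cast Nat.factorial_pos k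
  exact inv_le_one_of_one_le₀ (one_le_pow₀ h1)

lemma DD_diffF {k : ℕ} {A B Z : ℝ} (hAB : A ≤ B) {γ : Fin k ⊕ Fin k → ℝ} (hZ : 0 ≤ Z)
    (hz : ∀ π : Equiv.Perm (Fin k ⊕ Fin k), ‖zp γ π‖ ≤ Z) :
    ‖DD B γ - DD A γ‖ ≤ (∫ t in A..B, ‖Zg γ t‖) +
      (B - A) * (Fintype.card (Equiv.Perm (Fin k ⊕ Fin k)) * Z) := by
  have hc : Continuous fun t : ℝ => Zg γ t - ((Nat.factorial k : ℂ) ^ 2)⁻¹ *
      Qs t (fun i => (γ i : ℂ)) := (Zg_cont γ).sub (continuous_const.mul (Qs_cont γ))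
  have e1 : DD B γ - DD A γ = ∫ t in A..B, (Zg γ t - ((Nat.factorial k : ℂ) ^ 2)⁻¹ *
      Qs t (fun i => (γ i : ℂ))) := by
    unfold DD
    exact intervalIntegral.integral_interval_sub_left (hc.intervalIntegrable _ _)
      (hc.intervalIntegrable _ _)
  rw [e1]
  have hQ : ∀ t : ℝ, ‖((Nat.factorial k : ℂ) ^ 2)⁻¹ * Qs t (fun i => (γ i : ℂ))‖ ≤
      Fintype.card (Equiv.Perm (Fin k ⊕ Fin k)) * Z := by
    intro t
    rw [norm_mul, Qs_zp]
    calc _ ≤ 1 * ∑ π : Equiv.Perm (Fin k ⊕ Fin k), ‖GG t (fun i => (γ i : ℂ)) π * zp γ π‖ := by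
          gcongr
          · exact inv_fac_le k
          · exact norm_sum_le _ _
      _ ≤ 1 * ∑ _π : Equiv.Perm (Fin k ⊕ Fin k), Z := by
          gcongr with π hπ
          rw [norm_mul, norm_GG, one_mul]
          exact hz π
      _ = _ := by rw [one_mul, Finset.sum_const, Finset.card_univ, nsmul_eq_mul]
  refine (intervalIntegral.norm_integral_le_integral_norm hAB).trans ?_
  calc ∫ t in A..B, ‖Zg γ t - ((Nat.factorial k : ℂ) ^ 2)⁻¹ * Qs t (fun i => (γ i : ℂ))‖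
      ≤ ∫ t in A..B, (‖Zg γ t‖ + Fintype.card (Equiv.Perm (Fin k ⊕ Fin k)) * Z) := by
        refine intervalIntegral.integral_mono_on hAB (hc.norm.intervalIntegrable _ _)
          (((Zg_cont γ).norm.add continuous_const).intervalIntegrable _ _) fun t _ => ?_
        exact (norm_sub_le _ _).trans (add_le_add le_rfl (hQ t))
    _ = _ := by
        rw [intervalIntegral.integral_add ((Zg_cont γ).norm.intervalIntegrable _ _)
          (continuous_const.intervalIntegrable _ _), intervalIntegral.integral_const, smul_eq_mul]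

/-- the difference of the integral with the short polynomials and its main terms -/
def TNd (a b : ℝ) (N : ℕ) (S : ℝ) (θ : Fin n ⊕ Fin n → ℝ) : ℂ :=
  (∫ t in (0:ℝ)..S, Bab a b t * ∏ j : Fin n, PN N (t + θ (Sum.inl j)) *
      (starRingEnd ℂ) (PN N (t + θ (Sum.inr j)))) -
    (riemannZeta (1 + I * ((a - b : ℝ) : ℂ)) * RN a b N θ * (S : ℂ) +
      riemannZeta (1 - I * ((a - b : ℝ) : ℂ)) * RN b a N θ * ∫ t in (0:ℝ)..S, Xab a b t)

/-- the three differences -/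
def E3 (ψ : ℝ → ℝ) (a b : ℝ) (N : ℕ) (θ : Fin n ⊕ Fin n → ℝ) : ℝ :=
  ‖RN a b N θ - SPr ψ N a b θ‖ + ‖SPr ψ N a b θ - GMr N a b θ 0‖ + ‖GMr N a b θ 0 - zrr a b θ‖

lemma RN_zrr_le (ψ : ℝ → ℝ) (a b : ℝ) (N : ℕ) (θ : Fin n ⊕ Fin n → ℝ) :
    ‖RN a b N θ - zrr a b θ‖ ≤ E3 ψ a b N θ := by
  have e : RN a b N θ - zrr a b θ = (RN a b N θ - SPr ψ N a b θ) + (SPr ψ N a b θ - GMr N a b θ 0) +
      (GMr N a b θ 0 - zrr a b θ) := by ring
  rw [e]
  refine (norm_add_le _ _).trans (add_le_add (norm_add_le _ _) le_rfl)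

lemma DD_leF (hQD : S_QD) (ψ : ℝ → ℝ) {a b S T K0 Z : ℝ} (hS : 0 ≤ S) (hST : S ≤ T) (hZ : 0 ≤ Z)
    (hK0 : 0 ≤ K0)
    (hK1 : ‖riemannZeta (1 + I * ((a - b : ℝ) : ℂ))‖ ≤ K0)
    (hK2 : ‖riemannZeta (1 - I * ((a - b : ℝ) : ℂ))‖ ≤ K0) (N : ℕ) (θ : Fin n ⊕ Fin n → ℝ)
    (hz : ∀ π : Equiv.Perm (Fin (n + 1) ⊕ Fin (n + 1)), ‖zp (gc a b θ) π‖ ≤ Z) :
    ‖DD S (gc a b θ)‖ ≤ ‖A1f a b N S θ‖ + ‖TNd a b N S θ‖ + T * (K0 * E3 ψ a b N θ) +
      T * (K0 * E3 ψ b a N θ) + Z * ∑ π ∈ Oth n, ‖IG S (gc a b θ) π‖ := by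
  have eba : (1 + I * ((b - a : ℝ) : ℂ)) = 1 - I * ((a - b : ℝ) : ℂ) := by push_cast; ring
  have e2 : DD S (gc a b θ) = A1f a b N S θ + TNd a b N S θ +
      (S : ℂ) * (riemannZeta (1 + I * ((a - b : ℝ) : ℂ)) * (RN a b N θ - zrr a b θ)) +
      (∫ t in (0:ℝ)..S, Xab a b t) * (riemannZeta (1 - I * ((a - b : ℝ) : ℂ)) *
        (RN b a N θ - zrr b a θ)) -
      ((Nat.factorial (n + 1) : ℂ) ^ 2)⁻¹ * ∑ π ∈ Oth n, IG S (gc a b θ) π * zp (gc a b θ) π := by
    rw [DD_eqF hQD, zr_gc a b, zr_gc b a, eba]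
    unfold A1f TNd
    simp only [Zg_gc]
    ring
  rw [e2]
  have hT : 0 ≤ T := hS.trans hST
  have n1 : ‖(S : ℂ) * (riemannZeta (1 + I * ((a - b : ℝ) : ℂ)) * (RN a b N θ - zrr a b θ))‖ ≤
      T * (K0 * E3 ψ a b N θ) := by
    rw [norm_mul, norm_mul, Complex.norm_real, Real.norm_of_nonneg hS]
    have := RN_zrr_le ψ a b N θ
    gcongr
  have n2 : ‖(∫ t in (0:ℝ)..S, Xab a b t) * (riemannZeta (1 - I * ((a - b : ℝ) : ℂ)) *
        (RN b a N θ - zrr b a θ))‖ ≤ T * (K0 * E3 ψ b a N θ) := by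
    rw [norm_mul, norm_mul]
    have := RN_zrr_le ψ b a N θ
    have h3 := (int_X_le a b hS).trans hST
    gcongr
  have n3 : ‖((Nat.factorial (n + 1) : ℂ) ^ 2)⁻¹ * ∑ π ∈ Oth n, IG S (gc a b θ) π *
      zp (gc a b θ) π‖ ≤ Z * ∑ π ∈ Oth n, ‖IG S (gc a b θ) π‖ := by
    rw [norm_mul]
    calc _ ≤ 1 * ‖∑ π ∈ Oth n, IG S (gc a b θ) π * zp (gc a b θ) π‖ := by
          gcongr
          exact inv_fac_le _
      _ ≤ 1 * ∑ π ∈ Oth n, ‖IG S (gc a b θ) π * zp (gc a b θ) π‖ := by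
          gcongr
          exact norm_sum_le _ _
      _ ≤ 1 * ∑ π ∈ Oth n, ‖IG S (gc a b θ) π‖ * Z := by
          gcongr with π hπ
          rw [norm_mul]
          gcongr
          exact hz π
      _ = _ := by rw [one_mul, ← Finset.sum_mul, mul_comm]
  refine (norm_sub_le _ _).trans (add_le_add ?_ n3)
  refine (norm_add_le _ _).trans (add_le_add ?_ n2)
  refine (norm_add_le _ _).trans (add_le_add ?_ n1)
  exact norm_add_le _ _

end

end Pool.Agent.T2H54.TP
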