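import Pool.Agent.T2H54.TP.AsmB

set_option autoImplicit false

/-! Assembly of project TP, third part: the pieces of the exceptional set. -/

namespace Pool.Agent.T2H54.TP

open Complex Filter Topology MeasureTheory Set
open Pool.Agent.TH612.CF Pool.Agent.TH612.GS Pool.Agent.T2H54.SB
open Pool.Agent.W182.KO hiding ee SS_summable DD

noncomputable section

variable {n : ℕ}

/-- the exceptional set in the coordinates of the box -/
def BadF (a b H T lam : ℝ) (U : Fin n ⊕ Fin n → ℝ) : Set (Fin n ⊕ Fin n → ℝ) :=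
  {θ | (∀ i, 0 ≤ θ i ∧ θ i ≤ H) ∧ ∃ S : ℝ, 0 ≤ S ∧ S ≤ T ∧ lam < ‖DD S (gc a b (U + θ))‖}

/-- the three differences are large -/
def W3 (ψ : ℝ → ℝ) (a b H y : ℝ) (N : ℕ) (U : Fin n ⊕ Fin n → ℝ) : Set (Fin n ⊕ Fin n → ℝ) :=
  {θ | 1 / y ^ 5 < ‖RN a b N (U + θ) - SPr ψ N a b (U + θ)‖} ∪
  {θ | 1 / y ^ 5 < ‖SPr ψ N a b (U + θ) - GMr N a b (U + θ) 0‖} ∪
  (SepF a b H U ∩ {θ | 1 / y ^ 5 < ‖GMr N a b (U + θ) 0 - zrr a b (U + θ)‖})

/-- the integrand -/
def ZZf (a b : ℝ) (θ : Fin n ⊕ Fin n → ℝ) (t : ℝ) : ℂ :=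
  Bab a b t * ∏ j : Fin n, z (t + θ (Sum.inl j)) * (starRingEnd ℂ) (z (t + θ (Sum.inr j)))

lemma SepF_comm (a b H : ℝ) (U : Fin n ⊕ Fin n → ℝ) : SepF b a H U = SepF a b H U := by
  unfold SepF
  ext θ
  simp only [mem_setOf_eq]
  constructor
  · rintro ⟨h1, h2, h3⟩
    exact ⟨h1, h2, fun p => ⟨(h3 p).2, (h3 p).1⟩⟩
  · rintro ⟨h1, h2, h3⟩
    exact ⟨h1, h2, fun p => ⟨(h3 p).2, (h3 p).1⟩⟩

lemma E3_le {ψ : ℝ → ℝ} {a b H y : ℝ} {N : ℕ} {U : Fin n ⊕ Fin n → ℝ} {θ : Fin n ⊕ Fin n → ℝ}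
    (hs : θ ∈ SepF a b H U) (h : θ ∉ W3 ψ a b H y N U) : E3 ψ a b N (U + θ) ≤ 3 * (1 / y ^ 5) := by
  unfold W3 at h
  simp only [mem_union, not_or, mem_ofPred_eq, not_lt, mem_inter_iff, not_and] at h
  obtain ⟨⟨h1, h2⟩, h3⟩ := h
  have h3' := h3 hs
  unfold E3
  linarith

open Classical in
/-- the pieces of the exceptional set -/
lemma BadF_sub (hQD : S_QD) (ψ : ℝ → ℝ) {a b T H y K0 Z : ℝ} {N J : ℕ}
    {U : Fin n ⊕ Fin n → ℝ} (hT : 3 ≤ T) (hy16 : 16 ≤ y) (hJ1 : 1 ≤ J) (hJl : y ^ 16 ≤ J)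
    (hK0 : 0 ≤ K0) (hKy : K0 ≤ y)
    (hK1 : ‖riemannZeta (1 + I * ((a - b : ℝ) : ℂ))‖ ≤ K0)
    (hK2 : ‖riemannZeta (1 - I * ((a - b : ℝ) : ℂ))‖ ≤ K0)
    (hZ0 : 0 ≤ Z) (hZ : (Fintype.card (Equiv.Perm (Fin (n + 1) ⊕ Fin (n + 1))) : ℝ) * Z ≤ y)
    (hz : ∀ θ ∈ SepF a b H U, ∀ π : Equiv.Perm (Fin (n + 1) ⊕ Fin (n + 1)),
      ‖zp (gc a b (U + θ)) π‖ ≤ Z)
    (hTN : ∀ (θ : Fin n ⊕ Fin n → ℝ) (S : ℝ), 0 ≤ S → S ≤ T → ‖TNd a b N S θ‖ ≤ T / y ^ 4) :
    BadF a b H T (T / y ^ 2) U ⊆ (SepF a b H U)ᶜ ∪ W3 ψ a b H y N U ∪ W3 ψ b a H y N U ∪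
      (⋃ i ∈ Finset.range (J + 1), {θ | T / y ^ 4 < ‖A1f a b N (i * (T / J)) (U + θ)‖}) ∪
      (⋃ i ∈ Finset.range (J + 1), ⋃ π ∈ Oth n, {θ | T / y ^ 8 < ‖IG (i * (T / J)) (gc a b (U + θ)) π‖}) ∪
      ⋃ i ∈ Finset.range J, {θ | T / y ^ 4 < ∫ t in (i * (T / J))..((i + 1 : ℕ) * (T / J)),
        ‖ZZf a b (U + θ) t‖} := by
  intro θ hθ
  by_contra hcon
  simp only [mem_union, not_or, mem_iUnion, not_exists, mem_compl_iff, not_not] at hcon
  obtain ⟨⟨⟨⟨⟨g1, g2⟩, g3⟩, g5⟩, g6⟩, g7⟩ := hcon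
  simp only [mem_ofPred_eq, not_lt] at g5 g6 g7
  obtain ⟨hcube, S, hS0, hST, hS⟩ := hθ
  have hy0 : 0 < y := by linarith
  have hJ : (0:ℝ) < J := by exact_mod_cast (by omega : 0 < J)
  have hTJ : 0 < T / J := by positivity
  have hzz := hz θ g1
  have k1 := E3_le g1 g2
  have k2 := E3_le (by rw [SepF_comm]; exact g1) g3
  have kk : ∀ x : ℝ, x ≤ 3 * (1 / y ^ 5) → T * (K0 * x) ≤ 3 * (T / y ^ 4) := by
    intro x hx
    calc T * (K0 * x) ≤ T * (K0 * (3 * (1 / y ^ 5))) := by gcongr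
      _ ≤ T * (y * (3 * (1 / y ^ 5))) := by gcongr
      _ = 3 * (T / y ^ 4) := by field_simp
  -- bound at the grid points
  have key1 : ∀ i ∈ Finset.range (J + 1), ‖DD (i * (T / J)) (gc a b (U + θ))‖ ≤ 9 * (T / y ^ 4) := by
    intro i hi
    have hi' : (i:ℝ) ≤ J := by exact_mod_cast Nat.lt_succ_iff.1 (Finset.mem_range.1 hi)
    have hSi0 : 0 ≤ (i:ℝ) * (T / J) := by positivity
    have hSiT : (i:ℝ) * (T / J) ≤ T := by
      calc (i:ℝ) * (T / J) ≤ J * (T / J) := by gcongr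
        _ = T := by field_simp
    refine (DD_leF hQD ψ hSi0 hSiT hZ0 hK0 hK1 hK2 N (U + θ) hzz).trans ?_
    have b1 := g5 i hi
    have b2 := hTN (U + θ) _ hSi0 hSiT
    have b3 := kk _ k1
    have b4 := kk _ k2
    have b6 : Z * ∑ π ∈ Oth n, ‖IG (i * (T / J)) (gc a b (U + θ)) π‖ ≤ T / y ^ 4 := by
      have c1 : ∑ π ∈ Oth n, ‖IG (i * (T / J)) (gc a b (U + θ)) π‖ ≤
          (Fintype.card (Equiv.Perm (Fin (n + 1) ⊕ Fin (n + 1))) : ℝ) * (T / y ^ 8) := by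
        calc _ ≤ ∑ _π ∈ Oth n, T / y ^ 8 := Finset.sum_le_sum fun π hπ => g6 i hi π hπ
          _ = ((Oth n).card : ℝ) * (T / y ^ 8) := by rw [Finset.sum_const, nsmul_eq_mul]
          _ ≤ _ := by
              gcongr
              exact_mod_cast Finset.card_le_univ _
      calc _ ≤ Z * ((Fintype.card (Equiv.Perm (Fin (n + 1) ⊕ Fin (n + 1))) : ℝ) * (T / y ^ 8)) := by
            gcongr
        _ = ((Fintype.card (Equiv.Perm (Fin (n + 1) ⊕ Fin (n + 1))) : ℝ) * Z) * (T / y ^ 8) := by ring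
        _ ≤ y * (T / y ^ 8) := by gcongr
        _ = T / y ^ 4 * (1 / y ^ 3) := by field_simp
        _ ≤ T / y ^ 4 * 1 := by
            gcongr
            rw [div_le_one (by positivity)]
            exact one_le_pow₀ (by linarith)
        _ = _ := mul_one _
    linarith
  -- the nearest grid point
  set i : ℕ := ⌊S / (T / J)⌋₊ with hi
  have hiS : (i:ℝ) * (T / J) ≤ S := by
    have := Nat.floor_le (a := S / (T / J)) (by positivity)
    rwa [← hi, le_div_iff₀ hTJ] at this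
  have hiS2 : S < ((i:ℝ) + 1) * (T / J) := by
    have := Nat.lt_floor_add_one (S / (T / J))
    rwa [← hi, div_lt_iff₀ hTJ] at this
  have hiJ : i ≤ J := by
    have h2 : (i:ℝ) * (T / J) ≤ J * (T / J) := by
      refine (hiS.trans hST).trans (le_of_eq ?_)
      field_simp
    have h3 := le_of_mul_le_mul_right h2 hTJ
    exact_mod_cast h3
  have hfin : ‖DD S (gc a b (U + θ))‖ ≤ T / y ^ 2 := by
    have k1 := key1 i (Finset.mem_range.2 (by omega))
    have hd := DD_diffF (k := n + 1) hiS hZ0 hzz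
    have k2 : (S - i * (T / J)) * (Fintype.card (Equiv.Perm (Fin (n + 1) ⊕ Fin (n + 1))) * Z) ≤
        T / y ^ 4 := by
      have d1 : S - i * (T / J) ≤ T / J := by linarith
      have d2 : T / (J:ℝ) ≤ T / y ^ 16 := by
        gcongr
      calc _ ≤ T / y ^ 16 * y := by
            refine mul_le_mul (d1.trans d2) hZ (by positivity) (by positivity)
        _ = T / y ^ 4 * (1 / y ^ 11) := by field_simp
        _ ≤ T / y ^ 4 * 1 := by
            gcongr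
            rw [div_le_one (by positivity)]
            exact one_le_pow₀ (by linarith)
        _ = _ := mul_one _
    have eZ : ∀ t, Zg (gc a b (U + θ)) t = ZZf a b (U + θ) t := fun t => Zg_gc a b _ t
    simp only [eZ] at hd
    have k3 : (∫ t in (i * (T / J))..S, ‖ZZf a b (U + θ) t‖) ≤ T / y ^ 4 := by
      have hcn : Continuous fun t : ℝ => ‖ZZf a b (U + θ) t‖ := by
        have := (Zg_cont (gc a b (U + θ))).norm
        simpa only [eZ] using this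
      rcases lt_or_eq_of_le hiJ with hlt | heq
      · refine le_trans ?_ (g7 i (Finset.mem_range.2 hlt))
        refine intervalIntegral.integral_mono_interval le_rfl hiS ?_ ?_ (hcn.intervalIntegrable _ _)
        · push_cast; exact hiS2.le
        · exact Eventually.of_forall fun t => norm_nonneg _
      · have e : (i:ℝ) * (T / J) = S := by
          refine le_antisymm hiS ?_
          rw [heq]
          refine hST.trans (le_of_eq ?_)
          field_simp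
        rw [e, intervalIntegral.integral_same]
        positivity
    have k4 : ‖DD S (gc a b (U + θ))‖ ≤ ‖DD (i * (T / J)) (gc a b (U + θ))‖ +
        ‖DD S (gc a b (U + θ)) - DD (i * (T / J)) (gc a b (U + θ))‖ := by
      have := norm_add_le (DD (i * (T / J)) (gc a b (U + θ)))
        (DD S (gc a b (U + θ)) - DD (i * (T / J)) (gc a b (U + θ)))
      rwa [add_sub_cancel] at this
    have k5 : 11 * (T / y ^ 4) ≤ T / y ^ 2 := by
      have : T / y ^ 2 = (T / y ^ 4) * y ^ 2 := by field_simp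
      rw [this, mul_comm]
      gcongr
      nlinarith
    linarith
  linarith

end

end Pool.Agent.T2H54.TP
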