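import Pool.Agent.T2H54.TP.AsmD

set_option autoImplicit false

/-! Assembly of project TP: main theorem. -/

namespace Pool.Agent.T2H54.TP

open Complex Filter Topology MeasureTheory Set
open Pool.Agent.TH612.CF Pool.Agent.TH612.GS Pool.Agent.T2H54.SB
open Pool.Agent.W182.KO hiding ee SS_summable DD
open scoped ContDiff

noncomputable section

lemma zpF {n : ℕ} {a b T H C7 K0 : ℝ} {U θ' : Fin n ⊕ Fin n → ℝ} (hT3 : 3 ≤ T) (hH1 : 1 ≤ H)
    (hLg : 1 ≤ Real.log T) (hC7 : 0 < C7) (hK00 : 0 ≤ K0) (hTab : |a| + |b| + 1 ≤ T)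
    (hK1 : ‖riemannZeta (1 + I * ((a - b : ℝ) : ℂ))‖ ≤ K0)
    (hK2 : ‖riemannZeta (1 - I * ((a - b : ℝ) : ℂ))‖ ≤ K0)
    (hU : ∀ i, 0 ≤ U i ∧ U i + H ≤ T)
    (hone : ∀ v : ℝ, 1 ≤ |v| → |v| ≤ 2 * T → ‖riemannZeta (1 + I * v)‖ ≤ C7 * Real.log (2 * T))
    (hθ' : θ' ∈ SepF a b H U) (π : Equiv.Perm (Fin (n + 1) ⊕ Fin (n + 1))) :
    ‖zp (gc a b (U + θ')) π‖ ≤ BF (n + 1) (1 / 8) * ((2 * C7 + K0) * Real.log T) ^ ((n + 1) ^ 2) := by
  have hTp : 0 < T := by linarith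
  have hlog2 : Real.log (2 * T) ≤ 2 * Real.log T := by
    rw [Real.log_mul (by norm_num) hTp.ne']
    have : Real.log 2 ≤ Real.log T := Real.log_le_log (by norm_num) (by linarith)
    linarith
  have m1 : K0 ≤ (2 * C7 + K0) * Real.log T := by
    calc K0 ≤ 2 * C7 + K0 := by linarith
      _ = (2 * C7 + K0) * 1 := (mul_one _).symm
      _ ≤ (2 * C7 + K0) * Real.log T := mul_le_mul_of_nonneg_left hLg (by linarith)
  have m2 : C7 * Real.log (2 * T) ≤ (2 * C7 + K0) * Real.log T := by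
    calc C7 * Real.log (2 * T) ≤ C7 * (2 * Real.log T) := mul_le_mul_of_nonneg_left hlog2 hC7.le
      _ = (2 * C7) * Real.log T := by ring
      _ ≤ (2 * C7 + K0) * Real.log T := mul_le_mul_of_nonneg_right (by linarith) (by linarith)
  have hH2 : 1 ≤ H ^ (1 / 2 : ℝ) := Real.one_le_rpow hH1 (by norm_num)
  refine zp_bdF (by positivity) (fun p q hpq => ?_) π
  by_cases h1' : p = Sum.inl 0 ∧ q = Sum.inr 0
  · obtain ⟨rfl, rfl⟩ := h1'
    have e3 : (gc a b (U + θ') (Sum.inl 0) - gc a b (U + θ') (Sum.inr 0) : ℝ) = a - b := by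
      simp [gc]
    rw [e3]
    exact hK1.trans m1
  by_cases h2' : p = Sum.inr 0 ∧ q = Sum.inl 0
  · obtain ⟨rfl, rfl⟩ := h2'
    have e3 : (1 + I * ((gc a b (U + θ') (Sum.inr 0) - gc a b (U + θ') (Sum.inl 0) : ℝ) : ℂ)) =
        1 - I * ((a - b : ℝ) : ℂ) := by
      simp [gc]; ring
    rw [e3]
    exact hK2.trans m1
  have hs := SepF_diff hθ' hpq h1' h2'
  have hgb : ∀ p : Fin (n + 1) ⊕ Fin (n + 1), |gc a b (U + θ') p| ≤ T := by
    intro p
    have ha0 := abs_nonneg a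
    have hb0 := abs_nonneg b
    rcases p with p | p
    · refine Fin.cases ?_ (fun p => ?_) p
      · have : gc a b (U + θ') (Sum.inl 0) = a := by simp [gc]
        rw [this]; linarith
      · have : gc a b (U + θ') (Sum.inl p.succ) = U (Sum.inl p) + θ' (Sum.inl p) := by simp [gc]
        rw [this, abs_le]
        have a1 := hθ'.1 (Sum.inl p)
        have b1 := hU (Sum.inl p)
        constructor <;> linarith [a1.1, a1.2, b1.1, b1.2]
    · refine Fin.cases ?_ (fun p => ?_) p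
      · have : gc a b (U + θ') (Sum.inr 0) = b := by simp [gc]
        rw [this]; linarith
      · have : gc a b (U + θ') (Sum.inr p.succ) = U (Sum.inr p) + θ' (Sum.inr p) := by simp [gc]
        rw [this, abs_le]
        have a1 := hθ'.1 (Sum.inr p)
        have b1 := hU (Sum.inr p)
        constructor <;> linarith [a1.1, a1.2, b1.1, b1.2]
  have h8 := hone (gc a b (U + θ') p - gc a b (U + θ') q) (hH2.trans hs) (by
    have h9 := abs_sub (gc a b (U + θ') p) (gc a b (U + θ') q)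
    linarith [hgb p, hgb q])
  exact h8.trans m2

set_option maxHeartbeats 40000000 in
theorem mainF (hSH : S_SH (1 / 3)) (hQD : S_QD) (hTN : S_TN) (hSS : S_SSR) (hA4 : S_A4R)
    (hZM : S_ZMR) (hNS : S_NSF) (hSW : S_SWF) (hQ4 : S_Q4) (hONE : S_ONE) (n : ℕ) (hn : 1 ≤ n) :
    ∃ η δ : ℝ, 0 < η ∧ 0 < δ ∧ ∀ a b : ℝ, a ≠ b → ∃ T₀ : ℝ, ∀ (T H : ℝ) (U : Fin n ⊕ Fin n → ℝ),
      T₀ ≤ T → T ^ (1 / 3 - η) ≤ H → H ≤ T → (∀ i, 0 ≤ U i ∧ U i + H ≤ T) →
      mP (Fin n ⊕ Fin n) H (BadF a b H T (T * T ^ (-δ)) U) ≤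
        ENNReal.ofReal (H ^ (2 * n) * T ^ (-δ)) := by
  classical
  set k : ℕ := n + 1 with hk
  obtain ⟨θ, hθ, hθ1, hpar⟩ := paramsF k (c := 1 / 8) (by norm_num) le_rfl
  have hk0 : (0:ℝ) ≤ k := Nat.cast_nonneg k
  set e : ℝ := θ / (8 * (k + 1)) with he
  have he0 : 0 < e := by positivity
  have heθ : e ≤ θ / 8 := by
    rw [he, div_le_div_iff₀ (by positivity) (by norm_num)]
    nlinarith
  have he1 : e ≤ 1 := by linarith
  have h4ke : 4 * k * e ≤ θ / 2 := by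
    rw [he, ← mul_div_assoc, div_le_div_iff₀ (by positivity) (by norm_num)]
    nlinarith
  refine ⟨e, 2 * θ, he0, by positivity, fun a b hab => ?_⟩
  obtain ⟨ψ, hψ⟩ := exists_cut
  obtain ⟨Cv, Tv, hCv, hTv, hv⟩ := vb (κ := 1 / 3) (by norm_num) (by norm_num) hSH he0 he1
  obtain ⟨C1, T1, hC1, hT1, h1⟩ := z1F n
  obtain ⟨C3, hC3, h3⟩ := hSS n ψ hψ
  obtain ⟨C4, M0, hC4, hM0, h4⟩ := hA4 n ψ hψ
  obtain ⟨C5, T5, B5, hC5, hT5, h5⟩ := hZM n a b
  obtain ⟨D5, S5, G5, hD5, hS5, k5⟩ := hZM n b a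
  obtain ⟨C6, T6, hC6, hT6, h6⟩ := hSW n
  obtain ⟨C7, T7, hC7, hT7, h7⟩ := hONE
  obtain ⟨Cq, Tq, hCq, hTq, hq⟩ := Q_bound hQ4 a b he0 he1
  obtain ⟨Ct, Tt, hCt0, hTt, ht⟩ := hTN n a b hab
  set K0 : ℝ := max ‖riemannZeta (1 + I * ((a - b : ℝ) : ℂ))‖ ‖riemannZeta (1 - I * ((a - b : ℝ) : ℂ))‖
    with hK0
  have hK00 : 0 ≤ K0 := le_max_of_le_left (norm_nonneg _)
  set P0 : ℝ := (Fintype.card (Equiv.Perm (Fin (n + 1) ⊕ Fin (n + 1))) : ℝ) with hP0
  have hP0' : 0 ≤ P0 := Nat.cast_nonneg _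
  set Z7 : ℝ := P0 * (BF k (1 / 8) * (2 * C7 + K0) ^ (k ^ 2)) with hZ7
  have hZ7' : 0 ≤ Z7 := mul_nonneg hP0' (mul_nonneg (BF_nonneg _ _) (by positivity))
  set Cc : ℝ := C1 + C3 + C4 + C5 + D5 + P0 * C6 + Z7 + 16 * (n + 1) ^ 2 + Ct + K0 with hCc
  set Bt : ℕ := 4 + B5 + G5 + 2 + k ^ 2 with hBt
  obtain ⟨T0, hT0⟩ := hpar Cc Bt M0
  obtain ⟨Tw, hTw⟩ := eventually_atTop.1
    ((tendsto_rpow_atTop (half_pos hθ)).eventually_ge_atTop ((2 * Cv) ^ (2 * n) + Cq))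
  refine ⟨max T0 (max T1 (max Tv (max T5 (max S5 (max T6 (max T7 (max Tq (max Tt (max Tw
    (|a| + |b| + 1)))))))))), fun T H U hT hHge hHT hU => ?_⟩
  have hTT0 := (le_max_left _ _).trans hT
  have hT' := (le_max_right _ _).trans hT
  have hTT1 : T1 ≤ T := (le_max_left _ _).trans hT'
  have hT'' := (le_max_right _ _).trans hT'
  have hTTv : Tv ≤ T := (le_max_left _ _).trans hT''
  have hT3 := (le_max_right _ _).trans hT''
  have hTT5 : T5 ≤ T := (le_max_left _ _).trans hT3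
  have hT4 := (le_max_right _ _).trans hT3
  have hTS5 : S5 ≤ T := (le_max_left _ _).trans hT4
  have hT5' := (le_max_right _ _).trans hT4
  have hTT6 : T6 ≤ T := (le_max_left _ _).trans hT5'
  have hT6' := (le_max_right _ _).trans hT5'
  have hTT7 : T7 ≤ T := (le_max_left _ _).trans hT6'
  have hT7' := (le_max_right _ _).trans hT6'
  have hTTq : Tq ≤ T := (le_max_left _ _).trans hT7'
  have hT8 := (le_max_right _ _).trans hT7'
  have hTTt : Tt ≤ T := (le_max_left _ _).trans hT8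
  have hT9 := (le_max_right _ _).trans hT8
  have hTTw : Tw ≤ T := (le_max_left _ _).trans hT9
  have hTab : |a| + |b| + 1 ≤ T := (le_max_right _ _).trans hT9
  have hTge3 : 3 ≤ T := hTv.trans hTTv
  have hTp : 0 < T := by linarith
  have hT1' : 1 ≤ T := by linarith
  -- the sizes
  have hHc : T ^ (1 / 8 : ℝ) ≤ H := by
    refine le_trans ?_ hHge
    refine Real.rpow_le_rpow_of_exponent_le hT1' ?_
    linarith
  have hHp : 0 < H := lt_of_lt_of_le (Real.rpow_pos_of_pos hTp _) hHc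
  obtain ⟨y, N, J, P⟩ := hT0 T H hTT0 hHc
  have hT16 := P.hT
  have hLg := P.hlog
  have hy16 := P.hy16
  have hy0 : 0 < y := by linarith
  have hy1 : 1 ≤ y := by linarith
  have hN1 : 1 ≤ N := by have := P.hN2; omega
  have hN0 : (0:ℝ) < N := by exact_mod_cast (by omega : 0 < N)
  have hN1r : (1:ℝ) ≤ N := by exact_mod_cast hN1
  have hJ0 : (0:ℝ) < J := by have := P.hJ1; exact_mod_cast (by omega : 0 < J)
  have hTJ : 0 < T / J := by positivity
  have hy1' : ∀ n : ℕ, 1 ≤ y ^ n := fun n => one_le_pow₀ hy1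
  have hyn : ∀ n : ℕ, 1 ≤ n → 16 ≤ y ^ n := fun n hn =>
    hy16.trans (le_self_pow₀ hy1 (by omega))
  have hHh : H ^ (1 / 2 : ℝ) * H ^ (1 / 2 : ℝ) = H := by
    rw [← Real.rpow_add hHp]; norm_num
  have hHh16 : 16 ≤ H ^ (1 / 2 : ℝ) := (hyn 40 (by norm_num)).trans P.hyH
  have hH3 : 3 ≤ H := by
    have := mul_le_mul hHh16 hHh16 (by norm_num) (by positivity)
    linarith
  have hH1 : 1 ≤ H := by linarith
  have hHhH : H ^ (1 / 2 : ℝ) ≤ H := by
    have := le_mul_of_one_le_left (by positivity : 0 ≤ H ^ (1 / 2 : ℝ)) (by linarith : 1 ≤ H ^ (1 / 2 : ℝ))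
    rwa [hHh] at this
  have hNH : (N:ℝ) ≤ H := P.hNH.trans hHhH
  have hNT : (N:ℝ) ≤ T := hNH.trans hHT
  have cst : ∀ (a : ℝ) (b : ℕ), 0 ≤ a → a ≤ Cc → b ≤ Bt → a * Real.log T ^ b ≤ y := by
    intro a b hc0 hc hb
    refine le_trans ?_ P.hC
    have : Real.log T ^ b ≤ Real.log T ^ Bt := pow_le_pow_right₀ hLg hb
    gcongr
  have hPC : 0 ≤ P0 * C6 := by positivity
  have hk0' : (0:ℝ) ≤ 16 * (n + 1) ^ 2 := by positivity
  have c1 : C1 * Real.log T ^ 4 ≤ y := cst C1 _ hC1.le (by rw [hCc]; linarith) (by omega)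
  have c3 : C3 ≤ y := by simpa using cst C3 0 hC3.le (by rw [hCc]; linarith) (by omega)
  have c4 : C4 ≤ y := by simpa using cst C4 0 hC4.le (by rw [hCc]; linarith) (by omega)
  have c5 : C5 * Real.log T ^ B5 ≤ y := cst C5 _ hC5.le (by rw [hCc]; linarith) (by omega)
  have d5 : D5 * Real.log T ^ G5 ≤ y := cst D5 _ hD5.le (by rw [hCc]; linarith) (by omega)
  have c6 : P0 * C6 * Real.log T ^ 2 ≤ y := cst _ _ hPC (by rw [hCc]; linarith) (by omega)
  have c7 : Z7 * Real.log T ^ (k ^ 2) ≤ y := cst _ _ hZ7' (by rw [hCc]; linarith) (by omega)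
  have c8 : 16 * ((n:ℝ) + 1) ^ 2 ≤ y := by simpa using cst _ 0 hk0' (by rw [hCc]; linarith) (by omega)
  have c9 : Ct ≤ y := by simpa using cst Ct 0 hCt0.le (by rw [hCc]; linarith) (by omega)
  have c10 : K0 ≤ y := by simpa using cst K0 0 hK00 (by rw [hCc]; linarith) (by omega)
  have hone := (h7 (2 * T) 1 (by linarith) le_rfl (by
    push_cast
    exact Real.one_le_rpow (by linarith) (by norm_num))).1
  -- the values of zeta
  set Z : ℝ := BF k (1 / 8) * ((2 * C7 + K0) * Real.log T) ^ (k ^ 2) with hZdef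
  have hZ0 : 0 ≤ Z := by
    rw [hZdef]
    exact mul_nonneg (BF_nonneg _ _) (by positivity)
  have hZ : P0 * Z ≤ y := by
    refine le_trans (le_of_eq ?_) c7
    rw [hZ7, hZdef, mul_pow]; ring
  have hz : ∀ θ ∈ SepF a b H U, ∀ π : Equiv.Perm (Fin (n + 1) ⊕ Fin (n + 1)),
      ‖zp (gc a b (U + θ)) π‖ ≤ Z := fun θ' hθ' π =>
    zpF hTge3 hH1 hLg hC7 hK00 hTab (le_max_left _ _) (le_max_right _ _) hU hone hθ' π
  have hTNd : ∀ (θ : Fin n ⊕ Fin n → ℝ) (S : ℝ), 0 ≤ S → S ≤ T → ‖TNd a b N S θ‖ ≤ T / y ^ 4 := by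
    intro θ' S hS0 hST
    have g1 : (N:ℝ) ^ (2 * n) ≤ (N:ℝ) ^ (3 * k) := pow_le_pow_right₀ hN1r (by omega)
    refine (ht T S N θ' hTTt hS0 hST hN1 (g1.trans P.hN4)).trans ?_
    rw [le_div_iff₀ (by positivity)]
    calc Ct * (N:ℝ) ^ (2 * n) * T ^ (4 / 5 : ℝ) * y ^ 4 ≤ y * (N:ℝ) ^ (3 * k) * T ^ (4 / 5 : ℝ) * y ^ 4 := by
          gcongr
      _ = y ^ 5 * (N:ℝ) ^ (3 * k) * T ^ (4 / 5 : ℝ) := by ring
      _ ≤ T := P.hN5
  -- the mean squares
  set W : ℝ := 2 * Cv * T ^ (2 * e) with hW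
  have hTe1 : 1 ≤ T ^ (2 * e) := Real.one_le_rpow hT1' (by positivity)
  have hW1 : 1 ≤ W := by
    rw [hW]
    have := one_le_mul_of_one_le_of_one_le (by linarith : 1 ≤ 2 * Cv) hTe1
    exact this
  have hTw' := hTw T hTTw
  have hTw1 : (2 * Cv) ^ (2 * n) ≤ T ^ (θ / 2) := by linarith
  have hTw2 : Cq ≤ T ^ (θ / 2) := by
    have : 0 ≤ (2 * Cv) ^ (2 * n) := by positivity
    linarith
  have hWk : W ^ (2 * n) ≤ y := by
    rw [hW, mul_pow, P.hy]
    have g1 : (T ^ (2 * e)) ^ (2 * n) ≤ T ^ (θ / 2) := by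
      rw [← Real.rpow_natCast, ← Real.rpow_mul hTp.le]
      refine Real.rpow_le_rpow_of_exponent_le hT1' ?_
      push_cast
      have h5 : (n:ℝ) ≤ k := by rw [hk]; push_cast; linarith
      calc 2 * e * (2 * (n:ℝ)) = 4 * n * e := by ring
        _ ≤ 4 * k * e := by gcongr
        _ ≤ θ / 2 := h4ke
    calc (2 * Cv) ^ (2 * n) * (T ^ (2 * e)) ^ (2 * n) ≤ T ^ (θ / 2) * T ^ (θ / 2) := by gcongr
      _ = T ^ θ := by
          rw [← Real.rpow_add hTp]
          congr 1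
          ring
  have hWk1 : W ^ (2 * n - 1) ≤ y :=
    (pow_le_pow_right₀ hW1 (by omega)).trans hWk
  set V : ℝ := W * H with hV
  have hV0 : 0 ≤ V := by positivity
  have hVle : Cv * T ^ e * (H + T ^ (1 / 3 : ℝ)) ≤ V := by
    have g1 : T ^ (1 / 3 : ℝ) ≤ T ^ e * H := by
      calc T ^ (1 / 3 : ℝ) = T ^ e * T ^ (1 / 3 - e) := by
            rw [← Real.rpow_add hTp]
            congr 1
            ring
        _ ≤ T ^ e * H := by gcongr
    have g2 : 1 ≤ T ^ e := Real.one_le_rpow hT1' he0.le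
    have g3 : H + T ^ (1 / 3 : ℝ) ≤ 2 * (T ^ e * H) := by
      have := le_mul_of_one_le_left hHp.le g2
      linarith
    have g4 : T ^ (2 * e) = T ^ e * T ^ e := by
      rw [← Real.rpow_add hTp]
      congr 1
      ring
    calc Cv * T ^ e * (H + T ^ (1 / 3 : ℝ)) ≤ Cv * T ^ e * (2 * (T ^ e * H)) := by gcongr
      _ = V := by rw [hV, hW, g4]; ring
  have hVz : ∀ v, 0 ≤ v → v ≤ 2 * T → ∫ y in (0:ℝ)..H, ‖z (v + y)‖ ^ 2 ≤ V := fun v h0 h2 =>
    ((hv T H v N hTTv hH1 hHT h0 h2 hN1 hNH).1).trans hVle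
  have hVP : ∀ v, 0 ≤ v → v ≤ 2 * T → ∫ y in (0:ℝ)..H, ‖PN N (v + y)‖ ^ 2 ≤ V := fun v h0 h2 =>
    ((hv T H v N hTTv hH1 hHT h0 h2 hN1 hNH).2).trans hVle
  have hQS : ∀ S, 0 ≤ S → S ≤ T → ∫ t in (0:ℝ)..S, ‖Bab a b t‖ ^ 2 ≤ y * T := by
    intro S hS0 hST
    refine (hq T S hTTq hS0 hST).trans ?_
    have g1 : T ^ e ≤ T ^ (θ / 2) := Real.rpow_le_rpow_of_exponent_le hT1' (by linarith)
    calc Cq * T ^ e * T ≤ T ^ (θ / 2) * T ^ (θ / 2) * T := by gcongr
      _ = y * T := by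
          rw [P.hy, ← Real.rpow_add hTp]
          congr 2
          ring
  -- the target for each piece
  have hH2k : H ^ (2 * n) = H * H ^ (2 * n - 1) := by
    rw [← pow_succ']
    congr 1
    omega
  have hHk : 0 < H ^ (2 * n) := by positivity
  have hHk1 : 0 < H ^ (2 * n - 1) := by positivity
  set b' : ℝ := H ^ (2 * n) / y ^ 3 with hb'
  have hb0 : 0 < b' := by positivity
  have hVk : V ^ (2 * n) ≤ y * H ^ (2 * n) := by
    rw [hV, mul_pow]
    gcongr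
  have hVk1 : V ^ (2 * n - 1) ≤ y * H ^ (2 * n - 1) := by
    rw [hV, mul_pow]
    gcongr
  have hNinv : 1 / (N:ℝ) ≤ 2 / y ^ 320 := by
    rw [div_le_div_iff₀ hN0 (by positivity)]
    have := P.hN
    linarith
  have hNinv' : 1 / (N:ℝ) ≤ 2 / y ^ 80 := by
    refine hNinv.trans ?_
    have : y ^ 80 ≤ y ^ 320 := pow_le_pow_right₀ hy1 (by norm_num)
    gcongr
  have hy80 : y ^ 80 ≤ H := by
    calc y ^ 80 = y ^ 40 * y ^ 40 := by ring
      _ ≤ H ^ (1 / 2 : ℝ) * H ^ (1 / 2 : ℝ) := by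
          have := P.hyH
          gcongr
      _ = H := hHh
  have hHN : 1 + H / N ≤ 3 * H / y ^ 80 := by
    have g1 : H / N ≤ 2 * H / y ^ 80 := by
      calc H / N = H * (1 / N) := by ring
        _ ≤ H * (2 / y ^ 80) := by gcongr
        _ = _ := by ring
    have g2 : 1 ≤ H / y ^ 80 := by
      rw [one_le_div (by positivity)]; exact hy80
    have g3 : 3 * H / y ^ 80 = H / y ^ 80 + 2 * H / y ^ 80 := by ring
    rw [g3]
    exact add_le_add g2 g1
  have hcU : Continuous fun θ : Fin n ⊕ Fin n → ℝ => U + θ := by fun_prop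
  have h4n : 2 * (N:ℝ) ^ (4 * n + 2) ≤ H := by
    refine le_trans ?_ P.hN1
    have : (N:ℝ) ^ (4 * n + 2) ≤ (N:ℝ) ^ (4 * k + 2) := pow_le_pow_right₀ hN1r (by omega)
    linarith
  have hN3 : 2 * (N:ℝ) ^ (3 * (n + 1) ^ 2) ≤ H := P.hN3
  -- the three differences
  have b3 : C3 * H ^ (2 * n) * (N:ℝ) ^ (-(1 / 8) : ℝ) * y ^ 10 ≤ b' / 4 := by
    have e := P.hN8
    calc C3 * H ^ (2 * n) * (N:ℝ) ^ (-(1 / 8) : ℝ) * y ^ 10
        ≤ y * H ^ (2 * n) * (2 / y ^ 40) * y ^ 10 := by gcongr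
      _ = H ^ (2 * n) / y ^ 3 / 4 * (8 / y ^ 26) := by field_simp; ring
      _ ≤ H ^ (2 * n) / y ^ 3 / 4 * 1 := by
          gcongr
          rw [div_le_one (by positivity)]
          linarith [hyn 26 (by norm_num)]
      _ = b' / 4 := by rw [mul_one]
  have b4 : C4 * H ^ (2 * n) * (N:ℝ) ^ (-(1 / 8) : ℝ) * y ^ 10 ≤ b' / 4 := by
    have e := P.hN8
    calc C4 * H ^ (2 * n) * (N:ℝ) ^ (-(1 / 8) : ℝ) * y ^ 10
        ≤ y * H ^ (2 * n) * (2 / y ^ 40) * y ^ 10 := by gcongr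
      _ = H ^ (2 * n) / y ^ 3 / 4 * (8 / y ^ 26) := by field_simp; ring
      _ ≤ H ^ (2 * n) / y ^ 3 / 4 * 1 := by
          gcongr
          rw [div_le_one (by positivity)]
          linarith [hyn 26 (by norm_num)]
      _ = b' / 4 := by rw [mul_one]
  have b5 : ∀ c : ℝ, c ≤ y → c * H ^ (2 * n) / N * y ^ 10 ≤ b' / 4 := by
    intro c hc
    calc c * H ^ (2 * n) / N * y ^ 10 = c * H ^ (2 * n) * (1 / N) * y ^ 10 := by ring
      _ ≤ y * H ^ (2 * n) * (2 / y ^ 80) * y ^ 10 := by gcongr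
      _ = H ^ (2 * n) / y ^ 3 / 4 * (8 / y ^ 66) := by field_simp; ring
      _ ≤ H ^ (2 * n) / y ^ 3 / 4 * 1 := by
          gcongr
          rw [div_le_one (by positivity)]
          linarith [hyn 66 (by norm_num)]
      _ = b' / 4 := by rw [mul_one]
  have w1 : mP (Fin n ⊕ Fin n) H (W3 ψ a b H y N U) ≤ ENNReal.ofReal b' := by
    refine (cheb3 (c := b' / 4) hH1 hy0 (h3 a b H N U P.hN2 h4n) (h4 a b H N U P.hM hH1 hN3)
      (h5 T H N U hTT5 hH3 hU hN1 P.hNH) (by positivity) b3 b4 (b5 _ c5)).trans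
      (ENNReal.ofReal_le_ofReal (by linarith))
  have w2 : mP (Fin n ⊕ Fin n) H (W3 ψ b a H y N U) ≤ ENNReal.ofReal b' := by
    refine (cheb3 (c := b' / 4) hH1 hy0 (h3 b a H N U P.hN2 h4n) (h4 b a H N U P.hM hH1 hN3)
      (k5 T H N U hTS5 hH3 hU hN1 P.hNH) (by positivity) b3 b4 (b5 _ d5)).trans
      (ENNReal.ofReal_le_ofReal (by linarith))
  have hgrid : ∀ i ∈ Finset.range (J + 1), 0 ≤ (i:ℝ) * (T / J) ∧ (i:ℝ) * (T / J) ≤ T := by
    intro i hi
    have hi' : (i:ℝ) ≤ J := by exact_mod_cast Nat.lt_succ_iff.1 (Finset.mem_range.1 hi)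
    refine ⟨by positivity, ?_⟩
    calc (i:ℝ) * (T / J) ≤ J * (T / J) := by gcongr
      _ = T := by field_simp
  have hJ3 : ((J + 1 : ℕ) : ℝ) ≤ 3 * y ^ 16 := by
    push_cast
    have := P.hJu
    linarith [hyn 16 (by norm_num)]
  -- U1
  have u1 : ∑ i ∈ Finset.range (J + 1), mP (Fin n ⊕ Fin n) H
      {θ | T / y ^ 4 < ‖A1f a b N (i * (T / J)) (U + θ)‖} ≤ ENNReal.ofReal b' := by
    refine sum_ofReal_le' (b := C1 * Real.log T ^ 4 * (T * (1 + H / N)) * V ^ (2 * n - 1) * (y * T) /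
      (T / y ^ 4) ^ 2) (fun i hi => ?_) ?_
    · obtain ⟨g0, g1⟩ := hgrid i hi
      refine cheb (((A1f_cont a b N _).comp hcU).norm.aemeasurable) (by positivity)
        ((h1 a b T H _ V N U hTT1 hH1 hU g0 g1 hN1 hNT hV0 hVz hVP).trans
          (ENNReal.ofReal_le_ofReal ?_))
      have := hQS _ g0 g1
      gcongr
    · calc ((J + 1 : ℕ) : ℝ) * (C1 * Real.log T ^ 4 * (T * (1 + H / N)) * V ^ (2 * n - 1) * (y * T) /
            (T / y ^ 4) ^ 2)
          = ((J + 1 : ℕ) : ℝ) * ((C1 * Real.log T ^ 4) * (T * (1 + H / N)) * V ^ (2 * n - 1) * (y * T) /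
              (T / y ^ 4) ^ 2) := by ring
        _ ≤ (3 * y ^ 16) * (y * (T * (3 * H / y ^ 80)) * (y * H ^ (2 * n - 1)) * (y * T) /
              (T / y ^ 4) ^ 2) := by gcongr
        _ = H ^ (2 * n) / y ^ 3 * (9 / y ^ 50) := by
            rw [hH2k]; field_simp; ring
        _ ≤ H ^ (2 * n) / y ^ 3 * 1 := by
            gcongr
            rw [div_le_one (by positivity)]
            linarith [hyn 50 (by norm_num)]
        _ = b' := by rw [mul_one]
  -- U6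
  have hHr : H ^ (2 * n - 1 : ℝ) = H ^ (2 * n - 1) := by
    rw [← Real.rpow_natCast]
    congr 1
    rw [Nat.cast_sub (by omega)]
    push_cast
    ring
  have u6 : ∑ i ∈ Finset.range (J + 1), mP (Fin n ⊕ Fin n) H
      (⋃ π ∈ Oth n, {θ | T / y ^ 8 < ‖IG (i * (T / J)) (gc a b (U + θ)) π‖}) ≤ ENNReal.ofReal b' := by
    refine sum_ofReal_le' (b := P0 * (C6 * T ^ 2 * Real.log T ^ 2 * H ^ (2 * n - 1) /
      (T / y ^ 8) ^ 2)) (fun i hi => ?_) ?_
    · obtain ⟨g0, g1⟩ := hgrid i hi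
      refine (measure_biUnion_finset_le _ _).trans ?_
      calc ∑ π ∈ Oth n, mP (Fin n ⊕ Fin n) H {θ | T / y ^ 8 < ‖IG (i * (T / J)) (gc a b (U + θ)) π‖}
          ≤ ∑ _π ∈ Oth n, ENNReal.ofReal (C6 * T ^ 2 * Real.log T ^ 2 * H ^ (2 * n - 1) /
              (T / y ^ 8) ^ 2) := by
            refine Finset.sum_le_sum fun π hπ => ?_
            have hsw := h6 a b T H _ U π hTT6 hH1 hU g0 g1 hπ
            rw [hHr] at hsw
            exact cheb ((((IG_cont _ π).comp (gc_cont a b)).comp hcU).norm.aemeasurable)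
              (by positivity) hsw
        _ = ENNReal.ofReal (((Oth n).card : ℝ) * (C6 * T ^ 2 * Real.log T ^ 2 *
              H ^ (2 * n - 1) / (T / y ^ 8) ^ 2)) := by
            rw [Finset.sum_const, nsmul_eq_mul, ENNReal.ofReal_mul (by positivity),
              ENNReal.ofReal_natCast]
        _ ≤ _ := by
            refine ENNReal.ofReal_le_ofReal ?_
            gcongr
            rw [hP0]
            exact_mod_cast Finset.card_le_univ _
    · calc ((J + 1 : ℕ) : ℝ) * (P0 * (C6 * T ^ 2 * Real.log T ^ 2 * H ^ (2 * n - 1) /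
            (T / y ^ 8) ^ 2))
          = ((J + 1 : ℕ) : ℝ) * ((P0 * C6 * Real.log T ^ 2) * T ^ 2 * H ^ (2 * n - 1) /
              (T / y ^ 8) ^ 2) := by
            ring
        _ ≤ (3 * y ^ 16) * (y * T ^ 2 * H ^ (2 * n - 1) / (T / y ^ 8) ^ 2) := by
            gcongr
        _ = (3 * y ^ 33) * H ^ (2 * n - 1) := by
            field_simp
        _ = H ^ (2 * n - 1) * y ^ 80 / y ^ 3 * (3 / y ^ 44) := by field_simp
        _ ≤ H ^ (2 * n - 1) * H / y ^ 3 * 1 := by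
            have g9 : 3 / y ^ 44 ≤ 1 := by
              rw [div_le_one (by positivity)]
              linarith [hyn 44 (by norm_num)]
            have g10 : H ^ (2 * n - 1) * y ^ 80 / y ^ 3 ≤ H ^ (2 * n - 1) * H / y ^ 3 := by
              gcongr
            exact mul_le_mul g10 g9 (by positivity) (by positivity)
        _ = b' := by rw [mul_one, hb', hH2k]; ring
  -- U7
  have u7 : ∑ i ∈ Finset.range J, mP (Fin n ⊕ Fin n) H {θ | T / y ^ 4 <
      ∫ t in (i * (T / J))..((i + 1 : ℕ) * (T / J)), ‖ZZf a b (U + θ) t‖} ≤ ENNReal.ofReal b' := by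
    set cI : ℕ → ℝ := fun i => ∫ t in ((i:ℝ) * (T / J))..((i + 1 : ℕ) * (T / J)), ‖Bab a b t‖ ^ 2
      with hcI
    have hcI0 : ∀ i, 0 ≤ cI i := fun i => by
      rw [hcI]
      refine intervalIntegral.integral_nonneg ?_ fun t _ => sq_nonneg _
      gcongr
      push_cast; linarith
    have hsum : ∑ i ∈ Finset.range J, cI i ≤ y * T := by
      have hB2 : Continuous fun t : ℝ => ‖Bab a b t‖ ^ 2 := (Bab_cont a b).norm.pow 2
      have := intervalIntegral.sum_integral_adjacent_intervals (μ := volume)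
        (f := fun t : ℝ => ‖Bab a b t‖ ^ 2) (a := fun i : ℕ => (i:ℝ) * (T / J)) (n := J)
        fun i _ => hB2.intervalIntegrable _ _
      rw [hcI, this]
      have e1 : ((0 : ℕ) : ℝ) * (T / J) = 0 := by simp
      have e2 : (J:ℝ) * (T / J) = T := by field_simp
      rw [e1, e2]
      exact hQS T hTp.le le_rfl
    have each : ∀ i ∈ Finset.range J, mP (Fin n ⊕ Fin n) H {θ | T / y ^ 4 <
        ∫ t in (i * (T / J))..((i + 1 : ℕ) * (T / J)), ‖ZZf a b (U + θ) t‖} ≤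
        ENNReal.ofReal ((T / J) * V ^ (2 * n) / (T / y ^ 4) ^ 2 * cI i) := by
      intro i hi
      obtain ⟨g0, _⟩ := hgrid i (Finset.mem_range.2 (by have := Finset.mem_range.1 hi; omega))
      obtain ⟨_, g1⟩ := hgrid (i + 1) (Finset.mem_range.2 (by have := Finset.mem_range.1 hi; omega))
      have hle : (i:ℝ) * (T / J) ≤ ((i + 1 : ℕ) : ℝ) * (T / J) := by
        gcongr
        push_cast; linarith
      have hh := z2F n a b T H _ _ V U hHp.le hU g0 hle g1 hV0 hVz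
      have e : ((i + 1 : ℕ) : ℝ) * (T / J) - i * (T / J) = T / J := by push_cast; ring
      rw [e] at hh
      refine (cheb (((intZ_cont a b _ _).comp hcU).aemeasurable) (by positivity) hh).trans
        (ENNReal.ofReal_le_ofReal (le_of_eq ?_))
      rw [hcI]
      ring
    refine (Finset.sum_le_sum each).trans ?_
    rw [← ENNReal.ofReal_sum_of_nonneg (fun i _ => mul_nonneg (by positivity) (hcI0 i)),
      ← Finset.mul_sum]
    refine ENNReal.ofReal_le_ofReal ?_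
    calc (T / J) * V ^ (2 * n) / (T / y ^ 4) ^ 2 * ∑ i ∈ Finset.range J, cI i
        ≤ (T / J) * (y * H ^ (2 * n)) / (T / y ^ 4) ^ 2 * (y * T) := by
          refine mul_le_mul ?_ hsum (Finset.sum_nonneg fun i _ => hcI0 i) (by positivity)
          gcongr
      _ = y ^ 10 * H ^ (2 * n) * (1 / J) := by field_simp
      _ ≤ y ^ 10 * H ^ (2 * n) * (1 / y ^ 16) := by
          have := P.hJl
          gcongr
      _ = H ^ (2 * n) / y ^ 3 * (1 / y ^ 3) := by field_simp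
      _ ≤ H ^ (2 * n) / y ^ 3 * 1 := by
          gcongr
          rw [div_le_one (by positivity)]
          exact hy1' 3
      _ = b' := by rw [mul_one]
  -- U8
  have u8 : mP (Fin n ⊕ Fin n) H (SepF a b H U)ᶜ ≤ ENNReal.ofReal b' := by
    refine (hNS n a b H U hH1).trans (ENNReal.ofReal_le_ofReal ?_)
    have e : H ^ (2 * n - 1 / 2 : ℝ) = H ^ (2 * n) / H ^ (1 / 2 : ℝ) := by
      rw [Real.rpow_sub hHp]
      congr 1
      rw [← Real.rpow_natCast]; push_cast; rfl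
    rw [e]
    have hyT2 := P.hyH
    calc 16 * ((n:ℝ) + 1) ^ 2 * (H ^ (2 * n) / H ^ (1 / 2 : ℝ)) ≤ y * (H ^ (2 * n) / y ^ 40) := by gcongr
      _ = H ^ (2 * n) / y ^ 3 * (1 / y ^ 36) := by field_simp
      _ ≤ H ^ (2 * n) / y ^ 3 * 1 := by
          gcongr
          rw [div_le_one (by positivity)]
          exact hy1' 36
      _ = b' := by rw [mul_one]
  -- conclusion
  have eL : T * T ^ (-(2 * θ)) = T / y ^ 2 := by rw [P.e1]; ring
  have eH : H ^ (2 * n) * T ^ (-(2 * θ)) = H ^ (2 * n) / y ^ 2 := by rw [P.e1]; ring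
  rw [eL, eH]
  refine (measure_mono (BadF_sub hQD ψ hTge3 hy16 P.hJ1 P.hJl hK00 c10 (le_max_left _ _)
    (le_max_right _ _) hZ0 hZ hz hTNd)).trans ?_
  have step : ∀ {A B : Set (Fin n ⊕ Fin n → ℝ)} {x z : ℝ}, 0 ≤ x → 0 ≤ z →
      mP (Fin n ⊕ Fin n) H A ≤ ENNReal.ofReal x → mP (Fin n ⊕ Fin n) H B ≤ ENNReal.ofReal z →
      mP (Fin n ⊕ Fin n) H (A ∪ B) ≤ ENNReal.ofReal (x + z) := by
    intro A B x z hx hz hA hB
    rw [ENNReal.ofReal_add hx hz]
    exact (measure_union_le _ _).trans (add_le_add hA hB)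
  have tot := step (by positivity) (by positivity) (step (by positivity) (by positivity)
    (step (by positivity) (by positivity) (step (by positivity) (by positivity)
    (step (by positivity) (by positivity) u8 w1) w2)
    ((measure_biUnion_finset_le _ _).trans u1)) ((measure_biUnion_finset_le _ _).trans u6))
    ((measure_biUnion_finset_le _ _).trans u7)
  refine tot.trans (ENNReal.ofReal_le_ofReal ?_)
  have e7 : b' + b' + b' + b' + b' + b' = 6 * b' := by ring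
  rw [e7, hb']
  calc 6 * (H ^ (2 * n) / y ^ 3) ≤ y * (H ^ (2 * n) / y ^ 3) := by
        gcongr
        linarith
    _ = H ^ (2 * n) / y ^ 2 := by field_simp

end

end Pool.Agent.T2H54.TP
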