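import Pool.Agent.T2H54.TP.AsmC

set_option autoImplicit false

/-! Assembly of project TP: continuity in the shifts. -/

namespace Pool.Agent.T2H54.TP

open Complex Filter Topology MeasureTheory Set
open Pool.Agent.TH612.CF Pool.Agent.TH612.GS Pool.Agent.T2H54.SB
open Pool.Agent.W182.KO hiding ee SS_summable DD

noncomputable section

variable {n : ℕ}

lemma gc_cont (a b : ℝ) : Continuous fun θ : Fin n ⊕ Fin n → ℝ => gc a b θ := by
  refine continuous_pi fun i => ?_
  unfold gc
  cases i with
  | inl j =>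
    simp only [Sum.elim_inl]
    refine Fin.cases ?_ (fun j => ?_) j
    · simp only [Fin.cons_zero]; exact continuous_const
    · simp only [Fin.cons_succ]; exact continuous_apply _
  | inr j =>
    simp only [Sum.elim_inr]
    refine Fin.cases ?_ (fun j => ?_) j
    · simp only [Fin.cons_zero]; exact continuous_const
    · simp only [Fin.cons_succ]; exact continuous_apply _

lemma gci_cont (a b : ℝ) (i : Fin (n + 1) ⊕ Fin (n + 1)) :
    Continuous fun θ : Fin n ⊕ Fin n → ℝ => gc a b θ i :=
  (continuous_apply i).comp (gc_cont a b)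

lemma RN_cont (a b : ℝ) (N : ℕ) : Continuous fun θ : Fin n ⊕ Fin n → ℝ => RN a b N θ := by
  unfold RN
  exact continuous_finsetSum _ fun ν hν => continuous_const.mul (ch_cont hν)

lemma dr_cont (a b : ℝ) (m : ℕ) : Continuous fun θ : Fin n ⊕ Fin n → ℝ => dr (gc a b θ) m := by
  have h : Continuous fun γ : Fin (n + 1) ⊕ Fin (n + 1) → ℝ => dr γ m := by
    unfold dr dg
    refine Continuous.mul (Continuous.mul ?_ ?_) continuous_const
    · exact tau_cont' (fun j => by fun_prop) m
    · exact tau_cont' (fun j => by fun_prop) m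
  exact h.comp (gc_cont a b)

lemma SPr_cont (ψ : ℝ → ℝ) (a b : ℝ) (N : ℕ) :
    Continuous fun θ : Fin n ⊕ Fin n → ℝ => SPr ψ N a b θ := by
  unfold SPr Ar
  refine continuous_finsetSum _ fun m _ => Continuous.mul ?_ continuous_const
  exact continuous_finsetSum _ fun p _ => continuous_const.mul (dr_cont a b _)

lemma GMr0_cont (a b : ℝ) (N : ℕ) : Continuous fun θ : Fin n ⊕ Fin n → ℝ => GMr N a b θ 0 := by
  unfold GMr
  refine Continuous.mul ?_ ?_
  · rw [← continuousOn_univ]
    refine FH_cont isOpen_univ (c := 1 / 8) (by norm_num)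
      (a := fun (θ : Fin n ⊕ Fin n → ℝ) (j : Fin (n + 1)) => (gc a b θ (Sum.inl j) : ℂ) - I * 0 / 2)
      (b := fun (θ : Fin n ⊕ Fin n → ℝ) (j : Fin (n + 1)) => (gc a b θ (Sum.inr j) : ℂ) + I * 0 / 2)
      (fun j => ?_) (fun j => ?_) fun γ _ j => ?_
    · have := gci_cont a b (n := n) (Sum.inl j)
      exact (by fun_prop : Continuous fun θ : Fin n ⊕ Fin n → ℝ =>
        (gc a b θ (Sum.inl j) : ℂ) - I * 0 / 2).continuousOn
    · have := gci_cont a b (n := n) (Sum.inr j)
      exact (by fun_prop : Continuous fun θ : Fin n ⊕ Fin n → ℝ =>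
        (gc a b θ (Sum.inr j) : ℂ) + I * 0 / 2).continuousOn
    · simp
  · refine continuous_finsetProd _ fun p _ => ?_
    unfold zN
    refine continuous_finsetSum _ fun m hm => ?_
    have hn1 : 1 ≤ m := (Finset.mem_Icc.1 hm).1
    have hn0 : (m : ℂ) ≠ 0 := by exact_mod_cast (by omega : m ≠ 0)
    have h1 := gci_cont a b (n := n) (Sum.inl p.1)
    have h2 := gci_cont a b (n := n) (Sum.inr p.2)
    exact Continuous.const_cpow (by fun_prop) (Or.inl hn0)

lemma SepF_meas (a b H : ℝ) (U : Fin n ⊕ Fin n → ℝ) : MeasurableSet (SepF a b H U) := by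
  have : SepF a b H U = (⋂ i, {θ : Fin n ⊕ Fin n → ℝ | 0 ≤ θ i ∧ θ i ≤ H}) ∩
      ((⋂ p, ⋂ q, {θ | p ≠ q → H ^ (1 / 2 : ℝ) ≤ |(U p + θ p) - (U q + θ q)|}) ∩
      ⋂ p, {θ | H ^ (1 / 2 : ℝ) ≤ |(U p + θ p) - a| ∧ H ^ (1 / 2 : ℝ) ≤ |(U p + θ p) - b|}) := by
    ext θ
    simp only [SepF, mem_ofPred_eq, mem_inter_iff, mem_iInter]
  rw [this]
  refine IsClosed.measurableSet ?_
  refine IsClosed.inter (isClosed_iInter fun i => ?_) (IsClosed.inter
    (isClosed_iInter fun p => isClosed_iInter fun q => ?_) (isClosed_iInter fun p => ?_))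
  · exact (isClosed_le continuous_const (continuous_apply i)).inter
      (isClosed_le (continuous_apply i) continuous_const)
  · by_cases h : p = q
    · simp [h]
    · simp only [ne_eq, h, not_false_eq_true, true_imp_iff]
      exact isClosed_le continuous_const (by fun_prop)
  · exact (isClosed_le (f := fun _ : Fin n ⊕ Fin n → ℝ => H ^ (1 / 2 : ℝ))
      (g := fun θ => |(U p + θ p) - a|) continuous_const (by fun_prop)).inter
      (isClosed_le (f := fun _ : Fin n ⊕ Fin n → ℝ => H ^ (1 / 2 : ℝ))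
      (g := fun θ => |(U p + θ p) - b|) continuous_const (by fun_prop))

/-- the differences of the shifts of a separated `θ` -/
lemma SepF_diff {a b H : ℝ} {U θ : Fin n ⊕ Fin n → ℝ} (hθ : θ ∈ SepF a b H U)
    {p q : Fin (n + 1) ⊕ Fin (n + 1)} (hpq : p ≠ q)
    (h1 : ¬ (p = Sum.inl 0 ∧ q = Sum.inr 0)) (h2 : ¬ (p = Sum.inr 0 ∧ q = Sum.inl 0)) :
    H ^ (1 / 2 : ℝ) ≤ |gc a b (U + θ) p - gc a b (U + θ) q| := by
  obtain ⟨-, hs, hf⟩ := hθ
  rcases p with p | p <;> rcases q with q | q
  · refine Fin.cases (fun hpq h1 h2 => ?_) (fun p hpq h1 h2 => ?_) p hpq h1 h2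
    · refine Fin.cases (fun hpq h1 => ?_) (fun q hpq h1 => ?_) q hpq h1
      · exact absurd rfl hpq
      · have := (hf (Sum.inl q)).1
        rw [abs_sub_comm] at this
        simpa [gc] using this
    · refine Fin.cases (fun hpq h1 => ?_) (fun q hpq h1 => ?_) q hpq h1
      · have := (hf (Sum.inl p)).1
        simpa [gc] using this
      · have := hs (Sum.inl p) (Sum.inl q) (fun h => hpq (by
          rw [Sum.inl.injEq] at h; rw [h]))
        simpa [gc] using this
  · refine Fin.cases (fun hpq h1 h2 => ?_) (fun p hpq h1 h2 => ?_) p hpq h1 h2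
    · refine Fin.cases (fun hpq h1 => ?_) (fun q hpq h1 => ?_) q hpq h1
      · exact absurd ⟨rfl, rfl⟩ h1
      · have := (hf (Sum.inr q)).1
        rw [abs_sub_comm] at this
        simpa [gc] using this
    · refine Fin.cases (fun hpq h1 => ?_) (fun q hpq h1 => ?_) q hpq h1
      · have := (hf (Sum.inl p)).2
        simpa [gc] using this
      · have := hs (Sum.inl p) (Sum.inr q) (by simp)
        simpa [gc] using this
  · refine Fin.cases (fun hpq h1 h2 => ?_) (fun p hpq h1 h2 => ?_) p hpq h1 h2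
    · refine Fin.cases (fun hpq h2 => ?_) (fun q hpq h2 => ?_) q hpq h2
      · exact absurd ⟨rfl, rfl⟩ h2
      · have := (hf (Sum.inl q)).2
        rw [abs_sub_comm] at this
        simpa [gc] using this
    · refine Fin.cases (fun hpq h2 => ?_) (fun q hpq h2 => ?_) q hpq h2
      · have := (hf (Sum.inr p)).1
        simpa [gc] using this
      · have := hs (Sum.inr p) (Sum.inl q) (by simp)
        simpa [gc] using this
  · refine Fin.cases (fun hpq h1 h2 => ?_) (fun p hpq h1 h2 => ?_) p hpq h1 h2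
    · refine Fin.cases (fun hpq => ?_) (fun q hpq => ?_) q hpq
      · exact absurd rfl hpq
      · have := (hf (Sum.inr q)).2
        rw [abs_sub_comm] at this
        simpa [gc] using this
    · refine Fin.cases (fun hpq => ?_) (fun q hpq => ?_) q hpq
      · have := (hf (Sum.inr p)).2
        simpa [gc] using this
      · have := hs (Sum.inr p) (Sum.inr q) (fun h => hpq (by
          rw [Sum.inr.injEq] at h; rw [h]))
        simpa [gc] using this

lemma zrr_cont {a b H : ℝ} {U : Fin n ⊕ Fin n → ℝ} (hH : 1 ≤ H) :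
    ContinuousOn (fun θ : Fin n ⊕ Fin n → ℝ => zrr a b (U + θ)) (SepF a b H U) := by
  have hH2 : 0 < H ^ (1 / 2 : ℝ) := by positivity
  have hU : Continuous fun θ : Fin n ⊕ Fin n → ℝ => U + θ := by fun_prop
  have hg : ∀ i, Continuous fun θ : Fin n ⊕ Fin n → ℝ => gc a b (U + θ) i := fun i =>
    (gci_cont a b i).comp hU
  unfold zrr
  refine ContinuousOn.mul ?_ ?_
  · refine ContinuousOn.mono (s := univ) ?_ (subset_univ _)
    refine FH_cont isOpen_univ (c := 1 / 8) (by norm_num)
      (a := fun (θ : Fin n ⊕ Fin n → ℝ) (j : Fin (n + 1)) => (gc a b (U + θ) (Sum.inl j) : ℂ))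
      (b := fun (θ : Fin n ⊕ Fin n → ℝ) (j : Fin (n + 1)) => (gc a b (U + θ) (Sum.inr j) : ℂ))
      (fun j => ?_) (fun j => ?_) fun γ _ j => ?_
    · exact (Complex.continuous_ofReal.comp (hg _)).continuousOn
    · exact (Complex.continuous_ofReal.comp (hg _)).continuousOn
    · rw [Complex.ofReal_im, Complex.ofReal_im, abs_zero]
      norm_num
  · refine continuousOn_finsetProd _ fun p hp => ?_
    have h1 := hg (Sum.inl p.1)
    have h2 := hg (Sum.inr p.2)
    refine zeta_cont (by fun_prop) fun θ hθ hne => ?_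
    have hp' : p ≠ (0, 0) := (Finset.mem_filter.1 hp).2
    have h3 := SepF_diff hθ (p := Sum.inl p.1) (q := Sum.inr p.2) (by simp) (fun h => hp' (by
      have e1 := Sum.inl_injective h.1
      have e2 := Sum.inr_injective h.2
      exact Prod.ext e1 e2)) (by simp)
    have h4 : (gc a b (U + θ) (Sum.inl p.1) : ℂ) - gc a b (U + θ) (Sum.inr p.2) = 0 := by
      have h5 : I * ((gc a b (U + θ) (Sum.inl p.1) : ℂ) - gc a b (U + θ) (Sum.inr p.2)) = 0 := by
        linear_combination hne
      rcases mul_eq_zero.1 h5 with h6 | h6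
      · exact absurd h6 I_ne_zero
      · exact h6
    rw [← ofReal_sub, ofReal_eq_zero] at h4
    rw [h4, abs_zero] at h3
    linarith

lemma prodf_cont {f : ℝ → ℂ} (hf : Continuous f) (a b : ℝ) :
    Continuous (Function.uncurry fun (θ : Fin n ⊕ Fin n → ℝ) (t : ℝ) => Bab a b t *
      ∏ j : Fin n, f (t + θ (Sum.inl j)) * (starRingEnd ℂ) (f (t + θ (Sum.inr j)))) := by
  unfold Function.uncurry
  refine ((Bab_cont a b).comp continuous_snd).mul ?_
  refine continuous_finsetProd _ fun j _ => ?_
  exact (hf.comp (by fun_prop)).mul (Complex.continuous_conj.comp (hf.comp (by fun_prop)))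

lemma A1f_cont (a b : ℝ) (N : ℕ) (S : ℝ) :
    Continuous fun θ : Fin n ⊕ Fin n → ℝ => A1f a b N S θ := by
  unfold A1f
  exact (intervalIntegral.continuous_parametric_intervalIntegral_of_continuous
    (prodf_cont z_cont a b) continuous_const).sub
    (intervalIntegral.continuous_parametric_intervalIntegral_of_continuous
    (prodf_cont (PN_cont N) a b) continuous_const)

lemma intZ_cont (a b A B : ℝ) :
    Continuous fun θ : Fin n ⊕ Fin n → ℝ => ∫ t in A..B, ‖ZZf a b θ t‖ := by
  unfold ZZf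
  exact intervalIntegral.continuous_parametric_intervalIntegral_of_continuous
    (f := fun (θ : Fin n ⊕ Fin n → ℝ) (t : ℝ) => ‖Bab a b t *
      ∏ j : Fin n, z (t + θ (Sum.inl j)) * (starRingEnd ℂ) (z (t + θ (Sum.inr j)))‖)
    (prodf_cont z_cont a b).norm continuous_const

end

end Pool.Agent.T2H54.TP
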