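import Pool.Agent.T2H54.SB.AsmA
import Pool.Agent.Y379.GP.Sp
import Pool.Agent.Y587.GP.V
import Pool.Agent.Y587.GP.Chi

set_option autoImplicit false

/-!
Project TP (helper54), MP_fa2474_nt: one pair of shifts `α_0 = a`, `β_0 = b` fixed (`a ≠ b`), the other
`2n` shifts (`n = k - 1`) in a box of side `H ≥ T^(1/3-η)`. Two main terms of the recipe survive (the
identity and the swap of `a` and `b`). Definitions.
-/

namespace Pool.Agent.T2H54.TP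

open Complex Filter Topology MeasureTheory Set
open Pool.Agent.TH612.CF Pool.Agent.TH612.GS Pool.Agent.T2H54.SB

noncomputable section

/-! ### The fixed pair -/

/-- the fixed pair with shifts `0`, `d` -/
def Pd (d u : ℝ) : ℂ := z u * (starRingEnd ℂ) (z (u + d))

/-- its factors of the functional equation -/
def Xd (d u : ℝ) : ℂ := chi (1 / 2 + I * u) * chi (1 / 2 - I * ((u + d : ℝ) : ℂ))

/-- the fixed pair with shifts `a`, `b` -/
def Bab (a b t : ℝ) : ℂ := z (t + a) * (starRingEnd ℂ) (z (t + b))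

/-- its factors of the functional equation -/
def Xab (a b t : ℝ) : ℂ := chi (1 / 2 + I * ((t + a : ℝ) : ℂ)) * chi (1 / 2 - I * ((t + b : ℝ) : ℂ))

/-- the cut-off: `(1/2πi) ∫ x^(-s) e^(s²) (1 + 4s²/d²) ds/s`; the weight vanishes at `s = ± id/2` -/
def Wd (d x : ℝ) : ℝ := Pool.Agent.Y969.GP.V x +
  Real.log x * Real.exp (-(Real.log x) ^ 2 / 4) / (d ^ 2 * √Real.pi)

/-- the integrand on the line `Re s = c` of the approximate functional equation -/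
def Fd (d u c t : ℝ) : ℂ :=
  riemannZeta (1 / 2 + I * u + (c + I * t)) * riemannZeta (1 / 2 - I * ((u + d : ℝ) : ℂ) + (c + I * t)) *
    cexp ((c + I * t) * (Real.log (u / (2 * Real.pi)) : ℝ)) * cexp ((c + I * t) ^ 2) *
      (1 + 4 * (c + I * t) ^ 2 / (d : ℂ) ^ 2) / (c + I * t)

/-- the coefficient of a pair `p = (m, n)`: `(mn)^(-1/2) W(2π mn/u)` -/
def cW (d : ℝ) (p : ℕ × ℕ) (u : ℝ) : ℝ :=
  (√(Pool.Agent.Y969.GP.ht p))⁻¹ * Wd d (2 * Real.pi * Pool.Agent.Y969.GP.ht p / u)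

/-- the weight of the reduced fraction `μ/λ` in the fixed pair: `(λμ)^(-1/2) μ^(-ia) λ^(ib)` -/
def kap (a b : ℝ) (l m : ℕ) : ℂ :=
  ((((l : ℝ) * m) ^ (-(1 / 2 : ℝ)) : ℝ) : ℂ) * (m : ℂ) ^ (-(I * a)) * (l : ℂ) ^ (I * b)

/-! ### The random shifts -/

variable {n : ℕ}

/-- the shift vector -/
def gc (a b : ℝ) (θ : Fin n ⊕ Fin n → ℝ) : Fin (n + 1) ⊕ Fin (n + 1) → ℝ :=
  Sum.elim (Fin.cons a fun j => θ (Sum.inl j)) (Fin.cons b fun j => θ (Sum.inr j))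

/-- the two products of a tuple -/
def pl (ν : Fin n ⊕ Fin n → ℕ) : ℕ := ∏ j, ν (Sum.inl j)
def pr (ν : Fin n ⊕ Fin n → ℕ) : ℕ := ∏ j, ν (Sum.inr j)

/-- the coefficient of a tuple -/
def cf (a b : ℝ) (ν : Fin n ⊕ Fin n → ℕ) : ℂ :=
  (wt ν : ℂ) * kap a b (pl ν / Nat.gcd (pl ν) (pr ν)) (pr ν / Nat.gcd (pl ν) (pr ν))

/-- the (reduced) diagonal sum -/
def RN (a b : ℝ) (N : ℕ) (θ : Fin n ⊕ Fin n → ℝ) : ℂ := ∑ ν ∈ tup n N, cf a b ν * ch ν θ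

/-- the reduced coefficients: the coefficients `dr` of `ζ_{(α,β)}` divided by `ζ(1 + s + i(a-b))` -/
def Ar (a b : ℝ) (θ : Fin n ⊕ Fin n → ℝ) (m : ℕ) : ℂ :=
  ∑ p ∈ m.divisorsAntidiagonal, (ArithmeticFunction.moebius p.1 : ℂ) *
    (p.1 : ℂ) ^ (-(1 + I * ((a : ℂ) - b))) * dr (gc a b θ) p.2

/-- smoothed sums of the reduced coefficients -/
def SPr (ψ : ℝ → ℝ) (M : ℕ) (a b : ℝ) (θ : Fin n ⊕ Fin n → ℝ) : ℂ :=
  ∑ m ∈ Finset.Icc 1 M, Ar a b θ m * (ψ (Real.log m / (Real.log M / 2)) : ℂ)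

/-- all pairs of indices except `(0,0)` -/
def PQ (n : ℕ) : Finset (Fin (n + 1) × Fin (n + 1)) := Finset.univ.filter fun p => p ≠ (0, 0)

/-- the arithmetic factor times products of short Dirichlet polynomials, without the pair `(0,0)` -/
def GMr (M : ℕ) (a b : ℝ) (θ : Fin n ⊕ Fin n → ℝ) (s : ℂ) : ℂ :=
  FH (fun j => (gc a b θ (Sum.inl j) : ℂ) - I * s / 2) (fun j => (gc a b θ (Sum.inr j) : ℂ) + I * s / 2) *
    ∏ p ∈ PQ n, zN M (1 + s + I * (gc a b θ (Sum.inl p.1) - gc a b θ (Sum.inr p.2)))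

/-- the limit: `zr (gc a b θ) / ζ(1 + i(a-b))` -/
def zrr (a b : ℝ) (θ : Fin n ⊕ Fin n → ℝ) : ℂ :=
  FH (fun j => (gc a b θ (Sum.inl j) : ℂ)) (fun j => (gc a b θ (Sum.inr j) : ℂ)) *
    ∏ p ∈ PQ n, riemannZeta (1 + I * (gc a b θ (Sum.inl p.1) - gc a b θ (Sum.inr p.2)))

/-- the separated `θ` (in the coordinates of the box) -/
def SepF (a b H : ℝ) (U : Fin n ⊕ Fin n → ℝ) : Set (Fin n ⊕ Fin n → ℝ) :=
  {θ | (∀ i, 0 ≤ θ i ∧ θ i ≤ H) ∧ (∀ p q, p ≠ q → H ^ (1 / 2 : ℝ) ≤ |(U p + θ p) - (U q + θ q)|) ∧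
    ∀ p, H ^ (1 / 2 : ℝ) ≤ |(U p + θ p) - a| ∧ H ^ (1 / 2 : ℝ) ≤ |(U p + θ p) - b|}

/-- the place of the random shift `i` -/
def pos (i : Fin n ⊕ Fin n) : Fin (n + 1) ⊕ Fin (n + 1) := Sum.map Fin.succ Fin.succ i

/-- the permutations which move some random shift to the other block -/
def Oth (n : ℕ) : Finset (Equiv.Perm (Fin (n + 1) ⊕ Fin (n + 1))) :=
  Finset.univ.filter fun π => ∃ i : Fin n ⊕ Fin n, (π.symm (pos i)).isLeft ≠ (pos i).isLeft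

end

end Pool.Agent.T2H54.TP
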