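import Pool.Agent.T2H54.TP.Stm
import Pool.Agent.T2H54.SB.Rep

set_option autoImplicit false

/-! Project TP: replacement of the random factors in presence of the fixed pair. -/

namespace Pool.Agent.T2H54.TP

open Complex Filter Topology MeasureTheory Set
open Pool.Agent.TH612.CF Pool.Agent.TH612.GS Pool.Agent.T2H54.SB
open Pool.Agent.TH521.GS

noncomputable section

/-- replacement of all the factors, with a fixed factor `R` -/
theorem repR (ι : Type) [Fintype ι] (f g : ι → ℝ → ℂ) (R : ℝ → ℂ) (T S K V : ℝ) (hS : 0 ≤ S)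
    (hT : 0 ≤ T) (hK : 0 ≤ K) (hV : 0 ≤ V) (hf : ∀ i, Continuous (f i)) (hg : ∀ i, Continuous (g i))
    (hR : Continuous R)
    (hop : ∀ i, ∀ R : ℝ → ℂ, Continuous R →
      ∫ y in (0:ℝ)..T, ‖∫ t in (0:ℝ)..S, (f i (t + y) - g i (t + y)) * R t‖ ^ 2 ≤
        K * ∫ t in (0:ℝ)..S, ‖R t‖ ^ 2)
    (hVf : ∀ i, ∀ t ∈ Icc 0 S, ∫ y in (0:ℝ)..T, ‖f i (t + y)‖ ^ 2 ≤ V)
    (hVg : ∀ i, ∀ t ∈ Icc 0 S, ∫ y in (0:ℝ)..T, ‖g i (t + y)‖ ^ 2 ≤ V) :
    ∫⁻ γ, ENNReal.ofReal (‖∫ t in (0:ℝ)..S, R t * (∏ i, f i (t + γ i) - ∏ i, g i (t + γ i))‖ ^ 2)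
      ∂(mP ι T) ≤ ENNReal.ofReal (4 ^ Fintype.card ι * K * V ^ (Fintype.card ι - 1) *
        ∫ t in (0:ℝ)..S, ‖R t‖ ^ 2) := by
  set n := Fintype.card ι with hn
  have e : ι ≃ Fin n := Fintype.equivFin ι
  have hcD : Continuous fun γ : ι → ℝ => ‖∫ t in (0:ℝ)..S,
      R t * (∏ i, f i (t + γ i) - ∏ i, g i (t + γ i))‖ ^ 2 := by
    apply Continuous.pow
    apply Continuous.norm
    apply intervalIntegral.continuous_parametric_intervalIntegral_of_continuous'
    unfold Function.uncurry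
    fun_prop
  rw [lint_equiv e T _ (mor hcD)]
  have h1 := rep_finH hS hT hK hV n (fun j => f (e.symm j)) (fun j => g (e.symm j))
    (fun j => hf _) (fun j => hg _) (fun j => hop _) (fun j => hVf _) (fun j => hVg _)
    R hR
  have e1 : ∀ (h : ι → ℝ → ℂ) (γ : Fin n → ℝ) (t : ℝ),
      ∏ j, h (e.symm j) (t + γ j) = ∏ i, h i (t + γ (e i)) := by
    intro h γ t
    rw [← Equiv.prod_comp e]
    simp
  simp only [e1] at h1
  refine h1.trans (ENNReal.ofReal_le_ofReal ?_)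
  exact mul_le_mul_of_nonneg_right (bb_le hK hV n)
    (intervalIntegral.integral_nonneg hS fun t _ => sq_nonneg _)

/-- the mean square of the product over a short interval of `t`, with a weight -/
theorem rep2R (ι : Type) [Fintype ι] (f : ι → ℝ → ℂ) (w : ℝ → ℂ) (T A B V : ℝ) (hT : 0 ≤ T)
    (hAB : A ≤ B) (hV : 0 ≤ V) (hf : ∀ i, Continuous (f i)) (hw : Continuous w)
    (hVf : ∀ i, ∀ t ∈ Icc A B, ∫ y in (0:ℝ)..T, ‖f i (t + y)‖ ^ 2 ≤ V) :
    ∫⁻ γ, ENNReal.ofReal ((∫ t in A..B, ‖w t * ∏ i, f i (t + γ i)‖) ^ 2) ∂(mP ι T) ≤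
      ENNReal.ofReal ((B - A) * (∫ t in A..B, ‖w t‖ ^ 2) * V ^ Fintype.card ι) := by
  set n := Fintype.card ι with hn
  have e : ι ≃ Fin n := Fintype.equivFin ι
  have hcD : Continuous fun γ : ι → ℝ => (∫ t in A..B, ‖w t * ∏ i, f i (t + γ i)‖) ^ 2 := by
    apply Continuous.pow
    apply intervalIntegral.continuous_parametric_intervalIntegral_of_continuous'
    unfold Function.uncurry
    fun_prop
  rw [lint_equiv e T _ (mor hcD)]
  have e1 : ∀ (γ : Fin n → ℝ) (t : ℝ),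
      ∏ i, f i (t + γ (e i)) = ∏ j, f (e.symm j) (t + γ j) := by
    intro γ t
    rw [← Equiv.prod_comp e]
    simp
  have hle : ∀ γ : Fin n → ℝ, ENNReal.ofReal ((∫ t in A..B, ‖w t * ∏ i, f i (t + γ (e i))‖) ^ 2) ≤
      ENNReal.ofReal (∫ t in A..B, ((B - A) * ‖w t‖ ^ 2) * ∏ j, ‖f (e.symm j) (t + γ j)‖ ^ 2) := by
    intro γ
    apply ENNReal.ofReal_le_ofReal
    simp_rw [e1]
    refine (cs hAB (by fun_prop)).trans (le_of_eq ?_)
    rw [← intervalIntegral.integral_const_mul]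
    apply intervalIntegral.integral_congr
    intro t _
    dsimp only
    rw [norm_mul, mul_pow, norm_prod, Finset.prod_pow]
    ring
  refine (lintegral_mono hle).trans ?_
  have hG : Continuous (Function.uncurry fun (t : ℝ) (γ : Fin n → ℝ) =>
      ∏ j, ‖f (e.symm j) (t + γ j)‖ ^ 2) := by
    unfold Function.uncurry
    fun_prop
  have hd : 0 ≤ B - A := by linarith
  refine (tonelli (mP (Fin n) T) (w := fun t => (B - A) * ‖w t‖ ^ 2) (by fun_prop)
    (fun _ => by positivity) hG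
    (fun t γ => Finset.prod_nonneg fun i _ => sq_nonneg _) hAB (pow_nonneg hV n)
    fun t ht => pt hT hV t n (fun j => f (e.symm j)) (fun j => hf _) fun j => hVf _ t
      ht).trans (le_of_eq ?_)
  congr 1
  rw [intervalIntegral.integral_const_mul]
  ring

end

end Pool.Agent.T2H54.TP
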