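import Pool.Agent.T2H54.TP.Def

set_option autoImplicit false

/-!
Project TP (helper54), MP_fa2474_nt: statements of the packages, with proofs. Library facts which
may be used freely: `Pool.Agent.Y587.GP.t_V : S_V`, `Pool.Agent.Y379.GP.t_SP : S_SP`,
`Pool.Agent.Y587.GP.Chi`, `Pool.Agent.W182.KO.XX_asymp` (one factor of the functional equation),
`Pool.Agent.TH406.GS.osc : Osc ..` (its derivative), and everything under `Pool.Agent.TH612.GS`,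
`Pool.Agent.T2H54.SB`. `FL2U`: `Pool.Agent.T2H54.SB` file `FL2U.lean`.
-/

namespace Pool.Agent.T2H54.TP

open Complex Filter Topology MeasureTheory Set
open Pool.Agent.TH612.CF Pool.Agent.TH612.GS Pool.Agent.T2H54.SB
open Pool.Agent.Y969.GP (V ht lam PS FR)

noncomputable section

/-! ### The twisted second moment with shifts `0`, `d` -/

/-- CHD. Both factors: with `w = c + iy`, `chi (1/2 + iu - w) = (u/2π)^w chi (1/2 + iu) (1 + O((1+|y|)^2/u))`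
(`chi s = XX (1-s)`; Stirling `Pool.Agent.W182.KO.XX_asymp`, `Mx`), the same for the conjugate at `u + d`
and `((u+d)/2π)^w = (u/2π)^w (1 + O((1+|y|)/u))`; if `u < K (1+|y|)^2` trivially by the upper bound
`XX_upper`. Port of `Pool.Agent.Y587.GP.Chi` (`caseA`, `caseB`), the case `d = 0`. -/
def S_CHD : Prop := ∀ d c : ℝ, 0 < c → c < 1 → ∃ (C : ℝ) (A : ℕ), 0 < C ∧ ∀ u y : ℝ, 16 + |d| ≤ u →
  ‖chi (1 / 2 + I * u - (c + I * y)) * chi (1 / 2 - I * ((u + d : ℝ) : ℂ) - (c + I * y)) *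
    cexp (-(2 * (c + I * y) * (Real.log (u / (2 * Real.pi)) : ℝ))) - Xd d u‖ ≤ C * (1 + |y|) ^ A / u

/-- WD: facts on the weight. `Wd d x = V x + L exp(-L²/4)/(d²√π)`, `L = log x`. The facts on `V` are in
`S_V` (`Pool.Agent.Y587.GP.t_V`). Mellin transform of the second part: for `σ > 0`
`(2π)⁻¹ ∫ exp(-(σ+iy) L) exp((σ+iy)²) (σ+iy) dy = L exp(-L²/4)/(4√π)` (Gaussian integral, Mathlib
`fourierIntegral_gaussian` / `integral_mul_cexp_neg_mul_sq`; complete the square: with `s = σ + iy`,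
`s² - sL = (s - L/2)² - L²/4`, shift of the line or direct Gaussian integrals with complex centre). -/
def S_WD : Prop := ∀ d : ℝ, d ≠ 0 →
  (∃ C : ℝ, 0 < C ∧ ∀ x : ℝ, 0 < x → |Wd d x| ≤ C ∧ DifferentiableAt ℝ (Wd d) x ∧
    |x * deriv (Wd d) x| ≤ C) ∧
  ContinuousOn (deriv (Wd d)) (Ioi 0) ∧
  (∀ A : ℝ, 0 ≤ A → ∃ C : ℝ, 0 < C ∧ ∀ x : ℝ, 0 < x → |Wd d x| ≤ C * x ^ (-A)) ∧
  ∀ σ x : ℝ, 0 < σ → 0 < x → ((Wd d x : ℝ) : ℂ) = ((2 * Real.pi : ℝ) : ℂ)⁻¹ *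
    ∫ y : ℝ, cexp (-((σ + I * y) * (Real.log x : ℝ))) * cexp ((σ + I * y) ^ 2) *
      (1 + 4 * (σ + I * y) ^ 2 / (d : ℂ) ^ 2) / (σ + I * y)

/-- AFA: the contour shift (hypothesis `S_CHD`). Port of `Pool.Agent.Y891.GP.AfeA`, `AfeB` (theorem
`partB`, the case `d = 0`). Let `q(w) = ((w+iu)²-1/4)((w-i(u+d))²-1/4)/(norm. at w=0)`,
`YY w = ζ(1/2+iu+w) ζ(1/2-i(u+d)+w) q(w) exp(w²)(1+4w²/d²)` (entire, written with `riemannZeta₁`).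
Cauchy: `2π Pd d u = ∫ YY(w)(u/2π)^w/w + ∫ YY(-w)(u/2π)^(-w)/w`, `w = c+it`. Functional equation:
`ζ(1/2+iu-w) ζ(1/2-i(u+d)-w) = chi(..) chi(..) ζ(1/2-iu+w) ζ(1/2+i(u+d)+w)`, `S_CHD`,
`|q(w)-1| ≤ C (1+|w|)^4/u`, and the dual integrand at `t` is the conjugate of `Fd d u c (-t)`. -/
def S_AFA : Prop := ∀ d c : ℝ, d ≠ 0 → 1 / 2 < c → c ≤ 3 / 4 → ∃ C : ℝ, 0 < C ∧ ∀ u : ℝ,
  16 + |d| ≤ u → ‖2 * Real.pi * Pd d u - (∫ t : ℝ, Fd d u c t) -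
    Xd d u * (starRingEnd ℂ) (∫ t : ℝ, Fd d u c t)‖ ≤ C * u ^ (c - 1)

/-- AFB: from the integral to the Dirichlet polynomial (hypothesis `S_WD`). Port of
`Pool.Agent.Y891.GP.AFE` (`Ft`, `Ft_eq`, `Ft_val`, `partC`, `partD`, the case `d = 0`): expand the two
zeta functions, integrate term by term with the Mellin formula of `S_WD`, and bound the terms with
`mn > X` by the decay of `Wd`. -/
def S_AFB : Prop := ∀ d ε : ℝ, d ≠ 0 → 0 < ε → ε ≤ 1 / 4 → ∃ C : ℝ, 0 < C ∧ ∀ (u : ℝ) (X : ℕ), 1 ≤ u →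
  u ^ (1 + ε) ≤ X → ‖(2 * Real.pi : ℂ)⁻¹ * (∫ t : ℝ, Fd d u (1 / 2 + ε) t) -
    ∑ p ∈ PS X, (cW d p u : ℂ) * (p.2 : ℂ) ^ (I * (d : ℂ)) * cexp (I * ((u * lam p : ℝ) : ℂ))‖ ≤
  C * u ^ (-(1 / 2) + ε)

/-- AFD: the approximate functional equation (hypotheses `S_AFA`, `S_AFB`; `c = 1/2 + ε`; conjugate
and reindex by `p ↦ (p.2, p.1)` for the second part; for `ε > 1/4` use `1/4`). -/
def S_AFD : Prop := ∀ d ε : ℝ, d ≠ 0 → 0 < ε → ∃ C : ℝ, 0 < C ∧ ∀ (u : ℝ) (X : ℕ), 16 + |d| ≤ u →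
  u ^ (1 + ε) ≤ X → ‖Pd d u - ∑ p ∈ PS X, (cW d p u : ℂ) * ((p.2 : ℂ) ^ (I * (d : ℂ)) +
    Xd d u * (p.1 : ℂ) ^ (-(I * (d : ℂ)))) * cexp (I * ((u * lam p : ℝ) : ℂ))‖ ≤
  C * u ^ (-(1 / 2) + ε)

/-- SPC: sum over the frequencies away from `lam q` (from `S_SP`). Group `p = g p'`, `p'` reduced
(`ht p = g² ht p'`, `lam p = lam p'`, `∑ 1/g ≤ 1 + log X`). For `p'` with `Y/2 < ht p' ≤ Y` (dyadic) put
`X' = max(Y, ht q)`: by the spacing `2X'|lam p' - lam q| ≥ 1`, so `1/|Δ| ≤ 2 mk (2X') Δ`, and the row sum of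
`S_SP` gives `∑ ≤ C Y^(-1/2) (X' + X')(1 + log X)`. -/
def S_SPC : Prop := ∃ C : ℝ, 0 < C ∧ ∀ (X : ℕ) (q : ℕ × ℕ), 1 ≤ X → q ∈ FR X →
  ∑ p ∈ (PS X).filter (fun p => p.1 * q.2 ≠ p.2 * q.1), (√(ht p))⁻¹ / |lam p - lam q| ≤
    C * (√(X : ℝ) + ht q) * (1 + Real.log X) ^ 3

/-- DG: the diagonal sums (hypothesis `S_WD`). `f(y) = Wd d (y²/x)`: `∑_{g≤G} g^(-s) f(g)`, `s = 1 - id`, up
to the tail `g > G` (decay of `Wd`, `A` large depending on `ε`) is `-∫ f'(y) (∑_{g≤y} g^(-s)) dy`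
(Abel summation), and `∑_{g≤y} g^(-s) = ζ(s) + y^(1-s)/(1-s) + O(1/y)` for `y ≥ 1` (for `y < 1` the left
side is `0` and the right side is `ζ(s) + y^(id)/(id) + O(1)`). `-∫ f' = 1`, `-∫ f'(y) y^(id) dy = 0`
(the Mellin transform `exp(s²)(1+4s²/d²)` of `-x Wd'` vanishes at `s = id/2`), and
`∫ |f'(y)| min(1,1/y) dy + ∫_{y<1} |f'| ≤ C x^(-1/2)`. ALTERNATIVE: by the Mellin formula of `S_WD` the sum over all `g`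
is `(2π)⁻¹ ∫ ζ(1 - id + 2w) x^w exp(w²)(1+4w²/d²)/w dt`, `w = 1/4 + it`; shift to `Re w = -1/2`: residue
`ζ(1-id)` at `w = 0`, the pole of `ζ` at `2w = id` is cancelled by the factor; the rest is `O(x^(-1/2))`. -/
def S_DG : Prop := ∀ d ε : ℝ, d ≠ 0 → 0 < ε → ∃ C : ℝ, 0 < C ∧ ∀ (x : ℝ) (G : ℕ), 1 ≤ x →
  x ^ (1 + ε) ≤ ((G : ℝ) + 1) ^ 2 →
  ‖∑ g ∈ Finset.Icc 1 G, (g : ℂ) ^ (-1 + I * (d : ℂ)) * (Wd d ((g : ℝ) ^ 2 / x) : ℂ) -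
    riemannZeta (1 - I * d)‖ ≤ C * x ^ (-(1 / 2) : ℝ)

/-- BV: integration by parts (hypothesis `S_WD`): `d/du Wd d (h/u) = O(1/u)`; `Xd d u = conj X(u) * X(u+d)`
with `X u = XX (1/2 + iu)`, `X' = i L X`, `|L u - log(u/2π)| ≤ 16/u` (`Pool.Agent.TH406.GS.osc`), so
`|Xd'| ≤ C/u`, `|Xd| = 1`. -/
def S_BV : Prop := ∀ d : ℝ, d ≠ 0 → ∃ C : ℝ, 0 < C ∧ ∀ A B h Θ : ℝ, 16 + |d| ≤ A → A ≤ B → 0 < h →
  Θ ≠ 0 →
  ‖∫ u in A..B, (Wd d (h / u) : ℂ) * cexp (I * ((u * Θ : ℝ) : ℂ))‖ ≤ C * (1 + Real.log B) / |Θ| ∧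
  ‖∫ u in A..B, (Wd d (h / u) : ℂ) * Xd d u * cexp (I * ((u * Θ : ℝ) : ℂ))‖ ≤
    C * (1 + Real.log B) / |Θ|

/-- TSM: the twisted second moment (hypotheses `S_WD`, `S_AFD`, `S_SPC`, `S_DG`, `S_BV`). Fix `ε = 1/20`,
`X = ⌈T^(1+ε)⌉`. Error of the AFE: `∫ u^(-1/2+ε)`. `q = (m, l)`, frequency `lam p - lam q`. Terms with
`p.1 q.2 ≠ p.2 q.1`: `S_BV`, `S_SPC`. The others are `p = (gm, gl)`, `g² l m ≤ X`: for `u ≥ 2π l m` use `S_DG` (for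
`d` and `-d`; `Wd (-d) = Wd d`) with `x = u/(2π l m)`, for smaller `u` the trivial bound `O(log X)`. -/
def S_TSM : Prop := ∀ d : ℝ, d ≠ 0 → ∃ C T₀ : ℝ, 0 < C ∧ 2 ≤ T₀ ∧ ∀ (T A B : ℝ) (l m : ℕ),
  T₀ ≤ T → 16 + |d| ≤ A → A ≤ B → B ≤ T → 1 ≤ l → 1 ≤ m → Nat.Coprime l m →
  (l : ℝ) * m ≤ T ^ (1 / 8 : ℝ) →
  ‖(∫ u in A..B, Pd d u * cexp (I * ((u * (Real.log m - Real.log l) : ℝ) : ℂ))) -
    (kap 0 d l m * riemannZeta (1 - I * d) * ((B - A : ℝ) : ℂ) +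
      kap d 0 l m * riemannZeta (1 + I * d) * ∫ u in A..B, Xd d u)‖ ≤ C * T ^ (3 / 4 : ℝ)

/-- TAB: general fixed pair (hypothesis `S_TSM`): `u = t + a`, `d = b - a`; the part of the range with
`u < 16 + |d|` is bounded; use `S_TSM` with `T + |a|`. -/
def S_TAB : Prop := ∀ a b : ℝ, a ≠ b → ∃ C T₀ : ℝ, 0 < C ∧ 2 ≤ T₀ ∧ ∀ (T S : ℝ) (l m : ℕ),
  T₀ ≤ T → 0 ≤ S → S ≤ T → 1 ≤ l → 1 ≤ m → Nat.Coprime l m → (l : ℝ) * m ≤ T ^ (1 / 8 : ℝ) →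
  ‖(∫ t in (0:ℝ)..S, Bab a b t * cexp (I * ((t * (Real.log m - Real.log l) : ℝ) : ℂ))) -
    (kap a b l m * riemannZeta (1 + I * ((a - b : ℝ) : ℂ)) * (S : ℂ) +
      kap b a l m * riemannZeta (1 - I * ((a - b : ℝ) : ℂ)) * ∫ t in (0:ℝ)..S, Xab a b t)‖ ≤
    C * T ^ (4 / 5 : ℝ)

/-- TN: with the short polynomials (hypothesis `S_TAB`): expand the product of the `PN` into
`∑ ν ∈ tup n N, wt ν * ch ν θ * (pr ν / pl ν)^(it)`, `pr ν / pl ν = m/l` in lowest terms, `l m ≤ N^(2n)`, `|wt| ≤ 1`. -/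
def S_TN : Prop := ∀ (n : ℕ) (a b : ℝ), a ≠ b → ∃ C T₀ : ℝ, 0 < C ∧ 2 ≤ T₀ ∧ ∀ (T S : ℝ) (N : ℕ)
  (θ : Fin n ⊕ Fin n → ℝ), T₀ ≤ T → 0 ≤ S → S ≤ T → 1 ≤ N → (N : ℝ) ^ (2 * n) ≤ T ^ (1 / 8 : ℝ) →
  ‖(∫ t in (0:ℝ)..S, Bab a b t * ∏ j : Fin n, PN N (t + θ (Sum.inl j)) *
      (starRingEnd ℂ) (PN N (t + θ (Sum.inr j)))) -
    (riemannZeta (1 + I * ((a - b : ℝ) : ℂ)) * RN a b N θ * (S : ℂ) +
      riemannZeta (1 - I * ((a - b : ℝ) : ℂ)) * RN b a N θ * ∫ t in (0:ℝ)..S, Xab a b t)‖ ≤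
    C * (N : ℝ) ^ (2 * n) * T ^ (4 / 5 : ℝ)

/-- Q4: fourth moment of zeta (known in the library, e.g. in `Pool.Agent.H147R3.PE.Four`,
`Pool.Agent.H153R4.Four`, `Pool.Agent.Y969.SM`, `Pool.Agent.TH263.GF.A2`; search for fourth moment;
`‖z (-u)‖ = ‖z u‖`). -/
def S_Q4 : Prop := ∀ ε : ℝ, 0 < ε → ∃ C T₀ : ℝ, 0 < C ∧ 2 ≤ T₀ ∧ ∀ T : ℝ, T₀ ≤ T →
  ∫ u in (-T)..T, ‖z u‖ ^ 4 ≤ C * T ^ (1 + ε)

/-! ### The diagonal terms -/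

/-- CTR: port of `S_CONT` (`Pool.Agent.TH757.GS.t_CONT`, 600 lines, the only change is that the factor
`ζ(1+s+i(a-b))` is missing). `Ar` is the Dirichlet convolution of `dr (gc a b θ)` with
`μ(g) g^(-1-i(a-b))`, so its series is that of `dr` divided by `ζ(1+s+i(a-b))`, i.e.
`FH * ∏ p ∈ PQ n, ζ(1+s+i(α_j-β_l))` for `Re s > 0`; `‖Ar m‖ ≤ D m^(-1+1/32)` say. -/
def S_CTR : Prop := ∀ (n : ℕ) (ψ : ℝ → ℝ), Cut ψ → ∃ (C : ℝ) (M₀ : ℕ), 0 < C ∧ 2 ≤ M₀ ∧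
  ∀ (M : ℕ) (a b : ℝ) (θ : Fin n ⊕ Fin n → ℝ), M₀ ≤ M →
  ‖SPr ψ M a b θ - GMr M a b θ 0‖ ≤ C * (M : ℝ) ^ (-(1 / 16) : ℝ) *
    (1 + ∫ y : ℝ, (1 + |y|) ^ (-(2 : ℝ)) * ‖GMr M a b θ (-(1 / 4) + I * (y / (Real.log M / 2)))‖)

open Classical in
/-- LCM: the reduced coefficients as sums over tuples. Let `A''(m)` be the right side. Then
`dr (gc a b θ) N = ∑_{g | N} g^(-1-i(a-b)) A''(N/g)`: a term of `dr` is `N = m₀ pl ν = n₀ pr ν`, i.e.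
`N = g lcm(pl ν, pr ν)`, `m₀ = g pr ν/gcd`, `n₀ = g pl ν/gcd`, and `wt ν (l m)^(-1/2) = 1/lcm`. Möbius inversion
(`g ↦ g^(-1-i(a-b))` is completely multiplicative). -/
def S_LCM : Prop := ∀ (n : ℕ) (a b : ℝ) (θ : Fin n ⊕ Fin n → ℝ) (M m : ℕ), 1 ≤ m → m ≤ M →
  Ar a b θ m = ∑ ν ∈ (tup n M).filter (fun ν => Nat.lcm (pl ν) (pr ν) = m), cf a b ν * ch ν θ

/-- SSR: from the sharp to the smooth sum (hypothesis `S_LCM`). By `S_LCM` the difference is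
`∑ ν ∈ tup n N, cf a b ν (1 - 1[lcm ≤ N] ψ(log lcm / (log N / 2))) ch ν θ`; the coefficient is `0` unless
`lcm > N^(1/4)` and `|cf| = 1/lcm`. `S_FL2` on a translated box (`Pool.Agent.T2H54.SB` file `FL2U.lean`)
and `#{ν : lcm = m} ≤ d(m)^(2n) ≤ C m^(1/2)`. Compare `Pool.Agent.T2H54.SB` file `SSU.lean`,
`Pool.Agent.TH367.GS.SS`. -/
def S_SSR : Prop := ∀ (n : ℕ) (ψ : ℝ → ℝ), Cut ψ → ∃ C : ℝ, 0 < C ∧ ∀ (a b H : ℝ) (N : ℕ)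
  (U : Fin n ⊕ Fin n → ℝ), 2 ≤ N → 2 * (N : ℝ) ^ (4 * n + 2) ≤ H →
  ∫⁻ θ, ENNReal.ofReal (‖RN a b N (U + θ) - SPr ψ N a b (U + θ)‖ ^ 2) ∂(mP (Fin n ⊕ Fin n) H) ≤
    ENNReal.ofReal (C * H ^ (2 * n) * (N : ℝ) ^ (-(1 / 8) : ℝ))

/-- GLR: mean square of `GMr` to the left. Port of `S_GL2` (`Pool.Agent.TH753.GS.GL2`, and the translated
box version inside `Pool.Agent.T2H54.SB` file `A4U.lean`). `FH` is bounded there; expand the product over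
`p = (j,l) ∈ PQ n` of `zN M`: tuples `(n_p)`, with characters of `θ` only through the row products
`R_j = ∏_{l ≥ 0} n_{jl}` (`j ≥ 1`) and column products `C_l = ∏_{j ≥ 0} n_{jl}` (`l ≥ 1`). Diagonal: with `x = ∏ R`, `y = ∏ C`
all `n_p` divide `x y` and `∏ n_p ≥ lcm(x,y)`, so the coefficient of `(R,C)` is `≤ d(xy)^(K) lcm(x,y)^(-3/4)` and
`∑ lcm(x,y)^(-3/2+1/8) < ∞` (`#{(R,C) : lcm = L} ≤ d(L)^K`). -/
def S_GLR : Prop := ∀ n : ℕ, ∃ C : ℝ, 0 < C ∧ ∀ (a b H : ℝ) (M : ℕ) (v : ℝ) (U : Fin n ⊕ Fin n → ℝ),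
  1 ≤ M → 2 * (M : ℝ) ^ (3 * (n + 1) ^ 2) ≤ H → 1 ≤ H →
  ∫⁻ θ, ENNReal.ofReal (‖GMr M a b (U + θ) (-(1 / 4) + I * v)‖ ^ 2) ∂(mP (Fin n ⊕ Fin n) H) ≤
    ENNReal.ofReal (C * H ^ (2 * n))

/-- A4R: hypotheses `S_CTR`, `S_GLR`; same proof as `Pool.Agent.TH347.GS.A4`, `Pool.Agent.T2H54.SB` file
`A4U.lean` (Cauchy-Schwarz in `y`, Tonelli). -/
def S_A4R : Prop := ∀ (n : ℕ) (ψ : ℝ → ℝ), Cut ψ → ∃ (C : ℝ) (M₀ : ℕ), 0 < C ∧ 2 ≤ M₀ ∧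
  ∀ (a b H : ℝ) (M : ℕ) (U : Fin n ⊕ Fin n → ℝ), M₀ ≤ M → 1 ≤ H → 2 * (M : ℝ) ^ (3 * (n + 1) ^ 2) ≤ H →
  ∫⁻ θ, ENNReal.ofReal (‖SPr ψ M a b (U + θ) - GMr M a b (U + θ) 0‖ ^ 2) ∂(mP (Fin n ⊕ Fin n) H) ≤
    ENNReal.ofReal (C * H ^ (2 * n) * (M : ℝ) ^ (-(1 / 8) : ℝ))

/-- ZMR: port of `S_ZMU` (`Pool.Agent.T2H54.SB` file `ZMU.lean`): the factors `p ∈ PQ n`, where
`|α_j - β_l| ≥ H^(1/2)` on `SepF`; for `j = 0` or `l = 0` one of the two is the fixed number `a` or `b` (then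
`|v| ≤ T + |a| + |b| ≤ 2T` for `T ≥ T₀(a,b)`), the window integral is over the other coordinate. -/
def S_ZMR : Prop := ∀ (n : ℕ) (a b : ℝ), ∃ (C T₀ : ℝ) (B : ℕ), 0 < C ∧ 3 ≤ T₀ ∧ ∀ (T H : ℝ) (M : ℕ)
  (U : Fin n ⊕ Fin n → ℝ), T₀ ≤ T → 3 ≤ H → (∀ i, 0 ≤ U i ∧ U i + H ≤ T) →
  1 ≤ M → (M : ℝ) ≤ H ^ (1 / 2 : ℝ) →
  ∫⁻ θ in SepF a b H U, ENNReal.ofReal (‖GMr M a b (U + θ) 0 - zrr a b (U + θ)‖ ^ 2)
    ∂(mP (Fin n ⊕ Fin n) H) ≤ ENNReal.ofReal (C * Real.log T ^ B * H ^ (2 * n) / M)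

/-- NSF: port of `Pool.Agent.T2H54.SB` file `NSU.lean` -/
def S_NSF : Prop := ∀ (n : ℕ) (a b H : ℝ) (U : Fin n ⊕ Fin n → ℝ), 1 ≤ H →
  mP (Fin n ⊕ Fin n) H (SepF a b H U)ᶜ ≤ ENNReal.ofReal (16 * (n + 1) ^ 2 * H ^ (2 * n - 1 / 2 : ℝ))

/-- QD: the terms of the recipe. With `sw = swap (inl 0) (inr 0)` the complement of `Oth n` is the
disjoint union of `Pk (n+1)` (no swap) and `{π | sw * π ∈ Pk (n+1)}`, both of cardinality `((n+1)!)²`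
(`card_Pk`); on the first `GG = 1`, `zp = zr` (`Pool.Agent.TH612.GS.t_INV`); on the second
`GG = Xab a b t`, and `zp (gc a b θ) π = zp (gc b a θ) (sw * π) = zr (gc b a θ)` since `gc a b θ ∘ sw = gc b a θ`. -/
def S_QD : Prop := ∀ (n : ℕ) (a b t : ℝ) (θ : Fin n ⊕ Fin n → ℝ),
  Qs t (fun i => (gc a b θ i : ℂ)) = ((Nat.factorial (n + 1) : ℂ) ^ 2) *
    (zr (gc a b θ) + Xab a b t * zr (gc b a θ)) +
    ∑ π ∈ Oth n, GG t (fun i => (gc a b θ i : ℂ)) π * zp (gc a b θ) π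

/-- SWF: a permutation which moves a random shift. For `π ∈ Oth n` let `i` be moved. If `i = inl j` there is a
factor `chi (1/2 + i(t + U i + θ i))`, if `i = inr j` its conjugate type `chi (1/2 - i(t + U i + θ i))`; the other
factors do not depend on `θ i` and have absolute value `1`. Integrate over `θ i ∈ [0,H]` first, extend
to `U i + θ i ∈ [0,T]`: `Pool.Agent.T2H54.SB.CHIL.pCHIL` (`≤ 688 S T log² T`). Compare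
`Pool.Agent.TH805.GS.SW`, and how `Pool.Agent.T2H54.SB` uses `pCHIL`. -/
def S_SWF : Prop := ∀ n : ℕ, ∃ C T₀ : ℝ, 0 < C ∧ 16 ≤ T₀ ∧ ∀ (a b T H S : ℝ) (U : Fin n ⊕ Fin n → ℝ)
  (π : Equiv.Perm (Fin (n + 1) ⊕ Fin (n + 1))), T₀ ≤ T → 1 ≤ H → (∀ i, 0 ≤ U i ∧ U i + H ≤ T) →
  0 ≤ S → S ≤ T → π ∈ Oth n →
  ∫⁻ θ, ENNReal.ofReal (‖IG S (gc a b (U + θ)) π‖ ^ 2) ∂(mP (Fin n ⊕ Fin n) H) ≤
    ENNReal.ofReal (C * T ^ 2 * Real.log T ^ 2 * H ^ (2 * n - 1 : ℝ))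

end

end Pool.Agent.T2H54.TP
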