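import Pool.Agent.T2H54.TP.All

set_option autoImplicit false

/-! Project TP: the exceptional set in the original coordinates. -/

namespace Pool.Agent.T2H54.TP

open Complex Filter Topology MeasureTheory Set
open Pool.Agent.TH612.CF Pool.Agent.TH612.GS Pool.Agent.T2H54.SB
open Pool.Agent.W182.KO hiding ee SS_summable DD

noncomputable section

variable {n : ℕ}

lemma vol_boxF {a b H T lam : ℝ} (U : Fin n ⊕ Fin n → ℝ) :
    volume {θ : Fin n ⊕ Fin n → ℝ | (∀ i, U i ≤ θ i ∧ θ i ≤ U i + H) ∧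
      ∃ S : ℝ, 0 ≤ S ∧ S ≤ T ∧ lam < ‖DD S (gc a b θ)‖} =
    mP (Fin n ⊕ Fin n) H (BadF a b H T lam U) := by
  rw [← vol_cube (T := H) (E := BadF a b H T lam U) fun γ hγ => hγ.1]
  rw [← measure_preimage_add volume (-U) (BadF a b H T lam U)]
  congr 1
  ext γ
  simp only [BadF, mem_ofPred_eq, mem_preimage]
  have e : U + (-U + γ) = γ := by
    funext i
    simp only [Pi.add_apply, Pi.neg_apply]
    ring
  rw [e]
  have e2 : (∀ i, U i ≤ γ i ∧ γ i ≤ U i + H) ↔ ∀ i, 0 ≤ (-U + γ) i ∧ (-U + γ) i ≤ H := by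
    refine forall_congr' fun i => ?_
    simp only [Pi.add_apply, Pi.neg_apply]
    constructor
    · rintro ⟨h1, h2⟩
      exact ⟨by linarith, by linarith⟩
    · rintro ⟨h1, h2⟩
      exact ⟨by linarith, by linarith⟩
  rw [e2]

end

end Pool.Agent.T2H54.TP
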