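import Pool.Agent.T2H54.TP.Rp
import Pool.Agent.T2H54.SB.ZL

set_option autoImplicit false

/-! Project TP: the product of zeta values against the product of the short polynomials, with the
fixed pair. -/

namespace Pool.Agent.T2H54.TP

open Complex Filter Topology MeasureTheory Set
open Pool.Agent.TH612.CF Pool.Agent.TH612.GS Pool.Agent.T2H54.SB

noncomputable section

variable {n : ℕ}

/-- the difference of the integrals -/
def A1f (a b : ℝ) (N : ℕ) (S : ℝ) (θ : Fin n ⊕ Fin n → ℝ) : ℂ :=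
  (∫ t in (0:ℝ)..S, Bab a b t * ∏ j : Fin n, z (t + θ (Sum.inl j)) *
      (starRingEnd ℂ) (z (t + θ (Sum.inr j)))) -
    ∫ t in (0:ℝ)..S, Bab a b t * ∏ j : Fin n, PN N (t + θ (Sum.inl j)) *
      (starRingEnd ℂ) (PN N (t + θ (Sum.inr j)))

lemma Bab_cont (a b : ℝ) : Continuous (Bab a b) := by
  unfold Bab
  exact (z_cont.comp (by fun_prop)).mul (Complex.continuous_conj.comp (z_cont.comp (by fun_prop)))

theorem z1F (n : ℕ) : ∃ C T₀ : ℝ, 0 < C ∧ 3 ≤ T₀ ∧ ∀ (a b T H S V : ℝ) (N : ℕ)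
    (U : Fin n ⊕ Fin n → ℝ), T₀ ≤ T → 1 ≤ H → (∀ i, 0 ≤ U i ∧ U i + H ≤ T) →
    0 ≤ S → S ≤ T → 1 ≤ N → (N:ℝ) ≤ T → 0 ≤ V →
    (∀ v, 0 ≤ v → v ≤ 2 * T → ∫ y in (0:ℝ)..H, ‖z (v + y)‖ ^ 2 ≤ V) →
    (∀ v, 0 ≤ v → v ≤ 2 * T → ∫ y in (0:ℝ)..H, ‖PN N (v + y)‖ ^ 2 ≤ V) →
    ∫⁻ θ, ENNReal.ofReal (‖A1f a b N S (U + θ)‖ ^ 2) ∂(mP (Fin n ⊕ Fin n) H) ≤
      ENNReal.ofReal (C * Real.log T ^ 4 * (T * (1 + H / N)) * V ^ (2 * n - 1) *
        ∫ t in (0:ℝ)..S, ‖Bab a b t‖ ^ 2) := by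
  obtain ⟨C1, T1, hC1, hT1, h1⟩ := pOPU
  refine ⟨4 ^ (2 * n) * C1, T1, by positivity, hT1, fun a b T H S V N U hT hH hU hS0 hSL
    hN hNT hV0 hVz hVP => ?_⟩
  have hT3 : 3 ≤ T := hT1.trans hT
  have hT0 : 0 < T := by linarith
  have hH0 : 0 ≤ H := by linarith
  have hN0 : (0:ℝ) < N := by exact_mod_cast hN
  have hlog : 0 ≤ Real.log T := Real.log_nonneg (by linarith)
  set K : ℝ := C1 * Real.log T ^ 4 * (T * (1 + H / N)) with hK
  have hK0 : 0 ≤ K := by positivity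
  have e0 : ∀ u t y : ℝ, u + (t + y) = t + (u + y) := fun u t y => by ring
  have key := repR (Fin n ⊕ Fin n) (fun i v => fz n z i (U i + v)) (fun i v => fz n (PN N) i (U i + v))
    (Bab a b) H S K V hS0 hH0 hK0 hV0 (fun i => z_shift_cont (fz_cont z_cont i) _)
    (fun i => z_shift_cont (fz_cont (PN_cont N) i) _) (Bab_cont a b) ?_ ?_ ?_
  · have e1 : ∀ γ : Fin n ⊕ Fin n → ℝ,
        (∫ t in (0:ℝ)..S, Bab a b t * (∏ i, fz n z i (U i + (t + γ i)) -
          ∏ i, fz n (PN N) i (U i + (t + γ i)))) = A1f a b N S (U + γ) := by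
      intro γ
      have e2 : ∀ (f : ℝ → ℂ) (t : ℝ), ∏ i, fz n f i (U i + (t + γ i)) =
          ∏ j : Fin n, f (t + (U + γ) (Sum.inl j)) *
            (starRingEnd ℂ) (f (t + (U + γ) (Sum.inr j))) := by
        intro f t
        rw [← fz_prod f t (U + γ)]
        refine Finset.prod_congr rfl fun i _ => ?_
        rw [e0, Pi.add_apply]
      unfold A1f
      simp only [mul_sub]
      rw [intervalIntegral.integral_sub]
      · simp only [e2]
      · refine Continuous.intervalIntegrable ?_ _ _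
        exact (Bab_cont a b).mul
          (continuous_finsetProd _ fun i _ => (fz_cont z_cont i).comp (by fun_prop))
      · refine Continuous.intervalIntegrable ?_ _ _
        exact (Bab_cont a b).mul
          (continuous_finsetProd _ fun i _ => (fz_cont (PN_cont N) i).comp (by fun_prop))
    simp only [e1] at key
    refine key.trans (ENNReal.ofReal_le_ofReal ?_)
    have hc : Fintype.card (Fin n ⊕ Fin n) = 2 * n := by
      rw [Fintype.card_sum, Fintype.card_fin]; ring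
    rw [hc, hK]
    apply le_of_eq
    ring
  · intro i R hR
    obtain ⟨hU0, hUT⟩ := hU i
    simp only [e0]
    cases i with
    | inl j =>
      have := h1 T H (U (Sum.inl j)) S N R hT hH hU0 hUT hS0 hSL hN hNT hR
      simpa [fz] using this
    | inr j =>
      have := h1 T H (U (Sum.inr j)) S N (fun t => (starRingEnd ℂ) (R t)) hT hH hU0 hUT
        hS0 hSL hN hNT (Complex.continuous_conj.comp hR)
      simp only [Complex.norm_conj] at this
      refine le_trans (le_of_eq ?_) this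
      refine intervalIntegral.integral_congr fun y _ => ?_
      have e3 : (∫ t in (0:ℝ)..S, (fz n z (Sum.inr j) (t + (U (Sum.inr j) + y)) -
          fz n (PN N) (Sum.inr j) (t + (U (Sum.inr j) + y))) * R t) =
          (starRingEnd ℂ) (∫ t in (0:ℝ)..S, (z (t + (U (Sum.inr j) + y)) -
            PN N (t + (U (Sum.inr j) + y))) * (starRingEnd ℂ) (R t)) := by
        rw [← int_conj]
        refine intervalIntegral.integral_congr fun t _ => ?_
        simp only [fz, Sum.elim_inr, map_mul, map_sub, Complex.conj_conj]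
      change ‖_‖ ^ 2 = ‖_‖ ^ 2
      rw [e3, Complex.norm_conj]
  · intro i t ht
    obtain ⟨hU0, hUT⟩ := hU i
    simp only [fz_norm, ← add_assoc]
    exact hVz _ (by linarith [ht.1]) (by linarith [ht.2])
  · intro i t ht
    obtain ⟨hU0, hUT⟩ := hU i
    simp only [fz_norm, ← add_assoc]
    exact hVP _ (by linarith [ht.1]) (by linarith [ht.2])

/-- mean square over a short interval of `t` -/
theorem z2F (n : ℕ) (a b T H A B V : ℝ) (U : Fin n ⊕ Fin n → ℝ) (hH : 0 ≤ H)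
    (hU : ∀ i, 0 ≤ U i ∧ U i + H ≤ T) (hA : 0 ≤ A) (hAB : A ≤ B) (hBT : B ≤ T) (hV0 : 0 ≤ V)
    (hVz : ∀ v, 0 ≤ v → v ≤ 2 * T → ∫ y in (0:ℝ)..H, ‖z (v + y)‖ ^ 2 ≤ V) :
    ∫⁻ θ, ENNReal.ofReal ((∫ t in A..B, ‖Bab a b t * ∏ j : Fin n, z (t + (U + θ) (Sum.inl j)) *
      (starRingEnd ℂ) (z (t + (U + θ) (Sum.inr j)))‖) ^ 2) ∂(mP (Fin n ⊕ Fin n) H) ≤
    ENNReal.ofReal ((B - A) * (∫ t in A..B, ‖Bab a b t‖ ^ 2) * V ^ (2 * n)) := by
  have e0 : ∀ u t y : ℝ, u + (t + y) = t + (u + y) := fun u t y => by ring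
  have key := rep2R (Fin n ⊕ Fin n) (fun i v => fz n z i (U i + v)) (Bab a b) H A B V hH hAB hV0
    (fun i => z_shift_cont (fz_cont z_cont i) _) (Bab_cont a b) (fun i t ht => ?_)
  · have e2 : ∀ (γ : Fin n ⊕ Fin n → ℝ) (t : ℝ), ∏ i, fz n z i (U i + (t + γ i)) =
        ∏ j : Fin n, z (t + (U + γ) (Sum.inl j)) *
          (starRingEnd ℂ) (z (t + (U + γ) (Sum.inr j))) := by
      intro γ t
      rw [← fz_prod z t (U + γ)]
      refine Finset.prod_congr rfl fun i _ => ?_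
      rw [e0, Pi.add_apply]
    simp only [e2] at key
    have hc : Fintype.card (Fin n ⊕ Fin n) = 2 * n := by
      rw [Fintype.card_sum, Fintype.card_fin]; ring
    rwa [hc] at key
  · obtain ⟨hU0, hUT⟩ := hU i
    simp only [fz_norm, ← add_assoc]
    exact hVz _ (by linarith [ht.1]) (by linarith [ht.2])

end

end Pool.Agent.T2H54.TP
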